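import Pool.Agent.MP_dfae13_nt.T.Defs
import Pool.Agent.MP_ae0bd0_nt.CM.B1

set_option autoImplicit false

open CM27
open scoped Classical

namespace CMT

/-! ## [CMT-B2] points of `y² + y = x³ + e` over the field with four elements (file TB2.lean) -/

theorem tb2_two (k : Type) [Field k] [Finite k] (hk : Nat.card k = 4) : (2 : k) = 0 := by
  have : Fintype k := Fintype.ofFinite k
  have h4 : ((Fintype.card k : ℕ) : k) = 0 := FiniteField.cast_card_eq_zero k
  rw [← Nat.card_eq_fintype_card, hk] at h4
  have h : (2 : k) * 2 = 0 := by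
    have h5 : ((4 : ℕ) : k) = 2 * 2 := by norm_num
    rw [← h5]; exact h4
  rcases mul_eq_zero.1 h with h | h <;> exact h

theorem tb2_cube (k : Type) [Field k] [Finite k] (hk : Nat.card k = 4) (x : k) (hx : x ≠ 0) :
    x ^ 3 = 1 := by
  have : Fintype k := Fintype.ofFinite k
  have h := FiniteField.pow_card_sub_one_eq_one x hx
  rw [← Nat.card_eq_fintype_card, hk] at h
  exact h

theorem tb2_exists (k : Type) [Field k] [Finite k] (hk : Nat.card k = 4) :
    ∃ s : k, s ^ 2 + s = 1 := by
  have : Fintype k := Fintype.ofFinite k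
  have hc : Fintype.card k = 4 := by rw [← Nat.card_eq_fintype_card, hk]
  obtain ⟨s, hs⟩ : ∃ s : k, s ∉ ({0, 1} : Finset k) := by
    by_contra hcon
    push Not at hcon
    have h1 : (Finset.univ : Finset k) ⊆ {0, 1} := fun x _ => hcon x
    have h2 := Finset.card_le_card h1
    have h3 : ({0, 1} : Finset k).card ≤ 2 := Finset.card_le_two
    rw [Finset.card_univ, hc] at h2
    omega
  simp only [Finset.mem_insert, Finset.mem_singleton, not_or] at hs
  refine ⟨s, ?_⟩
  have h2 := tb2_two k hk
  have h3 := tb2_cube k hk s hs.1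
  have h4 : (s - 1) * (s ^ 2 + s + 1) = 0 := by linear_combination h3
  rcases mul_eq_zero.1 h4 with h | h
  · exact absurd (sub_eq_zero.1 h) hs.2
  · linear_combination h - h2

theorem tb2_nonsingular_iff (k : Type) [Field k] (h2 : (2 : k) = 0) (e x y : k) :
    (Wt e).toAffine.Nonsingular x y ↔ y ^ 2 + y = x ^ 3 + e := by
  have hΔ : (Wt e).toAffine.Δ ≠ 0 := by
    have h1 : (Wt e).Δ = 1 := by
      simp only [Wt, WeierstrassCurve.Δ, WeierstrassCurve.b₂, WeierstrassCurve.b₄,
        WeierstrassCurve.b₆, WeierstrassCurve.b₈]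
      linear_combination (-14 - 108 * e - 216 * e ^ 2) * h2
    rw [h1]
    exact one_ne_zero
  rw [← WeierstrassCurve.Affine.equation_iff_nonsingular_of_Δ_ne_zero hΔ,
    WeierstrassCurve.Affine.equation_iff]
  simp [Wt]

theorem tb2_solvable (k : Type) [Field k] [Finite k] (hk : Nat.card k = 4) (e x : k) :
    (∃ y : k, y ^ 2 + y = x ^ 3 + e) ↔ ∃ t : k, t ^ 2 + t = e := by
  have h2 := tb2_two k hk
  by_cases hx : x = 0
  · subst hx
    simp
  · rw [tb2_cube k hk x hx]
    obtain ⟨s, hs⟩ := tb2_exists k hk
    constructor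
    · rintro ⟨y, hy⟩
      exact ⟨y + s, by linear_combination hy + hs + (y * s + 1) * h2⟩
    · rintro ⟨y, hy⟩
      exact ⟨y + s, by linear_combination hy + hs + y * s * h2⟩

theorem card_four (k : Type) [Field k] [Finite k] (hk : Nat.card k = 4) (e : k) :
    Nat.card (Wt e).toAffine.Point = if ∃ t : k, t ^ 2 + t = e then 9 else 1 := by
  have h2 := tb2_two k hk
  have h1 : Nat.card (Wt e).toAffine.Point =
      Nat.card {xy : k × k // (Wt e).toAffine.Nonsingular xy.1 xy.2} + 1 := by
    rw [Nat.card_congr (WeierstrassCurve.Affine.nonsingularPointEquiv (Wt e).toAffine)]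
    exact Finite.card_option
  rw [h1]
  by_cases h : ∃ t : k, t ^ 2 + t = e
  · rw [if_pos h]
    have hy : ∀ x : k, ∃ y : k, y ^ 2 + y = x ^ 3 + e := fun x => (tb2_solvable k hk e x).2 h
    choose y0 hy0 using hy
    let f : k × Bool → {xy : k × k // (Wt e).toAffine.Nonsingular xy.1 xy.2} := fun p =>
      ⟨(p.1, y0 p.1 + if p.2 then 1 else 0), by
        rw [tb2_nonsingular_iff k h2]
        have := hy0 p.1
        cases p.2
        · simpa using this
        · simp only [if_true]
          linear_combination this + (y0 p.1 + 1) * h2⟩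
    have hf : Function.Bijective f := by
      constructor
      · rintro ⟨x, b⟩ ⟨x', b'⟩ hxx
        have h3 := congrArg Subtype.val hxx
        simp only [f, Prod.mk.injEq] at h3
        obtain ⟨h4, h5⟩ := h3
        subst h4
        have h6 := add_left_cancel h5
        cases b <;> cases b' <;> simp at h6 ⊢
      · rintro ⟨⟨x, y⟩, hxy⟩
        have hxy' := hxy
        rw [tb2_nonsingular_iff k h2] at hxy'
        simp only at hxy'
        have h7 : (y - y0 x) * (y - y0 x - 1) = 0 := by
          linear_combination hxy' - hy0 x + (y0 x - y + y0 x ^ 2 - y * y0 x) * h2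
        rcases mul_eq_zero.1 h7 with h8 | h8
        · refine ⟨(x, false), ?_⟩
          apply Subtype.ext
          simp only [f, Prod.mk.injEq, true_and]
          simp
          linear_combination -h8
        · refine ⟨(x, true), ?_⟩
          apply Subtype.ext
          simp only [f, Prod.mk.injEq, true_and]
          simp
          linear_combination -h8
    rw [← Nat.card_congr (Equiv.ofBijective f hf), Nat.card_prod, hk]
    simp
  · rw [if_neg h]
    have : IsEmpty {xy : k × k // (Wt e).toAffine.Nonsingular xy.1 xy.2} := by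
      refine ⟨fun p => h ?_⟩
      have := p.2
      rw [tb2_nonsingular_iff k h2] at this
      exact (tb2_solvable k hk e p.1.1).1 ⟨_, this⟩
    rw [Nat.card_of_isEmpty]

end CMT
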