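import Pool.Agent.MP_dfae13_nt.T.Defs
import Pool.Agent.MP_ae0bd0_nt.CM.C3

set_option autoImplicit false

open Polynomial NumberField IsDedekindDomain
open CM27

namespace CMT

/-! ## [CMT-C3] completions, general elements (file TC3.lean; generalise CM.C3) -/

theorem isUnit_completion' (K : Type) [Field K] [NumberField K] (v : HeightOneSpectrum (𝓞 K))
    (x : 𝓞 K) (h : x ∉ v.asIdeal) :
    IsUnit (algebraMap (𝓞 K) (v.adicCompletionIntegers K) x) := by
  rw [HeightOneSpectrum.adicCompletionIntegers.isUnit_iff_valued_eq_one, c3_val]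
  exact le_antisymm (v.intValuation_le_one _)
    (not_lt.1 fun h1 => h ((v.intValuation_lt_one_iff_mem _).1 h1))

theorem irreducible_completion' (K : Type) [Field K] [NumberField K]
    (v : HeightOneSpectrum (𝓞 K)) (x : 𝓞 K) (h : x ∈ v.asIdeal) (h2 : x ∉ v.asIdeal ^ 2) :
    Irreducible (algebraMap (𝓞 K) (v.adicCompletionIntegers K) x) := by
  have hv : Valued.v ((algebraMap (𝓞 K) (v.adicCompletionIntegers K) x :
      v.adicCompletionIntegers K) : v.adicCompletion K) =
      v.intValuation x := c3_val K v x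
  have h3 : ¬ v.intValuation x ≤ WithZero.exp (-((2 : ℕ) : ℤ)) := by
    rw [v.intValuation_le_pow_iff_mem]; exact h2
  have hlt : ∀ x : WithZero (Multiplicative ℤ), x < 1 → x ≤ WithZero.exp (-1 : ℤ) := by
    intro x hx
    rcases eq_or_ne x 0 with h0 | h0
    · rw [h0]; exact zero_le
    · rw [← WithZero.exp_zero] at hx
      rw [← WithZero.log_le_iff_le_exp h0]
      have h1 := (WithZero.log_lt_iff_lt_exp h0).2 hx
      omega
  refine ⟨?_, ?_⟩
  · rw [HeightOneSpectrum.adicCompletionIntegers.isUnit_iff_valued_eq_one, hv]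
    exact ((v.intValuation_lt_one_iff_mem _).2 h).ne
  · intro a b hab
    by_contra hcon
    push Not at hcon
    obtain ⟨ha, hb⟩ := hcon
    rw [← mem_nonunits_iff, ← IsLocalRing.mem_maximalIdeal, c3_mem_max] at ha hb
    apply h3
    rw [← hv, hab]
    have h4 : Valued.v ((a * b : v.adicCompletionIntegers K) : v.adicCompletion K) =
        Valued.v (a : v.adicCompletion K) * Valued.v (b : v.adicCompletion K) := by
      rw [← map_mul]; rfl
    rw [h4]
    have h5 : WithZero.exp (-((2 : ℕ) : ℤ)) = WithZero.exp (-1 : ℤ) * WithZero.exp (-1 : ℤ) := by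
      rw [← WithZero.exp_add]; rfl
    rw [h5]
    exact mul_le_mul' (hlt _ ha) (hlt _ hb)

/-- the residue map of the completion restricted to `𝓞 K` is surjective with kernel `v` -/
theorem residue_completion (K : Type) [Field K] [NumberField K] (v : HeightOneSpectrum (𝓞 K)) :
    Function.Surjective ((IsLocalRing.residue (v.adicCompletionIntegers K)).comp
      (algebraMap (𝓞 K) (v.adicCompletionIntegers K))) ∧
    RingHom.ker ((IsLocalRing.residue (v.adicCompletionIntegers K)).comp
      (algebraMap (𝓞 K) (v.adicCompletionIntegers K))) = v.asIdeal := by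
  refine ⟨?_, ?_⟩
  · intro y
    obtain ⟨x, rfl⟩ := IsLocalRing.residue_surjective y
    obtain ⟨r, hr⟩ := c3_approx K v x
    refine ⟨r, ?_⟩
    rw [RingHom.comp_apply, eq_comm, ← sub_eq_zero, ← map_sub, IsLocalRing.residue_eq_zero_iff,
      c3_mem_max]
    exact hr
  · ext r
    rw [RingHom.mem_ker, RingHom.comp_apply, IsLocalRing.residue_eq_zero_iff, c3_mem_max, c3_val,
      HeightOneSpectrum.intValuation_lt_one_iff_mem]

end CMT
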