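import Pool.Agent.MP_dfae13_nt.T.Defs
import Pool.Agent.MP_ae0bd0_nt.CM.A3

set_option autoImplicit false

open NumberField IsDedekindDomain
open CM27

namespace CMT

/-! ## [CMT-A2] the finite places of `ℚ(ω)` (file TA2.lean) -/

theorem ta2_norm (b : Eis) : Algebra.norm ℤ b = b.norm := by
  rw [Algebra.norm_apply, ← QuadraticAlgebra.det_toLinearMap_eq_norm]
  congr 1

theorem ta2_card (K : Type) [Field K] [NumberField K] (φ : Eis ≃+* 𝓞 K) (b : Eis) :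
    (Nat.card (𝓞 K ⧸ Ideal.span {φ b}) : ℤ) = b.norm := by
  have e : Eis ≃ₐ[ℤ] 𝓞 K := AlgEquiv.ofRingEquiv (f := φ) (fun n => by simp)
  have h1 : Algebra.norm ℤ (φ b) = b.norm := by
    rw [← ta2_norm]
    exact Algebra.norm_eq_of_algEquiv (AlgEquiv.ofRingEquiv (R := ℤ) (f := φ) (fun n => by simp)) b
  have h2 := Ideal.absNorm_span_singleton (φ b)
  rw [h1, Ideal.absNorm_apply, Submodule.cardQuot_apply] at h2
  rw [h2]
  exact Int.natAbs_of_nonneg (norm_nonneg' b)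

/-- a prime element gives a place -/
theorem exists_place (K : Type) [Field K] [NumberField K] (φ : Eis ≃+* 𝓞 K) (b : Eis)
    (hb : Prime b) : ∃ v : HeightOneSpectrum (𝓞 K), v.asIdeal = Ideal.span {φ b} ∧
      (Nat.card (𝓞 K ⧸ v.asIdeal) : ℤ) = b.norm := by
  have h1 : Prime (φ b) := (MulEquiv.prime_iff φ).2 hb
  refine ⟨⟨Ideal.span {φ b}, (Ideal.span_singleton_prime h1.ne_zero).2 h1, ?_⟩, rfl, ?_⟩
  · rw [Ne, Ideal.span_singleton_eq_bot]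
    exact h1.ne_zero
  · exact ta2_card K φ b

theorem ta2_eq (K : Type) [Field K] [NumberField K] (φ : Eis ≃+* 𝓞 K) {b : Eis}
    {v v' : HeightOneSpectrum (𝓞 K)} (hv : v.asIdeal = Ideal.span {φ b})
    (h : φ b ∈ v'.asIdeal) : v' = v := by
  apply HeightOneSpectrum.ext
  have h1 : v.asIdeal ≤ v'.asIdeal := by
    rw [hv, Ideal.span_singleton_le_iff_mem]
    exact h
  exact (v.isMaximal.eq_of_le v'.isPrime.ne_top h1).symm

theorem places_split (K : Type) [Field K] [NumberField K] (φ : Eis ≃+* 𝓞 K) (p : ℕ)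
    (hp : p.Prime) (h : p % 3 = 1) (a : Eis) (hn : a.norm = p) :
    ∃ v₁ v₂ : HeightOneSpectrum (𝓞 K), v₁ ≠ v₂ ∧ v₁.asIdeal = Ideal.span {φ a} ∧
      v₂.asIdeal = Ideal.span {φ (star a)} ∧ (p : 𝓞 K) ∈ v₁.asIdeal ∧ (p : 𝓞 K) ∈ v₂.asIdeal ∧
      (∀ v : HeightOneSpectrum (𝓞 K), (p : 𝓞 K) ∈ v.asIdeal → v = v₁ ∨ v = v₂) ∧
      Nat.card (𝓞 K ⧸ v₁.asIdeal) = p ∧ Nat.card (𝓞 K ⧸ v₂.asIdeal) = p := by
  have hns : (star a).norm = p := by rw [QuadraticAlgebra.norm_star, hn]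
  obtain ⟨v₁, h1, c1⟩ := exists_place K φ a (a3_prime_of_norm p hp a hn)
  obtain ⟨v₂, h2, c2⟩ := exists_place K φ (star a) (a3_prime_of_norm p hp _ hns)
  have hpe : (p : 𝓞 K) = φ a * φ (star a) := by
    rw [← map_mul, a3_mul_star, hn]
    simp
  refine ⟨v₁, v₂, ?_, h1, h2, ?_, ?_, ?_, ?_, ?_⟩
  · rintro rfl
    rw [h1] at h2
    have h3 : φ (star a) ∈ Ideal.span {φ a} := by
      rw [h2]
      exact Ideal.mem_span_singleton_self _
    rw [Ideal.mem_span_singleton] at h3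
    exact not_dvd_star p hp h a hn ((map_dvd_iff φ).1 h3)
  · rw [hpe, h1]
    exact Ideal.mul_mem_right _ _ (Ideal.mem_span_singleton_self _)
  · rw [hpe, h2]
    exact Ideal.mul_mem_left _ _ (Ideal.mem_span_singleton_self _)
  · intro v hv
    rw [hpe] at hv
    rcases v.isPrime.mem_or_mem hv with h3 | h3
    · exact Or.inl (ta2_eq K φ h1 h3)
    · exact Or.inr (ta2_eq K φ h2 h3)
  · rw [hn] at c1
    exact_mod_cast c1
  · rw [hns] at c2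
    exact_mod_cast c2

theorem places_inert (K : Type) [Field K] [NumberField K] (φ : Eis ≃+* 𝓞 K) (p : ℕ)
    (hp : p.Prime) (h : p % 3 = 2) :
    ∃ v : HeightOneSpectrum (𝓞 K), v.asIdeal = Ideal.span {φ (-(p : Eis))} ∧
      (p : 𝓞 K) ∈ v.asIdeal ∧ (∀ v' : HeightOneSpectrum (𝓞 K), (p : 𝓞 K) ∈ v'.asIdeal → v' = v) ∧
      Nat.card (𝓞 K ⧸ v.asIdeal) = p ^ 2 := by
  obtain ⟨v, h1, c1⟩ := exists_place K φ (-(p : Eis)) (a3_prime_inert p hp h).neg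
  have hpe : (p : 𝓞 K) = -φ (-(p : Eis)) := by simp
  refine ⟨v, h1, ?_, ?_, ?_⟩
  · rw [hpe, h1]
    exact Submodule.neg_mem _ (Ideal.mem_span_singleton_self _)
  · intro v' hv'
    apply ta2_eq K φ h1
    rw [hpe] at hv'
    exact (Submodule.neg_mem_iff _).1 hv'
  · have h2 : (-(p : Eis)).norm = ((p ^ 2 : ℕ) : ℤ) := by
      rw [norm_eq]
      simp
    rw [h2] at c1
    exact_mod_cast c1

/-- `3 = u (1 - ω)²` with a unit `u` -/
theorem ta2_three_eq : ∃ u : Eis, IsUnit u ∧ (3 : Eis) = u * ⟨1, -1⟩ ^ 2 := by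
  refine ⟨⟨1, 1⟩, (eis_isUnit_iff _).2 (by rw [norm_eq]; norm_num), ?_⟩
  rw [pow_two]
  ext
  · rw [QuadraticAlgebra.re_ofNat]
    simp
  · rw [QuadraticAlgebra.im_ofNat]
    simp

/-- the element `1 - ω` of norm `3` -/
theorem place_three (K : Type) [Field K] [NumberField K] (φ : Eis ≃+* 𝓞 K)
    (v : HeightOneSpectrum (𝓞 K)) (hv : (3 : 𝓞 K) ∈ v.asIdeal) :
    v.asIdeal = Ideal.span {φ ⟨1, -1⟩} ∧ φ ⟨1, -1⟩ ∉ v.asIdeal ^ 2 := by
  have hprime : Prime (⟨1, -1⟩ : Eis) :=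
    a3_prime_of_norm 3 Nat.prime_three _ (by rw [norm_eq]; norm_num)
  obtain ⟨v', h1, _⟩ := exists_place K φ ⟨1, -1⟩ hprime
  obtain ⟨u, hu, h3⟩ := ta2_three_eq
  have h4 : (3 : 𝓞 K) = φ u * φ ⟨1, -1⟩ ^ 2 := by
    rw [← map_pow, ← map_mul, ← h3, map_ofNat]
  have h5 : φ ⟨1, -1⟩ ∈ v.asIdeal := by
    rw [h4] at hv
    rcases v.isPrime.mem_or_mem hv with h6 | h6
    · exact absurd (Ideal.eq_top_of_isUnit_mem _ h6 (hu.map φ)) v.isPrime.ne_top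
    · exact v.isPrime.mem_of_pow_mem _ h6
  have h6 : v.asIdeal = Ideal.span {φ ⟨1, -1⟩} := by
    rw [ta2_eq K φ h1 h5, h1]
  refine ⟨h6, ?_⟩
  rw [h6, Ideal.span_singleton_pow, Ideal.mem_span_singleton]
  intro h7
  have h8 : Prime (φ ⟨1, -1⟩) := (MulEquiv.prime_iff φ).2 hprime
  exact h8.not_isUnit (isUnit_of_dvd_one ((mul_dvd_mul_iff_left h8.ne_zero).1 (by
    rw [mul_one, ← pow_two]
    exact h7)))

/-- `3 = u (1 - ω)²` with a unit `u` -/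
theorem three_eq : ∃ u : Eis, IsUnit u ∧ (3 : Eis) = u * ⟨1, -1⟩ ^ 2 := ta2_three_eq

end CMT
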