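import Pool.Agent.MP_dfae13_nt.T.Defs
import Pool.Agent.MP_ae0bd0_nt.CM.B1

set_option autoImplicit false

open CM27
open scoped Classical

namespace CMT

/-! ## [CMT-B1] points of a quadratic twist over a finite field (file TB1.lean) -/

theorem tb1_nonsingular_iff (F : Type) [Field F] (e : F) (h3 : (3 : F) ≠ 0) (he : 4 * e + 1 ≠ 0)
    (x y : F) : (Wt e).toAffine.Nonsingular x y ↔ y ^ 2 + y = x ^ 3 + e := by
  have hΔ : (Wt e).toAffine.Δ ≠ 0 := by
    have h1 : (Wt e).Δ = -(3 ^ 3 * (4 * e + 1) ^ 2) := by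
      simp only [Wt, WeierstrassCurve.Δ, WeierstrassCurve.b₂, WeierstrassCurve.b₄,
        WeierstrassCurve.b₆, WeierstrassCurve.b₈]
      ring
    rw [h1]
    exact neg_ne_zero.2 (mul_ne_zero (pow_ne_zero _ h3) (pow_ne_zero _ he))
  rw [← WeierstrassCurve.Affine.equation_iff_nonsingular_of_Δ_ne_zero hΔ,
    WeierstrassCurve.Affine.equation_iff]
  simp [Wt]

theorem tb1_ringChar (F : Type) [Field F] [Fintype F] (h2 : (2 : F) ≠ 0) : ringChar F ≠ 2 := by
  intro h
  apply h2
  have h3 := ringChar.Nat.cast_ringChar (R := F)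
  rw [h] at h3
  exact_mod_cast h3

theorem tb1_card (F : Type) [Field F] [Fintype F] (e : F) (h2 : (2 : F) ≠ 0) (h3 : (3 : F) ≠ 0)
    (he : 4 * e + 1 ≠ 0) : ((Nat.card (Wt e).toAffine.Point : ℕ) : ℤ) =
      Nat.card F + 1 + ∑ x : F, quadraticChar F (4 * x ^ 3 + (4 * e + 1)) := by
  have e1 : {xy : F × F // (Wt e).toAffine.Nonsingular xy.1 xy.2} ≃
      Σ x : F, {z : F // z ^ 2 = 4 * x ^ 3 + (4 * e + 1)} := by
    refine
      { toFun := fun p => ⟨p.1.1, 2 * p.1.2 + 1, ?_⟩
        invFun := fun q => ⟨(q.1, (q.2.1 - 1) / 2), ?_⟩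
        left_inv := ?_
        right_inv := ?_ }
    · have h := (tb1_nonsingular_iff F e h3 he _ _).1 p.2
      linear_combination 4 * h
    · rw [tb1_nonsingular_iff F e h3 he]
      have h := q.2.2
      field_simp
      linear_combination h
    · rintro ⟨⟨x, y⟩, h⟩
      simp only [Subtype.mk.injEq, Prod.mk.injEq, true_and]
      field_simp
      ring
    · rintro ⟨x, z, h⟩
      simp only [Sigma.mk.injEq, heq_eq_eq, Subtype.mk.injEq, true_and]
      field_simp
      ring
  have h1 : Nat.card (Wt e).toAffine.Point =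
      Nat.card (Option (Σ x : F, {z : F // z ^ 2 = 4 * x ^ 3 + (4 * e + 1)})) :=
    Nat.card_congr ((WeierstrassCurve.Affine.nonsingularPointEquiv (Wt e).toAffine).trans
      (Equiv.optionCongr e1))
  rw [h1, Finite.card_option, Nat.card_sigma]
  push_cast
  have h4 : ∀ x : F, ((Nat.card {z : F // z ^ 2 = 4 * x ^ 3 + (4 * e + 1)} : ℕ) : ℤ) =
      quadraticChar F (4 * x ^ 3 + (4 * e + 1)) + 1 := by
    intro x
    rw [← quadraticChar_card_sqrts (tb1_ringChar F h2), Set.toFinset_card, Nat.card_eq_fintype_card]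
    congr 1
  rw [Finset.sum_congr rfl fun x _ => h4 x, Finset.sum_add_distrib]
  simp only [Finset.sum_const, Finset.card_univ, Nat.card_eq_fintype_card, nsmul_eq_mul, mul_one]
  ring

theorem card_twist (k : Type) [Field k] [Finite k] (h2 : (2 : k) ≠ 0) (h3 : (3 : k) ≠ 0)
    (d e : k) (hd : d ≠ 0) (he : 4 * e + 1 = d ^ 3) :
    ((Nat.card (Wt e).toAffine.Point : ℕ) : ℤ) =
      if IsSquare d then (Nat.card (E k).toAffine.Point : ℤ)
      else 2 * (Nat.card k + 1) - Nat.card (E k).toAffine.Point := by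
  have : Fintype k := Fintype.ofFinite k
  have hE : E k = Wt 0 := rfl
  rw [tb1_card k e h2 h3 (by rw [he]; exact pow_ne_zero _ hd), hE,
    tb1_card k 0 h2 h3 (by simp)]
  have h5 : ∑ x : k, quadraticChar k (4 * x ^ 3 + (4 * e + 1)) =
      ∑ x : k, quadraticChar k d * quadraticChar k (4 * x ^ 3 + (4 * 0 + 1)) := by
    rw [← Equiv.sum_comp (Equiv.mulLeft₀ d hd)]
    refine Finset.sum_congr rfl fun x _ => ?_
    have h6 : 4 * ((Equiv.mulLeft₀ d hd) x) ^ 3 + (4 * e + 1) =
        d ^ 2 * (d * (4 * x ^ 3 + (4 * 0 + 1))) := by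
      rw [he]
      simp only [Equiv.mulLeft₀_apply]
      ring
    rw [h6, map_mul, map_mul, map_pow, quadraticChar_sq_one hd, one_mul]
  rw [h5, ← Finset.mul_sum]
  by_cases hs : IsSquare d
  · rw [if_pos hs, (quadraticChar_one_iff_isSquare hd).2 hs]
    ring
  · rw [if_neg hs, quadraticChar_neg_one_iff_not_isSquare.2 hs]
    ring

end CMT
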