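import Pool.Agent.MP_dfae13_nt.T.Defs
import Pool.Agent.MP_ae0bd0_nt.CM.C1

set_option autoImplicit false

open Polynomial NumberField IsDedekindDomain
open CM27
open scoped Classical

namespace CMT

/-! ## [CMT-C1] local polynomial of `y² + y = x³ + e`, good reduction (file TC1.lean) -/

theorem tc1_Δ {R : Type} [CommRing R] (e : R) : (Wt e).Δ = -27 * (4 * e + 1) ^ 2 := by
  simp only [Wt, WeierstrassCurve.Δ, WeierstrassCurve.b₂, WeierstrassCurve.b₄,
    WeierstrassCurve.b₆, WeierstrassCurve.b₈]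
  ring

theorem tc1_map {R S : Type} [CommRing R] [CommRing S] (φ : R →+* S) (e : R) :
    (Wt e).map φ = Wt (φ e) := by
  ext <;> simp [Wt]

/-- Integrality of the coefficients of a change of variables. -/
theorem tc1_lift (A : Type) [CommRing A] [IsDomain A] [IsDiscreteValuationRing A]
    (K : Type) [Field K] [Algebra A K] [IsFractionRing A K] (h3 : IsUnit (3 : A)) (e : A)
    (T : WeierstrassCurve.VariableChange K) (I : WeierstrassCurve A)
    (hI : T • Wt (algebraMap A K e) = I.map (algebraMap A K))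
    (hu : (IsDiscreteValuationRing.maximalIdeal A).valuation K (T.u : K) = 1) :
    ∃ D : WeierstrassCurve.VariableChange A, D • Wt e = I := by
  have hinj : Function.Injective (algebraMap A K) := IsFractionRing.injective A K
  have hmem : (T.u : K) ∈ MonoidHom.mker ((IsDiscreteValuationRing.maximalIdeal A).valuation K) :=
    hu
  rw [IsDiscreteValuationRing.mker_valuation_eq_isUnitSubmonoid] at hmem
  obtain ⟨u₀, hu₀, hu₁⟩ := hmem
  have hu₀' : IsUnit u₀ := hu₀
  obtain ⟨u, rfl⟩ := hu₀'
  obtain ⟨c, hc⟩ := h3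
  have hc3 : algebraMap A K (c : A) = 3 := by rw [hc, map_ofNat]
  have hcinv : algebraMap A K ((c⁻¹ : Aˣ) : A) * 3 = 1 := by
    rw [← hc3, ← map_mul]; simp
  have hu1 : (T.u : K) = algebraMap A K u := hu₁.symm
  have huu : algebraMap A K (u : A) * algebraMap A K ((u⁻¹ : Aˣ) : A) = 1 := by
    rw [← map_mul]; simp
  have huinv : ((T.u⁻¹ : Kˣ) : K) = algebraMap A K ((u⁻¹ : Aˣ) : A) := by
    rw [Units.val_inv_eq_inv_val, hu1]
    exact inv_eq_of_mul_eq_one_right huu
  -- the equations
  have hb8 : algebraMap A K ((u⁻¹ : Aˣ) : A) ^ 8 * (3 * (4 * algebraMap A K e + 1) * T.r + 3 * T.r ^ 4) =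
      algebraMap A K I.b₈ := by
    have h : (T • Wt (algebraMap A K e)).b₈ = algebraMap A K I.b₈ := by rw [hI]; simp
    rw [← h, WeierstrassCurve.variableChange_b₈, huinv]
    simp only [Wt, WeierstrassCurve.b₂, WeierstrassCurve.b₄, WeierstrassCurve.b₆,
      WeierstrassCurve.b₈]
    ring
  have ha2 : algebraMap A K ((u⁻¹ : Aˣ) : A) ^ 2 * (3 * T.r - T.s ^ 2) =
      algebraMap A K I.a₂ := by
    have h : (T • Wt (algebraMap A K e)).a₂ = algebraMap A K I.a₂ := by rw [hI]; simp
    rw [← h, WeierstrassCurve.variableChange_a₂, huinv]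
    simp only [Wt]
    ring
  have ha6 : algebraMap A K ((u⁻¹ : Aˣ) : A) ^ 6 * (algebraMap A K e + T.r ^ 3 - T.t - T.t ^ 2) =
      algebraMap A K I.a₆ := by
    have h : (T • Wt (algebraMap A K e)).a₆ = algebraMap A K I.a₆ := by rw [hI]; simp
    rw [← h, WeierstrassCurve.variableChange_a₆, huinv]
    simp only [Wt]
    ring
  have hu8 : algebraMap A K (u : A) ^ 8 * algebraMap A K ((u⁻¹ : Aˣ) : A) ^ 8 = 1 := by
    rw [← mul_pow, huu, one_pow]
  have hu2 : algebraMap A K (u : A) ^ 2 * algebraMap A K ((u⁻¹ : Aˣ) : A) ^ 2 = 1 := by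
    rw [← mul_pow, huu, one_pow]
  have hu6 : algebraMap A K (u : A) ^ 6 * algebraMap A K ((u⁻¹ : Aˣ) : A) ^ 6 = 1 := by
    rw [← mul_pow, huu, one_pow]
  -- r
  have hr : ∃ r : A, algebraMap A K r = T.r := by
    refine c1_root A K (X ^ 4 + C (4 * e + 1) * X - C ((u : A) ^ 8 * I.b₈ * ((c⁻¹ : Aˣ) : A))) ?_ _ ?_
    · monicity!
    · rw [eval₂_sub, eval₂_add, eval₂_pow, eval₂_mul, eval₂_X, eval₂_C, eval₂_C]
      simp only [map_mul, map_pow, map_add, map_one, map_ofNat]
      rw [← hb8]
      linear_combination (-((4 * algebraMap A K e + 1) * T.r + T.r ^ 4)) * hcinv -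
        (3 * (4 * algebraMap A K e + 1) * T.r + 3 * T.r ^ 4) *
        algebraMap A K ((c⁻¹ : Aˣ) : A) * hu8
  obtain ⟨r, hr⟩ := hr
  have hs : ∃ s : A, algebraMap A K s = T.s := by
    refine c1_root A K (X ^ 2 - C (3 * r - (u : A) ^ 2 * I.a₂)) ?_ _ ?_
    · monicity!
    · rw [eval₂_sub, eval₂_pow, eval₂_X, eval₂_C]
      simp only [map_mul, map_pow, map_sub, map_ofNat]
      rw [← ha2, hr]
      linear_combination (3 * T.r - T.s ^ 2) * hu2
  obtain ⟨s, hs⟩ := hs
  have ht : ∃ t : A, algebraMap A K t = T.t := by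
    refine c1_root A K (X ^ 2 + X - C (e + r ^ 3 - (u : A) ^ 6 * I.a₆)) ?_ _ ?_
    · monicity!
    · rw [eval₂_sub, eval₂_add, eval₂_pow, eval₂_X, eval₂_C]
      simp only [map_mul, map_pow, map_sub, map_add]
      rw [← ha6, hr]
      linear_combination (algebraMap A K e + T.r ^ 3 - T.t - T.t ^ 2) * hu6
  obtain ⟨t, ht⟩ := ht
  refine ⟨⟨u, r, s, t⟩, ?_⟩
  apply WeierstrassCurve.map_injective hinj
  show (_ • Wt e).map (algebraMap A K) = I.map (algebraMap A K)
  rw [← hI, ← WeierstrassCurve.map_variableChange, tc1_map]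
  congr 1
  ext
  · exact hu1.symm
  · exact hr
  · exact hs
  · exact ht

/-- The minimal model of `E` has good reduction, via a change of variables whose `u` is a unit. -/
theorem tc1_good (A : Type) [CommRing A] [IsDomain A] [IsDiscreteValuationRing A]
    (K : Type) [Field K] [Algebra A K] [IsFractionRing A K] (h3 : IsUnit (3 : A)) (e : A)
    (he : IsUnit (4 * e + 1)) (T : WeierstrassCurve.VariableChange K) (hT : WeierstrassCurve.IsMinimal A (T • Wt (algebraMap A K e))) :
    (IsDiscreteValuationRing.maximalIdeal A).valuation K (T • Wt (algebraMap A K e)).Δ = 1 ∧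
    (IsDiscreteValuationRing.maximalIdeal A).valuation K (T.u : K) = 1 := by
  have hE : WeierstrassCurve.IsIntegral A (Wt (algebraMap A K e)) :=
    ⟨⟨Wt e, (tc1_map (algebraMap A K) e).symm⟩⟩
  have h27 : (IsDiscreteValuationRing.maximalIdeal A).valuation K (Wt (algebraMap A K e)).Δ = 1 := by
    have h1 : (Wt (algebraMap A K e)).Δ = algebraMap A K (-27 * (4 * e + 1) ^ 2) := by
      rw [tc1_Δ, map_mul, map_pow, map_add, map_mul, map_neg, map_ofNat, map_ofNat, map_one]
    rw [h1, HeightOneSpectrum.valuation_eq_one_iff_notMem]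
    intro h2
    have h4 : IsUnit (-27 * (4 * e + 1) ^ 2 : A) := by
      have : (-27 : A) = -(3 ^ 3) := by norm_num
      rw [this]
      exact (h3.pow 3).neg.mul (he.pow 2)
    have h5 : (-27 * (4 * e + 1) ^ 2 : A) ∈ IsLocalRing.maximalIdeal A := h2
    exact (IsLocalRing.mem_maximalIdeal _).1 h5 h4
  have h1 := hT.val_Δ_maximal
  have hinv : T⁻¹ • (T • Wt (algebraMap A K e)) = Wt (algebraMap A K e) :=
    inv_smul_smul T (Wt (algebraMap A K e))
  have h2 := h1.2 (j := T⁻¹) (by show WeierstrassCurve.IsIntegral A (T⁻¹ • (T • Wt (algebraMap A K e))); rw [hinv]; exact hE)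
  have hle : ((WeierstrassCurve.valuation_Δ_aux A ((1 : WeierstrassCurve.VariableChange K) •
      (T • Wt (algebraMap A K e))) : { v : WithZero (Multiplicative ℤ) // v ≤ 1 }) : WithZero (Multiplicative ℤ)) =
      (IsDiscreteValuationRing.maximalIdeal A).valuation K (T • Wt (algebraMap A K e)).Δ := by
    rw [one_smul]
    exact WeierstrassCurve.valuation_Δ_aux_eq_of_isIntegral A _
  have hinvv : ((WeierstrassCurve.valuation_Δ_aux A (T⁻¹ • (T • Wt (algebraMap A K e))) :
      { v : WithZero (Multiplicative ℤ) // v ≤ 1 }) : WithZero (Multiplicative ℤ)) = 1 := by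
    rw [hinv, WeierstrassCurve.valuation_Δ_aux_eq_of_isIntegral A _, h27]
  have hle1 : (WeierstrassCurve.valuation_Δ_aux A ((1 : WeierstrassCurve.VariableChange K) •
      (T • Wt (algebraMap A K e)))) ≤ (WeierstrassCurve.valuation_Δ_aux A (T⁻¹ • (T • Wt (algebraMap A K e)))) := by
    rw [← Subtype.coe_le_coe, hinvv]
    exact (WeierstrassCurve.valuation_Δ_aux A ((1 : WeierstrassCurve.VariableChange K) •
      (T • Wt (algebraMap A K e)))).2
  have h3' := h2 hle1
  rw [← Subtype.coe_le_coe, hle] at h3'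
  have hval : (IsDiscreteValuationRing.maximalIdeal A).valuation K (T • Wt (algebraMap A K e)).Δ = 1 := by
    refine le_antisymm ?_ ?_
    · rw [← hle]
      exact (WeierstrassCurve.valuation_Δ_aux A ((1 : WeierstrassCurve.VariableChange K) •
        (T • Wt (algebraMap A K e)))).2
    · rw [← hinvv]
      exact h3'
  refine ⟨hval, ?_⟩
  rw [WeierstrassCurve.variableChange_Δ, map_mul, h27, mul_one, map_pow,
    Units.val_inv_eq_inv_val, map_inv₀] at hval
  have h6 : ((IsDiscreteValuationRing.maximalIdeal A).valuation K (T.u : K))⁻¹ = 1 :=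
    (pow_eq_one_iff_of_nonneg zero_le (n := 12) (by norm_num)).1 hval
  exact inv_eq_one.1 h6

/-- `e` integral, `3` and `4 e + 1` units (generalise CM.C1; the discriminant is `-27 (4e+1)²`,
`b₂ = b₄ = b₈ = 0`, `b₆ = 4 e + 1`). -/
theorem localPoly_twist (A : Type) [CommRing A] [IsDomain A] [IsDiscreteValuationRing A]
    (K : Type) [Field K] [Algebra A K] [IsFractionRing A K]
    [Finite (IsLocalRing.ResidueField A)] (h3 : IsUnit (3 : A)) (e : A) (he : IsUnit (4 * e + 1)) :
    (Wt (algebraMap A K e)).localPolynomial A =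
      1 - C ((Nat.card (IsLocalRing.ResidueField A) : ℤ) + 1 -
        Nat.card (Wt (IsLocalRing.residue A e)).toAffine.Point) * X
      + C (Nat.card (IsLocalRing.ResidueField A) : ℤ) * X ^ 2 := by
  obtain ⟨T, hT, hTm⟩ : ∃ T : WeierstrassCurve.VariableChange K,
      (Wt (algebraMap A K e)).minimal A = T • Wt (algebraMap A K e) ∧
        WeierstrassCurve.IsMinimal A (T • Wt (algebraMap A K e)) :=
    ⟨_, rfl, ((Wt (algebraMap A K e)).exists_isMinimal A).choose_spec⟩
  obtain ⟨hΔ, hu⟩ := tc1_good A K h3 e he T hTm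
  have hgood : WeierstrassCurve.HasGoodReduction A ((Wt (algebraMap A K e)).minimal A) :=
    ⟨by rw [hT]; exact hΔ⟩
  have hI : T • Wt (algebraMap A K e) =
      (WeierstrassCurve.integralModel A ((Wt (algebraMap A K e)).minimal A)).map
      (algebraMap A K) := by
    rw [← hT]
    exact (WeierstrassCurve.baseChange_integralModel_eq A
      ((Wt (algebraMap A K e)).minimal A)).symm
  obtain ⟨D, hD⟩ := tc1_lift A K h3 e T _ hI hu
  have hred : ((Wt (algebraMap A K e)).minimal A).reduction A =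
      (D.map (IsLocalRing.residue A)) • Wt (IsLocalRing.residue A e) := by
    rw [WeierstrassCurve.reduction, ← hD, ← WeierstrassCurve.map_variableChange, tc1_map]
  have h3κ : (3 : IsLocalRing.ResidueField A) ≠ 0 := by
    have : IsUnit (3 : IsLocalRing.ResidueField A) := by
      have h := h3.map (IsLocalRing.residue A)
      rwa [map_ofNat] at h
    exact this.ne_zero
  have heκ : (4 * IsLocalRing.residue A e + 1) ≠ 0 := by
    have : IsUnit (4 * IsLocalRing.residue A e + 1) := by
      have h := he.map (IsLocalRing.residue A)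
      rwa [map_add, map_mul, map_ofNat, map_one] at h
    exact this.ne_zero
  have hΔκ : (Wt (IsLocalRing.residue A e)).Δ ≠ 0 := by
    rw [tc1_Δ]
    have : (-27 : IsLocalRing.ResidueField A) = -(3 ^ 3) := by norm_num
    rw [this]
    exact mul_ne_zero (neg_ne_zero.2 (pow_ne_zero _ h3κ)) (pow_ne_zero _ heκ)
  have hcard1 : Nat.card (((Wt (algebraMap A K e)).minimal A).reduction A).toAffine.Point =
      Nat.card (Wt (IsLocalRing.residue A e)).toAffine.Point := by
    rw [hred]
    exact c1_card_variableChange _ _ hΔκ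
  unfold WeierstrassCurve.localPolynomial
  rw [if_pos hgood, hcard1]

end CMT
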