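import Pool.Agent.MP_dfae13_nt.T.TD2

set_option autoImplicit false

open CM27

namespace CMT

/-! ## [CMT-D3] supplementary laws (file TD3.lean) -/

theorem td3_four_re : (4 : Eis).re = 4 := rfl
theorem td3_four_im : (4 : Eis).im = 0 := rfl
theorem td3_two_re : (2 : Eis).re = 2 := rfl
theorem td3_two_im : (2 : Eis).im = 0 := rfl

/-- coordinates of an element `≡ 1 mod 4` -/
theorem td3_coord (d : Eis) (h4 : (4 : Eis) ∣ d - 1) : ∃ k l : ℤ, d.re = 1 + 4 * k ∧ d.im = 4 * l := by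
  obtain ⟨b, hb⟩ := h4
  have h1 := congrArg QuadraticAlgebra.re hb
  have h2 := congrArg QuadraticAlgebra.im hb
  simp only [QuadraticAlgebra.re_sub, QuadraticAlgebra.im_sub, QuadraticAlgebra.re_mul,
    QuadraticAlgebra.im_mul, QuadraticAlgebra.re_one, QuadraticAlgebra.im_one, td3_four_re,
    td3_four_im] at h1 h2
  exact ⟨b.re, b.im, by linarith, by linarith⟩

theorem td3_norm (S : Finset Eis) (u : Eis) (hu : IsUnit u) :
    (gS S).norm = (u * gS S).norm := by
  have h1 : u.norm = 1 := (eis_isUnit_iff u).1 hu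
  rw [map_mul, h1, one_mul]

/-- the norm modulo 8 -/
theorem td3_norm_mod (S : Finset Eis) (u : Eis) (hu : IsUnit u)
    (h4 : (4 : Eis) ∣ u * gS S - 1) :
    ∃ k l m : ℤ, (u * gS S).im = 4 * l ∧ (u * gS S).re = 1 + 4 * k ∧
      (gS S).norm = 1 - 4 * l + 8 * m := by
  obtain ⟨k, l, hk, hl⟩ := td3_coord _ h4
  refine ⟨k, l, k + 2 * k ^ 2 - 2 * k * l + 2 * l ^ 2, hl, hk, ?_⟩
  rw [td3_norm S u hu, norm_eq, hk, hl]
  ring

/-- `ω` and `-ω²` etc.: units have symbol `1` if `d ≡ 1 mod 4` -/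
theorem XZ_unit (S : Finset Eis) (hS : ∀ b ∈ S, GoodEis b) (u : Eis) (hu : IsUnit u)
    (h4 : (4 : Eis) ∣ u * gS S - 1) (u' : Eis) (hu' : IsUnit u') : XZ S u' = 1 := by
  obtain ⟨k, l, m, hl, hk, hN⟩ := td3_norm_mod S u hu h4
  have hnn : 0 ≤ (gS S).norm := norm_nonneg' _
  have hN4 : (gS S).norm.natAbs % 4 = 1 := by omega
  -- `-1`
  have hneg : XZ S (-1) = 1 := by
    have h1 := XZ_int S hS (-1)
    have h2 : (((-1 : ℤ) : Eis)) = -1 := by push_cast; rfl
    rw [h2] at h1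
    rw [h1, jacobiSym.at_neg_one (Nat.odd_iff.2 (by omega)), ZMod.χ₄_nat_one_mod_four hN4]
  -- the value at a unit is `±1`
  have hne : XZ S u' ≠ 0 := by
    intro h0
    rw [XZ_eq_zero S hS] at h0
    obtain ⟨v, hv⟩ := hu'.exists_left_inv
    exact h0 ⟨v, 0, by rw [hv]; ring⟩
  have hsq : XZ S u' * XZ S u' = 1 := by
    rcases XZ_values S u' with h | h | h
    · exact absurd h hne
    · rw [h]; norm_num
    · rw [h]; norm_num
  -- cubes of units
  have h1 : u'.norm = 1 := (eis_isUnit_iff u').1 hu'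
  have h3 : u' * u' * u' = 1 ∨ u' * u' * u' = -1 := by
    rw [norm_eq] at h1
    obtain ⟨a, b⟩ := u'
    simp only at h1
    have ha : a ^ 2 ≤ 1 := by nlinarith [sq_nonneg (a - 2 * b), sq_nonneg a]
    have hb : b ^ 2 ≤ 1 := by nlinarith [sq_nonneg (2 * a - b), sq_nonneg b]
    have ha1 : -1 ≤ a := by nlinarith
    have ha2 : a ≤ 1 := by nlinarith
    have hb1 : -1 ≤ b := by nlinarith
    have hb2 : b ≤ 1 := by nlinarith
    interval_cases a <;> interval_cases b <;> first
      | (exfalso; revert h1; norm_num; done)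
      | (left; ext <;> simp [QuadraticAlgebra.re_one, QuadraticAlgebra.im_one] <;> done)
      | (right; ext <;> simp [QuadraticAlgebra.re_one, QuadraticAlgebra.im_one] <;> done)
  have h5 : XZ S u' * XZ S u' * XZ S u' = 1 := by
    rw [← XZ_mul S hS, ← XZ_mul S hS]
    rcases h3 with h | h
    · rw [h, XZ_one S hS]
    · rw [h, hneg]
  rw [hsq, one_mul] at h5
  exact h5

/-- the symbol of `-2`, where `d = u * gS S ≡ 1 mod 4` -/
theorem XZ_neg_two (S : Finset Eis) (hS : ∀ b ∈ S, GoodEis b) (u : Eis) (hu : IsUnit u)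
    (h4 : (4 : Eis) ∣ u * gS S - 1) :
    XZ S (-2) = if (8 : ℤ) ∣ (u * gS S).im then 1 else -1 := by
  obtain ⟨k, l, m, hl, hk, hN⟩ := td3_norm_mod S u hu h4
  have hnn : 0 ≤ (gS S).norm := norm_nonneg' _
  have h1 := XZ_int S hS (-2)
  have h2 : (((-2 : ℤ) : Eis)) = -2 := by push_cast; rfl
  rw [h2] at h1
  rw [h1, jacobiSym.at_neg_two (Nat.odd_iff.2 (by omega)), ZMod.χ₈'_nat_eq_if_mod_eight, hl]
  by_cases h8 : (8 : ℤ) ∣ 4 * l
  · have h9 : (gS S).norm.natAbs % 8 = 1 := by omega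
    rw [if_pos h8, if_neg (by omega), if_pos (by omega)]
  · have h9 : (gS S).norm.natAbs % 8 = 5 := by omega
    rw [if_neg h8, if_neg (by omega), if_neg (by omega)]

/-- the corresponding condition modulo `2` -/
theorem artin_schreier (f : Eis) : (∃ t : Eis, (2 : Eis) ∣ t ^ 2 + t - f) ↔ (2 : ℤ) ∣ f.im := by
  constructor
  · rintro ⟨t, b, hb⟩
    have h2 := congrArg QuadraticAlgebra.im hb
    simp only [pow_two, QuadraticAlgebra.im_sub, QuadraticAlgebra.im_add,
      QuadraticAlgebra.im_mul, td3_two_re, td3_two_im] at h2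
    have h3 : (2 : ℤ) ∣ t.im * (t.im - 1) := by
      rcases Int.even_or_odd t.im with h | h
      · exact Dvd.dvd.mul_right h.two_dvd _
      · exact Dvd.dvd.mul_left (by obtain ⟨c, hc⟩ := h; exact ⟨c, by omega⟩) _
    obtain ⟨c, hc⟩ := h3
    refine ⟨t.re * t.im - c - b.im, ?_⟩
    linarith
  · rintro ⟨c, hc⟩
    rcases Int.even_or_odd f.re with h | h
    · obtain ⟨r, hr⟩ := h
      refine ⟨0, ⟨-r, -c⟩, ?_⟩
      ext
      · simp only [pow_two, QuadraticAlgebra.re_sub, QuadraticAlgebra.re_add,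
          QuadraticAlgebra.re_mul, QuadraticAlgebra.re_zero, QuadraticAlgebra.im_zero,
          td3_two_re, td3_two_im]
        linarith
      · simp only [pow_two, QuadraticAlgebra.im_sub, QuadraticAlgebra.im_add,
          QuadraticAlgebra.im_mul, QuadraticAlgebra.re_zero, QuadraticAlgebra.im_zero,
          td3_two_re, td3_two_im]
        linarith
    · obtain ⟨r, hr⟩ := h
      refine ⟨⟨0, 1⟩, ⟨-1 - r, -c⟩, ?_⟩
      ext
      · simp only [pow_two, QuadraticAlgebra.re_sub, QuadraticAlgebra.re_add,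
          QuadraticAlgebra.re_mul, td3_two_re, td3_two_im]
        linarith
      · simp only [pow_two, QuadraticAlgebra.im_sub, QuadraticAlgebra.im_add,
          QuadraticAlgebra.im_mul, td3_two_re, td3_two_im]
        linarith

/-- `e = (d³ - 1)/4 ≡ (d - 1)/4 mod 2` -/
theorem e_mod_two (d e f : Eis) (he : 4 * e + 1 = d ^ 3) (hf : 4 * f + 1 = d) :
    (2 : Eis) ∣ e - f := by
  have := eis_isDomain
  have h4 : (4 : Eis) ≠ 0 := by
    intro h
    have := congrArg QuadraticAlgebra.re h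
    rw [td3_four_re, QuadraticAlgebra.re_zero] at this
    norm_num at this
  refine ⟨8 * f ^ 3 + 6 * f ^ 2 + f, ?_⟩
  apply mul_left_cancel₀ h4
  rw [← hf] at he
  linear_combination he

end CMT
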