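import Pool.Agent.MP_dfae13_nt.T.TD4
import Pool.Agent.MP_dfae13_nt.T.TD3
import Pool.Agent.MP_ae0bd0_nt.CM.A2
import Pool.Agent.MP_ae0bd0_nt.CM.A3

set_option autoImplicit false

open CM27

namespace CMT

/-! ## [CMT-D5] quadratic reciprocity, general case (file TD5.lean; uses D1-D4) -/

theorem td5_re_intCast (n : ℤ) : ((n : Eis)).re = n := rfl

theorem td5_im_intCast (n : ℤ) : ((n : Eis)).im = 0 := rfl

theorem td5_intCast_dvd (n : ℤ) (a : Eis) : (n : Eis) ∣ a ↔ n ∣ a.re ∧ n ∣ a.im := by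
  constructor
  · rintro ⟨c, rfl⟩
    simp only [QuadraticAlgebra.re_mul, QuadraticAlgebra.im_mul, td5_re_intCast, td5_im_intCast]
    exact ⟨⟨c.re, by ring⟩, ⟨c.im, by ring⟩⟩
  · rintro ⟨⟨x, hx⟩, ⟨y, hy⟩⟩
    refine ⟨⟨x, y⟩, ?_⟩
    ext
    · simp only [QuadraticAlgebra.re_mul, td5_re_intCast, td5_im_intCast, hx]; ring
    · simp only [QuadraticAlgebra.im_mul, td5_re_intCast, td5_im_intCast, hy]; ring

theorem td5_norm_intCast (n : ℤ) : ((n : Eis)).norm = n ^ 2 := by
  rw [norm_eq, td5_re_intCast, td5_im_intCast]; ring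

theorem td5_four (d : Eis) (h4 : (4 : Eis) ∣ d - 1) : d.re % 4 = 1 ∧ d.im % 4 = 0 := by
  have h : ((4 : ℤ) : Eis) ∣ d - 1 := by simpa using h4
  rw [td5_intCast_dvd] at h
  simp only [QuadraticAlgebra.re_sub, QuadraticAlgebra.im_sub, QuadraticAlgebra.re_one,
    QuadraticAlgebra.im_one] at h
  omega

theorem td5_norm_mod_four (d : Eis) (h4 : (4 : Eis) ∣ d - 1) : d.norm % 4 = 1 := by
  obtain ⟨h1, h2⟩ := td5_four d h4
  obtain ⟨k, hk⟩ : ∃ k, d.re = 4 * k + 1 := ⟨d.re / 4, by omega⟩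
  obtain ⟨l, hl⟩ : ∃ l, d.im = 4 * l := ⟨d.im / 4, by omega⟩
  rw [norm_eq, hk, hl]
  have : (4 * k + 1) ^ 2 - (4 * k + 1) * (4 * l) + (4 * l) ^ 2 =
    4 * (4 * k ^ 2 + 2 * k - (4 * k + 1) * l + 4 * l ^ 2) + 1 := by ring
  rw [this]
  omega

theorem td5_norm_unit {u : Eis} (hu : IsUnit u) : u.norm = 1 := (eis_isUnit_iff u).1 hu

/-- a prime element of `ℤ[ω]` has prime norm or is associated to a prime `q ≡ 2 mod 3` -/
theorem td5_classify (β : Eis) (hβ : Prime β) :
    (∃ p : ℕ, p.Prime ∧ β.norm = p) ∨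
      ∃ q : ℕ, q.Prime ∧ q % 3 = 2 ∧ ∃ v : Eis, IsUnit v ∧ β = v * (q : Eis) := by
  have := eis_isDomain
  -- a rational prime divisible by β
  obtain ⟨p, hp, hβp⟩ : ∃ p : ℕ, p.Prime ∧ β ∣ (p : Eis) := by
    have hn0 : β.norm.natAbs ≠ 0 := by
      intro h
      rw [Int.natAbs_eq_zero] at h
      exact hβ.ne_zero (a2_norm_zero h)
    have h1 : β ∣ ((β.norm.natAbs : ℕ) : Eis) := by
      have h2 : ((β.norm.natAbs : ℕ) : Eis) = ((β.norm : ℤ) : Eis) := by
        have h3 : ((β.norm.natAbs : ℕ) : ℤ) = β.norm := by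
          rw [Int.natCast_natAbs, abs_of_nonneg (norm_nonneg' β)]
        rw [← h3]; simp
      rw [h2, a2_cast_norm]
      exact dvd_mul_right _ _
    generalize β.norm.natAbs = n at h1 hn0
    induction n using Nat.strong_induction_on with
    | _ n ih =>
      by_cases hn1 : n = 1
      · subst hn1
        exact absurd (isUnit_of_dvd_one (by simpa using h1)) hβ.not_isUnit
      · obtain ⟨p, hp, m, rfl⟩ := Nat.exists_prime_and_dvd hn1
        rw [Nat.cast_mul] at h1
        rcases hβ.dvd_or_dvd h1 with h | h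
        · exact ⟨p, hp, h⟩
        · have hm0 : m ≠ 0 := by rintro rfl; simp at hn0
          refine ih m ?_ h hm0
          have := hp.two_le
          nlinarith [Nat.pos_of_ne_zero hm0]
  obtain ⟨γ, hγ⟩ := hβp
  have hnorm : β.norm * γ.norm = (p : ℤ) ^ 2 := by
    have h1 := congrArg QuadraticAlgebra.norm hγ
    rw [map_mul] at h1
    rw [← h1]
    exact td5_norm_intCast p
  have hβ1 : β.norm ≠ 1 := fun h => hβ.not_isUnit ((eis_isUnit_iff β).2 h)
  have hn := norm_nonneg' β
  have hdvd : β.norm.natAbs ∣ p ^ 2 := by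
    have h1 : β.norm ∣ (p : ℤ) ^ 2 := ⟨γ.norm, hnorm.symm⟩
    have h2 := Int.natAbs_dvd_natAbs.2 h1
    rwa [Int.natAbs_pow, Int.natAbs_natCast] at h2
  obtain ⟨i, hi, hpi⟩ := (Nat.dvd_prime_pow hp).1 hdvd
  have hβn : β.norm = (p : ℤ) ^ i := by
    have : ((β.norm.natAbs : ℕ) : ℤ) = β.norm := by
      rw [Int.natCast_natAbs, abs_of_nonneg (norm_nonneg' β)]
    rw [← this, hpi]; push_cast; rfl
  have hp0 : (p : ℤ) ≠ 0 := by exact_mod_cast hp.ne_zero
  interval_cases i
  · exact absurd (by simpa using hβn) hβ1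
  · left; exact ⟨p, hp, by simpa using hβn⟩
  · right
    have hγ1 : γ.norm = 1 := by
      rw [hβn] at hnorm
      have : (p : ℤ) ^ 2 * γ.norm = (p : ℤ) ^ 2 * 1 := by rw [hnorm]; ring
      exact mul_left_cancel₀ (pow_ne_zero 2 hp0) this
    have hγu : IsUnit γ := (eis_isUnit_iff γ).2 hγ1
    obtain ⟨g, hg⟩ := hγu
    have hβp : β = ((g⁻¹ : Eisˣ) : Eis) * (p : Eis) := by
      rw [hγ, ← hg]
      rw [mul_comm β, ← mul_assoc, Units.inv_mul, one_mul]
    have hpprime : Prime (p : Eis) := by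
      have h1 : Associated β (p : Eis) := ⟨g, by rw [hγ, hg]⟩
      exact h1.prime hβ
    -- no element of norm p
    have hno : ∀ a : Eis, a.norm ≠ p := by
      intro a ha
      have h1 : (p : Eis) ∣ a * star a := by
        rw [a3_mul_star, ha]; simp
      rcases hpprime.dvd_or_dvd h1 with h | h
      · have h2 := a2_norm_dvd h
        rw [show ((p : Eis)).norm = (p : ℤ) ^ 2 from td5_norm_intCast p, ha] at h2
        have h3 : (p : ℤ) ∣ 1 := by
          obtain ⟨k, hk⟩ := h2
          refine ⟨k, mul_left_cancel₀ hp0 ?_⟩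
          linear_combination hk
        exact hp.one_lt.ne' (by exact_mod_cast Int.eq_one_of_dvd_one (by positivity) h3)
      · have h2 := a2_norm_dvd h
        rw [show ((p : Eis)).norm = (p : ℤ) ^ 2 from td5_norm_intCast p,
          QuadraticAlgebra.norm_star, ha] at h2
        have h3 : (p : ℤ) ∣ 1 := by
          obtain ⟨k, hk⟩ := h2
          refine ⟨k, mul_left_cancel₀ hp0 ?_⟩
          linear_combination hk
        exact hp.one_lt.ne' (by exact_mod_cast Int.eq_one_of_dvd_one (by positivity) h3)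
    refine ⟨p, hp, ?_, _, (g⁻¹ : Eisˣ).isUnit, hβp⟩
    have h3 : p % 3 = 0 ∨ p % 3 = 1 ∨ p % 3 = 2 := by omega
    rcases h3 with h | h | h
    · exfalso
      have h3 : p = 3 := ((Nat.prime_dvd_prime_iff_eq Nat.prime_three hp).1
        (Nat.dvd_of_mod_eq_zero h)).symm
      subst h3
      exact hno ⟨1, -1⟩ (by rw [norm_eq]; norm_num)
    · exfalso
      obtain ⟨a, -, ha⟩ := exists_primary_prime p hp h
      exact hno a ha
    · exact h

theorem td5_XZ_singleton (b a : Eis) : XZ {b} a = qr b a := by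
  rw [XZ, Finset.prod_singleton]

theorem td5_gS_singleton (b : Eis) : gS {b} = b := by
  rw [gS, Finset.prod_singleton]

theorem td5_qr_star (b a : Eis) : qr (star b) (star a) = qr b a := by
  have h := XZ_star {b} a
  rwa [Finset.image_singleton, td5_XZ_singleton, td5_XZ_singleton] at h

/-- the case of a prime of prime norm, by induction on `S` -/
theorem td5_recip_split (p : ℕ) (hp : p.Prime) (hp2 : p ≠ 2) (β : Eis) (hβ : β.norm = p) (n : ℕ) :
    ∀ (S : Finset Eis), S.card = n → (∀ b ∈ S, GoodEis b) → ∀ u : Eis, IsUnit u →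
      (4 : Eis) ∣ u * gS S - 1 → ¬ β ∣ u * gS S → qr β (u * gS S) = XZ S β := by
  classical
  have := eis_isDomain
  have : Fact p.Prime := ⟨hp⟩
  induction n using Nat.strong_induction_on with
  | _ n ih =>
    intro S hcard hS u hu h4 hcop
    by_cases hprim : Int.gcd (u * gS S).re (u * gS S).im = 1
    · exact recip_primitive S hS u hu h4 hprim β p hp hp2 hβ hcop
    obtain ⟨l, hl, hlg⟩ := Nat.exists_prime_and_dvd hprim
    have hlre : (l : ℤ) ∣ (u * gS S).re :=
      (Int.natCast_dvd_natCast.2 hlg).trans (Int.gcd_dvd_left ..)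
    have hlim : (l : ℤ) ∣ (u * gS S).im :=
      (Int.natCast_dvd_natCast.2 hlg).trans (Int.gcd_dvd_right ..)
    obtain ⟨h41, h42⟩ := td5_four _ h4
    have hl2 : l ≠ 2 := by
      rintro rfl
      omega
    have hlodd : l % 2 = 1 := (hl.eq_two_or_odd).resolve_left hl2
    have hld : ((l : ℤ) : Eis) ∣ u * gS S := (td5_intCast_dvd _ _).2 ⟨hlre, hlim⟩
    have hlgS : ((l : ℤ) : Eis) ∣ gS S := by
      obtain ⟨g, hg⟩ := hu
      rw [← hg] at hld
      exact (Units.dvd_mul_left).1 hld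
    have hgood : GoodPrime l := by
      refine good_of_dvd_norm S hS l hl ?_
      have h1 := a2_norm_dvd hlgS
      rw [td5_norm_intCast] at h1
      exact (dvd_pow_self _ (by norm_num)).trans h1
    obtain ⟨b0, hb0, hb0n⟩ := exists_primary_prime l hl hgood.2.1
    have hmul : b0 * star b0 = ((l : ℤ) : Eis) := by rw [a3_mul_star, hb0n]
    have key : ∀ c : Eis, Primary c → c.norm = l → c ∣ ((l : ℤ) : Eis) → c ∈ S := by
      intro c hc hcn hcl
      have hcp : Prime c := a3_prime_of_norm l hl c hcn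
      have h1 : c ∣ ∏ b ∈ S, b := hcl.trans hlgS
      obtain ⟨b, hb, hcb⟩ := hcp.exists_mem_finset_dvd h1
      obtain ⟨hbP, q, hq, hbn⟩ := hS b hb
      have h2 := a2_norm_dvd hcb
      rw [hcn, hbn] at h2
      have h3 : l = q := (Nat.prime_dvd_prime_iff_eq hl hq.1).1 (by exact_mod_cast h2)
      have h4 : b = c := a2_eq_of_dvd hc hbP hcb (by rw [hcn, hbn, h3])
      rwa [← h4]
    have hb0S : b0 ∈ S := key b0 hb0 hb0n ⟨star b0, hmul.symm⟩
    have hsn : (star b0).norm = l := by rw [QuadraticAlgebra.norm_star, hb0n]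
    have hb1S : star b0 ∈ S := key (star b0) (Primary.star hb0) hsn ⟨b0, by rw [← hmul, mul_comm]⟩
    have hne : star b0 ≠ b0 := by
      intro h
      exact not_dvd_star l hl hgood.2.1 b0 hb0n (by rw [h])
    have hb1E : star b0 ∈ S.erase b0 := Finset.mem_erase.2 ⟨hne, hb1S⟩
    set S' := (S.erase b0).erase (star b0) with hS'
    have hgS : gS S = ((l : ℤ) : Eis) * gS S' := by
      rw [gS, gS, ← Finset.mul_prod_erase S (fun b => b) hb0S,
        ← Finset.mul_prod_erase (S.erase b0) (fun b => b) hb1E, ← mul_assoc, hmul]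
    have hXZ : ∀ a : Eis, XZ S a = qr b0 a * (qr (star b0) a * XZ S' a) := by
      intro a
      rw [XZ, XZ, ← Finset.mul_prod_erase S (fun b => qr b a) hb0S,
        ← Finset.mul_prod_erase (S.erase b0) (fun b => qr b a) hb1E]
    have hS'g : ∀ b ∈ S', GoodEis b := fun b hb =>
      hS b (Finset.mem_of_mem_erase (Finset.mem_of_mem_erase hb))
    have hcard' : S'.card < n := by
      rw [hS', Finset.card_erase_of_mem hb1E, Finset.card_erase_of_mem hb0S, hcard]
      have h1 : 0 < S.card := Finset.card_pos.2 ⟨b0, hb0S⟩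
      omega
    -- the signed prime
    obtain ⟨e, he, hl4⟩ : ∃ e : ℤ, (e = 1 ∨ e = -1) ∧ (e * l) % 4 = 1 := by
      have : l % 4 = 1 ∨ l % 4 = 3 := by omega
      rcases this with h | h
      · exact ⟨1, Or.inl rfl, by omega⟩
      · exact ⟨-1, Or.inr rfl, by omega⟩
    have hee : e * e = 1 := by rcases he with rfl | rfl <;> norm_num
    have heu : IsUnit ((e : ℤ) : Eis) := by
      refine IsUnit.of_mul_eq_one ((e : ℤ) : Eis) ?_
      rw [← Int.cast_mul, hee, Int.cast_one]
    have hd : u * gS S = ((e * l : ℤ) : Eis) * (((e : ℤ) : Eis) * u * gS S') := by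
      rw [hgS]
      have h1 : ((e * l : ℤ) : Eis) * ((e : ℤ) : Eis) = ((l : ℤ) : Eis) := by
        rw [← Int.cast_mul]
        congr 1
        linear_combination (l : ℤ) * hee
      rw [show ((e * l : ℤ) : Eis) * (((e : ℤ) : Eis) * u * gS S') =
        (((e * l : ℤ) : Eis) * ((e : ℤ) : Eis)) * u * gS S' by ring, h1]
      ring
    have hu' : IsUnit (((e : ℤ) : Eis) * u) := heu.mul hu
    set d' := ((e : ℤ) : Eis) * u * gS S' with hd'
    have h4' : (4 : Eis) ∣ d' - 1 := by
      obtain ⟨k, hk⟩ : ∃ k, e * (l : ℤ) = 4 * k + 1 := ⟨e * (l : ℤ) / 4, by omega⟩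
      have h1 : d' - 1 = (u * gS S - 1) - 4 * (((k : ℤ) : Eis) * d') := by
        rw [hd, hk]; push_cast; ring
      rw [h1]
      exact dvd_sub h4 (dvd_mul_right _ _)
    have hcop' : ¬ β ∣ d' := by
      intro h
      exact hcop (by rw [hd]; exact h.mul_left _)
    have hih := ih S'.card hcard' S' rfl hS'g _ hu' h4' hcop'
    have hββ : β * star β = ((p : ℤ) : Eis) := by rw [a3_mul_star, hβ]
    have h1 : qr β (u * gS S) = qr β ((e * l : ℤ) : Eis) * qr β d' := by
      rw [hd, qr_mul β p hp hp2 hβ]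
    rw [h1, hih, hXZ β, ← mul_assoc]
    congr 1
    -- `(l*/p) = (p/l)`
    have h2 : qr (star b0) β = qr b0 (star β) := by
      rw [← td5_qr_star b0 (star β), star_star]
    rw [h2, ← qr_mul b0 l hl hl2 hb0n, hββ]
    have h3 : qr b0 ((p : ℤ) : Eis) = jacobiSym p l := by
      have h := XZ_int {b0} (by intro b hb; rw [Finset.mem_singleton] at hb; exact hb ▸ hS b0 hb0S)
        (p : ℤ)
      rw [td5_XZ_singleton, td5_gS_singleton, hb0n] at h
      simpa using h
    have hpodd : Odd p := hp.odd_of_ne_two hp2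
    have hpim : ¬ (p : ℤ) ∣ β.im := by
      intro h
      have h5 : β.re ^ 2 - β.re * β.im + β.im ^ 2 = p := by rw [← norm_eq, hβ]
      obtain ⟨k, hk⟩ := h
      have h6 : (p : ℤ) ∣ β.re ^ 2 := ⟨1 + β.re * k - k * β.im, by rw [hk] at h5 ⊢; linear_combination h5⟩
      have hpz : Prime (p : ℤ) := Nat.prime_iff_prime_int.1 hp
      obtain ⟨j, hj⟩ := hpz.dvd_of_dvd_pow h6
      have h7 : (p : ℤ) * ((p : ℤ) * (j ^ 2 - j * k + k ^ 2)) = (p : ℤ) * 1 := by
        rw [hj, hk] at h5
        linear_combination h5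
      have h8 := mul_left_cancel₀ hpz.ne_zero h7
      exact hp.one_lt.ne' (by exact_mod_cast Int.eq_one_of_dvd_one (by positivity) ⟨_, h8.symm⟩)
    have h4' : qr β ((e * l : ℤ) : Eis) = jacobiSym (e * l) p := by
      rw [qr_eq_legendre β p hp2 hβ, td5_re_intCast, td5_im_intCast]
      have h5 : ((e * l : ℤ) * β.im - 0 * β.re) * β.im = (e * l) * (β.im * β.im) := by ring
      rw [h5, legendreSym.mul, legendreSym.mul p β.im β.im]
      have h6 : legendreSym p β.im * legendreSym p β.im = 1 := by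
        rw [← sq]
        refine legendreSym.sq_one p ?_
        rwa [Ne, ZMod.intCast_zmod_eq_zero_iff_dvd]
      rw [h6, mul_one, jacobiSym.legendreSym.to_jacobiSym]
    rw [h3, h4']
    rcases he with rfl | rfl
    · rw [one_mul]
      exact jacobiSym.quadratic_reciprocity_one_mod_four (by omega) hpodd
    · have hl3 : l % 4 = 3 := by omega
      rw [jacobiSym.mul_left, jacobiSym.at_neg_one hpodd]
      have hpm : p % 4 = 1 ∨ p % 4 = 3 := by
        have := Nat.odd_iff.1 hpodd
        omega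
      rcases hpm with h | h
      · rw [ZMod.χ₄_nat_one_mod_four h, one_mul]
        exact jacobiSym.quadratic_reciprocity_one_mod_four' (Nat.odd_iff.2 hlodd) h
      · rw [ZMod.χ₄_nat_three_mod_four h,
          jacobiSym.quadratic_reciprocity_three_mod_four hl3 h]
        ring

/-- Quadratic reciprocity in `ℤ[ω]` for `d = u * gS S ≡ 1 mod 4` and a prime `β` which divides
neither `2` nor `d`. -/
theorem recip (S : Finset Eis) (hS : ∀ b ∈ S, GoodEis b) (u : Eis) (hu : IsUnit u)
    (h4 : (4 : Eis) ∣ u * gS S - 1) (β : Eis) (hβ : Prime β) (h2 : ¬ β ∣ 2)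
    (hcop : ¬ β ∣ u * gS S) : qr β (u * gS S) = XZ S β := by
  rcases td5_classify β hβ with ⟨p, hp, hpn⟩ | ⟨q, hq, hq3, v, hv, hβv⟩
  · have hp2 : p ≠ 2 := by
      rintro rfl
      exact a3_norm_ne_two β (by rw [hpn]; norm_num)
    exact td5_recip_split p hp hp2 β hpn S.card S rfl hS u hu h4 hcop
  · have : Fact q.Prime := ⟨hq⟩
    have hq2 : q ≠ 2 := by
      rintro rfl
      apply h2
      rw [hβv]
      obtain ⟨g, hg⟩ := hv
      rw [← hg]
      exact (Units.mul_left_dvd).2 (by norm_num)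
    have hqodd : Odd q := hq.odd_of_ne_two hq2
    have hN : (u * gS S).norm = (gS S).norm := by
      rw [map_mul, td5_norm_unit hu, one_mul]
    have hM : (gS S).norm % 4 = 1 := by
      rw [← hN]; exact td5_norm_mod_four _ h4
    have hM0 := norm_nonneg' (gS S)
    have hMn : (((gS S).norm.natAbs : ℕ) : ℤ) = (gS S).norm := by
      rw [Int.natCast_natAbs, abs_of_nonneg hM0]
    rw [hβv, qr_inert q hq2 hq3 v hv, XZ_mul S hS, XZ_unit S hS u hu h4 v hv, one_mul, hN]
    have h5 : XZ S (q : Eis) = jacobiSym q (gS S).norm.natAbs := by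
      have := XZ_int S hS (q : ℤ)
      simpa using this
    rw [h5, jacobiSym.legendreSym.to_jacobiSym, ← hMn]
    simp only [Int.natAbs_natCast]
    exact jacobiSym.quadratic_reciprocity_one_mod_four (by omega) hqodd

end CMT
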