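import Pool.Agent.MP_dfae13_nt.T.Defs
import Pool.Agent.MP_ae0bd0_nt.CM.A2
import Pool.Agent.MP_ae0bd0_nt.CM.A3
import Pool.Agent.MP_ae0bd0_nt.CM.F3

set_option autoImplicit false

open CM27

namespace CMT

/-! ## [CMT-E1] Dirichlet series of multiplicative functions on `ℤ[ω]` (file TE1.lean) -/

theorem primSet_zero : primSet 0 = ∅ := by
  rw [Finset.eq_empty_iff_forall_notMem]
  intro a ha
  rw [mem_primSet] at ha
  obtain ⟨h1, h2⟩ := ha
  exact a2_norm_ne_zero h2 (by rw [h1]; rfl)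

/-- `n ↦ ∑_{a primary, N a = n} g a` -/
noncomputable def Dg (g : Eis → ℂ) : ArithmeticFunction ℂ :=
  ⟨fun n => ∑ a ∈ primSet n, g a, by rw [primSet_zero, Finset.sum_empty]⟩

theorem Dg_apply (g : Eis → ℂ) (n : ℕ) : Dg g n = ∑ a ∈ primSet n, g a := rfl

theorem primSet_one : primSet 1 = {1} := by
  ext a
  rw [mem_primSet, Finset.mem_singleton]
  constructor
  · rintro ⟨h1, h2⟩
    have hu : IsUnit a := (eis_isUnit_iff a).2 (by rw [h1]; norm_num)
    exact primary_unique 1 a a2_primary_one hu (by rw [mul_one]; exact h2)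
  · rintro rfl
    exact ⟨by simp, a2_primary_one⟩

theorem Dg_one (g : Eis → ℂ) (h1 : g 1 = 1) : Dg g 1 = 1 := by
  rw [Dg_apply, primSet_one, Finset.sum_singleton, h1]

theorem isMultiplicative_Dg (g : Eis → ℂ) (h1 : g 1 = 1) (hmul : ∀ a b, g (a * b) = g a * g b) :
    (Dg g).IsMultiplicative := by
  refine ⟨Dg_one g h1, ?_⟩
  intro m n h
  haveI := eis_isDomain
  rw [Dg_apply, Dg_apply, Dg_apply, Finset.sum_mul_sum, ← Finset.sum_product']
  symm
  refine Finset.sum_nbij (fun p => p.1 * p.2) ?_ ?_ ?_ ?_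
  · rintro ⟨a, b⟩ hab
    rw [Finset.mem_product, mem_primSet, mem_primSet] at hab
    obtain ⟨⟨h1, h2⟩, h3, h4⟩ := hab
    simp only at h1 h2 h3 h4
    rw [mem_primSet]
    refine ⟨?_, h2.mul h4⟩
    rw [map_mul, h1, h3]
    push_cast
    ring
  · rintro ⟨a, b⟩ hab ⟨a', b'⟩ hab' heq
    simp only [Finset.coe_product, Set.mem_prod, Finset.mem_coe, mem_primSet] at hab hab' heq
    obtain ⟨⟨h1, h2⟩, h3, h4⟩ := hab
    obtain ⟨⟨h1', h2'⟩, h3', h4'⟩ := hab'
    have hcop : IsCoprime (m : ℤ) (n : ℤ) := Nat.isCoprime_iff_coprime.2 h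
    have hab : IsCoprime a b' := a2_isCoprime (by rw [h1, h3']; exact hcop)
    have h5 : a ∣ a' := hab.dvd_of_dvd_mul_right (by rw [← heq]; exact dvd_mul_right _ _)
    have h6 : a' = a := a2_eq_of_dvd h2 h2' h5 (by rw [h1, h1'])
    subst h6
    have ha0 : a' ≠ 0 := by
      rintro rfl
      exact a2_not_primary_zero h2
    have h7 : b = b' := mul_left_cancel₀ ha0 heq
    rw [h7]
  · intro c hc
    rw [Finset.mem_coe, mem_primSet] at hc
    obtain ⟨a, b, h1, h2, h3, h4, h5⟩ := a2_split hc.2 h hc.1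
    refine ⟨(a, b), ?_, h5⟩
    rw [Finset.mem_coe, Finset.mem_product, mem_primSet, mem_primSet]
    exact ⟨⟨h3, h1⟩, h4, h2⟩
  · rintro ⟨a, b⟩ _
    exact (hmul a b).symm

theorem g_pow (g : Eis → ℂ) (h1 : g 1 = 1) (hmul : ∀ a b, g (a * b) = g a * g b) (a : Eis)
    (k : ℕ) : g (a ^ k) = g a ^ k := by
  induction k with
  | zero => rw [pow_zero, pow_zero, h1]
  | succ k ih => rw [pow_succ, pow_succ, hmul, ih]

theorem Dg_split (g : Eis → ℂ) (h1 : g 1 = 1) (hmul : ∀ a b, g (a * b) = g a * g b) (p : ℕ)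
    (hp : p.Prime) (h : p % 3 = 1) (a : Eis) (ha : Primary a) (hn : a.norm = p) (k : ℕ) :
    Dg g (p ^ k) = ∑ i ∈ Finset.range (k + 1), g a ^ i * g (star a) ^ (k - i) := by
  classical
  rw [Dg_apply]
  symm
  refine Finset.sum_bij (fun i _ => a ^ i * (star a) ^ (k - i)) ?_ ?_ ?_ ?_
  · intro i hi
    have hi' : i ≤ k := by
      rw [Finset.mem_range] at hi; omega
    rw [mem_primSet]
    refine ⟨?_, Primary.mul (a3_primary_pow ha i) (a3_primary_pow (Primary.star ha) _)⟩
    rw [map_mul, a3_norm_pow, a3_norm_pow, QuadraticAlgebra.norm_star, hn, ← pow_add,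
      Nat.add_sub_cancel' hi']
    push_cast; rfl
  · intro i hi j hj he
    have hi' : i ≤ k := by
      rw [Finset.mem_range] at hi; omega
    have hj' : j ≤ k := by
      rw [Finset.mem_range] at hj; omega
    rcases lt_trichotomy i j with h1 | h1 | h1
    · exact (a3_inj_aux p hp h a hn k i j h1 hj' he).elim
    · exact h1
    · exact (a3_inj_aux p hp h a hn k j i h1 hi' he.symm).elim
  · intro b hb
    rw [mem_primSet] at hb
    obtain ⟨i, hi, hbi⟩ := eq_pow_mul_pow p hp a ha hn k b hb.2 (by rw [hb.1]; push_cast; rfl)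
    exact ⟨i, Finset.mem_range.2 (by omega), hbi.symm⟩
  · intro i _
    rw [hmul, g_pow g h1 hmul, g_pow g h1 hmul]

theorem Dg_inert (g : Eis → ℂ) (h1 : g 1 = 1) (hmul : ∀ a b, g (a * b) = g a * g b) (p : ℕ)
    (hp : p.Prime) (h : p % 3 = 2) (k : ℕ) :
    Dg g (p ^ k) = if Even k then g (-(p : Eis)) ^ (k / 2) else 0 := by
  have hprim : Primary (-(p : Eis)) := by
    rw [primary_iff, QuadraticAlgebra.re_neg, QuadraticAlgebra.im_neg,
      QuadraticAlgebra.re_natCast, QuadraticAlgebra.im_natCast]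
    constructor
    · omega
    · norm_num
  rw [Dg_apply]
  split_ifs with hk
  · have h2 : primSet (p ^ k) = {(-(p : Eis)) ^ (k / 2)} := by
      ext b
      rw [mem_primSet, Finset.mem_singleton]
      constructor
      · rintro ⟨h1, h2⟩
        exact (eq_neg_pow p hp h k b h2 (by rw [h1]; push_cast; rfl)).2
      · rintro rfl
        refine ⟨?_, a3_primary_pow hprim _⟩
        rw [a3_norm_pow, QuadraticAlgebra.norm_neg, QuadraticAlgebra.norm_natCast]
        push_cast
        rw [← pow_mul, Nat.mul_div_cancel' hk.two_dvd]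
    rw [h2, Finset.sum_singleton, g_pow g h1 hmul]
  · apply Finset.sum_eq_zero
    intro b hb
    rw [mem_primSet] at hb
    exact absurd (eq_neg_pow p hp h k b hb.2 (by rw [hb.1]; push_cast; rfl)).1 hk

theorem loc_Dg_split (g : Eis → ℂ) (h1 : g 1 = 1) (hmul : ∀ a b, g (a * b) = g a * g b) (p : ℕ)
    (hp : p.Prime) (h : p % 3 = 1) (a : Eis) (ha : Primary a) (hn : a.norm = p) :
    loc p (Dg g) * ((1 - PowerSeries.C (g a) * PowerSeries.X) *
      (1 - PowerSeries.C (g (star a)) * PowerSeries.X)) = 1 := by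
  have h2 : loc p (Dg g) = PowerSeries.mk (fun k => (g a) ^ k) *
      PowerSeries.mk (fun k => (g (star a)) ^ k) := by
    ext k
    rw [coeff_loc, Dg_split g h1 hmul p hp h a ha hn k, PowerSeries.coeff_mul,
      Finset.Nat.sum_antidiagonal_eq_sum_range_succ_mk]
    refine Finset.sum_congr rfl fun i hi => ?_
    rw [PowerSeries.coeff_mk, PowerSeries.coeff_mk]
  have h3 := geom_mul (g a)
  have h4 := geom_mul (g (star a))
  rw [h2]
  linear_combination (PowerSeries.mk (fun k => (g (star a)) ^ k)) *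
    (1 - PowerSeries.C (g (star a)) * PowerSeries.X) * h3 + h4

theorem loc_Dg_inert (g : Eis → ℂ) (h1 : g 1 = 1) (hmul : ∀ a b, g (a * b) = g a * g b) (p : ℕ)
    (hp : p.Prime) (h : p % 3 = 2) :
    loc p (Dg g) * (1 - PowerSeries.C (g (-(p : Eis))) * PowerSeries.X ^ 2) = 1 := by
  have hD := Dg_inert g h1 hmul p hp h
  ext k
  rw [mul_sub, mul_one, ← mul_assoc, mul_comm _ (PowerSeries.C _), mul_assoc, map_sub,
    PowerSeries.coeff_C_mul, PowerSeries.coeff_one, PowerSeries.coeff_mul_X_pow', coeff_loc]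
  rcases Nat.lt_or_ge k 2 with hk | hk
  · rw [if_neg (by omega), mul_zero, sub_zero]
    rcases (by omega : k = 0 ∨ k = 1) with rfl | rfl
    · rw [if_pos rfl, pow_zero, Dg_one g h1]
    · rw [hD 1, if_neg (by decide), if_neg (by decide)]
  · rw [if_pos hk, if_neg (by omega), coeff_loc, hD k, hD (k - 2)]
    obtain ⟨j, rfl⟩ : ∃ j, k = j + 2 := ⟨k - 2, by omega⟩
    rw [Nat.add_sub_cancel]
    by_cases hj : Even j
    · rw [if_pos (hj.add (by decide)), if_pos hj, show (j + 2) / 2 = j / 2 + 1 by omega, pow_succ']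
      ring
    · rw [if_neg hj, if_neg (by
        intro h5
        exact hj (by rwa [Nat.even_add, iff_true_right (by decide)] at h5))]
      ring

theorem loc_Dg_three (g : Eis → ℂ) (h1 : g 1 = 1) : loc 3 (Dg g) = 1 := by
  ext k
  rw [coeff_loc, PowerSeries.coeff_one]
  by_cases hk : k = 0
  · rw [hk, pow_zero, Dg_one g h1, if_pos rfl]
  · rw [if_neg hk, Dg_apply]
    apply Finset.sum_eq_zero
    intro a ha
    exfalso
    rw [mem_primSet] at ha
    have h1 := a3_primary_norm ha.2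
    rw [ha.1] at h1
    obtain ⟨j, rfl⟩ := Nat.exists_eq_succ_of_ne_zero hk
    rw [pow_succ] at h1
    push_cast at h1
    omega

end CMT
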