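import Pool.Agent.MP_dfae13_nt.T.TA1
import Pool.Agent.MP_dfae13_nt.T.TA2
import Pool.Agent.MP_dfae13_nt.T.TB1
import Pool.Agent.MP_dfae13_nt.T.TB2
import Pool.Agent.MP_dfae13_nt.T.TC1
import Pool.Agent.MP_dfae13_nt.T.TC2
import Pool.Agent.MP_dfae13_nt.T.TC3
import Pool.Agent.MP_dfae13_nt.T.TD5
import Pool.Agent.MP_dfae13_nt.T.TE1
import Pool.Agent.MP_ae0bd0_nt.CM.F2
import Pool.Agent.MP_ae0bd0_nt.CM.F4

set_option autoImplicit false

open ArithmeticFunction Filter IsDedekindDomain NumberField
open CM27
open scoped ComplexConjugate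

namespace CMT

/-! ## [CMT-E2] the `L`-function of `y² + y = x³ + e` over `ℚ(ω)` -/

section general
variable (K : Type) [Field K] [NumberField K] (W : WeierstrassCurve K)

/-- The local Euler factors of `W` -/
noncomputable def fW (v : HeightOneSpectrum (𝓞 K)) : ArithmeticFunction ℤ :=
  (W.baseChange (v.adicCompletion K)).localEulerFactor (v.adicCompletionIntegers K)

theorem constantCoeff_localPowerSeries' (v : HeightOneSpectrum (𝓞 K)) :
    PowerSeries.constantCoeff ((W.baseChange (v.adicCompletion K)).localPowerSeries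
      (v.adicCompletionIntegers K)) = 1 := by
  rw [WeierstrassCurve.localPowerSeries, PowerSeries.constantCoeff_invOfUnit]
  simp

theorem LFunctionW_eq : W.LFunction = eulerProduct (fW K W) := rfl

theorem isMultiplicative_LFunctionW : W.LFunction.IsMultiplicative := by
  rw [LFunctionW_eq]
  refine isMultiplicative_eulerProduct _ fun v => ?_
  exact isMultiplicative_ofPowerSeries_of_isPrimePow _ (isPrimePow_qv K v) _
    (constantCoeff_localPowerSeries' K W v)

theorem loc_LFunctionW {p : ℕ} (hp : p.Prime) (S : Finset (HeightOneSpectrum (𝓞 K)))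
    (hS : ∀ v : HeightOneSpectrum (𝓞 K), (p : 𝓞 K) ∈ v.asIdeal → v ∈ S) :
    loc p W.LFunction = ∏ v ∈ S, loc p (fW K W v) :=
  loc_eulerProduct hp (qv K) _ (constantCoeff_localPowerSeries' K W) (one_lt_qv K) S
    fun v hv => coprime_qv K hp v fun h => hv (hS v h)

/-- the `L`-function with complex values -/
noncomputable def LCW : ArithmeticFunction ℂ :=
  ⟨fun n => (W.LFunction n : ℂ), by simp⟩

theorem LCW_apply (n : ℕ) : LCW K W n = (W.LFunction n : ℂ) := rfl

theorem isMultiplicative_LCW : (LCW K W).IsMultiplicative := by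
  have h := isMultiplicative_LFunctionW K W
  constructor
  · rw [LCW_apply, h.1, Int.cast_one]
  · intro a b hab
    rw [LCW_apply, LCW_apply, LCW_apply, h.2 hab, Int.cast_mul]

theorem loc_LCW (p : ℕ) :
    loc p (LCW K W) = PowerSeries.map (Int.castRingHom ℂ) (loc p W.LFunction) := by
  ext k
  rw [PowerSeries.coeff_map, coeff_loc, coeff_loc, LCW_apply]
  rfl

theorem fW_one (v : HeightOneSpectrum (𝓞 K))
    (h : (W.baseChange (v.adicCompletion K)).localPolynomial (v.adicCompletionIntegers K) = 1) :
    fW K W v = 1 := by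
  unfold fW WeierstrassCurve.localEulerFactor WeierstrassCurve.localPowerSeries
  rw [h]
  have h1 : PowerSeries.invOfUnit ((1 : Polynomial ℤ) : PowerSeries ℤ) 1 = 1 := by
    have h2 := PowerSeries.mul_invOfUnit ((1 : Polynomial ℤ) : PowerSeries ℤ) 1 (by simp)
    rw [Polynomial.coe_one, one_mul] at h2
    rw [Polynomial.coe_one]
    exact h2
  rw [h1, map_one]

theorem loc_fW (v : HeightOneSpectrum (𝓞 K)) {p f : ℕ} (hp : p.Prime) (hf : 0 < f) (a b : ℤ)
    (hq : Nat.card (IsLocalRing.ResidueField (v.adicCompletionIntegers K)) = p ^ f)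
    (h : (W.baseChange (v.adicCompletion K)).localPolynomial (v.adicCompletionIntegers K) =
      1 - Polynomial.C a * Polynomial.X + Polynomial.C b * Polynomial.X ^ 2) :
    PowerSeries.map (Int.castRingHom ℂ) (loc p (fW K W v)) *
      (1 - PowerSeries.C (a : ℂ) * PowerSeries.X ^ f +
        PowerSeries.C (b : ℂ) * (PowerSeries.X ^ f * PowerSeries.X ^ f)) = 1 := by
  have h1 : fW K W v = ofPowerSeries (p ^ f) (PowerSeries.invOfUnit
        ((1 - Polynomial.C a * Polynomial.X + Polynomial.C b * Polynomial.X ^ 2 :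
          Polynomial ℤ) : PowerSeries ℤ) 1) := by
    unfold fW WeierstrassCurve.localEulerFactor WeierstrassCurve.localPowerSeries
    rw [h, hq]
  have h2 : ((1 - Polynomial.C a * Polynomial.X + Polynomial.C b * Polynomial.X ^ 2 :
          Polynomial ℤ) : PowerSeries ℤ) =
      1 - PowerSeries.C a * PowerSeries.X + PowerSeries.C b * PowerSeries.X ^ 2 := by
    rw [Polynomial.coe_add, Polynomial.coe_sub, Polynomial.coe_mul, Polynomial.coe_mul,
      Polynomial.coe_pow, Polynomial.coe_C, Polynomial.coe_C, Polynomial.coe_X, Polynomial.coe_one]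
  rw [h2] at h1
  have h3 : fW K W v * ofPowerSeries (p ^ f) (1 - PowerSeries.C a * PowerSeries.X +
      PowerSeries.C b * PowerSeries.X ^ 2) = 1 := by
    rw [h1, ← map_mul, PowerSeries.invOfUnit_mul, map_one]
    simp
  have h4 := congrArg (loc p) h3
  rw [loc_mul hp, loc_one hp, loc_quad hp hf] at h4
  have h5 := congrArg (PowerSeries.map (Int.castRingHom ℂ)) h4
  rw [map_mul, map_one] at h5
  have h8 : PowerSeries.map (Int.castRingHom ℂ) (1 - PowerSeries.C a * PowerSeries.X ^ f +
      PowerSeries.C b * (PowerSeries.X ^ f * PowerSeries.X ^ f)) =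
      1 - PowerSeries.C (a : ℂ) * PowerSeries.X ^ f +
        PowerSeries.C (b : ℂ) * (PowerSeries.X ^ f * PowerSeries.X ^ f) := by
    simp only [map_add, map_sub, map_mul, map_one, PowerSeries.map_C, map_pow, PowerSeries.map_X,
      Int.coe_castRingHom]
  rw [h8] at h5
  exact h5

end general

/-! ### elementary facts on Eisenstein primes -/

theorem emb_star (a : Eis) : emb (star a) = conj (emb a) := by
  apply Complex.ext
  · rw [Complex.conj_re, emb_re, emb_re, QuadraticAlgebra.re_star, QuadraticAlgebra.im_star]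
    push_cast
    ring
  · rw [Complex.conj_im, emb_im, emb_im, QuadraticAlgebra.im_star]
    push_cast
    ring

/-- the number of points of `E` over the residue field of a primary prime -/
theorem card_E_primary (b : Eis) (hb : Primary b) (p f : ℕ) (hp : p.Prime)
    (h : (p % 3 = 1 ∧ f = 1 ∧ b.norm = p) ∨ (p % 3 = 2 ∧ f = 2 ∧ b = -(p : Eis)))
    (k : Type) [Field k] [Finite k] (hk : Nat.card k = p ^ f) :
    (Nat.card (E k).toAffine.Point : ℂ) = p ^ f + 1 - (emb b + conj (emb b)) := by
  have h3 : p ≠ 3 := by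
    rintro rfl
    rcases h with h | h
    · exact absurd h.1 (by norm_num)
    · exact absurd h.1 (by norm_num)
  obtain ⟨α, β, hαβ, hpsi, hpts⟩ := local_data p hp h3
  rcases h with ⟨h1, rfl, hn⟩ | ⟨h1, rfl, rfl⟩
  · rw [hpts 1 k one_pos hk]
    have h2 := hpsi 1
    rw [Finset.sum_range_succ, Finset.sum_range_succ, Finset.sum_range_zero] at h2
    simp only [pow_zero, pow_one, zero_add, one_mul, mul_one, Nat.sub_self, Nat.sub_zero] at h2
    have h4 := psi_split p hp h1 b hb hn 1
    rw [pow_one] at h4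
    rw [Finset.sum_range_succ, Finset.sum_range_succ, Finset.sum_range_zero] at h4
    simp only [pow_zero, pow_one, zero_add, one_mul, mul_one, Nat.sub_self, Nat.sub_zero] at h4
    have h5 : α + β = emb b + conj (emb b) := by
      linear_combination h4 - h2
    rw [pow_one, pow_one, pow_one, h5]
  · rw [hpts 2 k two_pos hk]
    have h2 := hpsi 2
    rw [Finset.sum_range_succ, Finset.sum_range_succ, Finset.sum_range_succ,
      Finset.sum_range_zero] at h2
    simp only [pow_zero, pow_one, zero_add, one_mul, mul_one, Nat.sub_self, Nat.sub_zero] at h2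
    norm_num at h2
    have h4 := psi_inert p hp h1 2
    rw [h2] at h4
    norm_num at h4
    have h5 : α ^ 2 + β ^ 2 = -2 * (p : ℂ) := by linear_combination h4 - hαβ
    rw [h5, map_neg, map_natCast, map_neg, Complex.conj_natCast]
    ring

/-! ### primes dividing `gS S` -/

theorem primary_eq_of_dvd {b b' : Eis} (hb : Primary b) (hp : Prime b) (hb' : Primary b')
    (hp' : Prime b') (h : b ∣ b') : b = b' := by
  haveI := eis_isDomain
  obtain ⟨c, hc⟩ := h
  have hu : IsUnit c := by
    rcases hp'.irreducible.isUnit_or_isUnit hc with h1 | h1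
    · exact absurd h1 hp.not_unit
    · exact h1
  have h2 : Primary (c * b) := by rw [mul_comm, ← hc]; exact hb'
  rw [hc, primary_unique b c hb hu h2, mul_one]

theorem gS_dvd {S : Finset Eis} (hS : ∀ b ∈ S, GoodEis b) {b : Eis} (hb : Primary b)
    (hp : Prime b) (h : b ∣ gS S) : b ∈ S := by
  obtain ⟨b', hb', h1⟩ := (Prime.dvd_finset_prod_iff hp _).1 h
  rw [primary_eq_of_dvd hb hp (hS b' hb').1 (hS b' hb').prime h1]
  exact hb'

theorem gS_sq_dvd {S : Finset Eis} (hS : ∀ b ∈ S, GoodEis b) {b : Eis} (hb : Primary b)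
    (hp : Prime b) (h : b ∣ gS S) : ∃ c, gS S = b * c ∧ ¬ b ∣ c := by
  classical
  have h1 := gS_dvd hS hb hp h
  refine ⟨gS (S.erase b), ?_, ?_⟩
  · rw [gS, gS, Finset.mul_prod_erase S (fun x => x) h1]
  · intro h2
    have h3 := gS_dvd (fun x hx => hS x (Finset.mem_of_mem_erase hx)) hb hp h2
    exact (Finset.notMem_erase b S) h3

end CMT
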