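import Pool.Agent.MP_dfae13_nt.T.TD1

set_option autoImplicit false

open CM27

namespace CMT

/-! ## [CMT-D2] the symbol `XS` (file TD2.lean) -/

theorem GoodEis.prime {b : Eis} (h : GoodEis b) : Prime b := by
  obtain ⟨_, p, hp, hn⟩ := h
  exact a3_prime_of_norm p hp.1 b hn

theorem d2_ne_two {p : ℕ} (hp : GoodPrime p) : p ≠ 2 := by
  rintro rfl
  exact absurd hp.2.1 (by norm_num)

theorem primary_gS (S : Finset Eis) (hS : ∀ b ∈ S, GoodEis b) : Primary (gS S) := by
  classical
  unfold gS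
  induction S using Finset.induction_on with
  | empty => simpa using a3_primary_one
  | insert b S hb ih =>
    rw [Finset.prod_insert hb]
    exact (hS b (Finset.mem_insert_self b S)).1.mul (ih fun c hc => hS c (Finset.mem_insert_of_mem hc))

theorem XZ_mul (S : Finset Eis) (hS : ∀ b ∈ S, GoodEis b) (a a' : Eis) :
    XZ S (a * a') = XZ S a * XZ S a' := by
  unfold XZ
  rw [← Finset.prod_mul_distrib]
  refine Finset.prod_congr rfl fun b hb => ?_
  obtain ⟨_, p, hp, hn⟩ := hS b hb
  exact qr_mul b p hp.1 (d2_ne_two hp) hn a a'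

theorem XZ_one (S : Finset Eis) (hS : ∀ b ∈ S, GoodEis b) : XZ S 1 = 1 := by
  unfold XZ
  exact Finset.prod_eq_one fun b hb => qr_one b (hS b hb).prime

theorem XZ_add (S : Finset Eis) (a c : Eis) : XZ S (a + gS S * c) = XZ S a := by
  unfold XZ
  refine Finset.prod_congr rfl fun b hb => ?_
  obtain ⟨r, hr⟩ : b ∣ gS S := Finset.dvd_prod_of_mem (fun x => x) hb
  rw [hr, mul_assoc]
  exact qr_add b a (r * c)

theorem XZ_eq_zero (S : Finset Eis) (hS : ∀ b ∈ S, GoodEis b) (a : Eis) :
    XZ S a = 0 ↔ ¬ IsCoprime a (gS S) := by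
  have := eis_isDomain
  have := eis_pid
  unfold XZ gS
  rw [Finset.prod_eq_zero_iff, IsCoprime.prod_right_iff]
  push Not
  refine exists_congr fun b => and_congr_right fun hb => ?_
  rw [qr_eq_zero, isCoprime_comm, (hS b hb).prime.irreducible.coprime_iff_not_dvd, not_not]

theorem XZ_values (S : Finset Eis) (a : Eis) : XZ S a = 0 ∨ XZ S a = 1 ∨ XZ S a = -1 := by
  classical
  unfold XZ
  induction S using Finset.induction_on with
  | empty => simp
  | insert b S hb ih =>
    rw [Finset.prod_insert hb]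
    rcases qr_values b a with h | h | h <;> rcases ih with h' | h' | h' <;> rw [h, h'] <;> simp

theorem d2_norm_gS (S : Finset Eis) : (gS S).norm = ∏ b ∈ S, b.norm := by
  unfold gS
  exact map_prod QuadraticAlgebra.norm (fun x => x) S

/-- the norm of `gS S` is positive and all its prime factors are good -/
theorem good_of_dvd_norm (S : Finset Eis) (hS : ∀ b ∈ S, GoodEis b) (p : ℕ) (hp : p.Prime)
    (h : (p : ℤ) ∣ (gS S).norm) : GoodPrime p := by
  rw [d2_norm_gS, (Nat.prime_iff_prime_int.1 hp).dvd_finsetProd_iff] at h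
  obtain ⟨b, hb, hpb⟩ := h
  obtain ⟨_, q, hq, hn⟩ := hS b hb
  rw [hn] at hpb
  have h1 : p ∣ q := by exact_mod_cast hpb
  rw [(Nat.prime_dvd_prime_iff_eq hp hq.1).1 h1]
  exact hq

theorem d2_not_dvd_im (b : Eis) (p : ℕ) (hp : p.Prime) (hn : b.norm = p) : ¬ (p : ℤ) ∣ b.im := by
  intro h
  have hpI := Nat.prime_iff_prime_int.1 hp
  rw [norm_eq] at hn
  have h1 : (p : ℤ) ∣ b.re ^ 2 := by
    have : b.re ^ 2 = p + b.im * (b.re - b.im) := by linear_combination hn
    rw [this]
    exact dvd_add (dvd_refl _) (dvd_mul_of_dvd_left h _)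
  have h2 := hpI.dvd_of_dvd_pow h1
  obtain ⟨x, hx⟩ := h2
  obtain ⟨y, hy⟩ := h
  rw [hx, hy] at hn
  have h3 : (p : ℤ) * (p * (x ^ 2 - x * y + y ^ 2) - 1) = 0 := by linear_combination hn
  have hp0 : (p : ℤ) ≠ 0 := hpI.ne_zero
  have h4 : (p : ℤ) * (x ^ 2 - x * y + y ^ 2) = 1 := by
    rcases mul_eq_zero.1 h3 with h | h
    · exact absurd h hp0
    · linarith
  exact hpI.not_isUnit (IsUnit.of_mul_eq_one _ h4)

theorem d2_qr_int (b : Eis) (p : ℕ) (hp : p.Prime) (hp2 : p ≠ 2) (hn : b.norm = p) (n : ℤ) :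
    qr b (n : Eis) = jacobiSym n p := by
  have : Fact p.Prime := ⟨hp⟩
  have hd := d2_not_dvd_im b p hp hn
  rw [qr_eq_legendre b p hp2 hn, ← jacobiSym.legendreSym.to_jacobiSym]
  have h1 : ((n : Eis).re * b.im - (n : Eis).im * b.re) * b.im = n * (b.im * b.im) := by
    simp
    ring
  rw [h1, legendreSym.mul, legendreSym.mul]
  have h2 : legendreSym p b.im * legendreSym p b.im = 1 := by
    rw [← pow_two]
    apply legendreSym.sq_one
    rw [Ne, ZMod.intCast_zmod_eq_zero_iff_dvd]
    exact hd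
  rw [h2, mul_one]

/-- the symbol of a rational integer -/
theorem XZ_int (S : Finset Eis) (hS : ∀ b ∈ S, GoodEis b) (n : ℤ) :
    XZ S (n : Eis) = jacobiSym n (gS S).norm.natAbs := by
  classical
  rw [d2_norm_gS]
  unfold XZ
  induction S using Finset.induction_on with
  | empty => simp
  | insert b S hb ih =>
    have hS' : ∀ c ∈ S, GoodEis c := fun c hc => hS c (Finset.mem_insert_of_mem hc)
    rw [Finset.prod_insert hb, Finset.prod_insert hb, Int.natAbs_mul, ih hS']
    obtain ⟨_, p, hp, hn⟩ := hS b (Finset.mem_insert_self b S)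
    have h1 : b.norm.natAbs = p := by rw [hn]; rfl
    have h2 : (∏ c ∈ S, c.norm) ≠ 0 := by
      rw [Finset.prod_ne_zero_iff]
      intro c hc
      obtain ⟨_, q, hq, hm⟩ := hS' c hc
      rw [hm]
      exact_mod_cast hq.1.ne_zero
    rw [h1, jacobiSym.mul_right' n hp.1.ne_zero (Int.natAbs_ne_zero.2 h2),
      d2_qr_int b p hp.1 (d2_ne_two hp) hn]

theorem d2_star_dvd {a b : Eis} : star b ∣ star a ↔ b ∣ a := by
  constructor
  · rintro ⟨c, hc⟩
    refine ⟨star c, ?_⟩
    have := congrArg star hc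
    rw [star_star, star_mul', star_star] at this
    exact this
  · rintro ⟨c, hc⟩
    exact ⟨star c, by rw [hc, star_mul']⟩

theorem d2_qr_star (a b : Eis) : qr (star b) (star a) = qr b a := by
  have h0 : star b ∣ star a ↔ b ∣ a := d2_star_dvd
  have h1 : (∃ x, star b ∣ x ^ 2 - star a) ↔ ∃ x, b ∣ x ^ 2 - a := by
    constructor
    · rintro ⟨x, hx⟩
      refine ⟨star x, ?_⟩
      rw [← d2_star_dvd]
      simpa using hx
    · rintro ⟨x, hx⟩
      refine ⟨star x, ?_⟩
      rw [← d2_star_dvd] at hx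
      simpa using hx
  unfold qr
  by_cases h2 : b ∣ a
  · rw [if_pos h2, if_pos (h0.2 h2)]
  · rw [if_neg h2, if_neg (fun h => h2 (h0.1 h))]
    by_cases h3 : ∃ x, b ∣ x ^ 2 - a
    · rw [if_pos h3, if_pos (h1.2 h3)]
    · rw [if_neg h3, if_neg (fun h => h3 (h1.1 h))]

theorem XZ_star (S : Finset Eis) (a : Eis) : XZ (S.image star) (star a) = XZ S a := by
  unfold XZ
  rw [Finset.prod_image fun x _ y _ h => star_injective h]
  exact Finset.prod_congr rfl fun b _ => d2_qr_star a b

theorem gS_star (S : Finset Eis) : gS (S.image star) = star (gS S) := by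
  classical
  unfold gS
  rw [Finset.prod_image fun x _ y _ h => star_injective h]
  induction S using Finset.induction_on with
  | empty => simp
  | insert b S hb ih => rw [Finset.prod_insert hb, Finset.prod_insert hb, star_mul', ih]

theorem good_star (S : Finset Eis) (hS : ∀ b ∈ S, GoodEis b) : ∀ b ∈ S.image star, GoodEis b := by
  intro b hb
  rw [Finset.mem_image] at hb
  obtain ⟨c, hc, rfl⟩ := hb
  obtain ⟨h1, p, hp, hn⟩ := hS c hc
  exact ⟨h1.star, p, hp, by rw [QuadraticAlgebra.norm_star, hn]⟩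

end CMT
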