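import Pool.Agent.MP_dfae13_nt.T.G2
import Pool.Agent.MP_9ab903_nt.AN.B5
import Pool.Agent.MP_ae0bd0_nt.CM.A2
import Pool.Agent.MP_ae0bd0_nt.CM.A3
import Pool.Agent.MP_ae0bd0_nt.CM.B6
import Pool.Agent.MP_dfae13_nt.T.TD2

/-!
# [CMT] part (H): the value at `1` of the twisted series

`X` is a quadratic character modulo `g` on `ℤ[ω]`.
-/

set_option autoImplicit false

open scoped ComplexConjugate
open Filter Topology Polynomial

namespace CMT

open CM27

/-- A quadratic character modulo `g`. -/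
structure IsQ (g : Eis) (X : Eis → ℂ) : Prop where
  mul : ∀ a b, X (a * b) = X a * X b
  one : X 1 = 1
  per : ∀ a b, X (a + g * b) = X a
  val : ∀ a, X a = 0 ∨ X a = 1 ∨ X a = -1
  zero : ∀ a, X a = 0 ↔ ¬ IsCoprime a g

variable {g : Eis} {X : Eis → ℂ}

theorem h_ne (hg : Odd g.norm) : g ≠ 0 := by
  rintro rfl
  rw [norm_eq] at hg
  simp at hg

theorem h_two_cop (hg : Odd g.norm) : IsCoprime (-2 : Eis) g := by
  obtain ⟨k, hk⟩ := hg
  refine ⟨(k : Eis), star g, ?_⟩
  have h1 : star g * g = ((g.norm : ℤ) : Eis) := by rw [a2_cast_norm, mul_comm]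
  rw [h1, hk]
  push_cast
  ring

theorem IsQ.isX (hX : IsQ g X) (hg : Odd g.norm) : IsX g X where
  mul := hX.mul
  one := hX.one
  per := hX.per
  le_one a := by
    rcases hX.val a with h | h | h <;> rw [h] <;> simp
  two := by
    rcases hX.val (-2) with h | h | h
    · exact absurd (h_two_cop hg) ((hX.zero _).1 h)
    · rw [h]; simp
    · rw [h]; simp

theorem h_conj (hX : IsQ g X) (a : Eis) : conj (X a) = X a := by
  rcases hX.val a with h | h | h <;> rw [h] <;> simp

theorem h_map (hX : IsQ g X) (σ : ℂ →+* ℂ) (a : Eis) : σ (X a) = X a := by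
  rcases hX.val a with h | h | h <;> rw [h] <;> simp

theorem h_star_cop (a b : Eis) : IsCoprime (star a) (star b) ↔ IsCoprime a b := by
  have h : ∀ a b : Eis, IsCoprime a b → IsCoprime (star a) (star b) := by
    rintro a b ⟨u, v, huv⟩
    refine ⟨star u, star v, ?_⟩
    have h1 := congrArg star huv
    rw [star_add, star_mul', star_mul', star_one] at h1
    exact h1
  exact ⟨fun h1 => by simpa only [star_star] using h _ _ h1, h a b⟩

theorem IsQ.star (hX : IsQ g X) : IsQ (star g) (fun a => X (star a)) where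
  mul a b := by rw [star_mul', hX.mul]
  one := by rw [star_one, hX.one]
  per a b := by
    have h : Star.star (a + Star.star g * b) = Star.star a + g * Star.star b := by
      rw [star_add, star_mul', star_star]
    rw [h, hX.per]
  val a := hX.val _
  zero a := by
    rw [hX.zero, ← h_star_cop, star_star]

theorem h_off (hg : g ≠ 0) (x : Eis) : Off (emb (1 + 3 * x) / (3 * emb g)) := I3.off_aux g x hg

theorem TX_eq (hg : g ≠ 0) : TX g X = OmC * SX g X lx := by
  unfold TX SX
  rw [mul_finsum]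
  refine finsum_congr fun δ => ?_
  rw [lam_eq _ (h_off hg _)]
  ring

theorem h_natAbs (R : Type*) [Ring R] (g : Eis) :
    ((g.norm.natAbs : ℕ) : R) = ((g.norm : ℤ) : R) := by
  rw [← Int.cast_natCast, Int.natAbs_of_nonneg (norm_nonneg' g)]

theorem h_emb_star (g : Eis) : emb g * emb (star g) = ((g.norm.natAbs : ℕ) : ℂ) := by
  rw [← map_mul, ← a2_cast_norm, map_intCast, h_natAbs]

/-- the norm times the point is a lattice point -/
theorem h_norm_mul (hg : g ≠ 0) (x : Eis) :
    ((3 * g.norm.natAbs : ℕ) : ℂ) * (emb (1 + 3 * x) / (3 * emb g)) ∈ Set.range emb := by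
  have hgC : emb g ≠ 0 := emb_ne hg
  have h1 := h_emb_star g
  refine ⟨(1 + 3 * x) * star g, ?_⟩
  rw [map_mul]
  push_cast
  rw [← h1]
  field_simp

theorem h_notmem (hg : g ≠ 0) (x : Eis) : emb (1 + 3 * x) / (3 * emb g) ∉ Set.range emb :=
  b1_off_not_mem (h_off hg x)

theorem h_odd_abs (hg : Odd g.norm) : Odd (3 * g.norm.natAbs) :=
  Odd.mul (by decide) (Int.natAbs_odd.2 hg)

/-- integrality of the values -/
theorem h_lx_val (hg : Odd g.norm) (A : ValuationSubring ℂ) (hA : A.valuation 2 < 1) (x : Eis) :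
    A.valuation (lx (emb (1 + 3 * x) / (3 * emb g))) ≤ 1 := by
  have hg0 := h_ne hg
  have hxv := x_val A hA xw xw_add xw_two (3 * g.norm.natAbs) (h_odd_abs hg) _
    (h_norm_mul hg0 x) (h_notmem hg0 x)
  exact (val_slope A hA _ _ hxv (weq _ (h_notmem hg0 x))).2

theorem h_lx_alg (hg : Odd g.norm) (x : Eis) :
    IsAlgebraic ℚ (lx (emb (1 + 3 * x) / (3 * emb g))) :=
  lx_alg (3 * g.norm.natAbs) (h_odd_abs hg) _ (h_norm_mul (h_ne hg) x)

theorem SX_lx_alg (hX : IsQ g X) (hg : Odd g.norm) : IsAlgebraic ℚ (SX g X lx) := by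
  have hfinite : Finite (Eis ⧸ Ideal.span {g}) := I3.quot_finite g (h_ne hg)
  have : Fintype (Eis ⧸ Ideal.span {g}) := Fintype.ofFinite _
  have key : ∀ z : ℂ, z ∈ algebraicClosure ℚ ℂ ↔ IsAlgebraic ℚ z := fun z => mem_algebraicClosure_iff
  rw [← key, SX, finsum_eq_sum_of_fintype]
  refine sum_mem fun δ _ => mul_mem ?_ ?_
  · rcases hX.val (1 + 3 * δ.out) with h | h | h <;> rw [h]
    · exact zero_mem _
    · exact one_mem _
    · exact neg_mem (one_mem _)
  · rw [key]
    exact h_lx_alg hg _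

/-- the value is a `2`-adic unit -/
theorem SX_val (hX : IsQ g X) (hg : Odd g.norm) (A : ValuationSubring ℂ)
    (hA : A.valuation 2 < 1) (P : ℂ) (hP : TT g = P * lam (1 / 3)) (hPA : A.valuation P = 1) :
    A.valuation (SX g X lx) = 1 := by
  classical
  have hg0 := h_ne hg
  have hfinite : Finite (Eis ⧸ Ideal.span {g}) := I3.quot_finite g hg0
  have : Fintype (Eis ⧸ Ideal.span {g}) := Fintype.ofFinite _
  have hthird := b4_third_val A hA
  have hoff3 : Off (1 / 3) := by
    have hz3 : ((3 : ℕ) : ℂ) * (1 / 3) ∈ Set.range emb := ⟨1, by rw [map_one]; norm_num⟩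
    exact off_of_odd 3 (by decide) (1 / 3) hz3 b4_third_notmem
  have hT2 : ∑ δ : Eis ⧸ Ideal.span {g}, (if IsCoprime (1 + 3 * δ.out) g then
      lx (emb (1 + 3 * δ.out) / (3 * emb g)) else 0) = P * lx (1 / 3) := by
    have hT := hP
    rw [lam_eq _ hoff3, TT, finsum_eq_sum_of_fintype] at hT
    have e1 : ∑ δ : Eis ⧸ Ideal.span {g}, (if IsCoprime (1 + 3 * δ.out) g then
        lam (emb (1 + 3 * δ.out) / (3 * emb g)) else 0) =
        OmC * ∑ δ : Eis ⧸ Ideal.span {g}, (if IsCoprime (1 + 3 * δ.out) g then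
          lx (emb (1 + 3 * δ.out) / (3 * emb g)) else 0) := by
      rw [Finset.mul_sum]
      refine Finset.sum_congr rfl fun δ _ => ?_
      split_ifs
      · exact lam_eq _ (h_off hg0 _)
      · rw [mul_zero]
    have e2 : OmC * ∑ δ : Eis ⧸ Ideal.span {g}, (if IsCoprime (1 + 3 * δ.out) g then
          lx (emb (1 + 3 * δ.out) / (3 * emb g)) else 0) = OmC * (P * lx (1 / 3)) := by
      rw [← e1]
      calc _ = P * (OmC * lx (1 / 3)) := by
            rw [← hT]
        _ = _ := by ring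
    exact mul_left_cancel₀ OmC_ne e2
  have hsum : SX g X lx = (∑ δ : Eis ⧸ Ideal.span {g},
      (X (1 + 3 * δ.out) * lx (emb (1 + 3 * δ.out) / (3 * emb g)) -
        (if IsCoprime (1 + 3 * δ.out) g then lx (emb (1 + 3 * δ.out) / (3 * emb g)) else 0)))
      + P * lx (1 / 3) := by
    rw [← hT2, Finset.sum_sub_distrib, SX, finsum_eq_sum_of_fintype]
    ring
  have hkey : A.valuation (∑ δ : Eis ⧸ Ideal.span {g},
      (X (1 + 3 * δ.out) * lx (emb (1 + 3 * δ.out) / (3 * emb g)) -
        (if IsCoprime (1 + 3 * δ.out) g then lx (emb (1 + 3 * δ.out) / (3 * emb g)) else 0))) < 1 := by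
    refine Valuation.map_sum_lt _ one_ne_zero fun δ _ => ?_
    by_cases hc : IsCoprime (1 + 3 * δ.out) g
    · rw [if_pos hc]
      have h1 : X (1 + 3 * δ.out) * lx (emb (1 + 3 * δ.out) / (3 * emb g)) -
          lx (emb (1 + 3 * δ.out) / (3 * emb g)) =
          (X (1 + 3 * δ.out) - 1) * lx (emb (1 + 3 * δ.out) / (3 * emb g)) := by ring
      rw [h1, map_mul]
      have hv : A.valuation (X (1 + 3 * δ.out) - 1) < 1 := by
        rcases hX.val (1 + 3 * δ.out) with h | h | h
        · exact absurd hc ((hX.zero _).1 h)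
        · rw [h, sub_self, map_zero]; exact zero_lt_one
        · rw [h]
          have : (-1 - 1 : ℂ) = -2 := by norm_num
          rw [this, Valuation.map_neg]
          exact hA
      calc A.valuation (X (1 + 3 * δ.out) - 1) *
            A.valuation (lx (emb (1 + 3 * δ.out) / (3 * emb g)))
          ≤ A.valuation (X (1 + 3 * δ.out) - 1) * 1 := mul_le_mul_right (h_lx_val hg A hA _) _
        _ < 1 := by rw [mul_one]; exact hv
    · rw [if_neg hc, (hX.zero _).2 hc, zero_mul, sub_zero, map_zero]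
      exact zero_lt_one
  have hone : A.valuation (P * lx (1 / 3)) = 1 := by rw [map_mul, hPA, hthird, mul_one]
  rw [hsum, Valuation.map_add_eq_of_lt_right _ (by rw [hone]; exact hkey), hone]

/-- the periodic summand -/
theorem h_per (hX : IsQ g X) (hg : g ≠ 0) (a b : Eis) :
    X (1 + 3 * (a + g * b)) * lx (emb (1 + 3 * (a + g * b)) / (3 * emb g)) =
      X (1 + 3 * a) * lx (emb (1 + 3 * a) / (3 * emb g)) := by
  have hgC : emb g ≠ 0 := emb_ne hg
  have e1 : 1 + 3 * (a + g * b) = (1 + 3 * a) + g * (3 * b) := by ring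
  have e2 : emb (1 + 3 * (a + g * b)) / (3 * emb g) = emb (1 + 3 * a) / (3 * emb g) + emb b := by
    rw [e1, map_add, map_mul, map_mul emb 3 b, map_ofNat]
    field_simp
  rw [e2, lx_add, e1, hX.per]

/-- the action of the automorphisms of `ℂ` that fix `ω` -/
theorem SX_gal (hX : IsQ g X) (hg : Odd g.norm) (σ : ℂ ≃+* ℂ) (hσ : σ w = w) :
    σ (SX g X lx) ^ 2 = SX g X lx ^ 2 := by
  have hg0 := h_ne hg
  have hgC : emb g ≠ 0 := emb_ne hg0
  have hfinite : Finite (Eis ⧸ Ideal.span {g}) := I3.quot_finite g hg0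
  have : Fintype (Eis ⧸ Ideal.span {g}) := Fintype.ofFinite _
  have hpos : 0 < 3 * g.norm.natAbs := (h_odd_abs hg).pos
  obtain ⟨u, u', huu, ⟨v, hv⟩, hc⟩ := gal_fix (3 * g.norm.natAbs) hpos (dvd_mul_right _ _) σ hσ
  have hgN : g ∣ ((3 * g.norm.natAbs : ℕ) : Eis) := by
    refine ⟨3 * star g, ?_⟩
    push_cast
    rw [h_natAbs, a2_cast_norm]
    ring
  have hcop : IsCoprime u g := by
    obtain ⟨k, hk⟩ := hgN.trans huu
    exact ⟨u', -k, by linear_combination hk⟩
  have hu : u = 1 + 3 * v := by linear_combination hv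
  have hpt : ∀ c : Eis, emb (c * (star g)) / ((3 * g.norm.natAbs : ℕ) : ℂ) =
      emb c / (3 * emb g) := by
    intro c
    have h1 := h_emb_star g
    have hgs : emb (star g) ≠ 0 := by
      rw [emb_star]
      exact (_root_.map_ne_zero _).2 hgC
    push_cast
    rw [map_mul, ← h1]
    field_simp
  have h1 : ∀ x : Eis, σ (lx (emb (1 + 3 * x) / (3 * emb g))) =
      lx (emb ((1 + 3 * x) * u) / (3 * emb g)) := by
    intro x
    apply lx_ptMap (σ : ℂ →+* ℂ) _ _ (h_off hg0 x)
    have h3 := hc ((1 + 3 * x) * star g)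
    have h4 : (1 + 3 * x) * star g * u = (1 + 3 * x) * u * star g := by ring
    rw [h4, hpt, hpt] at h3
    exact h3
  have hXu : X u * X u = 1 := by
    rcases hX.val u with h | h | h
    · exact absurd hcop ((hX.zero _).1 h)
    · rw [h]; norm_num
    · rw [h]; norm_num
  have h2 : σ (SX g X lx) = X u * SX g X lx := by
    have e1 : SX g X lx = ∑ᶠ δ : Eis ⧸ Ideal.span {g},
        (fun x => X (1 + 3 * x) * lx (emb (1 + 3 * x) / (3 * emb g))) δ.out := rfl
    conv_rhs => rw [e1]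
    rw [← SX_reindex hg0 (fun x => X (1 + 3 * x) * lx (emb (1 + 3 * x) / (3 * emb g)))
      (h_per hX hg0) u v hcop, SX, finsum_eq_sum_of_fintype, finsum_eq_sum_of_fintype,
      map_sum, Finset.mul_sum]
    refine Finset.sum_congr rfl fun δ _ => ?_
    have e2 : 1 + 3 * (v + u * δ.out) = (1 + 3 * δ.out) * u := by rw [hu]; ring
    have e3 : σ (X (1 + 3 * δ.out)) = X (1 + 3 * δ.out) := h_map hX (σ : ℂ →+* ℂ) _
    rw [map_mul, h1, e3, e2, hX.mul]
    linear_combination -(X (1 + 3 * δ.out) * lx (emb ((1 + 3 * δ.out) * u) / (3 * emb g))) * hXu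
  rw [h2]
  linear_combination (SX g X lx) ^ 2 * hXu

theorem lx_conj (z : ℂ) : lx (conj z) = -conj (lx z) := by
  unfold lx
  rw [xw_conj, yw_conj, map_div₀, map_mul, map_pow, div_neg, Complex.conj_ofNat]

/-- complex conjugation -/
theorem SX_conj (hX : IsQ g X) (hg : g ≠ 0) :
    conj (SX g X lx) = -SX (star g) (fun a => X (star a)) lx := by
  have hs0 : star g ≠ 0 := by
    intro h
    apply hg
    rw [← star_star g, h, star_zero]
  have hfinite : Finite (Eis ⧸ Ideal.span {g}) := I3.quot_finite g hg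
  have : Fintype (Eis ⧸ Ideal.span {g}) := Fintype.ofFinite _
  have hfinite' : Finite (Eis ⧸ Ideal.span {star g}) := I3.quot_finite _ hs0
  have : Fintype (Eis ⧸ Ideal.span {star g}) := Fintype.ofFinite _
  rw [SX, SX, finsum_eq_sum_of_fintype, finsum_eq_sum_of_fintype, map_sum,
    ← Finset.sum_neg_distrib]
  have hrep : ∀ δ : Eis ⧸ Ideal.span {g}, ∀ x : Eis,
      Ideal.Quotient.mk (Ideal.span {g}) x = δ → ∃ k, x = δ.out + g * k := by
    intro δ x h
    have h1 : Ideal.Quotient.mk (Ideal.span {g}) x =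
      Ideal.Quotient.mk (Ideal.span {g}) δ.out := by rw [h, Ideal.Quotient.mk_out]
    rw [Ideal.Quotient.mk_eq_mk_iff_sub_mem, Ideal.mem_span_singleton] at h1
    obtain ⟨k, hk⟩ := h1
    exact ⟨k, by linear_combination hk⟩
  refine Finset.sum_bij' (fun δ _ => Ideal.Quotient.mk (Ideal.span {star g}) (star δ.out))
    (fun δ _ => Ideal.Quotient.mk (Ideal.span {g}) (star δ.out)) (fun _ _ => Finset.mem_univ _)
    (fun _ _ => Finset.mem_univ _) ?_ ?_ ?_
  · intro δ _
    obtain ⟨k, hk⟩ := I3.out_spec (star g) (star δ.out)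
    rw [hk]
    have e : star (star δ.out + star g * k) = δ.out + g * star k := by
      rw [star_add, star_star, star_mul', star_star]
    rw [e]
    conv_rhs => rw [← Ideal.Quotient.mk_out δ]
    rw [Ideal.Quotient.mk_eq_mk_iff_sub_mem, Ideal.mem_span_singleton]
    exact ⟨star k, by ring⟩
  · intro δ _
    obtain ⟨k, hk⟩ := I3.out_spec g (star δ.out)
    rw [hk]
    have e : star (star δ.out + g * k) = δ.out + star g * star k := by
      rw [star_add, star_star, star_mul']
    rw [e]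
    conv_rhs => rw [← Ideal.Quotient.mk_out δ]
    rw [Ideal.Quotient.mk_eq_mk_iff_sub_mem, Ideal.mem_span_singleton]
    exact ⟨star k, by ring⟩
  · intro δ _
    obtain ⟨k, hk⟩ := I3.out_spec (star g) (star δ.out)
    rw [hk, h_per hX.star hs0, map_mul, h_conj hX]
    have e1 : star (1 + 3 * star δ.out) = 1 + 3 * δ.out := by
      rw [star_add, star_one, star_mul', star_star, star_ofNat]
    have e2 : emb (1 + 3 * star δ.out) / (3 * emb (star g)) =
        conj (emb (1 + 3 * δ.out) / (3 * emb g)) := by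
      rw [← e1, emb_star, emb_star, map_div₀, map_mul, Complex.conj_conj, Complex.conj_ofNat]
    rw [e1, e2, lx_conj]
    ring

/-- the fourth power of the absolute value is rational -/
theorem SX_rat (hX : IsQ g X) (hg : Odd g.norm) :
    ∃ q : ℚ, (q : ℂ) = (SX g X lx * conj (SX g X lx)) ^ 2 := by
  have hg0 := h_ne hg
  have hgs : Odd (star g).norm := by rw [QuadraticAlgebra.norm_star]; exact hg
  set t := SX g X lx with ht
  have halg : IsAlgebraic ℚ t := SX_lx_alg hX hg
  have halg' : IsAlgebraic ℚ (conj t) := by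
    rw [SX_conj hX hg0]
    exact (SX_lx_alg hX.star hgs).neg
  have hfix : ∀ σ : ℂ ≃+* ℂ, σ w = w → σ t ^ 2 = t ^ 2 ∧ σ (conj t) ^ 2 = (conj t) ^ 2 := by
    intro σ hσ
    refine ⟨SX_gal hX hg σ hσ, ?_⟩
    rw [SX_conj hX hg0, map_neg, neg_sq, neg_sq]
    exact SX_gal hX.star hgs σ hσ
  apply fixed_rat _ ((halg.mul halg').pow 2)
  intro σ
  have hx : σ w * σ w = -1 - σ w := by
    rw [← map_mul, w_sq, map_sub, map_neg, map_one]
  rcases a7_w_cases (σ w) hx with h | h
  · obtain ⟨h1, h2⟩ := hfix σ h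
    rw [map_pow, map_mul, mul_pow, h1, h2, mul_pow]
  · have hwc : conj w = -1 - w := by
      apply Complex.ext
      · rw [Complex.conj_re, Complex.sub_re, Complex.neg_re, Complex.one_re, w_re]; norm_num
      · rw [Complex.conj_im, Complex.sub_im, Complex.neg_im, Complex.one_im]; ring
    set τ : ℂ ≃+* ℂ := (starRingAut : ℂ ≃+* ℂ).trans σ with hτ
    have hτa : ∀ x, τ x = σ (conj x) := fun x => rfl
    have hτw : τ w = w := by
      rw [hτa, hwc, map_sub, map_neg, map_one, h, hwc]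
      ring
    obtain ⟨h1, h2⟩ := hfix τ hτw
    rw [hτa] at h1 h2
    rw [Complex.conj_conj] at h2
    rw [map_pow, map_mul, mul_pow, h1, h2, mul_pow]
    ring

/-! ### the case `X = XS S` -/

theorem h_gS (S : Finset Eis) (hS : ∀ b ∈ S, GoodEis b) :
    Primary (gS S) ∧ Odd (gS S).norm := by
  classical
  induction S using Finset.induction_on with
  | empty =>
    have h1 : gS ∅ = 1 := rfl
    rw [h1]
    refine ⟨?_, ?_⟩
    · unfold Primary
      rw [sub_self]
      exact dvd_zero _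
    · have h2 : (1 : Eis).norm = 1 := map_one _
      rw [h2]
      exact odd_one
  | insert b S hb ih =>
    obtain ⟨h1, h2⟩ := ih fun b' hb' => hS b' (Finset.mem_insert_of_mem hb')
    obtain ⟨h3, p, hp, hn⟩ := hS b (Finset.mem_insert_self _ _)
    have e : gS (insert b S) = b * gS S := Finset.prod_insert hb
    rw [e]
    refine ⟨h3.mul h1, ?_⟩
    rw [I3.norm_mul', hn]
    refine Odd.mul ?_ h2
    have hp2 : p ≠ 2 := by
      intro h
      have := hp.2.1
      rw [h] at this
      omega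
    exact_mod_cast hp.1.odd_of_ne_two hp2

theorem TT_gS (S : Finset Eis) (hS : ∀ b ∈ S, GoodEis b) : ∃ P : ℂ,
    TT (gS S) = P * lam (1 / 3) ∧
      ∀ A : ValuationSubring ℂ, A.valuation 2 < 1 → A.valuation P = 1 := by
  classical
  have := eis_isDomain
  have := eis_pid
  induction S using Finset.induction_on with
  | empty =>
    have h1 : gS ∅ = 1 := rfl
    rw [h1]
    exact ⟨1, by rw [TT_one, one_mul], fun A _ => map_one _⟩
  | insert b S hb ih =>
    have hS' : ∀ b' ∈ S, GoodEis b' := fun b' hb' => hS b' (Finset.mem_insert_of_mem hb')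
    obtain ⟨P, hP, hPv⟩ := ih hS'
    obtain ⟨h1, h2⟩ := h_gS S hS'
    obtain ⟨h3, p, hp, hn⟩ := hS b (Finset.mem_insert_self _ _)
    have hp2 : p ≠ 2 := by
      intro h
      have := hp.2.1
      rw [h] at this
      omega
    have e : gS (insert b S) = gS S * b := by
      rw [mul_comm]
      exact Finset.prod_insert hb
    have hcop : IsCoprime (gS S) b := by
      refine IsCoprime.prod_left fun b' hb' => ?_
      obtain ⟨h4, p', hp', hn'⟩ := hS' b' hb'
      have hpr := a3_prime_of_norm p hp.1 b hn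
      have hpr' := a3_prime_of_norm p' hp'.1 b' hn'
      rw [isCoprime_comm, (hpr.irreducible).coprime_iff_not_dvd]
      intro hd
      have hass := (hpr.dvd_prime_iff_associated hpr').1 hd
      obtain ⟨v, hv⟩ := hass
      have : (v : Eis) = 1 := primary_unique b v h3 v.isUnit (by rw [mul_comm, hv]; exact h4)
      rw [this, mul_one] at hv
      rw [hv] at hb
      exact hb hb'
    refine ⟨(emb b - 1) * P, ?_, fun A hA => ?_⟩
    · rw [e, TT_mul (gS S) b h1 h2 h3 p hp.1 hp2 hn hcop, hP]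
      ring
    · rw [map_mul, hPv A hA, mul_one]
      have h4 : emb b - 1 = emb (b - 1) := by rw [map_sub, map_one]
      rw [h4]
      exact val_odd_norm A hA _ (good_norm p hp b h3 hn)

theorem isQ_XS (S : Finset Eis) (hS : ∀ b ∈ S, GoodEis b) : IsQ (gS S) (XS S) where
  mul a b := by
    unfold XS
    rw [XZ_mul S hS]
    push_cast
    rfl
  one := by
    unfold XS
    rw [XZ_one S hS]
    simp
  per a b := by
    unfold XS
    rw [XZ_add S]
  val a := by
    unfold XS
    rcases XZ_values S a with h | h | h <;> rw [h] <;> simp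
  zero a := by
    unfold XS
    rw [← XZ_eq_zero S hS a]
    exact_mod_cast Iff.rfl

/-- **[CMT] (G) + (H)** -/
theorem analytic_S (S : Finset Eis) (hS : ∀ b ∈ S, GoodEis b) : ∃ Φ₁ Φ₂ : ℂ → ℂ,
    Differentiable ℂ Φ₁ ∧ Differentiable ℂ Φ₂ ∧
    (∀ s : ℂ, 3 / 2 < s.re →
      LSeriesSummable (fun n => ∑ a ∈ primSet n, XS S a * emb a) s ∧
      Φ₁ s = LSeries (fun n => ∑ a ∈ primSet n, XS S a * emb a) s) ∧
    (∀ s : ℂ, 3 / 2 < s.re →
      LSeriesSummable (fun n => ∑ a ∈ primSet n, XS S a * conj (emb a)) s ∧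
      Φ₂ s = LSeries (fun n => ∑ a ∈ primSet n, XS S a * conj (emb a)) s) ∧
    (∃ r : ℝ, 0 < r ∧ Φ₁ 1 * Φ₂ 1 = r) ∧
    ∃ q : ℚ, q ≠ 0 ∧ padicValRat 2 q = 0 ∧
      (Φ₁ 1 * Φ₂ 1) ^ 2 * ((gS S).norm : ℂ) = q * (Om : ℂ) ^ 4 := by
  obtain ⟨hprim, hodd⟩ := h_gS S hS
  have hQ := isQ_XS S hS
  have hX := hQ.isX hodd
  have hodds : Odd (star (gS S)).norm := by rw [QuadraticAlgebra.norm_star]; exact hodd
  have hg0 := h_ne hodd
  have hs0 := h_ne hodds
  obtain ⟨Φ₂, d2, s2, v2⟩ := entire_X hodd hX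
  obtain ⟨Φ₁, d1, s1, v1⟩ := entire_X hodds hX.star
  have hc1 : coefX (fun a => XS S (star a)) = fun n => ∑ a ∈ primSet n, XS S a * emb a :=
    funext fun n => coefX_star (XS S) n
  rw [hc1] at s1
  set t := SX (gS S) (XS S) lx with ht
  -- the values
  obtain ⟨ε, hε, hε2⟩ : ∃ ε : ℤ, (XS S (-2))⁻¹ = ε ∧ (ε = 1 ∨ ε = -1) := by
    rcases hQ.val (-2) with h | h | h
    · exact absurd (h_two_cop hodd) ((hQ.zero _).1 h)
    · exact ⟨1, by rw [h]; simp, Or.inl rfl⟩
    · exact ⟨-1, by rw [h]; norm_num, Or.inr rfl⟩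
  have hst : star (-2 : Eis) = -2 := by rw [star_neg, star_ofNat]
  rw [TX_eq hg0, hε] at v2
  rw [TX_eq hs0, hst, hε] at v1
  have hconj := SX_conj hQ hg0
  have h1 : SX (star (gS S)) (fun a => XS S (star a)) lx = -conj t := by
    rw [ht, hconj, neg_neg]
  rw [h1] at v1
  have hN := h_emb_star (gS S)
  set N : ℕ := (gS S).norm.natAbs with hNdef
  have hN0 : (N : ℂ) ≠ 0 := by
    rw [← hN]
    exact mul_ne_zero (emb_ne hg0) (emb_ne hs0)
  have he1 := emb_ne hg0
  have he2 := emb_ne hs0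
  have hε0 : (2 : ℂ) + ε ≠ 0 := by
    rcases hε2 with h | h <;> rw [h] <;> norm_num
  have hOm : OmC ^ 2 = -(Om : ℂ) ^ 2 := by
    unfold OmC
    rw [mul_pow, Complex.I_sq]
    ring
  have hden : (9 * N * (2 + ε) ^ 2 : ℂ) ≠ 0 :=
    mul_ne_zero (mul_ne_zero (by norm_num) hN0) (pow_ne_zero 2 hε0)
  have hval : Φ₁ 1 * Φ₂ 1 = (Om : ℂ) ^ 2 * (t * conj t) / (9 * N * (2 + ε) ^ 2) := by
    rw [v1, v2, eq_div_iff hden, ← hN]
    field_simp
    linear_combination (-9 * t * conj t) * hOm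
  obtain ⟨q₀, hq₀⟩ := SX_rat hQ hodd
  rw [← ht] at hq₀
  have hNorm : ((gS S).norm : ℂ) = N := by rw [hNdef, h_natAbs]
  have hval2 : (Φ₁ 1 * Φ₂ 1) ^ 2 * ((gS S).norm : ℂ) =
      ((q₀ / (81 * N * (2 + ε) ^ 4) : ℚ) : ℂ) * (Om : ℂ) ^ 4 := by
    rw [hNorm, hval]
    push_cast
    rw [hq₀]
    field_simp
    ring
  -- valuations
  obtain ⟨A, hA⟩ := exists_val
  obtain ⟨P, hP, hPA⟩ := TT_gS S hS
  have hvt : A.valuation t = 1 := SX_val hQ hodd A hA P hP (hPA A hA)
  obtain ⟨P', hP', hPA'⟩ := TT_gS (S.image star) (good_star S hS)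
  rw [gS_star] at hP'
  have hvt' : A.valuation (conj t) = 1 := by
    rw [ht, hconj, Valuation.map_neg]
    exact SX_val hQ.star hodds A hA P' hP' (hPA' A hA)
  have hvN : A.valuation (81 * N * (2 + ε) ^ 4 : ℂ) = 1 := by
    have h2 : Odd (81 * (N : ℤ) * (2 + ε) ^ 4) := by
      refine Odd.mul (Odd.mul (by decide) ?_) (Odd.pow ?_)
      · rw [hNdef]
        exact_mod_cast Int.natAbs_odd.2 hodd
      · rcases hε2 with h | h <;> rw [h] <;> decide
    have h3 := val_odd A hA _ h2
    push_cast at h3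
    exact h3
  have hvq : A.valuation (((q₀ / (81 * N * (2 + ε) ^ 4) : ℚ)) : ℂ) = 1 := by
    push_cast
    rw [map_div₀, hvN, div_one, hq₀, map_pow, map_mul, hvt, hvt', mul_one, one_pow]
  have hq0 : q₀ / (81 * N * (2 + ε) ^ 4) ≠ 0 := by
    intro h
    rw [h] at hvq
    simp at hvq
  have htne : t ≠ 0 := by
    intro h
    rw [h, map_zero] at hvt
    exact zero_ne_one hvt
  refine ⟨Φ₁, Φ₂, d1, d2, s1, s2, ?_, _, hq0, rat_val _ A hA hvq, hval2⟩
  refine ⟨Om ^ 2 * Complex.normSq t / (9 * N * (2 + ε) ^ 2), ?_, ?_⟩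
  · have h2 : 0 < Complex.normSq t := Complex.normSq_pos.2 htne
    have h3 := Om_pos
    have h4 : (0 : ℝ) < N := by
      have : (N : ℝ) ≠ 0 := by exact_mod_cast hN0
      positivity
    have h5 : (0 : ℝ) < (2 + ε) ^ 2 := by
      rcases hε2 with h | h <;> rw [h] <;> norm_num
    positivity
  · rw [hval, Complex.mul_conj]
    push_cast
    ring

end CMT
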