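import Pool.Agent.MP_dfae13_nt.T.Defs
import Pool.Agent.MP_ae0bd0_nt.CM.B7
import Pool.Agent.MP_ae0bd0_nt.CM.A3

set_option autoImplicit false

open CM27

namespace CMT

/-! ## [CMT-F1] from `d` to `S` (file TF1.lean) -/

theorem f1_norm_mul (a b : Eis) : (a * b).norm = a.norm * b.norm := map_mul _ _ _

/-- a prime of `ℤ[ω]` all of whose norm's prime factors are good is a unit times a good element -/
theorem f1_prime {q : Eis} (hq : Prime q)
    (hgood : ∀ p : ℕ, p.Prime → (p : ℤ) ∣ q.norm → GoodPrime p) :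
    ∃ (v b : Eis), IsUnit v ∧ GoodEis b ∧ q = v * b := by
  have := eis_isDomain
  have hn0 : 0 ≤ q.norm := norm_nonneg' q
  obtain ⟨N, hN⟩ : ∃ N : ℕ, q.norm = N := ⟨q.norm.toNat, by omega⟩
  have hN1 : N ≠ 1 := by
    intro h
    apply hq.not_unit
    rw [eis_isUnit_iff, hN, h]; rfl
  -- q divides N, hence a rational prime
  have hdvd : q ∣ ((N : ℕ) : Eis) := by
    have h1 := a3_mul_star q
    rw [hN] at h1
    exact ⟨star q, by rw [h1]; push_cast; rfl⟩
  have hN0 : N ≠ 0 := by
    intro h
    apply hq.ne_zero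
    rw [h] at hN
    apply emb_injective
    rw [map_zero, ← norm_eq_zero, ← sq_eq_zero_iff, norm_emb_sq, hN]
    simp
  have hex : ∃ p : ℕ, p.Prime ∧ p ∣ N ∧ q ∣ ((p : ℕ) : Eis) := by
    have key : ∀ M : ℕ, M ≠ 0 → M ∣ N → q ∣ ((M : ℕ) : Eis) →
        ∃ p : ℕ, p.Prime ∧ p ∣ N ∧ q ∣ ((p : ℕ) : Eis) := by
      intro M
      induction M using Nat.strong_induction_on with
      | _ M ih =>
        intro hM0 hMN hqM
        have hM1 : M ≠ 1 := by
          intro h
          apply hq.not_unit
          rw [h, Nat.cast_one] at hqM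
          exact isUnit_of_dvd_one hqM
        obtain ⟨p, hp, k, hk⟩ : ∃ p : ℕ, p.Prime ∧ p ∣ M := Nat.exists_prime_and_dvd hM1
        have hqpk : q ∣ ((p : ℕ) : Eis) * ((k : ℕ) : Eis) := by
          rw [← Nat.cast_mul, ← hk]; exact hqM
        rcases hq.dvd_or_dvd hqpk with h | h
        · exact ⟨p, hp, (Dvd.intro k hk.symm).trans hMN, h⟩
        · have hk0 : k ≠ 0 := by
            rintro rfl
            simp at hk
            exact hM0 hk
          apply ih k _ hk0 ((Dvd.intro_left p hk.symm).trans hMN) h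
          rw [hk]
          have := hp.two_le
          nlinarith [Nat.pos_of_ne_zero hk0]
    exact key N hN0 dvd_rfl hdvd
  obtain ⟨p, hp, hpN, hqp⟩ := hex
  have hpg : GoodPrime p := hgood p hp (by rw [hN]; exact_mod_cast hpN)
  obtain ⟨a, ha, han⟩ := exists_primary_prime p hp hpg.2.1
  have hap := a3_prime_of_norm p hp a han
  have hastar : (star a).norm = p := by rw [QuadraticAlgebra.norm_star]; exact han
  have hsp := a3_prime_of_norm p hp (star a) hastar
  have hmul : a * star a = ((p : ℕ) : Eis) := by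
    rw [a3_mul_star, han]; push_cast; rfl
  rw [← hmul] at hqp
  rcases hq.dvd_or_dvd hqp with h | h
  · obtain ⟨u, hu⟩ := (hq.associated_of_dvd hap h).symm
    exact ⟨u, a, u.isUnit, ⟨ha, p, hpg, han⟩, by rw [← hu, mul_comm]⟩
  · obtain ⟨u, hu⟩ := (hq.associated_of_dvd hsp h).symm
    exact ⟨u, star a, u.isUnit, ⟨ha.star, p, hpg, hastar⟩, by rw [← hu, mul_comm]⟩

/-- A squarefree `d = a + b ω` all of whose norm's prime factors are good is `u * gS S`. -/
theorem exists_S (d : Eis) (hd : Squarefree d) (hd0 : d ≠ 0)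
    (hgood : ∀ p : ℕ, p.Prime → (p : ℤ) ∣ d.norm → GoodPrime p) :
    ∃ (S : Finset Eis) (u : Eis), (∀ b ∈ S, GoodEis b) ∧ IsUnit u ∧ d = u * gS S := by
  classical
  have := eis_isDomain
  have := eis_pid
  revert hd hd0 hgood
  induction d using UniqueFactorizationMonoid.induction_on_prime with
  | h₁ => intro _ h0 _; exact absurd rfl h0
  | h₂ x hx =>
    intro _ _ _
    exact ⟨∅, x, by simp, hx, by simp [gS]⟩
  | h₃ a q ha hq ih =>
    intro hsq _ hgood
    obtain ⟨S, u, hS, hu, hau⟩ := ih (hsq.squarefree_of_dvd (Dvd.intro_left q rfl)) ha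
      (fun p hp hpd => hgood p hp (by rw [f1_norm_mul]; exact Dvd.dvd.mul_left hpd _))
    obtain ⟨v, b, hv, hb, hqb⟩ := f1_prime hq
      (fun p hp hpd => hgood p hp (by rw [f1_norm_mul]; exact Dvd.dvd.mul_right hpd _))
    have hbS : b ∉ S := by
      intro hmem
      have hb2 : b * b ∣ q * a := by
        apply mul_dvd_mul
        · rw [hqb]; exact Dvd.intro_left v rfl
        · rw [hau]
          exact (Finset.dvd_prod_of_mem (fun b => b) hmem).trans (Dvd.intro_left u rfl)
      have hbu := hsq b hb2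
      have hbp : Prime b := by
        obtain ⟨-, p, hpg, hpn⟩ := hb
        exact a3_prime_of_norm p hpg.1 b hpn
      exact hbp.not_unit hbu
    refine ⟨insert b S, v * u, ?_, hv.mul hu, ?_⟩
    · intro c hc
      rcases Finset.mem_insert.1 hc with rfl | hc
      · exact hb
      · exact hS c hc
    · unfold gS at hau ⊢
      rw [Finset.prod_insert hbS, hqb, hau]
      ring

end CMT
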