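import Pool.Agent.MP_dfae13_nt.T.TE5
import Pool.Agent.MP_dfae13_nt.T.H
import Pool.Agent.MP_dfae13_nt.T.TF1

set_option autoImplicit false

open ArithmeticFunction Filter IsDedekindDomain NumberField
open CM27
open scoped ComplexConjugate

namespace CMT

/-! ## [CMT-E6] final analytic statement: `L(E_d / ℚ(ω), s)` is entire, its value at `1` -/

theorem toK_inj {K : Type} [Field K] [CharZero K] (om : K) (h : om ^ 2 + om + 1 = 0) :
    Function.Injective (toK om h) := by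
  haveI := eis_isDomain
  rw [injective_iff_map_eq_zero]
  intro a ha
  have h1 : toK om h (a * star a) = 0 := by rw [map_mul, ha, zero_mul]
  rw [a3_mul_star, map_intCast] at h1
  have h2 : a.norm = 0 := by exact_mod_cast h1
  exact a2_norm_zero h2

/-- **[CMT] (E) + (G) + (H).** -/
theorem analytic_final (K : Type) [Field K] [NumberField K] [IsCyclotomicExtension {3} ℚ K]
    (om : K) (h : om ^ 2 + om + 1 = 0) (d : Eis) (h4 : (4 : Eis) ∣ d - 1) (hd : Squarefree d)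
    (hgood : ∀ p : ℕ, p.Prime → (p : ℤ) ∣ d.norm → GoodPrime p) (e : K)
    (he : 4 * e + 1 = toK om h d ^ 3) :
    ∃ Φ : ℂ → ℂ, Differentiable ℂ Φ ∧
      (∀ s : ℂ, 3 / 2 < s.re → LSeriesSummable (fun n => ((Wt e).LFunction n : ℂ)) s ∧
        Φ s = (Wt e).LSeries s) ∧
      (∃ r : ℝ, 0 < r ∧ Φ 1 = r) ∧
      ∃ q : ℚ, q ≠ 0 ∧ padicValRat 2 q = 0 ∧ Φ 1 ^ 2 * (d.norm : ℂ) = q * (Om : ℂ) ^ 4 := by
  haveI := eis_isDomain
  obtain ⟨φ, hφ⟩ := exists_equiv K om h
  obtain ⟨f, hf⟩ := h4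
  have hdf : d = 4 * f + 1 := by linear_combination hf
  have hd0 : d ≠ 0 := by
    rintro rfl
    exact not_squarefree_zero hd
  obtain ⟨S, u, hS, hu, hdS⟩ := exists_S d hd hd0 hgood
  have h4' : (4 : Eis) ∣ u * gS S - 1 := by rw [← hdS]; exact ⟨f, hf⟩
  set e₀ : Eis := 16 * f ^ 3 + 12 * f ^ 2 + 3 * f with he₀
  have h5 : 4 * e₀ + 1 = (u * gS S) ^ 3 := by
    rw [← hdS, hdf, he₀]; ring
  have h6 : e = toK om h e₀ := by
    have h7 : (4 : K) * toK om h e₀ + 1 = toK om h d ^ 3 := by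
      rw [← map_pow, hdS, ← h5, map_add _ (4 * e₀), map_mul _ 4, map_one, map_ofNat]
    have h8 : (4 : K) * (e - toK om h e₀) = 0 := by linear_combination he - h7
    rcases mul_eq_zero.1 h8 with h9 | h9
    · norm_num at h9
    · exact sub_eq_zero.1 h9
  have hnorm : d.norm = (gS S).norm := by
    rw [hdS, map_mul, (eis_isUnit_iff u).1 hu, one_mul]
  obtain ⟨Φ₁, Φ₂, d1, d2, s1, s2, hr, q, hq0, hq2, hq⟩ := analytic_S S hS
  refine ⟨fun s => Φ₁ s * Φ₂ s, d1.mul d2, ?_, hr, q, hq0, hq2, ?_⟩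
  · intro s hs
    have e1 : (fun n => ((Wt e).LFunction n : ℂ)) =
        fun n => (Dg (g1 S) * Dg (g2 S)) n := by
      funext n
      rw [h6, ← LCW_apply, LCW_eq K om h φ hφ S hS u hu h4' e₀ h5]
    have e2 : (fun n => Dg (g2 S) n) = fun n => ∑ a ∈ primSet n, XS S a * conj (emb a) := rfl
    have e3 : (fun n => Dg (g1 S) n) = fun n => ∑ a ∈ primSet n, XS S a * emb a := rfl
    have t2 : LSeriesSummable (fun n => Dg (g2 S) n) s := by rw [e2]; exact (s2 s hs).1
    have t1 : LSeriesSummable (fun n => Dg (g1 S) n) s := by rw [e3]; exact (s1 s hs).1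
    have e4 : (Wt e).LSeries s = LSeries (fun n => ((Wt e).LFunction n : ℂ)) s := rfl
    rw [e4, e1]
    refine ⟨ArithmeticFunction.LSeriesSummable_mul t1 t2, ?_⟩
    rw [ArithmeticFunction.LSeries_mul' t1 t2, e3, e2, ← (s1 s hs).2, ← (s2 s hs).2]
  · rw [hnorm]
    exact hq

end CMT
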