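import Pool.Agent.MP_dfae13_nt.T.J5
import Pool.Agent.MP_dfae13_nt.T.TE6
import Pool.Agent.MP_9ab903_nt.Assembly
import Pool.Agent.MP_9ab903_nt.FinalDefs
import Pool.Agent.MP_9ab903_nt.AN.P2

/-!
# [CMT-J] periods, discriminant and torsion
-/

set_option autoImplicit false

open Polynomial NumberField IsDedekindDomain CM27 MeasureTheory
open scoped Classical

namespace CMT

open SBSD

/-- Multiplication of the integration variable by a complex number. -/
theorem integral_mul_left (δ : ℂ) (hδ : δ ≠ 0) (f : ℂ → ℝ) :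
    ∫ t : ℂ, f (δ * t) = (‖δ‖ ^ 2)⁻¹ * ∫ t : ℂ, f t := by
  set g : ℂ →ₗ[ℝ] ℂ := LinearMap.mul ℝ ℂ δ with hg
  have hdet : LinearMap.det g = ‖δ‖ ^ 2 := by
    rw [hg, ← Complex.normSq_eq_norm_sq]
    have h1 := Algebra.norm_apply ℝ δ
    rw [Algebra.norm_complex_eq] at h1
    exact h1.symm
  have hne : LinearMap.det g ≠ 0 := by
    rw [hdet]
    exact pow_ne_zero 2 (norm_ne_zero_iff.2 hδ)
  have hmap := Measure.map_linearMap_addHaar_eq_smul_addHaar (volume : Measure ℂ) hne
  have hemb : MeasurableEmbedding g := by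
    have h1 : (g : ℂ → ℂ) = fun t => δ * t := rfl
    rw [h1]
    exact measurableEmbedding_mulLeft₀ hδ
  have h2 : ∫ t : ℂ, f t ∂(Measure.map g volume) = ∫ t : ℂ, f (g t) := hemb.integral_map f
  rw [hmap, integral_smul_measure, hdet] at h2
  have h3 : ∀ t, g t = δ * t := fun t => rfl
  simp only [h3] at h2
  rw [← h2, ENNReal.toReal_ofReal (abs_nonneg _), abs_of_nonneg (by positivity), smul_eq_mul]

/-- The area of the twist by `δ`. -/
theorem complexArea_Wt (ε δ : ℂ) (hδ : δ ≠ 0) (h : 4 * ε + 1 = δ ^ 3) :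
    2 * complexArea (Wt ε) = OmCC / ‖δ‖ := by
  have hc : ∀ x : ℂ, cubic (Wt ε) x = 4 * x ^ 3 + δ ^ 3 := by
    intro x
    simp only [cubic, Wt, WeierstrassCurve.b₂, WeierstrassCurve.b₄, WeierstrassCurve.b₆]
    linear_combination h
  have hn : (0 : ℝ) < ‖δ‖ := norm_pos_iff.2 hδ
  unfold complexArea OmCC
  simp only [hc]
  have h1 := integral_mul_left δ hδ (fun x => 2 / ‖4 * x ^ 3 + δ ^ 3‖)
  have h2 : ∀ t : ℂ, 2 / ‖4 * (δ * t) ^ 3 + δ ^ 3‖ = (‖δ‖ ^ 3)⁻¹ * (2 * (1 / ‖4 * t ^ 3 + 1‖)) := by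
    intro t
    have h3 : 4 * (δ * t) ^ 3 + δ ^ 3 = δ ^ 3 * (4 * t ^ 3 + 1) := by ring
    rw [h3, norm_mul, norm_pow]
    rcases eq_or_ne (‖4 * t ^ 3 + 1‖) 0 with h4 | h4
    · rw [h4]; simp
    · field_simp
  simp only [h2] at h1
  rw [integral_const_mul, integral_const_mul] at h1
  have h5 : ∫ x : ℂ, 2 / ‖4 * x ^ 3 + δ ^ 3‖ = ‖δ‖⁻¹ * (2 * ∫ t : ℂ, 1 / ‖4 * t ^ 3 + 1‖) := by
    have h6 : ∫ x : ℂ, 2 / ‖4 * x ^ 3 + δ ^ 3‖ =
        ‖δ‖ ^ 2 * ((‖δ‖ ^ 2)⁻¹ * ∫ x : ℂ, 2 / ‖4 * x ^ 3 + δ ^ 3‖) := by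
      field_simp
    rw [h6, ← h1]
    field_simp
  rw [h5]
  field_simp

section

variable (K : Type) [Field K] [NumberField K] [IsCyclotomicExtension {3} ℚ K]

/-- The discriminant of `ℚ(ω)`. -/
theorem abs_discr : |(discr K : ℝ)| = 3 := by
  have h1 : (NumberField.discr K).natAbs = 3 ^ Nat.totient 3 / ∏ p ∈ Nat.primeFactors 3,
      p ^ (Nat.totient 3 / (p - 1)) := IsCyclotomicExtension.Rat.natAbs_discr 3 K
  rw [Nat.Prime.primeFactors Nat.prime_three, Finset.prod_singleton,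
    Nat.totient_prime Nat.prime_three] at h1
  norm_num at h1
  have h2 : |(discr K : ℤ)| = 3 := by
    rw [Int.abs_eq_natAbs, h1]
    rfl
  exact_mod_cast congrArg (fun z : ℤ => (z : ℝ)) h2

theorem finrank_K : Module.finrank ℚ K = 2 := by
  rw [IsCyclotomicExtension.finrank (n := 3) K (Polynomial.cyclotomic.irreducible_rat (by norm_num))]
  rw [Nat.totient_prime Nat.prime_three]

theorem not_isReal (v : InfinitePlace K) : ¬ v.IsReal := by
  have h := IsCyclotomicExtension.Rat.nrRealPlaces_eq_zero (n := 3) K (by norm_num)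
  intro hv
  have h1 : 0 < InfinitePlace.nrRealPlaces K := by
    unfold InfinitePlace.nrRealPlaces
    have : Nonempty {w : InfinitePlace K // w.IsReal} := ⟨⟨v, hv⟩⟩
    exact Fintype.card_pos
  omega

theorem card_place : Fintype.card (InfinitePlace K) = 1 := by
  rw [InfinitePlace.card_eq_nrRealPlaces_add_nrComplexPlaces,
    IsCyclotomicExtension.Rat.nrRealPlaces_eq_zero (n := 3) K (by norm_num),
    IsCyclotomicExtension.Rat.nrComplexPlaces_eq_totient_div_two (n := 3),
    Nat.totient_prime Nat.prime_three]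

end

section

/-- The absolute value of `a + b z`, `z` a primitive third root of unity. -/
theorem norm_sq_of_root (z : ℂ) (hz : z ^ 2 + z + 1 = 0) (a b : ℝ) :
    ‖(a : ℂ) + b * z‖ ^ 2 = a ^ 2 - a * b + b ^ 2 := by
  have h1 := congrArg Complex.re hz
  have h2 := congrArg Complex.im hz
  simp only [pow_two, Complex.add_re, Complex.mul_re, Complex.one_re, Complex.zero_re,
    Complex.add_im, Complex.mul_im, Complex.one_im, Complex.zero_im] at h1 h2
  have h3 : z.im * (2 * z.re + 1) = 0 := by linear_combination h2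
  have him : z.im ≠ 0 := by
    intro h0
    rw [h0] at h1
    nlinarith [sq_nonneg (2 * z.re + 1)]
  have h4 : z.re = -1 / 2 := by
    have := (mul_eq_zero.1 h3).resolve_left him
    linarith
  have h5 : z.im ^ 2 = 3 / 4 := by
    rw [h4] at h1
    linarith
  rw [← Complex.normSq_eq_norm_sq, Complex.normSq_apply]
  simp only [Complex.add_re, Complex.mul_re, Complex.ofReal_re, Complex.ofReal_im, zero_mul,
    sub_zero, Complex.add_im, Complex.mul_im, add_zero, zero_add]
  rw [h4]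
  linear_combination b ^ 2 * h5

variable (K : Type) [Field K] [NumberField K] [IsCyclotomicExtension {3} ℚ K] (om : K)
  (h : om ^ 2 + om + 1 = 0) (d : Eis) (hd : d ≠ 0) (e : K) (he : 4 * e + 1 = toK om h d ^ 3)

/-- The absolute value of `d` at a complex place. -/
theorem norm_embedding (σ : K →+* ℂ) : ‖σ (toK om h d)‖ ^ 2 = (d.norm : ℝ) := by
  have h1 : σ om ^ 2 + σ om + 1 = 0 := by
    rw [← map_pow, ← map_add, ← map_one σ, ← map_add, h, map_zero]
  rw [ta1_toK_apply, map_add, map_mul, map_intCast, map_intCast]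
  have h2 := norm_sq_of_root (σ om) h1 d.re d.im
  push_cast at h2
  rw [h2, norm_eq]
  push_cast
  ring

include hd he in
theorem archPeriod_Wt (v : InfinitePlace K) : archPeriod (Wt e) v = OmCC / √(d.norm : ℝ) := by
  have hn : (0 : ℝ) < (d.norm : ℝ) := by exact_mod_cast a1_norm_pos hd
  have h1 := norm_embedding K om h d v.embedding
  have h2 : ‖v.embedding (toK om h d)‖ = √(d.norm : ℝ) := by
    rw [← h1, Real.sqrt_sq (norm_nonneg _)]
  have h3 : v.embedding (toK om h d) ≠ 0 := by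
    rw [← norm_ne_zero_iff, h2]
    exact (Real.sqrt_pos.2 hn).ne'
  unfold archPeriod
  rw [dif_neg (not_isReal K v), tc1_map, complexArea_Wt _ (v.embedding (toK om h d)) h3 ?_, h2]
  rw [← map_pow, ← he, map_add, map_mul, map_one, map_ofNat]

end

section

variable (K : Type) [Field K] [NumberField K] [IsCyclotomicExtension {3} ℚ K] (om : K)
  (h : om ^ 2 + om + 1 = 0) (d : Eis) (h4 : (4 : Eis) ∣ d - 1) (hd : Squarefree d)
  (hgood : ∀ p : ℕ, p.Prime → (p : ℤ) ∣ d.norm → GoodPrime p) (e : K)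
  (he : 4 * e + 1 = toK om h d ^ 3)

include h4 hd hgood he in
/-- The data used in the other files. -/
theorem exists_setup : ∃ (φ : Eis ≃+* 𝓞 K) (S : Finset Eis) (u e₀ : Eis),
    (∀ a, ((φ a : 𝓞 K) : K) = toK om h a) ∧ (∀ b ∈ S, GoodEis b) ∧ IsUnit u ∧
    d = u * gS S ∧ 4 * e₀ + 1 = (u * gS S) ^ 3 ∧ e = toK om h e₀ := by
  have := eis_isDomain
  obtain ⟨φ, hφ⟩ := exists_equiv K om h
  obtain ⟨f, hf⟩ := h4
  have hdf : d = 4 * f + 1 := by linear_combination hf
  have hd0 : d ≠ 0 := by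
    rintro rfl
    exact not_squarefree_zero hd
  obtain ⟨S, u, hS, hu, hdS⟩ := exists_S d hd hd0 hgood
  have h5 : 4 * (16 * f ^ 3 + 12 * f ^ 2 + 3 * f) + 1 = (u * gS S) ^ 3 := by
    rw [← hdS, hdf]; ring
  refine ⟨φ, S, u, 16 * f ^ 3 + 12 * f ^ 2 + 3 * f, hφ, hS, hu, hdS, h5, ?_⟩
  have h7 : (4 : K) * toK om h (16 * f ^ 3 + 12 * f ^ 2 + 3 * f) + 1 = toK om h d ^ 3 := by
    rw [← map_pow, hdS, ← h5, map_add _ (4 * _), map_mul _ 4, map_one, map_ofNat]
  have h8 : (4 : K) * (e - toK om h (16 * f ^ 3 + 12 * f ^ 2 + 3 * f)) = 0 := by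
    linear_combination he - h7
  rcases mul_eq_zero.1 h8 with h9 | h9
  · norm_num at h9
  · exact sub_eq_zero.1 h9

include h4 hd hgood he in
theorem finprod_tam_twist : ∏ᶠ v : HeightOneSpectrum (𝓞 K), tam (Wt e) v = 1 ∨
    ∏ᶠ v : HeightOneSpectrum (𝓞 K), tam (Wt e) v = 3 := by
  obtain ⟨φ, S, u, e₀, hφ, hS, hu, -, he₀, rfl⟩ := exists_setup K om h d h4 hd hgood e he
  exact finprod_tam_Wt K om h φ hφ S hS u hu e₀ he₀

include h4 hd hgood he in
theorem period_twist : period (Wt e) = OmCC / √(d.norm : ℝ) := by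
  have hd0 : d ≠ 0 := by
    rintro rfl
    exact not_squarefree_zero hd
  have h1 := archPeriod_Wt K om h d hd0 e he
  obtain ⟨φ, S, u, e₀, hφ, hS, hu, -, he₀, rfl⟩ := exists_setup K om h d h4 hd hgood e he
  unfold SBSD.period
  rw [finprod_neron_Wt K om h φ hφ S hS u hu e₀ he₀, mul_one]
  simp only [h1]
  rw [Finset.prod_const, Finset.card_univ, card_place, pow_one]

include hd he in
/-- There is no point of order `2`. -/
theorem two_smul_inj (P : (Wt e).toAffine.Point) (hP : 2 • P = 0) : P = 0 := by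
  have hirr : Irreducible (cubPoly K) := irreducible_of_two_pow 1 (by rw [finrank_K]; rfl)
  rcases P with _ | ⟨x, y, hxy⟩
  · rfl
  · exfalso
    have h1 : (WeierstrassCurve.Affine.Point.some x y hxy : (Wt e).toAffine.Point) =
        -(WeierstrassCurve.Affine.Point.some x y hxy) := by
      rw [two_smul] at hP
      exact eq_neg_of_add_eq_zero_left hP
    rw [WeierstrassCurve.Affine.Point.neg_some, WeierstrassCurve.Affine.Point.some.injEq] at h1
    have h2 : 2 * y + 1 = 0 := by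
      have h3 := h1.2
      simp only [WeierstrassCurve.Affine.negY, Wt] at h3
      linear_combination h3
    have h5 := (WeierstrassCurve.Affine.equation_iff _ _).1 hxy.1
    simp only [Wt] at h5
    have h6 : 4 * x ^ 3 + toK om h d ^ 3 = 0 := by
      linear_combination (-4 : K) * h5 + (2 * y + 1) * h2 - he
    have hd0 : toK om h d ≠ 0 := by
      intro h0
      have h7 := toK_inj om h (h0.trans (map_zero _).symm)
      rw [h7] at hd
      exact not_squarefree_zero hd
    have h8 : (-(2 * x) / toK om h d) ^ 3 = 2 := by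
      rw [div_pow, div_eq_iff (pow_ne_zero 3 hd0)]
      linear_combination (-2 : K) * h6
    have h9 : (cubPoly K).IsRoot (-(2 * x) / toK om h d) := by
      have h10 := eval₂_cubPoly (RingHom.id K) (-(2 * x) / toK om h d)
      rw [h8, sub_self, ← Polynomial.eval_map, Polynomial.map_id] at h10
      exact h10
    have h11 := Polynomial.natDegree_eq_of_degree_eq_some
      (Polynomial.degree_eq_one_of_irreducible_of_root hirr h9)
    rw [cubPoly_natDegree] at h11
    norm_num at h11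

include hd he in
theorem odd_card [Finite (Wt e).toAffine.Point] : Odd (Nat.card (Wt e).toAffine.Point) := by
  refine odd_card_of_no_two fun P Q hPQ => ?_
  have h1 : 2 • (P - Q) = 0 := by rw [smul_sub, hPQ, sub_self]
  exact sub_eq_zero.1 (two_smul_inj K om h d hd e he _ h1)

include hd he in
theorem elliptic_Wt : (Wt e).IsElliptic := by
  rw [WeierstrassCurve.isElliptic_iff, tc1_Δ, he, isUnit_iff_ne_zero]
  have hd0 : toK om h d ≠ 0 := by
    intro h0
    have h7 := toK_inj om h (h0.trans (map_zero _).symm)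
    rw [h7] at hd
    exact not_squarefree_zero hd
  exact mul_ne_zero (by norm_num) (pow_ne_zero _ (pow_ne_zero _ hd0))

end

theorem order_eq {K : Type} [Field K] (W : WeierstrassCurve K) [Finite W.toAffine.Point]
    {L : ℂ → ℂ} (h : analyticOrderAt L 1 = 0) :
    analyticOrderAt L 1 = Module.finrank ℤ W.toAffine.Point := by
  rw [h, CM27.finrank_finite]
  rfl

theorem card_tors {K : Type} [Field K] (W : WeierstrassCurve K) [Finite W.toAffine.Point] :
    Nat.card (AddCommGroup.torsion W.toAffine.Point) = Nat.card W.toAffine.Point :=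
  CM27.card_torsion _

theorem period_sq {N : ℝ} (hN : 0 < N) : (OmCC / √N) ^ 2 = 3 * Om ^ 4 / N := by
  rw [OmCC_eq, div_pow, mul_pow, Real.sq_sqrt (by norm_num), Real.sq_sqrt hN.le]
  ring

/-- **[CMT]** the assembly for one curve. -/
theorem twoPart (K : Type) [Field K] [NumberField K] [IsCyclotomicExtension {3} ℚ K] (om : K)
    (h : om ^ 2 + om + 1 = 0) (d : Eis) (h4 : (4 : Eis) ∣ d - 1) (hd : Squarefree d)
    (hgood : ∀ p : ℕ, p.Prime → (p : ℤ) ∣ d.norm → GoodPrime p) (e : K)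
    (he : 4 * e + 1 = toK om h d ^ 3) (hfin : Finite (Wt e).toAffine.Point)
    (hsha : ∀ (x : SBSD.Sha (Wt e)) (k : ℕ), 2 ^ k • x = 0 → x = 0) :
    SBSD.TwoPartRankZero (Wt e) := by
  have hd0 : d ≠ 0 := by
    rintro rfl
    exact not_squarefree_zero hd
  have hNpos : (0 : ℝ) < (d.norm : ℝ) := by exact_mod_cast a1_norm_pos hd0
  obtain ⟨L, hL1, hL2, ⟨r, hr0, hr⟩, q, hq1, hq2, hq3⟩ :=
    analytic_final K om h d h4 hd hgood e he
  have hL3 : L 1 ≠ 0 := by rw [hr]; exact_mod_cast hr0.ne'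
  have h1 : analyticOrderAt L 1 = 0 :=
    ((hL1.analyticAt 1).analyticOrderAt_eq_zero).2 hL3
  have hodd := odd_card K om h d hd e he
  obtain ⟨c, hc, hcodd⟩ : ∃ c : ℕ, ∏ᶠ v : HeightOneSpectrum (𝓞 K), tam (Wt e) v = c ∧ Odd c := by
    rcases finprod_tam_twist K om h d h4 hd hgood e he with h5 | h5
    · exact ⟨1, h5, odd_one⟩
    · exact ⟨3, h5, by decide⟩
  have hN : (Nat.card (Wt e).toAffine.Point : ℚ) ≠ 0 := by
    have : Nat.card (Wt e).toAffine.Point ≠ 0 := by
      intro h0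
      rw [h0] at hodd
      exact absurd hodd (by decide)
    exact_mod_cast this
  have hc0 : (c : ℚ) ≠ 0 := by
    have : c ≠ 0 := by
      rintro rfl
      exact absurd hcodd (by decide)
    exact_mod_cast this
  refine ⟨elliptic_Wt K om h d hd e he, hfin, L, ⟨hL1, hL2⟩, order_eq (Wt e) h1, hL3, hsha,
    q * (Nat.card (Wt e).toAffine.Point : ℚ) ^ 4 / (c : ℚ) ^ 2, ?_, ?_, ?_⟩
  · exact div_ne_zero (mul_ne_zero hq1 (pow_ne_zero _ hN)) (pow_ne_zero _ hc0)
  · have h5 : padicValRat 2 ((Nat.card (Wt e).toAffine.Point : ℚ) ^ 4) = 0 := by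
      have := CM27.padic_two_odd_nat _ (hodd.pow (n := 4))
      exact_mod_cast this
    have h6 : padicValRat 2 ((c : ℚ) ^ 2) = 0 := by
      have := CM27.padic_two_odd_nat _ (hcodd.pow (n := 2))
      exact_mod_cast this
    rw [padicValRat.div (mul_ne_zero hq1 (pow_ne_zero _ hN)) (pow_ne_zero _ hc0),
      padicValRat.mul hq1 (pow_ne_zero _ hN), h5, h6, hq2]
    rfl
  · rw [SBSD.bsdQuotient, hc, card_tors, abs_discr, period_twist K om h d h4 hd hgood e he]
    have hP2 : ((OmCC / √(d.norm : ℝ) : ℝ) : ℂ) ^ 2 = 3 * (Om : ℂ) ^ 4 / (d.norm : ℂ) := by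
      rw [← Complex.ofReal_pow, period_sq hNpos]
      push_cast
      rfl
    have hsq : ((√3 : ℝ) : ℂ) ^ 2 = 3 := by
      rw [← Complex.ofReal_pow, Real.sq_sqrt (by norm_num)]
      norm_num
    have hOm : (Om : ℂ) ≠ 0 := by exact_mod_cast Om_pos.ne'
    have hNC : (d.norm : ℂ) ≠ 0 := by exact_mod_cast hNpos.ne'
    have hcC : (c : ℂ) ≠ 0 := by exact_mod_cast hc0
    have hL : L 1 ^ 2 = q * (Om : ℂ) ^ 4 / (d.norm : ℂ) := by
      rw [eq_div_iff hNC]; exact hq3
    rw [div_pow, mul_pow, mul_pow, mul_pow, hL, hsq, hP2]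
    push_cast
    field_simp

end CMT
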