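import Pool.Agent.MP_dfae13_nt.T.TE3

set_option autoImplicit false

open ArithmeticFunction Filter IsDedekindDomain NumberField
open CM27
open scoped ComplexConjugate

namespace CMT

/-! ## [CMT-E4] the `L`-function of `y² + y = x³ + e` is a product of two Hecke `L`-functions -/

/-- `X(a) a` -/
noncomputable def g1 (S : Finset Eis) (a : Eis) : ℂ := XS S a * emb a

/-- `X(a) ā` -/
noncomputable def g2 (S : Finset Eis) (a : Eis) : ℂ := XS S a * conj (emb a)

theorem XS_mul (S : Finset Eis) (hS : ∀ b ∈ S, GoodEis b) (a a' : Eis) :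
    XS S (a * a') = XS S a * XS S a' := by
  rw [XS, XS, XS, XZ_mul S hS, Int.cast_mul]

theorem XS_one (S : Finset Eis) (hS : ∀ b ∈ S, GoodEis b) : XS S 1 = 1 := by
  rw [XS, XZ_one S hS, Int.cast_one]

theorem g1_one (S : Finset Eis) (hS : ∀ b ∈ S, GoodEis b) : g1 S 1 = 1 := by
  rw [g1, XS_one S hS, map_one, mul_one]

theorem g2_one (S : Finset Eis) (hS : ∀ b ∈ S, GoodEis b) : g2 S 1 = 1 := by
  rw [g2, XS_one S hS, map_one, map_one, mul_one]

theorem g1_mul (S : Finset Eis) (hS : ∀ b ∈ S, GoodEis b) (a a' : Eis) :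
    g1 S (a * a') = g1 S a * g1 S a' := by
  rw [g1, g1, g1, XS_mul S hS, map_mul]; ring

theorem g2_mul (S : Finset Eis) (hS : ∀ b ∈ S, GoodEis b) (a a' : Eis) :
    g2 S (a * a') = g2 S a * g2 S a' := by
  rw [g2, g2, g2, XS_mul S hS, map_mul, map_mul]; ring

theorem primary_neg_cast {p : ℕ} (h : p % 3 = 2) : Primary (-(p : Eis)) := by
  rw [primary_iff]
  have h1 : (-(p : Eis)).re = -(p : ℤ) := by simp
  have h2 : (-(p : Eis)).im = 0 := by simp
  rw [h1, h2]
  omega

theorem alg_four {R : Type*} [CommRing R] (A1 A2 L1 L2 P Q D1 D2 : R) (e1 : A1 * D1 = 1)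
    (e2 : A2 * D2 = 1) (e3 : L1 * P = 1) (e4 : L2 * Q = 1) (h : P * Q = D1 * D2) :
    A1 * A2 = L1 * L2 := by
  linear_combination (-(A1 * A2)) * e3 - A1 * A2 * (L1 * P) * e4 + L1 * L2 * (A2 * D2) * e1 +
    L1 * L2 * e2 + (A1 * A2 * L1 * L2) * h

theorem alg_three {R : Type*} [CommRing R] (A L1 L2 P Q D : R) (e1 : A * D = 1)
    (e3 : L1 * P = 1) (e4 : L2 * Q = 1) (h : P * Q = D) : A = L1 * L2 := by
  linear_combination (-A) * e3 - A * (L1 * P) * e4 + L1 * L2 * e1 + (A * L1 * L2) * h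

section
variable (K : Type) [Field K] [NumberField K] (om : K) (h : om ^ 2 + om + 1 = 0)
  (φ : Eis ≃+* 𝓞 K) (hφ : ∀ a, ((φ a : 𝓞 K) : K) = toK om h a)
  (S : Finset Eis) (hS : ∀ b ∈ S, GoodEis b) (u : Eis) (hu : IsUnit u)
  (h4 : (4 : Eis) ∣ u * gS S - 1) (e : Eis) (he : 4 * e + 1 = (u * gS S) ^ 3)

include hS hu h4 he hφ in
theorem loc_eq {p : ℕ} (hp : p.Prime) :
    loc p (LCW K (Wt (toK om h e))) = loc p (Dg (g1 S) * Dg (g2 S)) := by
  classical
  rw [loc_LCW, loc_mul hp]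
  have h3 : p % 3 = 0 ∨ p % 3 = 1 ∨ p % 3 = 2 := by omega
  rcases h3 with h3 | h3 | h3
  · -- `p = 3`
    have hp3 : p = 3 := ((Nat.prime_dvd_prime_iff_eq Nat.prime_three hp).1
      (Nat.dvd_of_mod_eq_zero h3)).symm
    subst hp3
    rw [loc_Dg_three _ (g1_one S hS), loc_Dg_three _ (g2_one S hS), mul_one]
    have h5 : ∃ T : Finset (HeightOneSpectrum (𝓞 K)), ∀ v : HeightOneSpectrum (𝓞 K),
        v ∈ T ↔ ((3 : ℕ) : 𝓞 K) ∈ v.asIdeal := by
      have h6 : {v : HeightOneSpectrum (𝓞 K) | ((3 : ℕ) : 𝓞 K) ∈ v.asIdeal}.Subsingleton := by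
        intro v hv v' hv'
        simp only [Set.mem_ofPred_eq, Nat.cast_ofNat] at hv hv'
        apply HeightOneSpectrum.ext
        rw [(place_three K φ v hv).1, (place_three K φ v' hv').1]
      exact ⟨h6.finite.toFinset, fun v => by rw [Set.Finite.mem_toFinset]; rfl⟩
    obtain ⟨T, hT⟩ := h5
    rw [loc_LFunctionW K _ hp T (fun v hv => (hT v).2 hv), map_prod]
    apply Finset.prod_eq_one
    intro v hv
    have hv3 : (3 : 𝓞 K) ∈ v.asIdeal := by exact_mod_cast (hT v).1 hv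
    rw [loc_place_three K om h φ hφ v S hS u hu h4 e he hv3, loc_one hp, map_one]
  · -- split
    obtain ⟨a, ha, hn⟩ := exists_primary_prime p hp h3
    obtain ⟨v₁, v₂, hne, hv1, hv2, hm1, hm2, hall, hc1, hc2⟩ := places_split K φ p hp h3 a hn
    have hns : (star a).norm = p := by
      rw [← hn, norm_eq, norm_eq, QuadraticAlgebra.re_star, QuadraticAlgebra.im_star]
      ring
    rw [loc_LFunctionW K _ hp {v₁, v₂} (fun v hv => by
      rw [Finset.mem_insert, Finset.mem_singleton]; exact hall v hv), map_prod,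
      Finset.prod_pair hne]
    have e1 := loc_place K om h φ hφ v₁ S hS u hu h4 e he a ha p 1 hp
      (Or.inl ⟨h3, rfl, hn⟩) (a3_prime_of_norm p hp a hn) hv1 (by rw [hc1, pow_one])
    have e2 := loc_place K om h φ hφ v₂ S hS u hu h4 e he (star a) ha.star p 1 hp
      (Or.inl ⟨h3, rfl, hns⟩) (a3_prime_of_norm p hp _ hns) hv2 (by rw [hc2, pow_one])
    have e3 := loc_Dg_split (g1 S) (g1_one S hS) (g1_mul S hS) p hp h3 a ha hn
    have e4 := loc_Dg_split (g2 S) (g2_one S hS) (g2_mul S hS) p hp h3 a ha hn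
    have hpn : emb a * conj (emb a) = p := by
      rw [Complex.mul_conj, normSq_emb, hn]
      push_cast
      rfl
    rw [emb_star, Complex.conj_conj] at e2
    rw [g1, g1, emb_star] at e3
    rw [g2, g2, emb_star, Complex.conj_conj] at e4
    simp only [pow_one] at e1 e2
    rw [← hpn] at e1 e2
    simp only [map_mul, map_add, map_pow] at e1 e2 e3 e4
    refine alg_four _ _ _ _ _ _ _ _ e1 e2 e3 e4 ?_
    ring
  · -- inert
    obtain ⟨v, hv, hm, hall, hc⟩ := places_inert K φ p hp h3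
    rw [loc_LFunctionW K _ hp {v} (fun v' hv' => by
      rw [Finset.mem_singleton]; exact hall v' hv'), map_prod, Finset.prod_singleton]
    have e1 := loc_place K om h φ hφ v S hS u hu h4 e he (-(p : Eis)) (primary_neg_cast h3) p 2 hp
      (Or.inr ⟨h3, rfl, rfl⟩) (a3_prime_inert p hp h3).neg hv (by rw [hc])
    have e3 := loc_Dg_inert (g1 S) (g1_one S hS) (g1_mul S hS) p hp h3
    have e4 := loc_Dg_inert (g2 S) (g2_one S hS) (g2_mul S hS) p hp h3
    rw [map_neg, map_natCast, map_neg, Complex.conj_natCast] at e1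
    rw [g1, map_neg, map_natCast] at e3
    rw [g2, map_neg, map_natCast, map_neg, Complex.conj_natCast] at e4
    simp only [map_mul, map_add, map_neg, map_pow] at e1 e3 e4
    refine alg_three _ _ _ _ _ _ e1 e3 e4 ?_
    ring

include hS hu h4 he hφ in
theorem LCW_eq : LCW K (Wt (toK om h e)) = Dg (g1 S) * Dg (g2 S) := by
  rw [ArithmeticFunction.IsMultiplicative.eq_iff_eq_on_prime_powers _ (isMultiplicative_LCW K _) _
    ((isMultiplicative_Dg _ (g1_one S hS) (g1_mul S hS)).mul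
      (isMultiplicative_Dg _ (g2_one S hS) (g2_mul S hS)))]
  intro p i hp
  rw [← coeff_loc, ← coeff_loc, loc_eq K om h φ hφ S hS u hu h4 e he hp]

end

end CMT
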