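import Pool.Agent.MP_dfae13_nt.T.J3

/-!
# [CMT-J] the Tamagawa number at the place above `3` is 1 or 3
-/

set_option autoImplicit false

open Polynomial NumberField IsDedekindDomain CM27
open scoped Classical

namespace CMT

open SBSD

/-- The group theoretic part. -/
theorem index_odd {G : Type*} [AddCommGroup G] (S : Set G)
    (ha : ∀ P Q, P ∉ S → Q ∉ S → P - Q ∈ S ∨ P + Q ∈ S)
    (hb : ∀ P, P ∉ S → P + P ∉ S) :
    (AddSubgroup.closure S).index = 1 ∨ (AddSubgroup.closure S).index = 3 := by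
  set H := AddSubgroup.closure S with hH
  have hSH : ∀ P ∈ S, P ∈ H := fun P hP => AddSubgroup.subset_closure hP
  by_cases hall : ∀ P, P ∈ H
  · left
    have : H = ⊤ := eq_top_iff.2 fun P _ => hall P
    rw [this, AddSubgroup.index_top]
  · right
    push Not at hall
    obtain ⟨P, hP⟩ := hall
    have hPS : P ∉ S := fun h => hP (hSH P h)
    have h3 : P + P + P ∈ H := by
      rcases ha (P + P) P (hb P hPS) hPS with h | h
      · exact absurd (hSH _ h) (by rwa [add_sub_cancel_right])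
      · exact hSH _ h
    have hx : (QuotientAddGroup.mk P : G ⧸ H) ≠ 0 := by
      rw [Ne, QuotientAddGroup.eq_zero_iff]
      exact hP
    have hx3 : (3 : ℕ) • (QuotientAddGroup.mk P : G ⧸ H) = 0 := by
      rw [← QuotientAddGroup.mk_nsmul, QuotientAddGroup.eq_zero_iff]
      have : 3 • P = P + P + P := by
        rw [succ_nsmul, two_nsmul]
      rw [this]
      exact h3
    have hord : addOrderOf (QuotientAddGroup.mk P : G ⧸ H) = 3 := by
      have : Fact (Nat.Prime 3) := ⟨Nat.prime_three⟩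
      exact addOrderOf_eq_prime hx3 hx
    have hall : ∀ y : G ⧸ H, y ∈ AddSubgroup.zmultiples (QuotientAddGroup.mk P : G ⧸ H) := by
      intro y
      obtain ⟨Q, rfl⟩ := QuotientAddGroup.mk_surjective y
      by_cases hQ : Q ∈ H
      · rw [(QuotientAddGroup.eq_zero_iff Q).2 hQ]
        exact zero_mem _
      · rcases ha Q P (fun h => hQ (hSH Q h)) hPS with h | h
        · have h4 := (QuotientAddGroup.eq_zero_iff (N := H) (Q - P)).2 (hSH _ h)
          rw [QuotientAddGroup.mk_sub, sub_eq_zero] at h4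
          rw [h4]
          exact AddSubgroup.mem_zmultiples _
        · have h4 := (QuotientAddGroup.eq_zero_iff (N := H) (Q + P)).2 (hSH _ h)
          rw [QuotientAddGroup.mk_add, add_eq_zero_iff_eq_neg] at h4
          rw [h4]
          exact neg_mem (AddSubgroup.mem_zmultiples _)
    have hcard := addOrderOf_eq_card_of_forall_mem_zmultiples hall
    rw [AddSubgroup.index, ← hcard, hord]

section three

variable (A : Type) [CommRing A] [IsDomain A] [IsDiscreteValuationRing A]
  {K : Type} [Field K] [Algebra A K] [IsFractionRing A K]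

theorem unit_three (l : A) (hl : Irreducible l) (hl2 : l ^ 2 = -3) (e₀ : A)
    (hβ : IsUnit (1 + 4 * e₀))
    (T : WeierstrassCurve.VariableChange K)
    (hT : WeierstrassCurve.IsMinimal A (T • Wt (algebraMap A K e₀))) :
    (IsDiscreteValuationRing.maximalIdeal A).valuation K (T.u : K) = 1 := by
  have := Wt_integral A (K := K) e₀
  refine unit_of_lt A _ 6 (by norm_num) ?_ T hT
  have h3 : (3 : A) = -l ^ 2 := by rw [hl2]; ring
  have h1 : (Wt (algebraMap A K e₀)).Δ = algebraMap A K ((1 + 4 * e₀) ^ 2) * algebraMap A K l ^ 6 := by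
    rw [Wt_Δ, ← map_pow, ← map_mul]
    have h2 : -27 * (1 + 4 * algebraMap A K e₀) ^ 2 = algebraMap A K (-27 * (1 + 4 * e₀) ^ 2) := by
      simp only [map_mul, map_pow, map_add, map_one, map_ofNat, map_neg]
    have h27 : (27 : A) = -l ^ 6 := by
      have : (27 : A) = 3 ^ 3 := by norm_num
      rw [this, h3]
      ring
    rw [h2, h27]
    congr 1
    ring
  rw [h1, map_mul, val_algebraMap_unit A _ (hβ.pow 2), map_pow, val_irreducible A l hl,
    one_mul, ← WithZero.exp_nsmul]
  norm_num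

variable {A}

theorem l_not_dvd_two (l : A) (hl : Irreducible l) (hl2 : l ^ 2 = -3) : ¬ l ∣ 2 := by
  rintro ⟨c, hc⟩
  apply hl.not_isUnit
  refine isUnit_of_dvd_one ⟨-l - c, ?_⟩
  linear_combination hl2 - hc

/-- Data of a point of singular reduction. -/
structure SData (l d : A) (u : Aˣ) (r : A) (I : WeierstrassCurve A) (a b ζ τ : A) : Prop where
  hZ : Z0 I u a b = l * ζ
  hX : X0 u r a + d = l * τ

theorem zeta_sq (l d : A) (hl : Irreducible l) (hl2 : l ^ 2 = -3) (u : Aˣ) (r : A)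
    (I : WeierstrassCurve A) (a b ζ τ : A) (h : SData l d u r I a b ζ τ)
    (hsq : Z0 I u a b ^ 2 = 4 * X0 u r a ^ 3 + d ^ 3) :
    ζ ^ 2 = d ^ 3 + l * (-4 * d ^ 2 * τ + 4 * l * d * τ ^ 2 + 4 * τ ^ 3) := by
  have h1 : X0 u r a = l * τ - d := by linear_combination h.hX
  rw [h.hZ, h1] at hsq
  have h2 : l ^ 2 * ζ ^ 2 = l ^ 2 *
      (d ^ 3 + l * (-4 * d ^ 2 * τ + 4 * l * d * τ ^ 2 + 4 * τ ^ 3)) := by
    linear_combination hsq + (-d ^ 3 + 4 * d ^ 2 * l * τ - 4 * d * l ^ 2 * τ ^ 2) * hl2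
  exact mul_left_cancel₀ (pow_ne_zero 2 hl.ne_zero) h2

theorem zeta_not_dvd (l d : A) (hl : Irreducible l) (hl2 : l ^ 2 = -3) (hd : IsUnit d) (u : Aˣ)
    (r : A) (I : WeierstrassCurve A) (a b ζ τ : A) (h : SData l d u r I a b ζ τ)
    (hsq : Z0 I u a b ^ 2 = 4 * X0 u r a ^ 3 + d ^ 3) : ¬ l ∣ ζ := by
  rintro ⟨c, hc⟩
  have h1 := zeta_sq l d hl hl2 u r I a b ζ τ h hsq
  apply hl.not_isUnit
  have h2 : l ∣ d ^ 3 := ⟨l * c ^ 2 - (-4 * d ^ 2 * τ + 4 * l * d * τ ^ 2 + 4 * τ ^ 3), by
    rw [hc] at h1; linear_combination -h1⟩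
  exact isUnit_of_dvd_unit h2 (hd.pow 3)

/-- The data of a point which is not of nonsingular reduction. -/
theorem exists_data (l d e₀ : A) (hl : Irreducible l) (hl2 : l ^ 2 = -3)
    (hβ : 1 + 4 * e₀ = d ^ 3) (hF : ∀ x : A, l ∣ x ^ 3 - x)
    (T : WeierstrassCurve.VariableChange K) (W : WeierstrassCurve K) [W.IsMinimal A]
    (hW : W = T • Wt (algebraMap A K e₀)) (u : Aˣ) (r : A)
    (hM : Model A e₀ T (W.integralModel A) u r) (P : W.toAffine.Point)
    (hP : ¬ NonsingularReduction A W P) :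
    ∃ (a b ζ τ : A) (h : W.toAffine.Nonsingular (algebraMap A K a) (algebraMap A K b)),
      P = .some _ _ h ∧ SData l d u r (W.integralModel A) a b ζ τ ∧
        Z0 (W.integralModel A) u a b ^ 2 = 4 * X0 u r a ^ 3 + d ^ 3 := by
  obtain ⟨a, b, hab, rfl, hz⟩ := not_nonsingular W P hP
  have hlp : Prime l := hl.prime
  have hm : IsLocalRing.maximalIdeal A = Ideal.span {l} :=
    (IsDiscreteValuationRing.irreducible_iff_uniformizer l).1 hl
  rw [hm, Ideal.mem_span_singleton] at hz
  have h1 := hab.1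
  have h2 : Z0 (W.integralModel A) u a b ^ 2 = 4 * X0 u r a ^ 3 + d ^ 3 := by
    rw [← hβ]
    refine hM.sq a b ?_
    have h3 := hab.1
    subst hW
    exact h3
  obtain ⟨c, hc⟩ := hz
  have hZ : Z0 (W.integralModel A) u a b = l * ((u : A) ^ 3 * c) := by
    rw [Z0, hc]; ring
  obtain ⟨c1, hc1⟩ := hF (X0 u r a)
  obtain ⟨c2, hc2⟩ := hF d
  refine ⟨a, b, (u : A) ^ 3 * c, l * ((u : A) ^ 3 * c) ^ 2 - c1 + l * X0 u r a ^ 3 - c2, hab, rfl,
    ⟨hZ, ?_⟩, h2⟩
  rw [hZ] at h2
  linear_combination -h2 - hc1 - hc2 - (X0 u r a ^ 3) * hl2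

/-- Opposite classes. -/
theorem add_opposite (l d e₀ : A) (hl : Irreducible l) (hl2 : l ^ 2 = -3) (hd : IsUnit d)
    (hβ : 1 + 4 * e₀ = d ^ 3) (hF : ∀ x : A, l ∣ x ^ 3 - x)
    (T : WeierstrassCurve.VariableChange K) (W : WeierstrassCurve K) [W.IsMinimal A]
    (hW : W = T • Wt (algebraMap A K e₀)) (u : Aˣ) (r : A)
    (hM : Model A e₀ T (W.integralModel A) u r)
    (a b ζ τ : A) (h : W.toAffine.Nonsingular (algebraMap A K a) (algebraMap A K b))
    (hD : SData l d u r (W.integralModel A) a b ζ τ)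
    (hsq : Z0 (W.integralModel A) u a b ^ 2 = 4 * X0 u r a ^ 3 + d ^ 3)
    (a' b' ζ' τ' : A) (h' : W.toAffine.Nonsingular (algebraMap A K a') (algebraMap A K b'))
    (hD' : SData l d u r (W.integralModel A) a' b' ζ' τ')
    (hopp : l ∣ ζ + ζ') :
    NonsingularReduction A W ((.some _ _ h : W.toAffine.Point) + .some _ _ h') := by
  have hinj : Function.Injective (algebraMap A K) := IsFractionRing.injective A K
  have hlp : Prime l := hl.prime
  have hl2' := l_not_dvd_two l hl hl2
  have hζ := zeta_not_dvd l d hl hl2 hd u r _ a b ζ τ hD hsq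
  have h2K : (2 : K) ≠ 0 := by
    intro h0
    apply hl2'
    have : (2 : A) = 0 := hinj (by rw [map_ofNat, map_zero, h0])
    rw [this]
    exact dvd_zero l
  have hkey : ¬ l ∣ ζ - ζ' := by
    intro h1
    have h2 : l ∣ 2 * ζ := by
      have : 2 * ζ = (ζ - ζ') + (ζ + ζ') := by ring
      rw [this]
      exact dvd_add h1 hopp
    rcases hlp.dvd_or_dvd h2 with h3 | h3
    · exact hl2' h3
    · exact hζ h3
  by_cases hxy : algebraMap A K a = algebraMap A K a' ∧
      algebraMap A K b = W.toAffine.negY (algebraMap A K a') (algebraMap A K b')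
  · rw [WeierstrassCurve.Affine.Point.add_of_Y_eq hxy.1 hxy.2]
    trivial
  by_cases hx : algebraMap A K a = algebraMap A K a'
  · exfalso
    have hy : algebraMap A K b ≠ W.toAffine.negY (algebraMap A K a') (algebraMap A K b') :=
      fun hy => hxy ⟨hx, hy⟩
    have hyy := WeierstrassCurve.Affine.Y_eq_of_Y_ne h.1 h'.1 hx hy
    have h1 : a = a' := hinj hx
    have h2 : b = b' := hinj hyy
    apply hkey
    have h3 := hD.hZ
    have h4 := hD'.hZ
    rw [h1, h2] at h3
    have h5 : ζ = ζ' := mul_left_cancel₀ hl.ne_zero (h3.symm.trans h4)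
    rw [h5, sub_self]
    exact dvd_zero l
  by_contra hS
  rw [WeierstrassCurve.Affine.Point.add_some hxy] at hS
  obtain ⟨a₃, b₃, ζ₃, τ₃, h₃, heq, hD₃, -⟩ :=
    exists_data l d e₀ hl hl2 hβ hF T W hW u r hM _ hS
  have hxx : W.toAffine.addX (algebraMap A K a) (algebraMap A K a')
      (W.toAffine.slope (algebraMap A K a) (algebraMap A K a') (algebraMap A K b)
        (algebraMap A K b')) = algebraMap A K a₃ :=
    (WeierstrassCurve.Affine.Point.some.inj heq).1
  have hadd := (XX_add (algebraMap A K e₀) T (algebraMap A K a) (algebraMap A K a')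
    (algebraMap A K b) (algebraMap A K b') hx).resolve_right h2K
  rw [← hW, hxx, hM.XX, hM.XX, hM.XX, hM.ZZ, hM.ZZ] at hadd
  have hne : (X0 u r a - X0 u r a' : A) ≠ 0 := by
    intro h0
    apply hx
    have h1 : (u : A) ^ 2 * (a - a') = 0 := by
      have : X0 u r a - X0 u r a' = (u : A) ^ 2 * (a - a') := by simp only [X0]; ring
      rw [← this, h0]
    have h2 := (mul_eq_zero.1 h1).resolve_left (pow_ne_zero _ u.ne_zero)
    rw [sub_eq_zero.1 h2]
  have hneK : (2 * (algebraMap A K (X0 u r a) - algebraMap A K (X0 u r a')) : K) ≠ 0 := by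
    rw [← map_sub]
    exact mul_ne_zero h2K (fun h0 => hne (hinj (by rw [h0, map_zero])))
  have hA : 4 * (X0 u r a - X0 u r a') ^ 2 * (X0 u r a₃ + X0 u r a + X0 u r a') =
      (Z0 (W.integralModel A) u a b - Z0 (W.integralModel A) u a' b') ^ 2 := by
    apply hinj
    simp only [map_mul, map_pow, map_sub, map_add, map_ofNat]
    rw [hadd]
    have hq := div_mul_cancel₀ (algebraMap A K (Z0 (W.integralModel A) u a b) -
      algebraMap A K (Z0 (W.integralModel A) u a' b')) hneK
    generalize (algebraMap A K (Z0 (W.integralModel A) u a b) -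
      algebraMap A K (Z0 (W.integralModel A) u a' b')) /
        (2 * (algebraMap A K (X0 u r a) - algebraMap A K (X0 u r a'))) = q at hq ⊢
    rw [← hq]
    ring
  rw [hD.hZ, hD'.hZ] at hA
  have e1 : X0 u r a = l * τ - d := by linear_combination hD.hX
  have e2 : X0 u r a' = l * τ' - d := by linear_combination hD'.hX
  have e3 : X0 u r a₃ = l * τ₃ - d := by linear_combination hD₃.hX
  rw [e1, e2, e3] at hA
  have h5 : l ^ 2 * (l * (4 * (τ - τ') ^ 2 * (τ₃ + τ + τ' + l * d))) = l ^ 2 * (ζ - ζ') ^ 2 := by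
    linear_combination hA + 4 * l ^ 2 * (τ - τ') ^ 2 * d * hl2
  have h6 := mul_left_cancel₀ (pow_ne_zero 2 hl.ne_zero) h5
  exact hkey (hlp.dvd_of_dvd_pow (n := 2) ⟨_, h6.symm⟩)

theorem l_dvd_four_unit (l : A) (hl : Irreducible l) (hl2 : l ^ 2 = -3) (u : Aˣ) (x : A)
    (h : l ∣ 4 * (u : A) ^ 4 * x) : l ∣ x := by
  have hlp : Prime l := hl.prime
  have hl2' := l_not_dvd_two l hl hl2
  have h4 : (4 : A) = 2 * 2 := by norm_num
  rcases hlp.dvd_or_dvd h with h1 | h1
  · exfalso
    rcases hlp.dvd_or_dvd h1 with h2 | h2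
    · rw [h4] at h2
      rcases hlp.dvd_or_dvd h2 with h3 | h3 <;> exact hl2' h3
    · exact hl.not_isUnit (isUnit_of_dvd_unit h2 (u.isUnit.pow 4))
  · exact h1

/-- A point with `l ∣ Z` has singular reduction. -/
theorem singular_of_dvd (l d e₀ : A) (hl : Irreducible l) (hl2 : l ^ 2 = -3)
    (T : WeierstrassCurve.VariableChange K) (W : WeierstrassCurve K) [W.IsMinimal A]
    (hW : W = T • Wt (algebraMap A K e₀)) (u : Aˣ) (r : A)
    (hM : Model A e₀ T (W.integralModel A) u r)
    (a b : A) (h : W.toAffine.Nonsingular (algebraMap A K a) (algebraMap A K b))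
    (hZ : l ∣ Z0 (W.integralModel A) u a b) :
    ¬ NonsingularReduction A W (.some _ _ h) := by
  intro hS
  have h1 := (WeierstrassCurve.Affine.nonsingular_iff _ _).1 (hS a b rfl rfl)
  have hinj : Function.Injective (algebraMap A K) := IsFractionRing.injective A K
  set I := W.integralModel A with hI
  have huu : algebraMap A K (u : A) * algebraMap A K ((u⁻¹ : Aˣ) : A) = 1 := by
    rw [← map_mul]; simp
  have huinv : ((T.u⁻¹ : Kˣ) : K) = algebraMap A K ((u⁻¹ : Aˣ) : A) := by
    rw [Units.val_inv_eq_inv_val, hM.hu]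
    exact inv_eq_of_mul_eq_one_right huu
  have kb2 : (u : A) ^ 2 * I.b₂ = 12 * r := by
    apply hinj
    have h : (T • Wt (algebraMap A K e₀)).b₂ = algebraMap A K I.b₂ := by rw [hM.hI]; simp
    rw [map_mul, map_pow, ← h, WeierstrassCurve.variableChange_b₂, huinv, hM.hr]
    have h8 : algebraMap A K (u : A) ^ 2 * algebraMap A K ((u⁻¹ : Aˣ) : A) ^ 2 = 1 := by
      rw [← mul_pow, huu, one_pow]
    simp only [Wt, WeierstrassCurve.b₂, map_mul, map_ofNat]
    linear_combination (12 * algebraMap A K r) * h8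
  have kb4 : (u : A) ^ 4 * I.b₄ = 6 * r ^ 2 := by
    apply hinj
    have h : (T • Wt (algebraMap A K e₀)).b₄ = algebraMap A K I.b₄ := by rw [hM.hI]; simp
    rw [map_mul, map_pow, ← h, WeierstrassCurve.variableChange_b₄, huinv, hM.hr]
    have h8 : algebraMap A K (u : A) ^ 4 * algebraMap A K ((u⁻¹ : Aˣ) : A) ^ 4 = 1 := by
      rw [← mul_pow, huu, one_pow]
    simp only [Wt, WeierstrassCurve.b₂, WeierstrassCurve.b₄, map_mul, map_ofNat, map_pow]
    linear_combination (6 * algebraMap A K r ^ 2) * h8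
  have hlp : Prime l := hl.prime
  have hm : IsLocalRing.maximalIdeal A = Ideal.span {l} :=
    (IsDiscreteValuationRing.irreducible_iff_uniformizer l).1 hl
  have hz : l ∣ 2 * b + I.a₁ * a + I.a₃ := by
    rcases hlp.dvd_or_dvd hZ with h2 | h2
    · exact absurd (isUnit_of_dvd_unit h2 (u.isUnit.pow 3)) hl.not_isUnit
    · exact h2
  have hF : l ∣ I.a₁ * b - (3 * a ^ 2 + 2 * I.a₂ * a + I.a₄) := by
    apply l_dvd_four_unit l hl hl2 u
    obtain ⟨c, hc⟩ := hz
    refine ⟨2 * I.a₁ * (u : A) ^ 4 * c + 4 * l * X0 u r a ^ 2, ?_⟩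
    have e1 : I.b₂ = I.a₁ ^ 2 + 4 * I.a₂ := rfl
    have e2 : I.b₄ = 2 * I.a₄ + I.a₁ * I.a₃ := rfl
    rw [e1] at kb2
    rw [e2] at kb4
    rw [X0]
    linear_combination (2 * I.a₁ * (u : A) ^ 4) * hc - (2 * (u : A) ^ 2 * a) * kb2 - 2 * kb4 -
      4 * ((u : A) ^ 2 * a + r) ^ 2 * hl2
  have e1 : (W.reduction A).toAffine.a₁ = IsLocalRing.residue A I.a₁ := rfl
  have e2 : (W.reduction A).toAffine.a₂ = IsLocalRing.residue A I.a₂ := rfl
  have e3 : (W.reduction A).toAffine.a₃ = IsLocalRing.residue A I.a₃ := rfl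
  have e4 : (W.reduction A).toAffine.a₄ = IsLocalRing.residue A I.a₄ := rfl
  have hz' : IsLocalRing.residue A (2 * b + I.a₁ * a + I.a₃) = 0 := by
    rw [IsLocalRing.residue_eq_zero_iff, hm, Ideal.mem_span_singleton]
    exact hz
  have hF' : IsLocalRing.residue A (I.a₁ * b - (3 * a ^ 2 + 2 * I.a₂ * a + I.a₄)) = 0 := by
    rw [IsLocalRing.residue_eq_zero_iff, hm, Ideal.mem_span_singleton]
    exact hF
  simp only [map_add, map_mul, map_sub, map_pow, map_ofNat] at hz' hF'
  rcases h1.2 with h2 | h2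
  · apply h2
    rw [e1, e2, e4]
    linear_combination hF'
  · apply h2
    rw [e1, e3]
    linear_combination hz'

/-- The double of a point of singular reduction has singular reduction. -/
theorem double_singular (l d e₀ : A) (hl : Irreducible l) (hl2 : l ^ 2 = -3) (hd : IsUnit d)
    (hβ : 1 + 4 * e₀ = d ^ 3) (hF : ∀ x : A, l ∣ x ^ 3 - x)
    (T : WeierstrassCurve.VariableChange K) (W : WeierstrassCurve K) [W.IsMinimal A]
    (hW : W = T • Wt (algebraMap A K e₀)) (u : Aˣ) (r : A)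
    (hM : Model A e₀ T (W.integralModel A) u r) (P : W.toAffine.Point)
    (hP : ¬ NonsingularReduction A W P) : ¬ NonsingularReduction A W (P + P) := by
  obtain ⟨a, b, ζ, τ, h, rfl, hD, hsq⟩ := exists_data l d e₀ hl hl2 hβ hF T W hW u r hM P hP
  have hinj : Function.Injective (algebraMap A K) := IsFractionRing.injective A K
  have hlp : Prime l := hl.prime
  have hm : IsLocalRing.maximalIdeal A = Ideal.span {l} :=
    (IsDiscreteValuationRing.irreducible_iff_uniformizer l).1 hl
  have hζ := zeta_not_dvd l d hl hl2 hd u r _ a b ζ τ hD hsq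
  have hζu : IsUnit ζ := by
    by_contra hn
    have : ζ ∈ IsLocalRing.maximalIdeal A := (IsLocalRing.mem_maximalIdeal _).2 hn
    rw [hm, Ideal.mem_span_singleton] at this
    exact hζ this
  obtain ⟨ζu, rfl⟩ := hζu
  have hζK : algebraMap A K (ζu : A) * algebraMap A K ((ζu⁻¹ : Aˣ) : A) = 1 := by
    rw [← map_mul]; simp
  have huK : algebraMap A K (u : A) * algebraMap A K ((u⁻¹ : Aˣ) : A) = 1 := by
    rw [← map_mul]; simp
  have hlK : algebraMap A K l ≠ 0 := fun h0 => hl.ne_zero (hinj (by rw [h0, map_zero]))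
  have hl2K : algebraMap A K l ^ 2 = -3 := by
    rw [← map_pow, hl2, map_neg, map_ofNat]
  have hζ0 : algebraMap A K (ζu : A) ≠ 0 := left_ne_zero_of_mul_eq_one hζK
  have hZ0 : Z0 (W.integralModel A) u a b ≠ 0 := by
    rw [hD.hZ]
    exact mul_ne_zero hl.ne_zero ζu.ne_zero
  have hZZ : ZZ T (algebraMap A K a) (algebraMap A K b) ≠ 0 := by
    rw [hM.ZZ]
    exact fun h0 => hZ0 (hinj (by rw [h0, map_zero]))
  have hy : algebraMap A K b ≠ W.toAffine.negY (algebraMap A K a) (algebraMap A K b) := by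
    intro hy
    apply hZZ
    rw [ZZ_eq (algebraMap A K e₀), ← hW]
    have h1 : 2 * algebraMap A K b + W.a₁ * algebraMap A K a + W.a₃ = 0 := by
      have h2 : W.toAffine.negY (algebraMap A K a) (algebraMap A K b) =
        -algebraMap A K b - W.a₁ * algebraMap A K a - W.a₃ := rfl
      rw [h2] at hy
      linear_combination hy
    rw [h1, mul_zero]
  rw [WeierstrassCurve.Affine.Point.add_self_of_Y_ne hy]
  -- the new coordinates
  set X3 : A := -3 * X0 u r a ^ 4 * ((ζu⁻¹ : Aˣ) : A) ^ 2 - 2 * X0 u r a with hX3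
  set a3 : A := ((u⁻¹ : Aˣ) : A) ^ 2 * (X3 - r) with ha3
  have hXa3 : X0 u r a3 = X3 := by
    rw [X0, ha3]
    have : (u : A) ^ 2 * ((u⁻¹ : Aˣ) : A) ^ 2 = 1 := by rw [← mul_pow]; simp
    linear_combination (X3 - r) * this
  have hxx : W.toAffine.addX (algebraMap A K a) (algebraMap A K a)
      (W.toAffine.slope (algebraMap A K a) (algebraMap A K a) (algebraMap A K b)
        (algebraMap A K b)) = algebraMap A K a3 := by
    have h1 := XX_double (algebraMap A K e₀) T (algebraMap A K a) (algebraMap A K b) hZZ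
      (by rw [← hW]; exact hy)
    rw [← hW, hM.XX, hM.ZZ, hD.hZ, map_mul] at h1
    have h2 : (3 * algebraMap A K (X0 u r a) ^ 2 /
        (algebraMap A K l * algebraMap A K (ζu : A))) ^ 2 - 2 * algebraMap A K (X0 u r a) =
        algebraMap A K X3 := by
      rw [hX3]
      simp only [map_sub, map_mul, map_pow, map_neg, map_ofNat]
      have h3 : (3 * algebraMap A K (X0 u r a) ^ 2 /
        (algebraMap A K l * algebraMap A K (ζu : A))) ^ 2 =
        -3 * algebraMap A K (X0 u r a) ^ 4 * algebraMap A K ((ζu⁻¹ : Aˣ) : A) ^ 2 := by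
        rw [div_pow, div_eq_iff (pow_ne_zero 2 (mul_ne_zero hlK hζ0)), mul_pow _ (algebraMap A K _),
          hl2K]
        have h4 : algebraMap A K (ζu : A) ^ 2 * algebraMap A K ((ζu⁻¹ : Aˣ) : A) ^ 2 = 1 := by
          rw [← mul_pow, hζK, one_pow]
        linear_combination (-9 * algebraMap A K (X0 u r a) ^ 4) * h4
      rw [h3]
    rw [h2, ← hXa3, ← hM.XX, XX, XX] at h1
    have h4 : (T.u : K) ^ 2 ≠ 0 := pow_ne_zero _ T.u.ne_zero
    exact mul_left_cancel₀ h4 (add_right_cancel h1)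
  have hns := WeierstrassCurve.Affine.nonsingular_add h h fun hxy => hy hxy.right
  obtain ⟨b3, hb3⟩ : ∃ b3 : A, algebraMap A K b3 = W.toAffine.addY (algebraMap A K a)
      (algebraMap A K a) (algebraMap A K b) (W.toAffine.slope (algebraMap A K a) (algebraMap A K a)
        (algebraMap A K b) (algebraMap A K b)) := by
    have h1 := (WeierstrassCurve.Affine.equation_iff' _ _).1 hns.1
    rw [hxx] at h1
    have i1 := WeierstrassCurve.integralModel_a₁_eq A W
    have i2 := WeierstrassCurve.integralModel_a₂_eq A W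
    have i3 := WeierstrassCurve.integralModel_a₃_eq A W
    have i4 := WeierstrassCurve.integralModel_a₄_eq A W
    have i6 := WeierstrassCurve.integralModel_a₆_eq A W
    set I := W.integralModel A
    refine c1_root A K (X ^ 2 + C (I.a₁ * a3 + I.a₃) * X -
      C (a3 ^ 3 + I.a₂ * a3 ^ 2 + I.a₄ * a3 + I.a₆)) ?_ _ ?_
    · monicity!
    · rw [eval₂_sub, eval₂_add, eval₂_pow, eval₂_mul, eval₂_X, eval₂_C, eval₂_C]
      simp only [map_add, map_mul, map_pow, i1, i2, i3, i4, i6]
      simp only [WeierstrassCurve.toAffine] at h1 ⊢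
      linear_combination h1
  have hpt : (WeierstrassCurve.Affine.Point.some _ _ hns : W.toAffine.Point) =
      .some (algebraMap A K a3) (algebraMap A K b3) (by rw [← hxx, hb3]; exact hns) := by
    simp only [WeierstrassCurve.Affine.Point.some.injEq]
    exact ⟨hxx, hb3.symm⟩
  rw [hpt]
  refine singular_of_dvd l d e₀ hl hl2 T W hW u r hM a3 b3 _ ?_
  have hns3 : W.toAffine.Nonsingular (algebraMap A K a3) (algebraMap A K b3) := by
    rw [← hxx, hb3]; exact hns
  have hsq3 := hM.sq a3 b3 (by rw [← hW]; exact hns3.1)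
  rw [hβ, hXa3] at hsq3
  have hX3d : ∃ κ, X3 = l * κ - d := by
    refine ⟨l * X0 u r a ^ 4 * ((ζu⁻¹ : Aˣ) : A) ^ 2 - 2 * τ - l * d, ?_⟩
    have e1 : X0 u r a = l * τ - d := by linear_combination hD.hX
    rw [hX3]
    linear_combination (X0 u r a ^ 4 * ((ζu⁻¹ : Aˣ) : A) ^ 2 * (-1) + d) * hl2 - 2 * e1
  obtain ⟨κ, hκ⟩ := hX3d
  refine hlp.dvd_of_dvd_pow (n := 2) ⟨l * d ^ 3 + 4 * l ^ 2 * κ ^ 3 - 12 * l * κ ^ 2 * d +
    12 * κ * d ^ 2, ?_⟩
  rw [hsq3, hκ]
  linear_combination (-d ^ 3) * hl2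

/-- The Tamagawa number at a place above `3` of `ℚ(ω)`. -/
theorem tamagawa_Wt_three (l d e₀ : A) (hl : Irreducible l) (hl2 : l ^ 2 = -3) (hd : IsUnit d)
    (hβ : 1 + 4 * e₀ = d ^ 3) (hF : ∀ x : A, l ∣ x ^ 3 - x) :
    tamagawa A (Wt (algebraMap A K e₀)) = 1 ∨ tamagawa A (Wt (algebraMap A K e₀)) = 3 := by
  obtain ⟨T, hT, hTm, -⟩ := exists_minimal_T A (Wt (algebraMap A K e₀))
  have hβu : IsUnit (1 + 4 * e₀) := by rw [hβ]; exact hd.pow 3
  obtain ⟨u, hu⟩ := exists_u A T (unit_three A l hl hl2 e₀ hβu T hTm)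
  have hI : T • Wt (algebraMap A K e₀) =
      (((Wt (algebraMap A K e₀)).minimal A).integralModel A).map (algebraMap A K) := by
    rw [← hT]
    exact (WeierstrassCurve.baseChange_integralModel_eq A _).symm
  obtain ⟨r, hr⟩ := exists_r_three A l hl hl2 e₀ T _ hI u hu
  have hM : Model A e₀ T (((Wt (algebraMap A K e₀)).minimal A).integralModel A) u r :=
    ⟨hI, hu, hr⟩
  unfold tamagawa
  refine index_odd _ ?_ ?_
  · intro P Q hP hQ
    obtain ⟨a, b, ζ, τ, h, rfl, hD, hsq⟩ := exists_data l d e₀ hl hl2 hβ hF T _ hT u r hM P hP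
    obtain ⟨a', b', ζ', τ', h', rfl, hD', hsq'⟩ :=
      exists_data l d e₀ hl hl2 hβ hF T _ hT u r hM Q hQ
    have h1 := zeta_sq l d hl hl2 u r _ a b ζ τ hD hsq
    have h2 := zeta_sq l d hl hl2 u r _ a' b' ζ' τ' hD' hsq'
    have h3 : l ∣ (ζ + ζ') * (ζ + (-ζ')) := by
      refine ⟨(-4 * d ^ 2 * τ + 4 * l * d * τ ^ 2 + 4 * τ ^ 3) -
        (-4 * d ^ 2 * τ' + 4 * l * d * τ' ^ 2 + 4 * τ' ^ 3), ?_⟩
      linear_combination h1 - h2
    rcases hl.prime.dvd_or_dvd h3 with h4 | h4
    · right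
      exact add_opposite l d e₀ hl hl2 hd hβ hF T _ hT u r hM a b ζ τ h hD hsq a' b' ζ' τ' h' hD' h4
    · left
      have hneg : ((Wt (algebraMap A K e₀)).minimal A).toAffine.negY (algebraMap A K a')
          (algebraMap A K b') = algebraMap A K (-b' -
            (((Wt (algebraMap A K e₀)).minimal A).integralModel A).a₁ * a' -
            (((Wt (algebraMap A K e₀)).minimal A).integralModel A).a₃) := by
        simp only [map_sub, map_neg, map_mul, WeierstrassCurve.integralModel_a₁_eq,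
          WeierstrassCurve.integralModel_a₃_eq]
        rfl
      have h'' : ((Wt (algebraMap A K e₀)).minimal A).toAffine.Nonsingular (algebraMap A K a')
          (algebraMap A K (-b' -
            (((Wt (algebraMap A K e₀)).minimal A).integralModel A).a₁ * a' -
            (((Wt (algebraMap A K e₀)).minimal A).integralModel A).a₃)) := by
        rw [← hneg]
        exact (WeierstrassCurve.Affine.nonsingular_neg _ _).2 h'
      have hDn : SData l d u r (((Wt (algebraMap A K e₀)).minimal A).integralModel A) a' (-b' -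
            (((Wt (algebraMap A K e₀)).minimal A).integralModel A).a₁ * a' -
            (((Wt (algebraMap A K e₀)).minimal A).integralModel A).a₃) (-ζ') τ' := by
        refine ⟨?_, hD'.hX⟩
        have h5 := hD'.hZ
        simp only [Z0] at h5 ⊢
        linear_combination -h5
      have h6 := add_opposite l d e₀ hl hl2 hd hβ hF T _ hT u r hM a b ζ τ h hD hsq a' _ (-ζ') τ'
        h'' hDn h4
      have hp : (-(.some _ _ h' : ((Wt (algebraMap A K e₀)).minimal A).toAffine.Point)) =
          .some _ _ h'' := by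
        rw [WeierstrassCurve.Affine.Point.neg_some]
        simp only [WeierstrassCurve.Affine.Point.some.injEq, true_and]
        exact hneg
      rw [sub_eq_add_neg, hp]
      exact h6
  · intro P hP
    exact double_singular l d e₀ hl hl2 hd hβ hF T _ hT u r hM P hP

end three

end CMT
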