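import Pool.Agent.MP_dfae13_nt.T.I8a

set_option autoImplicit false

open Polynomial NumberField IsDedekindDomain
open scoped Classical

namespace CMT

open CM27

/-! ## [CMT-I8] the Selmer group over `K = ℚ(ω)` -/

section Theta

variable {K : Type} [Field K] (om : K) (hom : om ^ 2 + om + 1 = 0)

include hom in
theorem i8_om3 : om ^ 3 = 1 := by linear_combination (om - 1) * hom

/-- The automorphism `π ↦ ω π`. -/
noncomputable def th : R K →+* R K :=
  AdjoinRoot.lift (algebraMap K (R K)) (algebraMap K (R K) om * pr K) (by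
    rw [eval₂_cubPoly, mul_pow, ← map_pow, i8_om3 om hom, map_one, one_mul, pr_pow, sub_self])

theorem th_trip (a b c : K) : th om hom (trip a b c) = trip a (om * b) (om ^ 2 * c) := by
  have h1 : th om hom (pr K) = algebraMap K (R K) om * pr K := AdjoinRoot.lift_root _
  have h2 : ∀ x : K, th om hom (algebraMap K (R K) x) = algebraMap K (R K) x :=
    fun x => AdjoinRoot.lift_of _
  simp only [trip, map_add, map_mul, map_pow, h1, h2]
  ring

theorem th_three (z : R K) : th om hom (th om hom (th om hom z)) = z := by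
  obtain ⟨a, b, c, rfl⟩ := trip_surj z
  have h := i8_om3 om hom
  rw [th_trip, th_trip, th_trip]
  congr 1
  · linear_combination b * h
  · linear_combination (om ^ 3 + 1) * c * h

/-- The automorphism, as an equivalence. -/
noncomputable def thE : R K ≃+* R K :=
  RingEquiv.ofRingHom (th om hom) ((th om hom).comp (th om hom))
    (RingHom.ext fun z => th_three om hom z) (RingHom.ext fun z => th_three om hom z)

theorem thE_apply (z : R K) : thE om hom z = th om hom z := rfl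

theorem nrm_th (z : R K) : nrm (th om hom z) = nrm z := by
  obtain ⟨a, b, c, rfl⟩ := trip_surj z
  rw [th_trip, ← nrm_eq, ← nrm_eq, norm_trip, norm_trip]
  have h := i8_om3 om hom
  linear_combination (2 * b ^ 3 + 4 * c ^ 3 * (om ^ 3 + 1) - 6 * a * b * c) * h

theorem mul_th (z : R K) : z * th om hom z * th om hom (th om hom z) = trip (nrm z) 0 0 := by
  obtain ⟨a, b, c, rfl⟩ := trip_surj z
  have h := i8_om3 om hom
  have h1 : th om hom (th om hom (trip a b c)) = trip a (om ^ 2 * b) (om * c) := by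
    rw [th_trip, th_trip]
    congr 1
    · ring
    · linear_combination om * c * h
  have h2 : th om hom (trip a b c) * th om hom (th om hom (trip a b c)) =
      trip (a ^ 2 - 2 * b * c) (-(a * b) + 2 * c ^ 2) (-(a * c) + b ^ 2) := by
    rw [h1, th_trip, r1_trip_mul]
    congr 1
    · linear_combination 2 * b * c * (om ^ 2 - om + 1) * hom
    · linear_combination (a * b + 2 * c ^ 2 * (om - 1)) * hom
    · linear_combination (a * c + b ^ 2 * (om - 1)) * hom
  rw [mul_assoc, h2, ← nrm_eq, norm_trip, r1_trip_mul]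
  congr 1 <;> ring

theorem th_conj (c : K →+* K) (hc : c om = om ^ 2) (z : R K) :
    mapR c (th om hom z) = th om hom (th om hom (mapR c z)) := by
  obtain ⟨a, b, d, rfl⟩ := trip_surj z
  have h := i8_om3 om hom
  rw [th_trip, mapR_trip, mapR_trip, th_trip, th_trip]
  simp only [map_mul, map_pow, hc]
  congr 1
  · ring
  · ring

theorem InU2.th (w : Valuation K (WithZero (Multiplicative ℤ))) {z : R K} (h : InU2 w z) :
    InU2 w (CMT.th om hom z) := by
  obtain ⟨u, a, b, c, h1, ha, hb, hc⟩ := h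
  have hw : w om = 1 := by
    have : w om ^ 3 = 1 := by rw [← map_pow, i8_om3 om hom, map_one]
    exact (pow_eq_one_iff_of_nonneg zero_le (by norm_num)).1 this
  refine ⟨CMT.th om hom u, a, om * b, om ^ 2 * c, ?_, ha, ?_, ?_⟩
  · rw [← map_pow, ← map_mul, h1, th_trip]
  · rwa [map_mul, hw, one_mul]
  · rwa [map_mul, map_pow, hw, one_pow, one_mul]

theorem prod_eps : (pr K - 1) * th om hom (pr K - 1) * th om hom (th om hom (pr K - 1)) = 1 := by
  have h1 : pr K - 1 = trip (-1) 1 0 := by simp [trip]; ring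
  rw [mul_th, h1, ← nrm_eq, norm_trip]
  have h2 : (-1 : K) ^ 3 + 2 * 1 ^ 3 + 4 * 0 ^ 3 - 6 * -1 * 1 * 0 = 1 := by norm_num
  rw [h2]
  simp [trip]

end Theta

/-- The elements with a square norm and even valuations outside `N`. -/
structure Ev {K : Type} [Field K] [NumberField K] [Fact (Irreducible (cubPoly K))] (N : ℕ)
    (z : R K) : Prop where
  ne : z ≠ 0
  norm : ∃ n : K, nrm z = n ^ 2
  even : ∀ P : HeightOneSpectrum (𝓞 (R K)), (N : 𝓞 (R K)) ∉ P.asIdeal →
    IsSquare (P.valuation (R K) z)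

section Sel

variable {K : Type} [Field K] [NumberField K] [Fact (Irreducible (cubPoly K))]

theorem Ev.th (om : K) (hom : om ^ 2 + om + 1 = 0) {N : ℕ} {z : R K} (h : Ev N z) :
    Ev N (CMT.th om hom z) := by
  refine ⟨(map_ne_zero_iff _ (thE om hom).injective).2 h.ne, ?_, fun P hP => ?_⟩
  · rw [nrm_th]
    exact h.norm
  · obtain ⟨P', hP1, hP2, -⟩ := exists_conj (R K) (thE om hom) P
    rw [← thE_apply, ← hP1]
    exact h.even P' fun h6 => hP ((hP2 N).1 h6)

theorem Ev.conj {N : ℕ} {z : R K} (h : Ev N z) (σ : K ≃+* K) :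
    Ev N (CM27.mapR (σ : K →+* K) z) := by
  have hval : ∀ x, g_equiv σ x = CM27.mapR (σ : K →+* K) x := fun x => rfl
  refine ⟨?_, ?_, fun P hP => ?_⟩
  · rw [← hval]
    exact (map_ne_zero_iff _ (g_equiv σ).injective).2 h.ne
  · obtain ⟨n, hn⟩ := h.norm
    exact ⟨σ n, by rw [nrm_mapR, hn]; simp⟩
  · obtain ⟨P', hP1, hP2, -⟩ := exists_conj (R K) (g_equiv σ) P
    rw [← hval, ← hP1]
    exact h.even P' fun h6 => hP ((hP2 N).1 h6)

theorem exists_prime_mem' {N : ℕ} (hN0 : N ≠ 0)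
    (hNg : ∀ p : ℕ, p.Prime → p ∣ N → p = 2 ∨ p = 3 ∨ GoodPrime p)
    (v : HeightOneSpectrum (𝓞 (R ℚ))) (hv : (N : 𝓞 (R ℚ)) ∈ v.asIdeal) :
    ∃ p : ℕ, (p = 2 ∨ p = 3 ∨ GoodPrime p) ∧ (p : 𝓞 (R ℚ)) ∈ v.asIdeal := by
  have hp := v.isPrime
  have key : ∀ k : ℕ, k ∣ N → (k : 𝓞 (R ℚ)) ∈ v.asIdeal →
      ∃ p : ℕ, (p = 2 ∨ p = 3 ∨ GoodPrime p) ∧ (p : 𝓞 (R ℚ)) ∈ v.asIdeal := by
    intro k
    induction k using Nat.recOnMul with
    | zero =>
      intro h0 _
      exact absurd (zero_dvd_iff.1 h0) hN0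
    | one =>
      intro _ h1
      rw [Nat.cast_one] at h1
      exact absurd ((Ideal.eq_top_iff_one _).2 h1) hp.ne_top
    | prime p hp' =>
      intro h1 h2
      exact ⟨p, hNg p hp' h1, h2⟩
    | mul a b iha ihb =>
      intro h1 h2
      push_cast at h2
      rcases hp.mem_or_mem h2 with h3 | h3
      · exact iha ((Dvd.intro _ rfl).trans h1) h3
      · exact ihb ((Dvd.intro_left _ rfl).trans h1) h3
  exact key N dvd_rfl hv

/-- The descended class. -/
theorem Ev.mul_conj [IsCyclotomicExtension {3} ℚ K] (om : K) (hom : om ^ 2 + om + 1 = 0) {N : ℕ}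
    (hN0 : N ≠ 0) (hNg : ∀ p : ℕ, p.Prime → p ∣ N → p = 2 ∨ p = 3 ∨ GoodPrime p) (h6 : 6 ∣ N)
    (c : K ≃ₐ[ℚ] K) (hc : c om = om ^ 2) (hcc : ∀ x, c (c x) = x) {z : R K} (h : Ev N z) :
    ∃ (j : ℕ) (s : R K), j < 2 ∧ s ≠ 0 ∧ z * CM27.mapR (c : K →+* K) z = (pr K - 1) ^ j * s ^ 2 := by
  have hc1 : c ≠ 1 := by
    rintro rfl
    have h1 : om = om ^ 2 := hc
    have h2 : (3 : K) = 0 := by
      linear_combination (4 - (2 * om + 1)) * hom - (2 * om + 1) * h1
    norm_num at h2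
  set y : R K := z * CM27.mapR (c : K →+* K) z with hy
  have hy' : CM27.mapR (c : K →+* K) y = y := by
    rw [hy, map_mul, i8_mapR_comp]
    have : (c : K →+* K).comp (c : K →+* K) = RingHom.id K := by
      ext x
      exact hcc x
    rw [this, sel_mapR_id, mul_comm]
  obtain ⟨z0, hz0⟩ := fixed_K K c hc1 y hy'
  have hcz := h.conj (c : K ≃+* K)
  have hcz' : Ev N (CM27.mapR (c : K →+* K) z) := hcz
  have hy0 : y ≠ 0 := mul_ne_zero h.ne hcz'.ne
  obtain ⟨n, hn⟩ := h.norm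
  obtain ⟨n', hn'⟩ := hcz'.norm
  have hz00 : z0 ≠ 0 := by
    rintro rfl
    rw [map_zero] at hz0
    exact hy0 hz0.symm
  -- replace `z0` by `z0 * N(z0)`
  set ν : ℚ := nrm z0 with hν
  have hν0 : ν ≠ 0 := nrm_ne_zero hz00
  have hνF : algebraMap ℚ K ν = (n * n') ^ 2 := by
    rw [hν, ← nrm_mapR, hz0, hy, map_mul, hn, hn']
    ring
  have hnn : n * n' ≠ 0 := by
    intro h
    rw [h, zero_pow two_ne_zero] at hνF
    exact hν0 ((algebraMap ℚ K).injective (by rw [hνF, map_zero]))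
  set z0' : R ℚ := z0 * trip ν 0 0 with hz0'
  set t' : R K := trip (n * n') 0 0 with ht'
  have ht'0 : t' ≠ 0 := trip_ne_zero hnn
  have hmap : mapR (algebraMap ℚ K) z0' = y * t' ^ 2 := by
    have e : trip ((n * n') ^ 2) 0 0 = trip (n * n') 0 0 ^ 2 := by
      rw [pow_two, pow_two, trip_mul_self]
    rw [hz0', map_mul, mapR_trip, map_zero, hz0, hνF, ht', e]
  have hz0'0 : z0' ≠ 0 := mul_ne_zero hz00 (trip_ne_zero hν0)
  have hN' : Algebra.norm ℚ z0' = (ν ^ 2) ^ 2 := by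
    rw [nrm_rat, hz0', map_mul, nrm_trip, ← hν]
    ring
  -- all valuations are even
  have heven : ∀ v : HeightOneSpectrum (𝓞 (R ℚ)), IsSquare (v.valuation (R ℚ) z0') := by
    intro v
    by_cases hv : (N : 𝓞 (R ℚ)) ∈ v.asIdeal
    · obtain ⟨p, hp, hpv⟩ := exists_prime_mem' hN0 hNg v hv
      exact even_ram z0' hz0'0 (ν ^ 2) hN' p hp v hpv
    · obtain ⟨P, hP, hPv⟩ := unram_K K N h6 v hv
      rw [← hPv, hmap, map_mul, map_pow, hy, map_mul]
      exact ((h.even P hP).mul (hcz'.even P hP)).mul (IsSquare.sq _)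
  obtain ⟨j, s, hj, hs, hzs⟩ := cub_even z0' hz0'0 heven (by
    rw [hN']
    positivity)
  refine ⟨j, mapR (algebraMap ℚ K) s * t'⁻¹, hj, mul_ne_zero (fun h => hs
    (sel_mapR_injective (algebraMap ℚ K) (by rw [h, map_zero]))) (inv_ne_zero ht'0), ?_⟩
  have h1 : mapR (algebraMap ℚ K) z0' = (pr K - 1) ^ j * mapR (algebraMap ℚ K) s ^ 2 := by
    rw [hzs, map_mul, map_pow, map_pow, map_sub, map_one, mapR_pr]
  rw [mul_pow, ← mul_assoc, ← h1, hmap, mul_assoc, ← mul_pow, mul_inv_cancel₀ ht'0, one_pow,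
    mul_one]

end Sel

theorem selmer_trivial_K (K : Type) [Field K] [NumberField K] [IsCyclotomicExtension {3} ℚ K]
    [Fact (Irreducible (cubPoly K))] (om : K) (hom : om ^ 2 + om + 1 = 0) (N : ℕ) (hN0 : N ≠ 0)
    (hNg : ∀ p : ℕ, p.Prime → p ∣ N → p = 2 ∨ p = 3 ∨ GoodPrime p) (h6 : 6 ∣ N)
    (z : R K) (hz : z ≠ 0) (hn : ∃ n : K, Algebra.norm K z = n ^ 2)
    (heven : ∀ P : HeightOneSpectrum (𝓞 (R K)), (N : 𝓞 (R K)) ∉ P.asIdeal →
      IsSquare (P.valuation (R K) z))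
    (htwo : ∀ v : HeightOneSpectrum (𝓞 K), (2 : 𝓞 K) ∈ v.asIdeal → (2 : 𝓞 K) ∉ v.asIdeal ^ 2 →
      InU2 (v.valuation K) z) : ∃ t : R K, z = t ^ 2 := by
  have h0 : Ev N z := ⟨hz, hn, heven⟩
  obtain ⟨c, hc, hcc, -⟩ := exists_conj_K K om hom
  have h1 := h0.th om hom
  have h2 := h1.th om hom
  obtain ⟨j0, s0, hj0, hs0, e0⟩ := h0.mul_conj om hom hN0 hNg h6 c hc hcc
  obtain ⟨j1, s1, hj1, hs1, e1⟩ := h1.mul_conj om hom hN0 hNg h6 c hc hcc
  obtain ⟨j2, s2, hj2, hs2, e2⟩ := h2.mul_conj om hom hN0 hNg h6 c hc hcc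
  set θ := th om hom with hθ
  have hθ0 : ∀ x : R K, x ≠ 0 → θ x ≠ 0 := fun x hx =>
    (map_ne_zero_iff _ (thE om hom).injective).2 hx
  have h3 : ∀ x, θ (θ (θ x)) = x := th_three om hom
  have hcθ : ∀ x, mapR (c : K →+* K) (θ x) = θ (θ (mapR (c : K →+* K) x)) :=
    th_conj om hom (c : K →+* K) hc
  set y := mapR (c : K →+* K) z with hy
  obtain ⟨n', hn'⟩ := (h0.conj (c : K ≃+* K)).norm
  have hn'' : nrm y = n' ^ 2 := hn'
  have hy0 : y ≠ 0 := (h0.conj (c : K ≃+* K)).ne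
  have f1 : z * θ y = θ (θ (pr K - 1)) ^ j1 * θ (θ s1) ^ 2 := by
    have := congrArg (fun x => θ (θ x)) e1
    simp only [map_mul, map_pow, h3, hcθ] at this
    exact this
  have f2 : z * θ (θ y) = θ (pr K - 1) ^ j2 * θ s2 ^ 2 := by
    have := congrArg θ e2
    simp only [map_mul, map_pow, h3, hcθ] at this
    exact this
  have hprod : y * θ y * θ (θ y) = trip n' 0 0 ^ 2 := by
    rw [mul_th, hn'', pow_two, pow_two, trip_mul_self]
  have hn0 : n' ≠ 0 := by
    rintro rfl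
    exact nrm_ne_zero hy0 (by rw [hn'']; ring)
  set T : R K := trip n' 0 0 with hT
  have hT0 : T ≠ 0 := trip_ne_zero hn0
  set A := pr K - 1 with hA
  have hABC : A * θ A * θ (θ A) = 1 := prod_eps om hom
  have hA0 : A ≠ 0 := by
    intro h
    rw [h, zero_mul, zero_mul] at hABC
    exact zero_ne_one hABC
  set W : R K := s0 * θ (θ s1) * θ s2 * (z * T)⁻¹ with hW
  have hW0 : W ≠ 0 := mul_ne_zero (mul_ne_zero (mul_ne_zero hs0 (hθ0 _ (hθ0 _ hs1))) (hθ0 _ hs2))
    (inv_ne_zero (mul_ne_zero hz hT0))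
  have key : z = A ^ j0 * θ (θ A) ^ j1 * θ A ^ j2 * W ^ 2 := by
    have g1 : z * (z * T) ^ 2 = A ^ j0 * θ (θ A) ^ j1 * θ A ^ j2 *
        (s0 * θ (θ s1) * θ s2) ^ 2 := by
      calc z * (z * T) ^ 2 = z ^ 3 * T ^ 2 := by ring
        _ = (z * y) * (z * θ y) * (z * θ (θ y)) := by rw [← hprod]; ring
        _ = _ := by rw [e0, f1, f2]; ring
    rw [hW, mul_pow, ← mul_assoc, ← g1, mul_assoc, ← mul_pow,
      mul_inv_cancel₀ (mul_ne_zero hz hT0), one_pow, mul_one]
  obtain ⟨v, hv2, hv4⟩ := two_prime_K K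
  have hw2 : v.valuation K 2 = WithZero.exp (-1) := by
    have hmap2 : algebraMap (𝓞 K) K 2 = 2 := map_ofNat _ 2
    have hw2lt : v.valuation K 2 < 1 := by
      rw [← hmap2, v.valuation_lt_one_iff_mem]
      exact hv2
    have h5 : ¬ v.valuation K 2 ≤ WithZero.exp (-((2 : ℕ) : ℤ)) := by
      rw [← hmap2, v.valuation_of_algebraMap, v.intValuation_le_pow_iff_mem]
      exact hv4
    have h0 : v.valuation K 2 ≠ 0 := by
      intro h0
      rw [h0] at h5
      exact h5 zero_le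
    have h6 : v.valuation K 2 = WithZero.exp (WithZero.log (v.valuation K 2)) :=
      (WithZero.exp_log h0).symm
    rw [h6] at hw2lt h5 ⊢
    rw [← WithZero.exp_zero, WithZero.exp_lt_exp] at hw2lt
    rw [WithZero.exp_le_exp] at h5
    congr 1
    push Not at h5
    push_cast at h5
    omega
  have hnot := not_inU2 (v.valuation K) hw2
  have hz2 := htwo v hv2 hv4
  have hU : ∀ D U : R K, U ≠ 0 → z = D * U ^ 2 → InU2 (v.valuation K) D := by
    intro D U hU0 hD
    have h6 : D = z * (U⁻¹) ^ 2 := by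
      rw [hD, mul_assoc, ← mul_pow, mul_inv_cancel₀ hU0, one_pow, mul_one]
    rw [h6]
    exact InU2.mul (g_two_lt hv2) hz2 (InU2.sq _ _ (isUnit_iff_ne_zero.2 (inv_ne_zero hU0)))
  have hcA : ∀ U : R K, U ≠ 0 → z ≠ A * U ^ 2 := fun U hU0 hD => hnot (hU A U hU0 hD)
  have hcB : ∀ U : R K, U ≠ 0 → z ≠ θ (θ A) * U ^ 2 := by
    intro U hU0 hD
    have h5 := InU2.th om hom _ (hU _ U hU0 hD)
    change InU2 (v.valuation K) (θ (θ (θ A))) at h5
    rw [h3] at h5
    exact hnot h5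
  have hcC : ∀ U : R K, U ≠ 0 → z ≠ θ A * U ^ 2 := by
    intro U hU0 hD
    have h5 := InU2.th om hom _ (InU2.th om hom _ (hU _ U hU0 hD))
    change InU2 (v.valuation K) (θ (θ (θ A))) at h5
    rw [h3] at h5
    exact hnot h5
  have hB0 : θ (θ A) ≠ 0 := hθ0 _ (hθ0 _ hA0)
  have hC0 : θ A ≠ 0 := hθ0 _ hA0
  interval_cases j0 <;> interval_cases j1 <;> interval_cases j2
  · exact ⟨W, by rw [key]; ring⟩
  · exact absurd (by rw [key]; ring) (hcC W hW0)
  · exact absurd (by rw [key]; ring) (hcB W hW0)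
  · refine absurd ?_ (hcA (W * A⁻¹) (mul_ne_zero hW0 (inv_ne_zero hA0)))
    rw [key]
    have hi := mul_inv_cancel₀ hA0
    linear_combination W ^ 2 * (-(θ A * θ (θ A)) * hi + A⁻¹ * hABC - A⁻¹ * hi)
  · exact absurd (by rw [key]; ring) (hcA W hW0)
  · refine absurd ?_ (hcB (W * (θ (θ A))⁻¹) (mul_ne_zero hW0 (inv_ne_zero hB0)))
    rw [key]
    have hi := mul_inv_cancel₀ hB0
    linear_combination W ^ 2 * (-(θ A * A) * hi + (θ (θ A))⁻¹ * hABC - (θ (θ A))⁻¹ * hi)
  · refine absurd ?_ (hcC (W * (θ A)⁻¹) (mul_ne_zero hW0 (inv_ne_zero hC0)))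
    rw [key]
    have hi := mul_inv_cancel₀ hC0
    linear_combination W ^ 2 * (-(θ (θ A) * A) * hi + (θ A)⁻¹ * hABC - (θ A)⁻¹ * hi)
  · refine ⟨W, ?_⟩
    rw [key]
    linear_combination W ^ 2 * hABC

end CMT
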