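import Pool.Agent.MP_dfae13_nt.T.J6
import Pool.Agent.MP_dfae13_nt.R.FinalDefs

/-!
# [CMT] the primes of bad reduction
-/

set_option autoImplicit false

open Polynomial NumberField IsDedekindDomain CM27
open scoped Classical

namespace CMT

theorem hasGoodReduction_Wt (A : Type) [CommRing A] [IsDomain A] [IsDiscreteValuationRing A]
    {K : Type} [Field K] [Algebra A K] [IsFractionRing A K] (h3 : IsUnit (3 : A)) (e₀ : A)
    (hβ : IsUnit (1 + 4 * e₀)) :
    WeierstrassCurve.HasGoodReduction A ((Wt (algebraMap A K e₀)).minimal A) := by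
  have hint := Wt_integral A (K := K) e₀
  obtain ⟨T, hT, hTm, -⟩ := exists_minimal_T A (Wt (algebraMap A K e₀))
  have hu := unit_good A h3 e₀ hβ T hTm
  have h1 : (Wt (algebraMap A K e₀)).Δ = algebraMap A K (-(3 ^ 3 * (1 + 4 * e₀) ^ 2)) := by
    rw [Wt_Δ]
    simp only [map_mul, map_pow, map_add, map_one, map_ofNat, map_neg]
    ring
  refine ⟨?_⟩
  rw [hT, WeierstrassCurve.variableChange_Δ, map_mul, h1,
    val_algebraMap_unit A _ ((h3.pow 3).mul (hβ.pow 2)).neg, map_pow, Units.val_inv_eq_inv_val,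
    map_inv₀, hu]
  simp

section

variable (K : Type) [Field K] [NumberField K] (om : K) (h : om ^ 2 + om + 1 = 0)
  (φ : Eis ≃+* 𝓞 K) (hφ : ∀ a, ((φ a : 𝓞 K) : K) = toK om h a)
  (d e : Eis) (he : 4 * e + 1 = d ^ 3)

/-- A prime element which divides `p` does not divide `d` if `p` does not divide the norm. -/
theorem not_dvd_of_norm {b : Eis} (hb : Prime b) {p : ℕ} (hp : p.Prime) (hbp : b ∣ (p : Eis))
    (x : Eis) (hx : ¬ (p : ℤ) ∣ x.norm) : ¬ b ∣ x := by
  rintro ⟨c, rfl⟩
  apply hx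
  obtain ⟨k, hk⟩ := hbp
  have h1 := congrArg QuadraticAlgebra.norm hk
  have h2 : ((p : Eis)).norm = (p : ℤ) ^ 2 := by rw [norm_eq]; simp
  rw [h2, map_mul] at h1
  have h3 : b.norm ∣ (p : ℤ) ^ 2 := ⟨_, h1⟩
  have hn0 : 0 ≤ b.norm := norm_nonneg' b
  obtain ⟨N, hN⟩ : ∃ N : ℕ, b.norm = N := ⟨b.norm.toNat, by omega⟩
  rw [hN] at h3
  have h4 : N ∣ p ^ 2 := by exact_mod_cast h3
  obtain ⟨i, hi, hNi⟩ := (Nat.dvd_prime_pow hp).1 h4
  have hi0 : i ≠ 0 := by
    rintro rfl
    rw [pow_zero] at hNi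
    apply hb.not_isUnit
    rw [eis_isUnit_iff, hN, hNi]
    rfl
  rw [map_mul, hN, hNi]
  push_cast
  exact Dvd.dvd.mul_right (dvd_pow_self _ hi0) _

include he hφ in
theorem goodAt_Wt (p : ℕ) (hp : p.Prime) (h3 : p ≠ 3) (hN : ¬ (p : ℤ) ∣ d.norm) :
    WR.GoodAt (Wt (toK om h e)) p := by
  have := eis_isDomain
  intro v hv
  have hv' : (p : 𝓞 K) ∈ v.asIdeal := hv
  obtain ⟨b, hb, hvb⟩ := exists_gen K φ v
  have hbp : b ∣ (p : Eis) := by
    rw [← mem_iff_dvd K φ v hvb, map_natCast]
    exact hv'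
  have hb3 : ¬ b ∣ 3 := by
    apply not_dvd_of_norm hb hp hbp
    intro h9
    have e9 : (3 : Eis).norm = 9 := by
      rw [norm_eq, QuadraticAlgebra.re_ofNat, QuadraticAlgebra.im_ofNat]
      norm_num
    rw [e9] at h9
    have h10 : p ∣ 3 ^ 2 := by exact_mod_cast h9
    exact h3 ((Nat.prime_dvd_prime_iff_eq hp Nat.prime_three).1 (hp.dvd_of_dvd_pow h10))
  have hbd : ¬ b ∣ d := not_dvd_of_norm hb hp hbp d hN
  refine ⟨?_, ?_⟩
  · -- `p` is not ramified
    intro hsq
    have h1 : b ^ 2 ∣ (p : Eis) := by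
      rw [hvb, Ideal.span_singleton_pow, Ideal.mem_span_singleton, ← map_pow] at hsq
      obtain ⟨c, hc⟩ := hsq
      refine ⟨φ.symm c, φ.injective ?_⟩
      rw [map_mul, φ.apply_symm_apply, ← hc, map_natCast]
    rcases hcase : p % 3 with _ | _ | _ | k
    · exact h3 ((Nat.prime_dvd_prime_iff_eq Nat.prime_three hp).1
        (Nat.dvd_of_mod_eq_zero hcase)).symm
    · -- split
      obtain ⟨π, hπ, hπn⟩ := exists_primary_prime p hp hcase
      have hpe : (p : Eis) = π * star π := by rw [a3_mul_star, hπn]; simp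
      have hπp := a3_prime_of_norm p hp π hπn
      have hπsp := a3_prime_of_norm p hp (star π) (by rw [QuadraticAlgebra.norm_star, hπn])
      rw [hpe] at h1 hbp
      have hnot := not_dvd_star p hp hcase π hπn
      have hns : (star π).norm = p := by rw [QuadraticAlgebra.norm_star, hπn]
      have hnot' := not_dvd_star p hp hcase (star π) hns
      rw [star_star] at hnot'
      rcases hb.dvd_or_dvd hbp with h5 | h5
      · have hass : Associated b π := hb.irreducible.associated_of_dvd hπp.irreducible h5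
        have h6 : π ^ 2 ∣ π * star π := (hass.pow_pow.dvd_iff_dvd_left).1 h1
        obtain ⟨c, hc⟩ := h6
        apply hnot
        refine ⟨c, mul_left_cancel₀ hπp.ne_zero ?_⟩
        rw [hc]; ring
      · have hass : Associated b (star π) := hb.irreducible.associated_of_dvd hπsp.irreducible h5
        have h6 : star π ^ 2 ∣ π * star π := (hass.pow_pow.dvd_iff_dvd_left).1 h1
        obtain ⟨c, hc⟩ := h6
        apply hnot'
        refine ⟨c, mul_left_cancel₀ hπsp.ne_zero ?_⟩
        linear_combination hc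
    · -- inert
      have hpp := a3_prime_inert p hp hcase
      have hass : Associated b (p : Eis) := hb.irreducible.associated_of_dvd hpp.irreducible hbp
      have h6 : (p : Eis) ^ 2 ∣ (p : Eis) := (hass.pow_pow.dvd_iff_dvd_left).1 h1
      obtain ⟨c, hc⟩ := h6
      apply hpp.not_isUnit
      refine IsUnit.of_mul_eq_one c (mul_left_cancel₀ hpp.ne_zero ?_)
      rw [mul_one]
      linear_combination -hc
    · omega
  · rw [baseChange_Wt K om h φ v hφ e]
    refine hasGoodReduction_Wt _ ?_ _ ?_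
    · have := loA_isUnit K φ v hvb 3 hb3
      rwa [loA_three] at this
    · have h1 : loA K φ v (4 * e + 1) = loA K φ v (d ^ 3) := by rw [he]
      have h2 : 1 + 4 * loA K φ v e = loA K φ v (d ^ 3) := by
        rw [← h1]
        unfold loA
        rw [map_add, map_mul, map_one, map_add, map_mul, map_one, map_ofNat, map_ofNat]
        ring
      rw [h2]
      exact loA_isUnit K φ v hvb _ (fun h5 => hbd (hb.dvd_of_dvd_pow h5))

end

end CMT
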