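import Pool.Agent.MP_dfae13_nt.T.Defs

set_option autoImplicit false

open NumberField IsDedekindDomain
open CM27

namespace CMT

/-! ## [CMT-A1] the ring of integers of `ℚ(ω)` (file TA1.lean) -/

theorem ta1_toK_apply {K : Type*} [Field K] (om : K) (h : om ^ 2 + om + 1 = 0) (a : Eis) :
    toK om h a = (a.re : K) + (a.im : K) * om := rfl

theorem ta1_primitive {K : Type*} [Field K] [CharZero K] (om : K) (h : om ^ 2 + om + 1 = 0) :
    IsPrimitiveRoot om 3 := by
  have h3 : om ^ 3 = 1 := by linear_combination (om - 1) * h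
  have h1 : om ≠ 1 := by
    rintro rfl
    norm_num at h
  have : Fact (Nat.Prime 3) := ⟨Nat.prime_three⟩
  rw [← orderOf_eq_prime h3 h1]
  exact IsPrimitiveRoot.orderOf om

theorem exists_equiv (K : Type) [Field K] [NumberField K] [IsCyclotomicExtension {3} ℚ K] (om : K)
    (h : om ^ 2 + om + 1 = 0) : ∃ φ : Eis ≃+* 𝓞 K, ∀ a, ((φ a : 𝓞 K) : K) = toK om h a := by
  have hint0 : IsIntegral ℤ om := by
    refine ⟨Polynomial.X ^ 2 + Polynomial.X + 1, by monicity!, ?_⟩
    simpa using h
  have hint : ∀ a : Eis, IsIntegral ℤ (toK om h a) := by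
    intro a
    rw [ta1_toK_apply]
    exact (isIntegral_algebraMap (x := a.re)).add ((isIntegral_algebraMap (x := a.im)).mul hint0)
  let φ0 : Eis →+* 𝓞 K :=
    { toFun := fun a => ⟨toK om h a, hint a⟩
      map_one' := RingOfIntegers.ext (map_one (toK om h))
      map_mul' := fun a b => RingOfIntegers.ext (map_mul (toK om h) a b)
      map_zero' := RingOfIntegers.ext (map_zero (toK om h))
      map_add' := fun a b => RingOfIntegers.ext (map_add (toK om h) a b) }
  have hφ0 : ∀ a, ((φ0 a : 𝓞 K) : K) = toK om h a := fun a => rfl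
  have hinj : Function.Injective φ0 := by
    rw [injective_iff_map_eq_zero]
    intro a ha
    have h1 : toK om h a = 0 := by rw [← hφ0, ha]; rfl
    rw [ta1_toK_apply] at h1
    have h2 : ((a.re ^ 2 - a.re * a.im + a.im ^ 2 : ℤ) : K) = 0 := by
      push_cast
      linear_combination ((a.re : K) - a.im - a.im * om) * h1 + (a.im : K) ^ 2 * h
    have h3 : a.re ^ 2 - a.re * a.im + a.im ^ 2 = 0 := by exact_mod_cast h2
    have h4 : a.im = 0 := by nlinarith [sq_nonneg (2 * a.re - a.im), sq_nonneg a.im]
    have h5 : a.re = 0 := by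
      rw [h4] at h3
      nlinarith
    exact QuadraticAlgebra.ext h5 h4
  have hsurj : Function.Surjective φ0 := by
    intro x
    have hζ := ta1_primitive om h
    have hx : IsIntegral ℤ (x : K) := x.isIntegral_coe
    obtain ⟨y, hy⟩ := (IsCyclotomicExtension.Rat.isIntegralClosure_adjoin_singleton
      (n := 3) hζ).isIntegral_iff.1 hx
    have hmem : (x : K) ∈ (toK om h).range := by
      rw [← hy]
      refine Algebra.adjoin_induction (R := ℤ) (s := {om})
        (p := fun z _ => z ∈ (toK om h).range) ?_ ?_ ?_ ?_ y.2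
      · intro z hz
        rw [Set.mem_singleton_iff] at hz
        refine ⟨⟨0, 1⟩, ?_⟩
        rw [ta1_toK_apply, hz]
        simp
      · intro r
        refine ⟨⟨r, 0⟩, ?_⟩
        rw [ta1_toK_apply]
        simp
      · intro z z' _ _ hz hz'
        exact add_mem hz hz'
      · intro z z' _ _ hz hz'
        exact mul_mem hz hz'
    obtain ⟨a, ha⟩ := hmem
    exact ⟨a, RingOfIntegers.ext ha⟩
  exact ⟨RingEquiv.ofBijective φ0 ⟨hinj, hsurj⟩, fun a => rfl⟩

end CMT
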