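import Pool.Agent.MP_9ab903_nt.AN.A5
import Pool.Agent.MP_dfae13_nt.T.TA1
import Pool.Agent.MP_ae0bd0_nt.CM.A3

/-!
# [CMT-Q] rationality of the quotient, part 1: the product of the values of `y` at the `π`-torsion
-/

set_option autoImplicit false

open scoped ComplexConjugate
open Filter Topology

namespace CMT

open CM27

/-- An even elliptic function which has at most a double pole at the lattice points is a linear
function of `x`. -/
theorem q1_liouville (f : ℂ → ℂ) (hper : ∀ z (a : Eis), f (z + emb a) = f z)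
    (heven : ∀ z, f (-z) = f z) (hdiff : ∀ z, z ∉ Set.range emb → DifferentiableAt ℂ f z) (κ : ℂ)
    (hlim : Tendsto (fun z => z ^ 2 * f z) (𝓝[≠] 0) (𝓝 (κ / OmC ^ 2))) :
    ∃ c, ∀ z, z ∉ Set.range emb → f z = κ * xw z + c := by
  classical
  obtain ⟨h, hh⟩ : ∃ h : ℂ → ℂ, h = fun z => f z - κ * xw z := ⟨_, rfl⟩
  have hhper : ∀ z (a : Eis), h (z + emb a) = h z := by
    intro z a; simp only [hh, hper, xw_add]
  have hheven : ∀ z, h (-z) = h z := by
    intro z; simp only [hh, heven, xw_neg]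
  have hhdiff : ∀ z, z ∉ Set.range emb → DifferentiableAt ℂ h z := by
    intro z hz
    rw [hh]
    exact (hdiff z hz).sub ((xw_deriv z hz).differentiableAt.const_mul κ)
  have hhlim : Tendsto (fun z => z ^ 2 * h z) (𝓝[≠] 0) (𝓝 0) := by
    have h1 := hlim.sub (xw_sq_tendsto.const_mul κ)
    have h2 : κ / OmC ^ 2 - κ * (1 / OmC ^ 2) = 0 := by ring
    rw [h2] at h1
    refine h1.congr fun z => ?_
    simp only [hh]
    ring
  have hpunct := a5_punct
  -- the function `z² h(z)` is analytic at `0`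
  have hk : HasDerivAt (fun z => z ^ 2 * h z) 0 0 := by
    have hc : ContinuousAt (fun z => z ^ 2 * h z) 0 := by
      rw [continuousAt_iff_punctured_nhds]
      simpa using hhlim
    have hd : ∀ᶠ z in 𝓝[≠] (0 : ℂ), DifferentiableAt ℂ (fun z => z ^ 2 * h z) z := by
      filter_upwards [hpunct] with z hz
      exact (differentiableAt_id.pow 2).mul (hhdiff z hz)
    have han := Complex.analyticAt_of_differentiable_on_punctured_nhds_of_continuousAt hd hc
    have h1 := han.differentiableAt.hasDerivAt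
    have h2 : HasDerivAt (fun z : ℂ => (-z) ^ 2 * h (-z))
        (deriv (fun z => z ^ 2 * h z) 0 * (-1)) 0 := by
      have h3 : HasDerivAt (fun z => z ^ 2 * h z) (deriv (fun z => z ^ 2 * h z) 0) (-(0 : ℂ)) := by
        rw [neg_zero]; exact h1
      exact h3.comp (0 : ℂ) (hasDerivAt_neg (0 : ℂ))
    have h3 : (fun z : ℂ => (-z) ^ 2 * h (-z)) = fun z => z ^ 2 * h z := by
      funext z
      rw [hheven]
      ring
    rw [h3] at h2
    have h4 := h1.unique h2
    have h5 : deriv (fun z => z ^ 2 * h z) 0 = 0 := by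
      have : (2 : ℂ) * deriv (fun z => z ^ 2 * h z) 0 = 0 := by linear_combination h4
      rcases mul_eq_zero.1 this with h6 | h6
      · norm_num at h6
      · exact h6
    rw [h5] at h1
    exact h1
  -- hence `z h(z) → 0`
  have hz1 : Tendsto (fun z => z * h z) (𝓝[≠] 0) (𝓝 0) := by
    have h1 := hasDerivAt_iff_tendsto_slope_zero.1 hk
    refine h1.congr' ?_
    filter_upwards [self_mem_nhdsWithin] with z hz
    have hz0 : z ≠ 0 := hz
    simp only [zero_add, smul_eq_mul]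
    field_simp
    ring
  -- and `h` has a limit at `0`
  obtain ⟨L, hL⟩ : ∃ L, Tendsto h (𝓝[≠] 0) (𝓝 L) := by
    have hc : ContinuousAt (fun z => z * h z) 0 := by
      rw [continuousAt_iff_punctured_nhds]
      simpa using hz1
    have hd : ∀ᶠ z in 𝓝[≠] (0 : ℂ), DifferentiableAt ℂ (fun z => z * h z) z := by
      filter_upwards [hpunct] with z hz
      exact differentiableAt_id.mul (hhdiff z hz)
    have han := Complex.analyticAt_of_differentiable_on_punctured_nhds_of_continuousAt hd hc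
    have h1 := hasDerivAt_iff_tendsto_slope_zero.1 han.differentiableAt.hasDerivAt
    refine ⟨deriv (fun z => z * h z) 0, h1.congr' ?_⟩
    filter_upwards [self_mem_nhdsWithin] with z hz
    have hz0 : z ≠ 0 := hz
    simp only [zero_add, smul_eq_mul]
    field_simp
    ring
  -- the entire function
  let g : ℂ → ℂ := fun z => if z ∈ Set.range emb then L else h z
  have hgper : ∀ z (a : Eis), g (z + emb a) = g z := by
    intro z a
    simp only [g, a5_mem_add, hhper]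
  have hgoff : ∀ z, z ∉ Set.range emb → DifferentiableAt ℂ g z := by
    intro z hz
    refine (hhdiff z hz).congr_of_eventuallyEq ?_
    filter_upwards [a5_closed.isOpen_compl.mem_nhds hz] with v hv
    simp only [g]
    rw [if_neg hv]
  have hg0 : DifferentiableAt ℂ g 0 := by
    have h0mem : (0 : ℂ) ∈ Set.range emb := ⟨0, map_zero _⟩
    have hg00 : g 0 = L := by simp only [g]; rw [if_pos h0mem]
    have hc : ContinuousAt g 0 := by
      rw [continuousAt_iff_punctured_nhds, hg00]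
      refine hL.congr' ?_
      filter_upwards [hpunct] with z hz
      simp only [g]
      rw [if_neg hz]
    have hd : ∀ᶠ z in 𝓝[≠] (0 : ℂ), DifferentiableAt ℂ g z := by
      filter_upwards [hpunct] with z hz
      exact hgoff z hz
    exact (Complex.analyticAt_of_differentiable_on_punctured_nhds_of_continuousAt hd
      hc).differentiableAt
  have hg : Differentiable ℂ g := by
    intro z
    by_cases hz : z ∈ Set.range emb
    · obtain ⟨a, rfl⟩ := hz
      have h1 : g = fun z => g (z - emb a) := by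
        funext z
        rw [← hgper (z - emb a) a, sub_add_cancel]
      rw [h1]
      have h2 : DifferentiableAt ℂ g (emb a - emb a) := by rw [sub_self]; exact hg0
      exact DifferentiableAt.comp (f := fun z : ℂ => z - emb a) (emb a) h2
        (differentiableAt_id.sub_const (emb a))
    · exact hgoff z hz
  refine ⟨g 0, fun z hz => ?_⟩
  have h1 := liouville g hg hgper z 0
  have h2 : g z = f z - κ * xw z := by
    simp only [g]
    rw [if_neg hz, hh]
  rw [h2] at h1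
  linear_combination h1

/-- Translation by a half period. -/
theorem q1_translate (ξ : ℂ) (hξ : ξ ∉ Set.range emb) (h2ξ : 2 * ξ ∈ Set.range emb) (v : ℂ)
    (hv : v ∉ Set.range emb) (hvξ : v + ξ ∉ Set.range emb) :
    (xw (v + ξ) - xw ξ) * (xw v - xw ξ) = 3 * xw ξ ^ 2 := by
  have hyξ : yw ξ = 0 := (yw_eq_zero_iff ξ hξ).2 h2ξ
  have hne : xw v ≠ xw ξ := by
    intro h
    rcases (xw_eq_iff v ξ hv hξ).1 h with h1 | h1
    · apply hvξ
      obtain ⟨a, ha⟩ := h1
      obtain ⟨b, hb⟩ := h2ξ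
      exact ⟨a + b, by rw [map_add, ha, hb]; ring⟩
    · exact hvξ h1
  have hξ' : -ξ ∉ Set.range emb := fun h => hξ ((a4_mem_neg ξ).1 h)
  have e1 : -ξ + (v + ξ) = v := by ring
  have h1 := add_x (-ξ) (v + ξ) hξ' hvξ (by rw [e1]; exact hv) (by rw [e1, xw_neg]; exact hne)
  rw [e1, xw_neg, yw_neg, hyξ] at h1
  have hw := weq v hv
  have hwξ := weq ξ hξ
  rw [hyξ] at hwξ
  have hne' : xw v - xw ξ ≠ 0 := sub_ne_zero.2 hne
  rw [← h1]
  field_simp
  linear_combination hw - hwξ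

/-! ### the points of order dividing `π`, `π` of prime norm -/

section

variable (b : Eis) (p : ℕ) [hp : Fact p.Prime] (hb : b.norm = p)

include hb in
theorem q1_star : emb b * emb (star b) = p := by
  rw [← map_mul, a3_mul_star, hb]
  simp

include hb in
theorem q1_ne : emb b ≠ 0 := by
  intro h
  have h1 := q1_star b p hb
  rw [h, zero_mul] at h1
  have : (p : ℂ) ≠ 0 := by exact_mod_cast hp.out.ne_zero
  exact this h1.symm

include hb in
/-- An integer which is divisible by `p` is divisible by `π`. -/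
theorem q1_shift_int (z : ℂ) (n : ℤ) (f : ℂ → ℂ) (hf : ∀ z (a : Eis), f (z + emb a) = f z) :
    f (z + (n : ℂ) / emb b) = f (z + (((n : ZMod p).val : ℕ) : ℂ) / emb b) := by
  have h1 : ((p : ℤ)) ∣ n - (((n : ZMod p).val : ℕ) : ℤ) := by
    rw [← ZMod.intCast_zmod_eq_zero_iff_dvd]
    push_cast
    rw [ZMod.natCast_zmod_val, sub_self]
  obtain ⟨k, hk⟩ := h1
  have h2 : z + (n : ℂ) / emb b = z + (((n : ZMod p).val : ℕ) : ℂ) / emb b +
      emb ((k : Eis) * star b) := by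
    have h3 : (n : ℂ) = (((n : ZMod p).val : ℕ) : ℂ) + (p : ℂ) * k := by
      have := congrArg (fun t : ℤ => (t : ℂ)) hk
      push_cast at this
      linear_combination this
    have hne := q1_ne b p hb
    rw [map_mul, map_intCast, h3, ← q1_star b p hb]
    field_simp
    ring
  rw [h2, hf]

include hb in
/-- Every element of `ℤ[ω]` is congruent to an integer modulo `π`. -/
theorem q1_exists_int (a : Eis) : ∃ m : ℤ, b ∣ a - (m : Eis) := by
  have hpp : Prime (p : ℤ) := Nat.prime_iff_prime_int.1 hp.out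
  have hn : b.re ^ 2 - b.re * b.im + b.im ^ 2 = p := by rw [← norm_eq, hb]
  have him : ¬ (p : ℤ) ∣ b.im := by
    intro h
    have h1 : (p : ℤ) ∣ b.re ^ 2 := by
      obtain ⟨k, hk⟩ := h
      refine ⟨1 + b.re * k - p * k ^ 2, ?_⟩
      rw [hk] at hn
      linear_combination hn
    obtain ⟨k, hk⟩ := h
    obtain ⟨l, hl⟩ := hpp.dvd_of_dvd_pow h1
    rw [hk, hl] at hn
    have h2 : (p : ℤ) * (p * (l ^ 2 - l * k + k ^ 2) - 1) = 0 := by linear_combination hn
    rcases mul_eq_zero.1 h2 with h3 | h3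
    · exact hpp.ne_zero h3
    · exact hpp.not_isUnit (isUnit_of_dvd_one ⟨l ^ 2 - l * k + k ^ 2, by linear_combination -h3⟩)
  have hcop : IsCoprime (p : ℤ) b.im := by
    rw [Int.isCoprime_iff_gcd_eq_one, ← Int.isCoprime_iff_gcd_eq_one]
    exact (hpp.coprime_iff_not_dvd).2 him
  obtain ⟨s, t, hst⟩ := hcop
  -- `ω ≡ - t re`
  have hpb : b ∣ (p : Eis) := ⟨star b, by rw [a3_mul_star, hb]; simp⟩
  have hω : b ∣ (⟨0, 1⟩ : Eis) + ((t * b.re : ℤ) : Eis) := by
    have h1 : (⟨0, 1⟩ : Eis) + ((t * b.re : ℤ) : Eis) = (t : Eis) * b + (s : Eis) * ⟨0, 1⟩ * (p : Eis) := by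
      ext
      · simp
      · simp
        linear_combination -hst
    rw [h1]
    exact dvd_add (dvd_mul_left _ _) (hpb.mul_left _)
  refine ⟨a.re - a.im * (t * b.re), ?_⟩
  have h2 : a - ((a.re - a.im * (t * b.re) : ℤ) : Eis) =
      (a.im : Eis) * ((⟨0, 1⟩ : Eis) + ((t * b.re : ℤ) : Eis)) := by
    ext
    · simp
    · simp
  rw [h2]
  exact hω.mul_left _

include hb in
theorem q1_mem (z : ℂ) (n : ℕ) (h : z / emb b + (n : ℂ) / emb b ∈ Set.range emb) :
    z ∈ Set.range emb := by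
  obtain ⟨a, ha⟩ := h
  have hne := q1_ne b p hb
  refine ⟨b * a - (n : Eis), ?_⟩
  rw [map_sub, map_mul, ha, map_natCast]
  field_simp
  ring

include hb in
theorem q1_mem0 (n : ℕ) (h0 : 0 < n) (h : n < p) : (n : ℂ) / emb b ∉ Set.range emb := by
  rintro ⟨a, ha⟩
  have hne := q1_ne b p hb
  have h1 : (n : Eis) = b * a := by
    apply emb_injective
    rw [map_mul, map_natCast, ha]
    field_simp
  have h2 := congrArg QuadraticAlgebra.norm h1
  rw [map_mul, hb] at h2
  have h3 : ((n : Eis)).norm = (n : ℤ) ^ 2 := by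
    rw [norm_eq]; simp
  rw [h3] at h2
  have h4 : (p : ℤ) ∣ (n : ℤ) ^ 2 := ⟨_, h2⟩
  have h5 : p ∣ n ^ 2 := by exact_mod_cast h4
  have h6 := hp.out.dvd_of_dvd_pow h5
  exact absurd (Nat.le_of_dvd h0 h6) (not_le.2 h)

/-- The product over the classes modulo `π`. -/
noncomputable def q1F (e : ℂ) (z : ℂ) : ℂ :=
  ∏ c : ZMod p, (xw (z / emb b + ((c.val : ℕ) : ℂ) / emb b) - e)

/-- The product over the nonzero classes modulo `π`. -/
noncomputable def q1A (e : ℂ) : ℂ :=
  ∏ c ∈ Finset.univ.erase (0 : ZMod p), (xw (((c.val : ℕ) : ℂ) / emb b) - e)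

include hb in
theorem q1F_per (e : ℂ) (z : ℂ) (a : Eis) : q1F b p e (z + emb a) = q1F b p e z := by
  obtain ⟨m, t, hm⟩ := q1_exists_int b p hb a
  have hne := q1_ne b p hb
  unfold q1F
  refine Fintype.prod_equiv (Equiv.addRight (m : ZMod p)) _ _ fun c => ?_
  have h1 : (z + emb a) / emb b + ((c.val : ℕ) : ℂ) / emb b =
      z / emb b + (((c.val : ℕ) + m : ℤ) : ℂ) / emb b + emb t := by
    have h2 : emb a = (m : ℂ) + emb b * emb t := by
      have := congrArg emb hm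
      rw [map_sub, map_mul, map_intCast] at this
      linear_combination this
    rw [h2]
    push_cast
    field_simp
    ring
  rw [h1, xw_add, q1_shift_int b p hb _ _ xw xw_add]
  congr 5
  simp

include hb in
theorem q1F_even (e : ℂ) (z : ℂ) : q1F b p e (-z) = q1F b p e z := by
  unfold q1F
  refine Fintype.prod_equiv (Equiv.neg (ZMod p)) _ _ fun c => ?_
  have h1 : -z / emb b + ((c.val : ℕ) : ℂ) / emb b =
      -(z / emb b + ((-(c.val : ℕ) : ℤ) : ℂ) / emb b) := by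
    push_cast
    ring
  rw [h1, xw_neg, q1_shift_int b p hb _ _ xw xw_add]
  congr 5
  simp

include hb in
theorem q1F_diff (e : ℂ) (z : ℂ) (hz : z ∉ Set.range emb) :
    DifferentiableAt ℂ (q1F b p e) z := by
  unfold q1F
  refine DifferentiableAt.fun_finsetProd fun c _ => ?_
  have h1 : z / emb b + ((c.val : ℕ) : ℂ) / emb b ∉ Set.range emb :=
    fun h => hz (q1_mem b p hb z _ h)
  have h2 : DifferentiableAt ℂ (fun z => z / emb b + ((c.val : ℕ) : ℂ) / emb b) z :=
    (differentiableAt_id.div_const _).add_const _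
  exact (DifferentiableAt.comp z (xw_deriv _ h1).differentiableAt h2).sub_const e

include hb in
theorem q1F_lim (e : ℂ) : Tendsto (fun z => z ^ 2 * q1F b p e z) (𝓝[≠] 0)
    (𝓝 (emb b ^ 2 * q1A b p e / OmC ^ 2)) := by
  have hne := q1_ne b p hb
  have h0 : ∀ z, z ^ 2 * q1F b p e z = (z ^ 2 * (xw (z / emb b) - e)) *
      ∏ c ∈ Finset.univ.erase (0 : ZMod p), (xw (z / emb b + ((c.val : ℕ) : ℂ) / emb b) - e) := by
    intro z
    unfold q1F
    rw [← Finset.mul_prod_erase Finset.univ _ (Finset.mem_univ (0 : ZMod p)), ZMod.val_zero,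
      Nat.cast_zero, zero_div, add_zero, mul_assoc]
  simp only [h0]
  have h1 : Tendsto (fun z => z ^ 2 * (xw (z / emb b) - e)) (𝓝[≠] 0)
      (𝓝 (emb b ^ 2 * (1 / OmC ^ 2))) := by
    have h2 : Tendsto (fun z : ℂ => z / emb b) (𝓝[≠] 0) (𝓝[≠] 0) := by
      rw [tendsto_nhdsWithin_iff]
      refine ⟨?_, ?_⟩
      · have : Tendsto (fun z : ℂ => z / emb b) (𝓝 0) (𝓝 (0 / emb b)) :=
          tendsto_id.div_const _
        rw [zero_div] at this
        exact this.mono_left nhdsWithin_le_nhds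
      · filter_upwards [self_mem_nhdsWithin] with z hz
        exact div_ne_zero hz hne
    have h3 := (xw_sq_tendsto.comp h2).const_mul (emb b ^ 2)
    have h4 : Tendsto (fun z : ℂ => z ^ 2 * e) (𝓝[≠] 0) (𝓝 (0 ^ 2 * e)) :=
      (((tendsto_id.pow 2).mul_const e)).mono_left nhdsWithin_le_nhds
    have h5 := h3.sub h4
    have h6 : emb b ^ 2 * (1 / OmC ^ 2) - 0 ^ 2 * e = emb b ^ 2 * (1 / OmC ^ 2) := by ring
    rw [h6] at h5
    refine h5.congr fun z => ?_
    simp only [Function.comp]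
    field_simp
  have h2 : Tendsto (fun z => ∏ c ∈ Finset.univ.erase (0 : ZMod p),
      (xw (z / emb b + ((c.val : ℕ) : ℂ) / emb b) - e)) (𝓝[≠] 0) (𝓝 (q1A b p e)) := by
    unfold q1A
    refine tendsto_finsetProd _ fun c hc => ?_
    have hc0 : c ≠ 0 := (Finset.mem_erase.1 hc).1
    have hval : 0 < c.val := Nat.pos_of_ne_zero (fun h => hc0 ((ZMod.val_eq_zero c).1 h))
    have hmem := q1_mem0 b p hb c.val hval (ZMod.val_lt c)
    have hcont : ContinuousAt xw (0 / emb b + ((c.val : ℕ) : ℂ) / emb b) := by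
      rw [zero_div, zero_add]
      exact (xw_deriv _ hmem).continuousAt
    have h3 : Tendsto (fun z : ℂ => z / emb b + ((c.val : ℕ) : ℂ) / emb b) (𝓝 0)
        (𝓝 (0 / emb b + ((c.val : ℕ) : ℂ) / emb b)) :=
      (tendsto_id.div_const _).add_const _
    have h4 := (hcont.tendsto.comp h3).sub_const e
    rw [zero_div, zero_add] at h4
    exact h4.mono_left nhdsWithin_le_nhds
  have h3 := h1.mul h2
  have h4 : emb b ^ 2 * (1 / OmC ^ 2) * q1A b p e = emb b ^ 2 * q1A b p e / OmC ^ 2 := by ring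
  rw [h4] at h3
  exact h3

include hb in
/-- **The product formula** for one half period. -/
theorem q1A_sq (hp2 : p ≠ 2) (ξ : ℂ) (hξ : ξ ∉ Set.range emb) (h2ξ : 2 * ξ ∈ Set.range emb) :
    emb b * ξ ∉ Set.range emb ∧ 2 * (emb b * ξ) ∈ Set.range emb ∧
    q1A b p (xw ξ) ^ 2 * emb b ^ 4 * (3 * xw (emb b * ξ) ^ 2) = (3 * xw ξ ^ 2) ^ p := by
  have hne := q1_ne b p hb
  have hβξ : emb b * ξ ∉ Set.range emb := by
    intro h
    -- `p ξ` and `2 ξ` are lattice points
    obtain ⟨a, ha⟩ := h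
    obtain ⟨c, hc⟩ := h2ξ
    have hodd : Odd p := hp.out.odd_of_ne_two hp2
    obtain ⟨k, hk⟩ := hodd
    apply hξ
    refine ⟨star b * a - (k : Eis) * c, ?_⟩
    have h1 := q1_star b p hb
    rw [map_sub, map_mul, map_mul, ha, hc, map_natCast]
    have h2 : (p : ℂ) = 2 * k + 1 := by rw [hk]; push_cast; ring
    linear_combination ξ * h1 + ξ * h2
  have h2βξ : 2 * (emb b * ξ) ∈ Set.range emb := by
    obtain ⟨c, hc⟩ := h2ξ
    exact ⟨b * c, by rw [map_mul, hc]; ring⟩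
  refine ⟨hβξ, h2βξ, ?_⟩
  obtain ⟨c₀, hc₀⟩ := q1_liouville (q1F b p (xw ξ)) (q1F_per b p hb (xw ξ))
    (q1F_even b p hb (xw ξ)) (q1F_diff b p hb (xw ξ)) _ (q1F_lim b p hb (xw ξ))
  -- the constant
  have hzero : q1F b p (xw ξ) (emb b * ξ) = 0 := by
    unfold q1F
    refine Finset.prod_eq_zero (Finset.mem_univ (0 : ZMod p)) ?_
    rw [ZMod.val_zero, Nat.cast_zero, zero_div, add_zero, mul_div_cancel_left₀ _ hne, sub_self]
  have hF : ∀ z, z ∉ Set.range emb → q1F b p (xw ξ) z =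
      emb b ^ 2 * q1A b p (xw ξ) * (xw z - xw (emb b * ξ)) := by
    intro z hz
    have h1 := hc₀ _ hβξ
    rw [hzero] at h1
    rw [hc₀ z hz]
    linear_combination -h1
  -- a generic point
  obtain ⟨z, hz⟩ := a4_exists_avoid (Set.range emb ∪ {z | z + emb b * ξ ∈ Set.range emb}) (by
    refine Set.Countable.union a4_countable ?_
    refine (a4_countable.image (fun z => z - emb b * ξ)).mono ?_
    intro z hz
    exact ⟨z + emb b * ξ, hz, by ring⟩)
  rw [Set.mem_union, not_or] at hz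
  obtain ⟨hz1, hz2⟩ := hz
  have hz2' : z + emb b * ξ ∉ Set.range emb := hz2
  have e1 := hF z hz1
  have e2 := hF _ hz2'
  have e3 := q1_translate (emb b * ξ) hβξ h2βξ z hz1 hz2'
  have e4 : q1F b p (xw ξ) (z + emb b * ξ) * q1F b p (xw ξ) z = (3 * xw ξ ^ 2) ^ p := by
    unfold q1F
    rw [← Finset.prod_mul_distrib]
    have h1 : ∀ c : ZMod p, (xw ((z + emb b * ξ) / emb b + ((c.val : ℕ) : ℂ) / emb b) - xw ξ) *
        (xw (z / emb b + ((c.val : ℕ) : ℂ) / emb b) - xw ξ) = 3 * xw ξ ^ 2 := by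
      intro c
      have h2 : (z + emb b * ξ) / emb b + ((c.val : ℕ) : ℂ) / emb b =
          z / emb b + ((c.val : ℕ) : ℂ) / emb b + ξ := by
        field_simp
        ring
      have h3 : z / emb b + ((c.val : ℕ) : ℂ) / emb b ∉ Set.range emb :=
        fun h => hz1 (q1_mem b p hb z _ h)
      have h4 : z / emb b + ((c.val : ℕ) : ℂ) / emb b + ξ ∉ Set.range emb := by
        rw [← h2]
        exact fun h => hz2' (q1_mem b p hb _ _ h)
      rw [h2]
      exact q1_translate ξ hξ h2ξ _ h3 h4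
    rw [Finset.prod_congr rfl fun c _ => h1 c, Finset.prod_const, Finset.card_univ, ZMod.card]
  rw [← e4, e1, e2]
  linear_combination (-(q1A b p (xw ξ) ^ 2 * emb b ^ 4)) * e3

/-- The product of the values of `y` over the nonzero classes. -/
noncomputable def q1Z : ℂ := ∏ c ∈ Finset.univ.erase (0 : ZMod p), yw (((c.val : ℕ) : ℂ) / emb b)

/-- The product of the values of `y` over the half system `1, ..., (p - 1) / 2`. -/
noncomputable def q1Y : ℂ := ∏ n ∈ Finset.Ico 1 (p / 2 + 1), yw ((n : ℂ) / emb b)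

end

theorem q1_half : (1 / 2 : ℂ) ∉ Set.range emb := by
  rintro ⟨a, ha⟩
  have h1 := normSq_emb a
  rw [ha] at h1
  have h2 : Complex.normSq (1 / 2 : ℂ) = 1 / 4 := by
    rw [map_div₀, map_one, Complex.normSq_ofNat]
    norm_num
  rw [h2] at h1
  have h3 : (1 : ℝ) = ((4 * a.norm : ℤ) : ℝ) := by
    push_cast
    linarith
  have h4 : (1 : ℤ) = 4 * a.norm := by exact_mod_cast h3
  omega

theorem q1_half_two : 2 * (1 / 2 : ℂ) ∈ Set.range emb := ⟨1, by rw [map_one]; norm_num⟩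

theorem q1_w_mul (z : ℂ) (hz : z ∉ Set.range emb) (h2 : 2 * z ∈ Set.range emb) :
    w * z ∉ Set.range emb ∧ 2 * (w * z) ∈ Set.range emb := by
  refine ⟨?_, ?_⟩
  · rintro ⟨a, ha⟩
    apply hz
    refine ⟨⟨0, 1⟩ ^ 2 * a, ?_⟩
    have h3 : emb ⟨0, 1⟩ = w := by simp [emb_apply]
    rw [map_mul, map_pow, h3, ha]
    have h4 := w_sq
    linear_combination (z * (w - 1)) * h4
  · obtain ⟨a, ha⟩ := h2
    refine ⟨⟨0, 1⟩ * a, ?_⟩
    have h3 : emb ⟨0, 1⟩ = w := by simp [emb_apply]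
    rw [map_mul, h3, ha]
    ring

theorem q1_norm_half (ξ : ℂ) (hξ : ξ ∉ Set.range emb) (h2ξ : 2 * ξ ∈ Set.range emb) :
    4 * ‖xw ξ‖ ^ 3 = 1 := by
  have hyξ : yw ξ = 0 := (yw_eq_zero_iff ξ hξ).2 h2ξ
  have hwξ := weq ξ hξ
  rw [hyξ] at hwξ
  have h1 : 4 * xw ξ ^ 3 = -1 := by linear_combination -hwξ
  have h2 := congrArg norm h1
  rw [norm_mul, norm_pow, norm_neg, norm_one] at h2
  norm_num at h2
  exact h2

theorem q1_norm_eq (ξ ξ' : ℂ) (hξ : ξ ∉ Set.range emb) (h2ξ : 2 * ξ ∈ Set.range emb)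
    (hξ' : ξ' ∉ Set.range emb) (h2ξ' : 2 * ξ' ∈ Set.range emb) : ‖xw ξ‖ = ‖xw ξ'‖ := by
  have h1 := q1_norm_half ξ hξ h2ξ
  have h2 := q1_norm_half ξ' hξ' h2ξ'
  have h3 : ‖xw ξ‖ ^ 3 = ‖xw ξ'‖ ^ 3 := by linarith
  exact (pow_left_inj₀ (norm_nonneg _) (norm_nonneg _) (by norm_num)).1 h3

section

variable (b : Eis) (p : ℕ) [hp : Fact p.Prime] (hb : b.norm = p)

include hb in
theorem q1_norm_b : ‖emb b‖ ^ 2 = p := by
  rw [← Complex.normSq_eq_norm_sq, normSq_emb, hb]
  simp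

include hb in
theorem q1A_norm (hp2 : p ≠ 2) (ξ : ℂ) (hξ : ξ ∉ Set.range emb) (h2ξ : 2 * ξ ∈ Set.range emb) :
    ‖q1A b p (xw ξ)‖ ^ 2 * (p : ℝ) ^ 2 = (3 * ‖xw ξ‖ ^ 2) ^ (p - 1) := by
  obtain ⟨h1, h2, h3⟩ := q1A_sq b p hb hp2 ξ hξ h2ξ
  have h4 := congrArg norm h3
  have h5 := q1_norm_b b p hb
  rw [norm_mul, norm_mul, norm_mul, norm_pow, norm_pow, norm_pow, norm_pow, norm_mul, norm_pow,
    q1_norm_eq _ ξ h1 h2 hξ h2ξ] at h4
  norm_num at h4
  have h6 : ‖emb b‖ ^ 4 = (p : ℝ) ^ 2 := by rw [← h5]; ring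
  rw [h6] at h4
  have hpos : 0 < 3 * ‖xw ξ‖ ^ 2 := by
    have h7 := q1_norm_half ξ hξ h2ξ
    have h8 : ‖xw ξ‖ ≠ 0 := by
      intro h0
      rw [h0] at h7
      norm_num at h7
    positivity
  obtain ⟨k, hk⟩ : ∃ k, p = k + 1 := ⟨p - 1, by have := hp.out.pos; omega⟩
  have hk1 : p - 1 = k := by omega
  rw [hk1]
  rw [show (3 * ‖xw ξ‖ ^ 2) ^ p = (3 * ‖xw ξ‖ ^ 2) ^ k * (3 * ‖xw ξ‖ ^ 2) by
    rw [← pow_succ, ← hk]] at h4
  exact mul_right_cancel₀ hpos.ne' h4

include hb in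
theorem q1Z_norm (hp2 : p ≠ 2) : ‖q1Z b p‖ ^ 4 * (p : ℝ) ^ 6 = 27 ^ (p - 1) := by
  set e := xw (1 / 2) with he
  obtain ⟨w1, w2⟩ := q1_w_mul _ q1_half q1_half_two
  obtain ⟨w3, w4⟩ := q1_w_mul _ w1 w2
  have a1 := q1A_norm b p hb hp2 _ q1_half q1_half_two
  have a2 := q1A_norm b p hb hp2 _ w1 w2
  have a3 := q1A_norm b p hb hp2 _ w3 w4
  rw [q1_norm_eq _ _ w1 w2 q1_half q1_half_two, xw_w] at a2
  rw [q1_norm_eq _ _ w3 w4 q1_half q1_half_two, xw_w, xw_w] at a3
  rw [← he] at a1 a2 a3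
  have h4 := q1_norm_half _ q1_half q1_half_two
  rw [← he] at h4
  have he3 : 4 * e ^ 3 = -1 := by
    have hy : yw (1 / 2) = 0 := (yw_eq_zero_iff _ q1_half).2 q1_half_two
    have h5 := weq _ q1_half
    rw [hy, ← he] at h5
    linear_combination -h5
  have hcard : (Finset.univ.erase (0 : ZMod p)).card = p - 1 := by
    rw [Finset.card_erase_of_mem (Finset.mem_univ _), Finset.card_univ, ZMod.card]
  have hZ : q1Z b p ^ 2 = 4 ^ (p - 1) * (q1A b p e * q1A b p (w * e) * q1A b p (w * (w * e))) := by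
    unfold q1Z q1A
    rw [← Finset.prod_pow, ← Finset.prod_mul_distrib, ← Finset.prod_mul_distrib, ← hcard,
      ← Finset.prod_const, ← Finset.prod_mul_distrib]
    refine Finset.prod_congr rfl fun c hc => ?_
    have hc0 : c ≠ 0 := (Finset.mem_erase.1 hc).1
    have hval : 0 < c.val := Nat.pos_of_ne_zero (fun h => hc0 ((ZMod.val_eq_zero c).1 h))
    rw [weq _ (q1_mem0 b p hb c.val hval (ZMod.val_lt c))]
    generalize xw (((c.val : ℕ) : ℂ) / emb b) = x
    have hw := w_sq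
    have hw3 : w ^ 3 = 1 := by linear_combination (w - 1) * hw
    linear_combination he3 + (4 * x ^ 2 * e - 4 * x * e ^ 2 * w) * hw + (4 * e ^ 3) * hw3
  have hZn : ‖q1Z b p‖ ^ 2 = 4 ^ (p - 1) *
      (‖q1A b p e‖ * ‖q1A b p (w * e)‖ * ‖q1A b p (w * (w * e))‖) := by
    have h5 := congrArg norm hZ
    rw [norm_pow, norm_mul, norm_mul, norm_mul, norm_pow] at h5
    norm_num at h5
    exact h5
  have e1 : ‖q1Z b p‖ ^ 4 * (p : ℝ) ^ 6 = (4 ^ (p - 1)) ^ 2 *
      ((‖q1A b p e‖ ^ 2 * (p : ℝ) ^ 2) * (‖q1A b p (w * e)‖ ^ 2 * (p : ℝ) ^ 2) *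
        (‖q1A b p (w * (w * e))‖ ^ 2 * (p : ℝ) ^ 2)) := by
    have h5 : ‖q1Z b p‖ ^ 4 = (‖q1Z b p‖ ^ 2) ^ 2 := by ring
    rw [h5, hZn]
    ring
  rw [e1, a1, a2, a3, ← mul_pow, ← mul_pow, ← pow_mul, mul_comm (p - 1) 2, pow_mul, ← mul_pow]
  congr 1
  have h5 : ‖e‖ ^ 6 = 1 / 16 := by
    have : ‖e‖ ^ 6 = (‖e‖ ^ 3) ^ 2 := by ring
    rw [this]
    have h6 : ‖e‖ ^ 3 = 1 / 4 := by linarith
    rw [h6]
    norm_num
  linear_combination (16 * 27 : ℝ) * h5

include hb in
theorem q1Z_eq (hp2 : p ≠ 2) : ‖q1Z b p‖ = ‖q1Y b p‖ ^ 2 := by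
  have h1 : q1Z b p = ∏ n ∈ Finset.Ico 1 p, yw ((n : ℂ) / emb b) := by
    unfold q1Z
    refine Finset.prod_bij (fun c _ => c.val) ?_ ?_ ?_ ?_
    · intro c hc
      have hc0 : c ≠ 0 := (Finset.mem_erase.1 hc).1
      rw [Finset.mem_Ico]
      exact ⟨Nat.pos_of_ne_zero (fun h => hc0 ((ZMod.val_eq_zero c).1 h)), ZMod.val_lt c⟩
    · intro c _ c' _ h
      exact ZMod.val_injective p h
    · intro n hn
      rw [Finset.mem_Ico] at hn
      refine ⟨(n : ZMod p), ?_, ZMod.val_cast_of_lt hn.2⟩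
      rw [Finset.mem_erase]
      refine ⟨?_, Finset.mem_univ _⟩
      intro h0
      have h2 := ZMod.val_cast_of_lt hn.2
      rw [h0, ZMod.val_zero] at h2
      omega
    · intro c _
      rfl
  have hodd : Odd p := hp.out.odd_of_ne_two hp2
  have hp1 : 1 < p := hp.out.one_lt
  have h2 : ∏ n ∈ Finset.Ico 1 p, yw ((n : ℂ) / emb b) =
      (∏ n ∈ Finset.Ico 1 (p / 2 + 1), yw ((n : ℂ) / emb b)) *
      ∏ n ∈ Finset.Ico (p / 2 + 1) p, yw ((n : ℂ) / emb b) := by
    rw [Finset.prod_Ico_consecutive _ (by omega) (by omega)]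
  have h3 : ‖∏ n ∈ Finset.Ico (p / 2 + 1) p, yw ((n : ℂ) / emb b)‖ = ‖q1Y b p‖ := by
    have h4 := Finset.prod_Ico_reflect (fun n : ℕ => yw ((n : ℂ) / emb b)) 1
      (m := p / 2 + 1) (n := p) (by omega)
    have e1 : p + 1 - (p / 2 + 1) = p / 2 + 1 := by
      obtain ⟨k, hk⟩ := hodd
      omega
    rw [e1, Nat.add_sub_cancel] at h4
    rw [← h4, q1Y, norm_prod, norm_prod]
    refine Finset.prod_congr rfl fun n hn => ?_
    rw [Finset.mem_Ico] at hn
    have hne := q1_ne b p hb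
    have h5 : (((p - n : ℕ) : ℂ)) / emb b = -((n : ℂ) / emb b) + emb (star b) := by
      have h6 := q1_star b p hb
      rw [Nat.cast_sub (by omega), ← h6]
      field_simp
      ring
    rw [h5, yw_add, yw_neg, norm_neg]
  rw [h1, h2, norm_mul, h3, q1Y, pow_two]

include hb in
/-- **The absolute value of the product over the half system.** -/
theorem q1Y_norm (hp2 : p ≠ 2) : ‖q1Y b p‖ ^ 4 * (p : ℝ) ^ 3 = 27 ^ (p / 2) := by
  have h1 := q1Z_norm b p hb hp2
  rw [q1Z_eq b p hb hp2] at h1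
  obtain ⟨k, hk⟩ := hp.out.odd_of_ne_two hp2
  have e1 : p - 1 = 2 * k := by omega
  have e2 : p / 2 = k := by omega
  rw [e1] at h1
  rw [e2]
  have h2 : (‖q1Y b p‖ ^ 4 * (p : ℝ) ^ 3) ^ 2 = ((27 : ℝ) ^ k) ^ 2 := by
    rw [← pow_mul, mul_comm k 2, ← h1]
    ring
  exact (pow_left_inj₀ (by positivity) (by positivity) (by norm_num)).1 h2

end

end CMT
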