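import Pool.Agent.MP_9ab903_nt.FinalDefs

/-!
# The 2-part of the Birch and Swinnerton-Dyer formula over number fields (rank 0)
-/

set_option autoImplicit false

open NumberField IsDedekindDomain

namespace SBSD

variable {K : Type} [Field K] [NumberField K] (W : WeierstrassCurve K)

open Classical in
/-- The rank part of the conjecture for `W` (with rank 0) together with the `2`-part of the formula
for the leading coefficient:
`W` is an elliptic curve and `W(K)` is finite (so that its rank is 0 and its regulator is 1), the
`L`-series extends to an entire function `L` whose order of vanishing at 1 is the rank of `W(K)`,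
with `L(1) ≠ 0`, the Tate–Shafarevich group has no nonzero element of `2`-power order, and the
quotient `L(1) √|Δ(K)| |W(K)_tors|² / (Ω(W) ∏ c_v)` is a positive rational number whose `2`-adic
valuation is 0. -/
def TwoPartFormula : Prop :=
  W.IsElliptic ∧ Finite W.toAffine.Point ∧
    ∃ L : ℂ → ℂ, IsEntireLSeries W L ∧
      analyticOrderAt L 1 = Module.finrank ℤ W.toAffine.Point ∧ L 1 ≠ 0 ∧
      (∀ (x : Sha W) (k : ℕ), 2 ^ k • x = 0 → x = 0) ∧
      ∃ q : ℚ, 0 < q ∧ padicValRat 2 q = 0 ∧ bsdQuotient W (L 1) = q

end SBSD
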