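import Pool.Agent.MP_dfae13_nt.T.Defs
import Pool.Agent.MP_9ab903_nt.Lent
import Pool.Agent.MP_ae0bd0_nt.CM.I3

/-!
# [CMT] part (G): entire continuation and value at `1` of the Dirichlet series with coefficients
`∑_{a primary, N a = n} X(a) conj a`, for a multiplicative function `X` modulo `g` on `ℤ[ω]`
-/

set_option autoImplicit false

open scoped ComplexConjugate
open Filter Topology Polynomial

namespace CMT

open CM27

/-- The conditions on `X`: a completely multiplicative function on `ℤ[ω]` modulo `g`, bounded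
by `1`, of absolute value `1` at `-2`. -/
structure IsX (g : Eis) (X : Eis → ℂ) : Prop where
  mul : ∀ a b, X (a * b) = X a * X b
  one : X 1 = 1
  per : ∀ a b, X (a + g * b) = X a
  le_one : ∀ a, ‖X a‖ ≤ 1
  two : ‖X (-2)‖ = 1

/-- The coefficients. -/
noncomputable def coefX (X : Eis → ℂ) (n : ℕ) : ℂ := ∑ a ∈ primSet n, X a * conj (emb a)

theorem g_cpow {x : ℝ} (hx : 0 < x) (s : ℂ) :
    (x : ℂ) ^ (-2 * s) = (((x ^ 2 : ℝ) : ℂ)) ^ (-s) := by
  have hx2 : (0 : ℝ) < x ^ 2 := by positivity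
  rw [Complex.cpow_def_of_ne_zero (by exact_mod_cast hx.ne'),
    Complex.cpow_def_of_ne_zero (by exact_mod_cast hx2.ne'), ← Complex.ofReal_log hx.le,
    ← Complex.ofReal_log hx2.le, Real.log_pow]
  congr 1
  push_cast
  ring

theorem g_gs_emb {a : Eis} {n : ℕ} (hn : n ≠ 0) (ha : a.norm = n) (s : ℂ) :
    gs s (emb a) = conj (emb a) * (n : ℂ) ^ (-s) := by
  have h1 : ‖emb a‖ ^ 2 = (n : ℝ) := by rw [norm_emb_sq, ha]; simp
  have h2 : 0 < ‖emb a‖ := by
    rw [norm_pos_iff]
    intro h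
    rw [h, norm_zero] at h1
    have : (n : ℝ) ≠ 0 := by exact_mod_cast hn
    apply this
    rw [← h1]; norm_num
  unfold gs
  rw [g_cpow h2, h1]
  simp

/-- `Eis = (classes) × Eis`. -/
theorem g_e_bij {g : Eis} (hg : g ≠ 0) : Function.Bijective
    (fun p : (Eis ⧸ Ideal.span {g}) × Eis => p.1.out + g * p.2) := by
  have := eis_isDomain
  constructor
  · rintro ⟨δ, a⟩ ⟨δ', a'⟩ h
    simp only at h
    have h1 : δ = δ' := by
      rw [← Ideal.Quotient.mk_out δ, ← Ideal.Quotient.mk_out δ',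
        Ideal.Quotient.mk_eq_mk_iff_sub_mem, Ideal.mem_span_singleton]
      exact ⟨a' - a, by linear_combination h⟩
    subst h1
    have h2 : g * a = g * a' := add_left_cancel h
    rw [mul_left_cancel₀ hg h2]
  · intro x
    obtain ⟨k, hk⟩ := I3.out_spec g x
    exact ⟨(Ideal.Quotient.mk (Ideal.span {g}) x, -k), by
      simp only
      rw [hk]; ring⟩

variable {g : Eis} {X : Eis → ℂ}

/-- the sum over the classes -/
noncomputable def SX (g : Eis) (X : Eis → ℂ) (f : ℂ → ℂ) : ℂ :=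
  ∑ᶠ δ : Eis ⧸ Ideal.span {g}, X (1 + 3 * δ.out) * f (emb (1 + 3 * δ.out) / (3 * emb g))

theorem emb_ne {g : Eis} (hg : g ≠ 0) : emb g ≠ 0 := fun h =>
  hg (emb_injective (by rw [h, map_zero]))

open Classical in
/-- The Dirichlet series as a lattice sum. -/
theorem LSeries_coefX (hg : g ≠ 0) (hX : IsX g X) (s : ℂ) (hs : 3 / 2 < s.re) :
    LSeriesSummable (coefX X) s ∧
      LSeries (coefX X) s = gs s (3 * emb g) * SX g X (Hs s) := by
  have hgC : emb g ≠ 0 := emb_ne hg
  set f : Eis → ℂ := fun a => if Primary a then X a * gs s (emb a) else 0 with hf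
  have hbound : ∀ a : Eis, ‖f a‖ ≤ ‖emb a‖ ^ (-(2 * s.re - 1)) := by
    intro a
    simp only [hf]
    split_ifs
    · rw [norm_mul, norm_gs s (emb a) (by linarith)]
      calc ‖X a‖ * ‖emb a‖ ^ (1 - 2 * s.re) ≤ 1 * ‖emb a‖ ^ (1 - 2 * s.re) :=
            mul_le_mul_of_nonneg_right (hX.le_one a) (Real.rpow_nonneg (norm_nonneg _) _)
        _ = ‖emb a‖ ^ (-(2 * s.re - 1)) := by rw [one_mul, neg_sub]
    · rw [norm_zero]
      exact Real.rpow_nonneg (norm_nonneg _) _
  have hsum : Summable f :=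
    Summable.of_norm_bounded (summable_norm (2 * s.re - 1) (by linarith)) hbound
  have hfib := hsum.hasSum.tsum_fiberwise (fun a : Eis => a.norm.toNat)
  have hterm : (fun n : ℕ => ∑' b : (fun a : Eis => a.norm.toNat) ⁻¹' {n}, f b)
      = LSeries.term (coefX X) s := by
    funext n
    have hfin : ∑' b : (fun a : Eis => a.norm.toNat) ⁻¹' {n}, f b
        = ∑ a ∈ primSet n, f a := by
      rw [tsum_subtype ((fun a : Eis => a.norm.toNat) ⁻¹' {n}) f]
      rw [tsum_eq_sum (s := primSet n)]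
      · refine Finset.sum_congr rfl fun a ha => ?_
        rw [Set.indicator_of_mem]
        rw [mem_primSet] at ha
        show a.norm.toNat = n
        rw [ha.1]; simp
      · intro a ha
        by_cases h1 : a ∈ (fun a : Eis => a.norm.toNat) ⁻¹' {n}
        · rw [Set.indicator_of_mem h1]
          simp only [hf]
          rw [if_neg]
          intro hp
          apply ha
          rw [mem_primSet]
          refine ⟨?_, hp⟩
          have h2 : a.norm.toNat = n := h1
          have h3 := norm_nonneg' a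
          omega
        · rw [Set.indicator_of_notMem h1]
    rw [hfin]
    by_cases hn : n = 0
    · subst hn
      rw [LSeries.term_zero]
      refine Finset.sum_eq_zero fun a ha => ?_
      rw [mem_primSet] at ha
      exfalso
      obtain ⟨h1, h2⟩ := ha
      rw [norm_eq] at h1
      rw [primary_iff] at h2
      have h3 : a.re = 0 := by
        push_cast at h1
        nlinarith [sq_nonneg (a.re - 2 * a.im), sq_nonneg a.re]
      omega
    · rw [LSeries.term_of_ne_zero hn]
      have h1 : ∀ a ∈ primSet n, f a = (X a * conj (emb a)) * (n : ℂ) ^ (-s) := by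
        intro a ha
        rw [mem_primSet] at ha
        simp only [hf]
        rw [if_pos ha.2, g_gs_emb hn ha.1]
        ring
      rw [Finset.sum_congr rfl h1, ← Finset.sum_mul, coefX, Complex.cpow_neg]
      ring
  rw [hterm] at hfib
  refine ⟨hfib.summable, ?_⟩
  have hL : LSeries (coefX X) s = ∑' a, f a := hfib.tsum_eq
  rw [hL]
  let ι : Eis → Eis := fun d => 1 + 3 * d
  have h3 : (3 : Eis).re = 3 := rfl
  have h4 : (3 : Eis).im = 0 := rfl
  have hι : Function.Injective ι := by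
    intro d d' h
    have h1 := congrArg QuadraticAlgebra.re h
    have h2 := congrArg QuadraticAlgebra.im h
    simp only [ι, QuadraticAlgebra.re_add, QuadraticAlgebra.im_add, QuadraticAlgebra.re_mul,
      QuadraticAlgebra.im_mul, h3, h4] at h1 h2
    apply QuadraticAlgebra.ext <;> linarith
  have hsupp : Function.support f ⊆ Set.range ι := by
    intro a ha
    rw [Function.mem_support] at ha
    simp only [hf] at ha
    split_ifs at ha with hp
    · obtain ⟨d, hd⟩ := hp
      exact ⟨d, by show 1 + 3 * d = a; rw [← hd]; ring⟩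
    · exact absurd rfl ha
  rw [← hι.tsum_eq hsupp]
  have hsumι : Summable fun d => f (ι d) := hsum.comp_injective hι
  let e : ((Eis ⧸ Ideal.span {g}) × Eis) ≃ Eis := Equiv.ofBijective _ (g_e_bij hg)
  have he : ∀ p, e p = p.1.out + g * p.2 := fun p => rfl
  rw [← e.tsum_eq]
  have hsume : Summable fun p => f (ι (e p)) := (e.summable_iff (f := fun d => f (ι d))).mpr hsumι
  have hfinite : Finite (Eis ⧸ Ideal.span {g}) := I3.quot_finite g hg
  have : Fintype (Eis ⧸ Ideal.span {g}) := Fintype.ofFinite _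
  rw [hsume.tsum_prod, tsum_fintype, SX, finsum_eq_sum_of_fintype, Finset.mul_sum]
  refine Finset.sum_congr rfl fun δ _ => ?_
  unfold Hs
  rw [← tsum_mul_left, ← tsum_mul_left]
  refine tsum_congr fun a => ?_
  have hα : ι (e (δ, a)) = (1 + 3 * δ.out) + g * (3 * a) := by
    show 1 + 3 * e (δ, a) = _
    rw [he]
    ring
  have hprim : Primary (ι (e (δ, a))) := by
    refine ⟨e (δ, a), ?_⟩
    show 1 + 3 * e (δ, a) - 1 = _
    ring
  have hch : X (ι (e (δ, a))) = X (1 + 3 * δ.out) := by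
    rw [hα, hX.per]
  have hgs : gs s (emb (ι (e (δ, a)))) = gs s (3 * emb g) *
      gs s (emb (1 + 3 * δ.out) / (3 * emb g) + emb a) := by
    have h5 : emb (ι (e (δ, a))) = (3 * emb g) * (emb (1 + 3 * δ.out) / (3 * emb g) + emb a) := by
      rw [hα, map_add, map_mul, map_mul emb 3 a]
      have : emb (3 : Eis) = 3 := map_ofNat emb 3
      rw [this]
      field_simp
    rw [h5, gs_mul]
  simp only [hf]
  rw [if_pos hprim, hch, hgs]
  ring

/-- the sum over the classes of a function which is invariant modulo `g` -/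
theorem SX_reindex (hg : g ≠ 0) (F : Eis → ℂ) (hF : ∀ a b, F (a + g * b) = F a)
    (u c : Eis) (hu : IsCoprime u g) :
    ∑ᶠ δ : Eis ⧸ Ideal.span {g}, F (c + u * δ.out) = ∑ᶠ δ : Eis ⧸ Ideal.span {g}, F δ.out := by
  have hmk : ∀ x : Eis, F (Ideal.Quotient.mk (Ideal.span {g}) x).out = F x := by
    intro x
    obtain ⟨k, hk⟩ := I3.out_spec g x
    rw [hk, hF]
  -- the bijection `δ ↦ c + u δ` of the quotient
  have hfinite : Finite (Eis ⧸ Ideal.span {g}) := I3.quot_finite g hg
  let φ : (Eis ⧸ Ideal.span {g}) → (Eis ⧸ Ideal.span {g}) := fun δ =>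
    Ideal.Quotient.mk _ c + Ideal.Quotient.mk _ u * δ
  have hinj : Function.Injective φ := by
    intro x y hxy
    have h1 : Ideal.Quotient.mk (Ideal.span {g}) u * x = Ideal.Quotient.mk (Ideal.span {g}) u * y :=
      add_left_cancel hxy
    obtain ⟨a, b, hab⟩ := hu
    have h2 : Ideal.Quotient.mk (Ideal.span {g}) a * Ideal.Quotient.mk (Ideal.span {g}) u = 1 := by
      rw [← map_mul, ← map_one (Ideal.Quotient.mk (Ideal.span {g})),
        Ideal.Quotient.mk_eq_mk_iff_sub_mem, Ideal.mem_span_singleton]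
      exact ⟨-b, by linear_combination hab⟩
    calc x = Ideal.Quotient.mk (Ideal.span {g}) a * Ideal.Quotient.mk (Ideal.span {g}) u * x := by
          rw [h2, one_mul]
      _ = Ideal.Quotient.mk (Ideal.span {g}) a * Ideal.Quotient.mk (Ideal.span {g}) u * y := by
          rw [mul_assoc, h1, mul_assoc]
      _ = y := by rw [h2, one_mul]
  have hbij : Function.Bijective φ := Finite.injective_iff_bijective.1 hinj
  have h1 : ∀ δ : Eis ⧸ Ideal.span {g}, F (c + u * δ.out) = F (φ δ).out := by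
    intro δ
    have h2 : φ δ = Ideal.Quotient.mk _ (c + u * δ.out) := by
      simp only [φ]
      rw [map_add, map_mul, Ideal.Quotient.mk_out]
    rw [h2, hmk]
  rw [finsum_congr h1]
  exact finsum_comp_equiv (Equiv.ofBijective φ hbij) (f := fun δ => F δ.out)

/-- Multiplication by `-2`. -/
theorem SX_two (hg : Odd g.norm) (hX : IsX g X) (f : ℂ → ℂ)
    (hadd : ∀ z a, f (z + emb a) = f z) (hneg : ∀ z, f (-z) = -f z) :
    SX g X (fun z => f (2 * z)) = -(X (-2))⁻¹ * SX g X f := by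
  have hg0 : g ≠ 0 := by
    rintro rfl
    rw [norm_eq] at hg
    simp at hg
  have hgC : emb g ≠ 0 := emb_ne hg0
  have h2ne : X (-2) ≠ 0 := by
    intro h
    have := hX.two
    rw [h, norm_zero] at this
    exact zero_ne_one this
  -- `-2` is prime to `g`
  have hcop : IsCoprime (-2 : Eis) g := by
    obtain ⟨k, hk⟩ := hg
    refine ⟨(k : Eis), star g, ?_⟩
    have h1 : star g * g = ((g.norm : ℤ) : Eis) := by
      have h3 : ∀ (z : ℤ), ((z : Eis)).re = z ∧ ((z : Eis)).im = 0 := fun z => by simp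
      apply QuadraticAlgebra.ext
      · rw [(h3 _).1, norm_eq]
        simp only [QuadraticAlgebra.re_mul, QuadraticAlgebra.re_star, QuadraticAlgebra.im_star]
        ring
      · rw [(h3 _).2]
        simp only [QuadraticAlgebra.im_mul, QuadraticAlgebra.re_star, QuadraticAlgebra.im_star]
        ring
    rw [h1, hk]
    push_cast
    ring
  set F : Eis → ℂ := fun x => X (1 + 3 * x) * f (emb (1 + 3 * x) / (3 * emb g)) with hF
  have hFper : ∀ a b, F (a + g * b) = F a := by
    intro a b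
    have e1 : 1 + 3 * (a + g * b) = (1 + 3 * a) + g * (3 * b) := by ring
    have e2 : emb (1 + 3 * (a + g * b)) / (3 * emb g) = emb (1 + 3 * a) / (3 * emb g) + emb b := by
      rw [e1, map_add, map_mul, map_mul emb 3 b, map_ofNat]
      field_simp
    simp only [hF]
    rw [e2, hadd, e1, hX.per]
  have h1 : SX g X f = ∑ᶠ δ : Eis ⧸ Ideal.span {g}, F δ.out := rfl
  rw [h1, ← SX_reindex hg0 F hFper (-2) (-1) hcop]
  have h2 : ∀ δ : Eis ⧸ Ideal.span {g}, F (-1 + -2 * δ.out) =
      -(X (-2)) * (X (1 + 3 * δ.out) * f (2 * (emb (1 + 3 * δ.out) / (3 * emb g)))) := by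
    intro δ
    have e1 : 1 + 3 * (-1 + -2 * δ.out) = -2 * (1 + 3 * δ.out) := by ring
    simp only [hF]
    rw [e1, hX.mul, map_mul, map_neg, map_ofNat]
    have e2 : -2 * emb (1 + 3 * δ.out) / (3 * emb g) =
        -(2 * (emb (1 + 3 * δ.out) / (3 * emb g))) := by ring
    rw [e2, hneg]
    ring
  rw [finsum_congr h2, ← mul_finsum]
  unfold SX
  field_simp

theorem SX_pow (hg : Odd g.norm) (hX : IsX g X) (s : ℂ) (l : ℕ) :
    SX g X (fun z => Hs s (2 ^ l * z)) = (-(X (-2))⁻¹) ^ l * SX g X (Hs s) := by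
  induction l with
  | zero => simp
  | succ l ih =>
    have h1 := SX_two hg hX (fun z => Hs s (2 ^ l * z)) (by
      intro z a
      have h2 : (2 : ℂ) ^ l * (z + emb a) = 2 ^ l * z + emb (2 ^ l * a) := by
        rw [map_mul, map_pow, map_ofNat]; ring
      rw [h2, Hs_add]) (by
      intro z
      rw [mul_neg, Hs_neg])
    rw [pow_succ (-(X (-2))⁻¹), mul_comm ((-(X (-2))⁻¹) ^ l), mul_assoc, ← ih, ← h1]
    congr 1
    funext z
    rw [pow_succ, mul_assoc]

theorem SX_sum (hg : g ≠ 0) {ι : Type} (t : Finset ι) (c : ι → ℂ) (f : ι → ℂ → ℂ) :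
    SX g X (fun z => ∑ l ∈ t, c l * f l z) = ∑ l ∈ t, c l * SX g X (f l) := by
  have hfinite : Finite (Eis ⧸ Ideal.span {g}) := I3.quot_finite g hg
  have : Fintype (Eis ⧸ Ideal.span {g}) := Fintype.ofFinite _
  simp only [SX, finsum_eq_sum_of_fintype, Finset.mul_sum]
  rw [Finset.sum_comm]
  refine Finset.sum_congr rfl fun l _ => Finset.sum_congr rfl fun δ _ => ?_
  ring

theorem norm_inv_two (hX : IsX g X) : ‖-(X (-2))⁻¹‖ ≤ 1 := by
  rw [norm_neg, norm_inv, hX.two, inv_one]

/-- Continuation to `Re s > (3 - k) / 2`. -/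
theorem half_X (hg : Odd g.norm) (hX : IsX g X) (k : ℕ) :
    ∃ Φ : ℂ → ℂ, DifferentiableOn ℂ Φ {s : ℂ | (3 - k : ℝ) / 2 < s.re} ∧
      ∀ s : ℂ, 3 / 2 < s.re → Φ s = LSeries (coefX X) s := by
  have hg0 : g ≠ 0 := by
    rintro rfl
    rw [norm_eq] at hg
    simp at hg
  have hQ : (lentQ k).eval (-(X (-2))⁻¹) ≠ 0 := lentQ_eval_ne k _ (norm_inv_two hX)
  have hfinite : Finite (Eis ⧸ Ideal.span {g}) := I3.quot_finite g hg0
  have : Fintype (Eis ⧸ Ideal.span {g}) := Fintype.ofFinite _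
  refine ⟨fun s => gs s (3 * emb g) * ((lentQ k).eval (-(X (-2))⁻¹))⁻¹ *
    SX g X (fun z => ∑' a : Eis, lentS k z s a), ?_, ?_⟩
  · apply DifferentiableOn.mul
    · exact ((g2b_gs_differentiable _).mul_const _).differentiableOn
    · simp only [SX, finsum_eq_sum_of_fintype]
      refine DifferentiableOn.fun_sum fun δ _ => ?_
      exact (lent_tsum_diff k _).const_mul _
  · intro s hs
    obtain ⟨-, g2⟩ := LSeries_coefX hg0 hX s hs
    have g3 : SX g X (fun z => ∑' a : Eis, lentS k z s a) =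
        (lentQ k).eval (-(X (-2))⁻¹) * SX g X (Hs s) := by
      have e1 : (fun z => ∑' a : Eis, lentS k z s a) = fun z =>
          ∑ l ∈ Finset.range (lentN k + 1), (lentQ k).coeff l * Hs s (2 ^ l * z) := by
        funext z
        rw [lent_tsum_eq k z s hs]
        rfl
      rw [e1, SX_sum hg0, lentQ_eval_sum, Finset.sum_mul]
      refine Finset.sum_congr rfl fun l _ => ?_
      rw [SX_pow hg hX s, mul_assoc]
    beta_reduce
    rw [g2, g3]
    generalize (lentQ k).eval (-(X (-2))⁻¹) = q at hQ ⊢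
    rw [mul_assoc, inv_mul_cancel_left₀ hQ]

/-- The continuation with the value at `1`, on the half plane `Re s > 1/2`. -/
theorem one_X (hg : Odd g.norm) (hX : IsX g X) :
    ∃ Φ : ℂ → ℂ, DifferentiableOn ℂ Φ HP ∧
      (∀ s : ℂ, 3 / 2 < s.re → Φ s = LSeries (coefX X) s) ∧
      Φ 1 = -(3 * emb g)⁻¹ * (2 + (X (-2))⁻¹)⁻¹ * TX g X := by
  have hg0 : g ≠ 0 := by
    rintro rfl
    rw [norm_eq] at hg
    simp at hg
  have h2 : 2 + (X (-2))⁻¹ ≠ 0 := by
    intro h
    have h1 : -(X (-2))⁻¹ = 2 := by linear_combination -h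
    have h3 := norm_inv_two hX
    rw [h1] at h3
    norm_num at h3
  have hfinite : Finite (Eis ⧸ Ideal.span {g}) := I3.quot_finite g hg0
  have : Fintype (Eis ⧸ Ideal.span {g}) := Fintype.ofFinite _
  choose Φ hd hΦ h1 using fun (x : Eis) => exists_Phi (emb (1 + 3 * x) / (3 * emb g))
    (I3.off_aux g x hg0)
  refine ⟨fun s => -(gs s (3 * emb g)) * (2 + (X (-2))⁻¹)⁻¹ *
    ∑ᶠ δ : Eis ⧸ Ideal.span {g}, X (1 + 3 * δ.out) * Φ δ.out s, ?_, ?_, ?_⟩
  · apply DifferentiableOn.mul
    · exact ((g2b_gs_differentiable _).neg.mul_const _).differentiableOn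
    · simp only [finsum_eq_sum_of_fintype]
      refine DifferentiableOn.fun_sum fun δ _ => ?_
      exact (hd _).const_mul _
  · intro s hs
    obtain ⟨-, g2⟩ := LSeries_coefX hg0 hX s hs
    have g3 : ∑ᶠ δ : Eis ⧸ Ideal.span {g}, X (1 + 3 * δ.out) * Φ δ.out s =
        SX g X (fun z => Hs s (2 ^ 1 * z)) - 2 * SX g X (Hs s) := by
      simp only [SX, finsum_eq_sum_of_fintype]
      rw [Finset.mul_sum, ← Finset.sum_sub_distrib]
      refine Finset.sum_congr rfl fun δ _ => ?_
      rw [hΦ _ s hs, pow_one]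
      ring
    beta_reduce
    rw [g3, SX_pow hg hX s, g2, pow_one]
    generalize (X (-2))⁻¹ = y at h2 ⊢
    field_simp
    ring
  · beta_reduce
    simp only [h1]
    rw [gs_one]
    simp only [TX, neg_mul]

/-- **[CMT] (G)** Entire continuation and value at `1`. -/
theorem entire_X (hg : Odd g.norm) (hX : IsX g X) :
    ∃ Φ : ℂ → ℂ, Differentiable ℂ Φ ∧
      (∀ s : ℂ, 3 / 2 < s.re → LSeriesSummable (coefX X) s ∧ Φ s = LSeries (coefX X) s) ∧
      Φ 1 = -(3 * emb g)⁻¹ * (2 + (X (-2))⁻¹)⁻¹ * TX g X := by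
  have hg0 : g ≠ 0 := by
    rintro rfl
    rw [norm_eq] at hg
    simp at hg
  obtain ⟨Φ, hΦ, hΦe⟩ := lent_glue (LSeries (coefX X)) (half_X hg hX)
  obtain ⟨Ψ, hΨ, hΨe, hΨ1⟩ := one_X hg hX
  refine ⟨Φ, hΦ, fun s hs => ⟨(LSeries_coefX hg0 hX s hs).1, hΦe s hs⟩, ?_⟩
  rw [← hΨ1]
  have hopen : IsOpen HP := isOpen_lt continuous_const Complex.continuous_re
  have a1 : AnalyticOnNhd ℂ Φ HP := hΦ.differentiableOn.analyticOnNhd hopen
  have a2 : AnalyticOnNhd ℂ Ψ HP := hΨ.analyticOnNhd hopen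
  have hconv : IsPreconnected HP := (convex_halfSpace_re_gt (1 / 2)).isPreconnected
  have hmem : (2 : ℂ) ∈ HP := by
    show (1 / 2 : ℝ) < (2 : ℂ).re
    norm_num
  have h1mem : (1 : ℂ) ∈ HP := by
    show (1 / 2 : ℝ) < (1 : ℂ).re
    norm_num
  refine a1.eqOn_of_preconnected_of_eventuallyEq a2 hconv hmem ?_ h1mem
  have h1 : {s : ℂ | 3 / 2 < s.re} ∈ 𝓝 (2 : ℂ) :=
    (isOpen_lt continuous_const Complex.continuous_re).mem_nhds (by
      show (3 / 2 : ℝ) < (2 : ℂ).re
      norm_num)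
  filter_upwards [h1] with t ht
  rw [hΦe t ht, hΨe t ht]

end CMT
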