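import Pool.Agent.MP_dfae13_nt.T.IDefs
import Pool.Agent.MP_ae0bd0_nt.CM.R6

set_option autoImplicit false

open Polynomial NumberField IsDedekindDomain
open scoped Classical

namespace CMT

open CM27

/-! ## [CMT-I1] divisibility implies finiteness for `y² + y = x³ + e`, `e` integral at a place
above `2` which is unramified (adapt `MP_ae0bd0_nt/CM/R6.lean`; put `i1_` in front of your names) -/

section I1

open WeierstrassCurve.Affine WithZero

variable {F : Type} [Field F] (e : F)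

theorem i1_eqn {x y : F} (h : (Wt e).toAffine.Nonsingular x y) : y ^ 2 + y = x ^ 3 + e := by
  have h1 := (WeierstrassCurve.Affine.equation_iff (W := (Wt e).toAffine) x y).1 h.1
  simpa [Wt] using h1

theorem i1_negY (x y : F) : (Wt e).toAffine.negY x y = -y - 1 := by
  simp [WeierstrassCurve.Affine.negY, Wt]

theorem i1_addX (x₁ x₂ l : F) : (Wt e).toAffine.addX x₁ x₂ l = l ^ 2 - x₁ - x₂ := by
  simp [WeierstrassCurve.Affine.addX, Wt]

theorem i1_slope_ne {x₁ x₂ y₁ y₂ : F} (hx : x₁ ≠ x₂) :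
    (Wt e).toAffine.slope x₁ x₂ y₁ y₂ = (y₁ - y₂) / (x₁ - x₂) :=
  WeierstrassCurve.Affine.slope_of_X_ne hx

theorem i1_slope_self {x y : F} (hy : 2 * y + 1 ≠ 0) :
    (Wt e).toAffine.slope x x y y = 3 * x ^ 2 / (2 * y + 1) := by
  have h1 : y ≠ (Wt e).toAffine.negY x y := by
    rw [i1_negY]
    intro h
    apply hy
    linear_combination h
  rw [WeierstrassCurve.Affine.slope_of_Y_ne rfl h1, i1_negY]
  have h2 : y - (-y - 1) = 2 * y + 1 := by ring
  rw [h2]
  simp [Wt]

variable (w : Valuation F (WithZero (Multiplicative ℤ)))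

/-- The points which reduce to the point at infinity. -/
def i1_In : (Wt e).toAffine.Point → Prop
  | .zero => True
  | .some x _ _ => 1 < w x

variable {e}

theorem i1_rhs_big (hew : w e ≤ 1) {x : F} (hx : 1 < w x) : w (x ^ 3 + e) = w x ^ 3 := by
  rw [r6_val_add_of_lt w, map_pow]
  rw [map_pow]
  exact hew.trans_lt (one_lt_pow₀ hx (by norm_num))

theorem i1_y_of_big (hew : w e ≤ 1) {x y : F} (h : y ^ 2 + y = x ^ 3 + e) (hx : 1 < w x) :
    1 < w y ∧ w y ^ 2 = w x ^ 3 := by
  have h1 : 1 < w (x ^ 3 + e) := by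
    rw [i1_rhs_big w hew hx]
    exact one_lt_pow₀ hx (by norm_num)
  have h2 : 1 < w y := by
    by_contra hy
    push Not at hy
    rw [← h] at h1
    have h3 : w (y ^ 2 + y) ≤ 1 := by
      refine (w.map_add _ _).trans (max_le ?_ hy)
      rw [map_pow]
      exact pow_le_one₀ zero_le hy
    exact absurd h1 (not_lt.2 h3)
  refine ⟨h2, ?_⟩
  have h3 : w (y ^ 2 + y) = w y ^ 2 := by
    rw [r6_val_add_of_lt w, map_pow]
    rw [map_pow, pow_two]
    exact lt_mul_of_one_lt_left (zero_lt_one.trans h2) h2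
  rw [← h3, h, i1_rhs_big w hew hx]

theorem i1_y_of_small (hew : w e ≤ 1) {x y : F} (h : y ^ 2 + y = x ^ 3 + e) (hx : w x ≤ 1) :
    w y ≤ 1 := by
  by_contra hy
  push Not at hy
  have h3 : w (y ^ 2 + y) = w y ^ 2 := by
    rw [r6_val_add_of_lt w, map_pow]
    rw [map_pow, pow_two]
    exact lt_mul_of_one_lt_left (zero_lt_one.trans hy) hy
  rw [h] at h3
  have h4 : w (x ^ 3 + e) ≤ 1 := by
    refine (w.map_add _ _).trans (max_le ?_ hew)
    rw [map_pow]
    exact pow_le_one₀ zero_le hx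
  rw [h3] at h4
  exact absurd (one_lt_pow₀ hy (by norm_num : (2 : ℕ) ≠ 0)) (not_lt.2 h4)

/-- `1 + 4 e` is integral -/
theorem i1_c (hew : w e ≤ 1) (h2 : w 2 ≤ 1) : w (1 + 4 * e) ≤ 1 := by
  refine (w.map_add _ _).trans (max_le (by rw [map_one]) ?_)
  have : (4 : F) = 2 ^ 2 := by norm_num
  rw [map_mul, this, map_pow]
  exact mul_le_one' (pow_le_one₀ zero_le h2) hew

/-- doubling -/
theorem i1_double (hew : w e ≤ 1) (h2 : w 2 = exp (-1)) {x y : F}
    (h : (Wt e).toAffine.Nonsingular x y)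
    (hx : 1 < w x) : ∃ (x' y' : F) (h' : (Wt e).toAffine.Nonsingular x' y'),
      2 • (WeierstrassCurve.Affine.Point.some x y h : (Wt e).toAffine.Point) =
        WeierstrassCurve.Affine.Point.some x' y' h' ∧ w x' = w x * exp 2 := by
  have he := i1_eqn e h
  obtain ⟨n, hn, hwx⟩ := r6_exp_of_big w hx
  have hc : w (1 + 4 * e) ≤ 1 := by
    refine i1_c w hew ?_
    rw [h2, ← exp_zero, exp_le_exp]
    norm_num
  have hw4 : w (4 * x ^ 3) = exp (3 * n - 2 : ℤ) := by
    have : (4 : F) = 2 ^ 2 := by norm_num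
    rw [this, map_mul, map_pow, map_pow, h2, hwx, ← exp_nsmul, ← exp_nsmul, ← exp_add]
    congr 1
  have hlt : w (1 + 4 * e) < w (4 * x ^ 3) := by
    refine hc.trans_lt ?_
    rw [hw4, ← exp_zero, exp_lt_exp]
    omega
  have hw : w (4 * x ^ 3 + (1 + 4 * e)) = exp (3 * n - 2 : ℤ) := by
    rw [r6_val_add_of_lt w hlt, hw4]
  have hsq : (2 * y + 1) ^ 2 = 4 * x ^ 3 + (1 + 4 * e) := by linear_combination 4 * he
  have hne : 4 * x ^ 3 + (1 + 4 * e) ≠ 0 := by
    intro h0
    rw [h0, map_zero] at hw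
    exact exp_ne_zero hw.symm
  have hy : 2 * y + 1 ≠ 0 := by
    intro h0
    rw [h0] at hsq
    exact hne (by rw [← hsq]; ring)
  have h1 : y ≠ (Wt e).toAffine.negY x y := by
    rw [i1_negY]
    intro h
    apply hy
    linear_combination h
  refine ⟨_, _, _, by rw [two_nsmul, WeierstrassCurve.Affine.Point.add_self_of_Y_ne h1], ?_⟩
  rw [i1_addX, i1_slope_self e hy]
  have h3 : (3 * x ^ 2 / (2 * y + 1)) ^ 2 - x - x =
      (x ^ 4 + -(2 * x * (1 + 4 * e))) / (4 * x ^ 3 + (1 + 4 * e)) := by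
    rw [div_pow, hsq, eq_div_iff hne, sub_mul, sub_mul, div_mul_cancel₀ _ hne]
    ring
  rw [h3, map_div₀, hw]
  have h5 : w (-(2 * x * (1 + 4 * e))) < w (x ^ 4) := by
    rw [Valuation.map_neg, map_mul]
    have h6 : w (2 * x) * w (1 + 4 * e) ≤ w (2 * x) * 1 := mul_le_mul_right hc (w (2 * x))
    refine (h6.trans_eq (mul_one _)).trans_lt ?_
    rw [map_mul, map_pow, h2, hwx, ← exp_nsmul, ← exp_add, exp_lt_exp]
    simp only [nsmul_eq_mul]
    push_cast
    omega
  rw [r6_val_add_of_lt w h5, map_pow, hwx, ← exp_nsmul, ← exp_sub, ← exp_add]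
  congr 1
  simp only [nsmul_eq_mul]
  push_cast
  ring

/-- integral + (nonzero element of the kernel of reduction) is integral -/
theorem i1_add_big (hew : w e ≤ 1) {x₁ y₁ x y : F} (h₁ : (Wt e).toAffine.Nonsingular x₁ y₁)
    (h : (Wt e).toAffine.Nonsingular x y) (hx₁ : w x₁ ≤ 1) (hx : 1 < w x) :
    ¬ i1_In e w ((WeierstrassCurve.Affine.Point.some x₁ y₁ h₁ : (Wt e).toAffine.Point) +
      WeierstrassCurve.Affine.Point.some x y h) := by
  have he₁ := i1_eqn e h₁
  have he := i1_eqn e h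
  have hne : x₁ ≠ x := by
    rintro rfl
    exact absurd hx (not_lt.2 hx₁)
  rw [WeierstrassCurve.Affine.Point.add_of_X_ne hne]
  change ¬ 1 < w _
  rw [not_lt, i1_addX, i1_slope_ne e hne]
  have hne' : x₁ - x ≠ 0 := sub_ne_zero.2 hne
  have h3 : ((y₁ - y) / (x₁ - x)) ^ 2 - x₁ - x =
      (2 * e + (-(y * (1 + 2 * y₁)) + (-y₁ + (x₁ * x ^ 2 + x₁ ^ 2 * x)))) / (x₁ - x) ^ 2 := by
    rw [div_pow]
    field_simp
    linear_combination he + he₁
  obtain ⟨hy1, hy2⟩ := i1_y_of_big w hew he hx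
  have hy₁ := i1_y_of_small w hew he₁ hx₁
  have hw0 : w (x₁ - x) = w x := by
    rw [Valuation.map_sub_swap, sub_eq_add_neg, r6_val_add_of_lt w]
    rw [Valuation.map_neg]
    exact hx₁.trans_lt hx
  have hpos : 0 < w x ^ 2 := pow_pos (zero_lt_one.trans hx) 2
  have hyx : w y ≤ w x ^ 2 := by
    by_contra hc
    push Not at hc
    have h5 : w x ^ 3 < w y ^ 2 := by
      calc w x ^ 3 ≤ w x ^ 4 := pow_le_pow_right₀ hx.le (by norm_num)
        _ = (w x ^ 2) ^ 2 := by rw [← pow_mul]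
        _ < w y ^ 2 := pow_lt_pow_left₀ hc zero_le (by norm_num)
    exact absurd hy2 h5.ne'
  have h1x : 1 ≤ w x ^ 2 := one_le_pow₀ hx.le
  have h2le : w (2 : F) ≤ 1 := by
    have : (2 : F) = 1 + 1 := by norm_num
    rw [this]
    refine (w.map_add _ _).trans ?_
    simp
  rw [h3, map_div₀, map_pow, hw0]
  refine div_le_one_of_le₀ ?_ zero_le
  refine (w.map_add _ _).trans (max_le ?_ ((w.map_add _ _).trans (max_le ?_
    ((w.map_add _ _).trans (max_le ?_ ((w.map_add _ _).trans (max_le ?_ ?_)))))))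
  · rw [map_mul]
    exact (mul_le_one' h2le hew).trans h1x
  · rw [Valuation.map_neg, map_mul]
    calc w y * w (1 + 2 * y₁) ≤ w y * 1 := by
          refine mul_le_mul_right (?_ : w (1 + 2 * y₁) ≤ 1) (w y)
          refine (w.map_add _ _).trans (max_le (by rw [map_one]) ?_)
          rw [map_mul]
          exact mul_le_one' h2le hy₁
      _ ≤ w x ^ 2 := by rw [mul_one]; exact hyx
  · rw [Valuation.map_neg]
    exact hy₁.trans h1x
  · rw [map_mul, map_pow]
    calc w x₁ * w x ^ 2 ≤ 1 * w x ^ 2 := mul_le_mul_left hx₁ (w x ^ 2)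
      _ = w x ^ 2 := one_mul _
  · rw [map_mul, map_pow]
    calc w x₁ ^ 2 * w x ≤ 1 * w x := mul_le_mul_left (pow_le_one₀ zero_le hx₁) (w x)
      _ = w x := one_mul _
      _ ≤ w x ^ 2 := by
          rw [pow_two]
          exact (lt_mul_of_one_lt_left (zero_lt_one.trans hx) hx).le

/-- The difference of two integral points with the same reduction. -/
theorem i1_sub_same (h2 : w 2 < 1) {x₁ y₁ x₂ y₂ : F} (h₁ : (Wt e).toAffine.Nonsingular x₁ y₁)
    (h₂ : (Wt e).toAffine.Nonsingular x₂ y₂) (hy : w y₁ ≤ 1)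
    (hxx : w (x₁ - x₂) < 1) (hyy : w (y₁ - y₂) < 1) (hx₁ : w x₁ ≤ 1) :
    i1_In e w ((WeierstrassCurve.Affine.Point.some x₁ y₁ h₁ : (Wt e).toAffine.Point) -
      WeierstrassCurve.Affine.Point.some x₂ y₂ h₂) := by
  have he₁ := i1_eqn e h₁
  have he₂ := i1_eqn e h₂
  have h3 : w (y₁ + y₂ + 1) = 1 := by
    have : y₁ + y₂ + 1 = 1 + (2 * y₁ - (y₁ - y₂)) := by ring
    rw [this, r6_val_add_of_lt w, map_one]
    rw [map_one]
    refine (w.map_sub _ _).trans_lt (max_lt ?_ hyy)
    rw [map_mul]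
    exact mul_lt_one_of_lt_of_le h2 hy
  rw [sub_eq_add_neg, WeierstrassCurve.Affine.Point.neg_some]
  by_cases hx : x₁ = x₂
  · subst hx
    have h4 : (y₁ - y₂) * (y₁ + y₂ + 1) = 0 := by linear_combination he₁ - he₂
    rcases mul_eq_zero.1 h4 with h5 | h5
    · have h6 : y₁ = y₂ := sub_eq_zero.1 h5
      subst h6
      rw [WeierstrassCurve.Affine.Point.add_of_Y_eq rfl
        (WeierstrassCurve.Affine.negY_negY x₁ y₁).symm]
      trivial
    · rw [h5, map_zero] at h3
      exact absurd h3 zero_ne_one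
  · rw [WeierstrassCurve.Affine.Point.add_of_X_ne hx]
    change 1 < w _
    rw [i1_addX, i1_slope_ne e hx, i1_negY]
    have h5 : x₁ - x₂ ≠ 0 := sub_ne_zero.2 hx
    have h6 : 1 < w ((y₁ - (-y₂ - 1)) / (x₁ - x₂)) := by
      have : y₁ - (-y₂ - 1) = y₁ + y₂ + 1 := by ring
      rw [this, map_div₀, h3, one_div]
      exact (one_lt_inv₀ (zero_lt_iff.2 ((Valuation.ne_zero_iff w).2 h5))).2 hxx
    have h7 : ((y₁ - (-y₂ - 1)) / (x₁ - x₂)) ^ 2 - x₁ - x₂ =
        ((y₁ - (-y₂ - 1)) / (x₁ - x₂)) ^ 2 + ((x₁ - x₂) - 2 * x₁) := by ring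
    rw [h7]
    have h8 : 1 < w (((y₁ - (-y₂ - 1)) / (x₁ - x₂)) ^ 2) := by
      rw [map_pow]
      exact one_lt_pow₀ h6 (by norm_num)
    rw [r6_val_add_of_lt w]
    · exact h8
    · refine lt_trans ?_ h8
      refine (w.map_sub _ _).trans_lt (max_lt hxx ?_)
      rw [map_mul]
      exact mul_lt_one_of_lt_of_le h2 hx₁

/-- The kernel of reduction. -/
def i1_ker (hew : w e ≤ 1) : AddSubgroup (Wt e).toAffine.Point where
  carrier := {P | i1_In e w P}
  zero_mem' := trivial
  neg_mem' := by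
    rintro (_ | ⟨x, y, h⟩) hP
    · trivial
    · exact hP
  add_mem' := by
    intro P Q hP hQ
    by_contra hR
    have hneg : ∀ P : (Wt e).toAffine.Point, i1_In e w P → i1_In e w (-P) := by
      rintro (_ | ⟨x, y, h⟩) hP
      · trivial
      · exact hP
    have hP0 : P ≠ 0 := by
      rintro rfl
      rw [zero_add] at hR
      exact hR hQ
    have key : ∀ R S : (Wt e).toAffine.Point, ¬ i1_In e w R → i1_In e w S → S ≠ 0 →
        ¬ i1_In e w (R + S) := by
      rintro (_ | ⟨x₁, y₁, h₁⟩) (_ | ⟨x, y, h⟩) hR hS hS0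
      · exact absurd trivial hR
      · exact absurd trivial hR
      · exact absurd rfl hS0
      · exact i1_add_big w hew h₁ h (not_lt.1 hR) hS
    refine key (P + Q) (-P) hR (hneg P hP) (neg_ne_zero.2 hP0) ?_
    have : P + Q + -P = Q := by abel
    rw [this]
    exact hQ

end I1

theorem finite_of_divisible {F : Type} [Field F] [NumberField F] (v : HeightOneSpectrum (𝓞 F))
    (h2 : (2 : 𝓞 F) ∈ v.asIdeal) (h4 : (2 : 𝓞 F) ∉ v.asIdeal ^ 2) (e : F)
    (he : v.valuation F e ≤ 1) (h : ∀ P : (Wt e).toAffine.Point, ∃ Q, P = 2 • Q) :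
    Finite (Wt e).toAffine.Point := by
  set w : Valuation F (WithZero (Multiplicative ℤ)) := v.valuation F with hw
  have hmap2 : algebraMap (𝓞 F) F 2 = 2 := map_ofNat _ 2
  -- the valuation of 2
  have hw2lt : w 2 < 1 := by
    rw [← hmap2, hw, v.valuation_lt_one_iff_mem]
    exact h2
  have hw2 : w 2 = WithZero.exp (-1) := by
    have h5 : ¬ w 2 ≤ WithZero.exp (-((2 : ℕ) : ℤ)) := by
      rw [← hmap2, hw, v.valuation_of_algebraMap, v.intValuation_le_pow_iff_mem]
      exact h4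
    have h0 : w 2 ≠ 0 := by
      intro h0
      rw [h0] at h5
      exact h5 zero_le
    have h6 : w 2 = WithZero.exp (WithZero.log (w 2)) := (WithZero.exp_log h0).symm
    rw [h6] at hw2lt h5 ⊢
    rw [← WithZero.exp_zero, WithZero.exp_lt_exp] at hw2lt
    rw [WithZero.exp_le_exp] at h5
    congr 1
    push Not at h5
    push_cast at h5
    omega
  -- finitely many residue classes
  have hfin : Finite (𝓞 F ⧸ v.asIdeal) := inferInstance
  have happ : ∀ x : F, ∃ a : 𝓞 F, w x ≤ 1 → w (algebraMap (𝓞 F) F a - x) < 1 := by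
    intro x
    by_cases hx : w x ≤ 1
    · obtain ⟨a, ha⟩ := v.exists_valuation_sub_lt_of_integer hx 1
      exact ⟨a, fun _ => ha⟩
    · exact ⟨0, fun h => absurd h hx⟩
  choose app happ using happ
  have hρ : ∀ a b : F, w a ≤ 1 → w b ≤ 1 →
      Ideal.Quotient.mk v.asIdeal (app a) = Ideal.Quotient.mk v.asIdeal (app b) →
        w (a - b) < 1 := by
    intro a b ha hb hab
    have h5 : w (algebraMap (𝓞 F) F (app a - app b)) < 1 := by
      rw [hw, v.valuation_lt_one_iff_mem]
      exact Ideal.Quotient.eq.1 hab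
    have h6 : a - b = algebraMap (𝓞 F) F (app a - app b) -
        ((algebraMap (𝓞 F) F (app a) - a) - (algebraMap (𝓞 F) F (app b) - b)) := by
      rw [map_sub]
      ring
    rw [h6]
    exact (w.map_sub _ _).trans_lt (max_lt h5 ((w.map_sub _ _).trans_lt
      (max_lt (happ a ha) (happ b hb))))
  let κ := 𝓞 F ⧸ v.asIdeal
  let f : (Wt e).toAffine.Point → Option (κ × κ) := fun P =>
    match P with
    | .zero => none
    | .some x y _ => if w x ≤ 1 then Option.some (Ideal.Quotient.mk v.asIdeal (app x),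
        Ideal.Quotient.mk v.asIdeal (app y)) else none
  have hf : ∀ P Q : (Wt e).toAffine.Point, f P = f Q → i1_In e w (P - Q) := by
    intro P Q hPQ
    have hnone : ∀ P : (Wt e).toAffine.Point, f P = none → P ∈ i1_ker w he := by
      rintro (_ | ⟨x, y, h⟩) hP
      · trivial
      · by_contra hc
        have hx : w x ≤ 1 := not_lt.1 hc
        have : f (.some x y h) = Option.some (Ideal.Quotient.mk v.asIdeal (app x),
          Ideal.Quotient.mk v.asIdeal (app y)) := if_pos hx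
        rw [this] at hP
        cases hP
    by_cases h1 : f P = none
    · exact (i1_ker w he).sub_mem (hnone P h1) (hnone Q (hPQ.symm.trans h1))
    · have h2' : f Q ≠ none := fun h => h1 (hPQ.trans h)
      rcases P with _ | ⟨x₁, y₁, k₁⟩
      · exact absurd rfl h1
      rcases Q with _ | ⟨x₂, y₂, k₂⟩
      · exact absurd rfl h2'
      have hx₁ : w x₁ ≤ 1 := by
        by_contra hc
        exact h1 (if_neg hc)
      have hx₂ : w x₂ ≤ 1 := by
        by_contra hc
        exact h2' (if_neg hc)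
      have e1 : f (.some x₁ y₁ k₁) = Option.some (Ideal.Quotient.mk v.asIdeal (app x₁),
        Ideal.Quotient.mk v.asIdeal (app y₁)) := if_pos hx₁
      have e2 : f (.some x₂ y₂ k₂) = Option.some (Ideal.Quotient.mk v.asIdeal (app x₂),
        Ideal.Quotient.mk v.asIdeal (app y₂)) := if_pos hx₂
      rw [e1, e2, Option.some.injEq, Prod.mk.injEq] at hPQ
      have hy₁ := i1_y_of_small w he (i1_eqn e k₁) hx₁
      have hy₂ := i1_y_of_small w he (i1_eqn e k₂) hx₂
      exact i1_sub_same w hw2lt k₁ k₂ hy₁ (hρ _ _ hx₁ hx₂ hPQ.1) (hρ _ _ hy₁ hy₂ hPQ.2) hx₁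
  -- the quotient by the kernel of reduction is finite
  have hQ : Finite ((Wt e).toAffine.Point ⧸ i1_ker w he) := by
    refine Finite.of_injective (fun q => f q.out) fun q₁ q₂ hq => ?_
    have h5 := hf _ _ hq
    rw [← QuotientAddGroup.out_eq' q₁, ← QuotientAddGroup.out_eq' q₂]
    refine (QuotientAddGroup.eq.2 ?_).symm
    have h6 : -Quotient.out q₂ + Quotient.out q₁ = Quotient.out q₁ - Quotient.out q₂ := by abel
    rw [h6]
    exact h5
  -- halves of elements of the kernel are in the kernel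
  have hhalf : ∀ Q : (Wt e).toAffine.Point, 2 • Q ∈ i1_ker w he → Q ∈ i1_ker w he := by
    have hsurj : Function.Surjective
        (fun q : (Wt e).toAffine.Point ⧸ i1_ker w he => 2 • q) := by
      intro q
      obtain ⟨P, rfl⟩ := QuotientAddGroup.mk_surjective q
      obtain ⟨Q, hQ⟩ := h P
      exact ⟨(Q : (Wt e).toAffine.Point ⧸ i1_ker w he), by rw [hQ]; rfl⟩
    have hinj := Finite.injective_iff_surjective.2 hsurj
    intro Q hQ
    have h5 : (fun q : (Wt e).toAffine.Point ⧸ i1_ker w he => 2 • q)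
        (Q : (Wt e).toAffine.Point ⧸ i1_ker w he) = (fun q => 2 • q) 0 := by
      change ((2 • Q : (Wt e).toAffine.Point) : (Wt e).toAffine.Point ⧸ i1_ker w he) = 2 • 0
      rw [smul_zero]
      exact (QuotientAddGroup.eq_zero_iff _).2 hQ
    exact (QuotientAddGroup.eq_zero_iff _).1 (hinj h5)
  -- the kernel is trivial
  have hker : ∀ n : ℕ, ∀ (x y : F) (k : (Wt e).toAffine.Nonsingular x y), 1 < w x →
      w x = WithZero.exp (n : ℤ) → False := by
    intro n
    induction n using Nat.strong_induction_on with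
    | _ n ih =>
      intro x y k hx hn
      obtain ⟨Q, hQ⟩ := h (.some x y k)
      have hQ1 : Q ∈ i1_ker w he := hhalf Q (by rw [← hQ]; exact hx)
      rcases Q with _ | ⟨x', y', k'⟩
      · change _ = 2 • (0 : (Wt e).toAffine.Point) at hQ
        rw [smul_zero] at hQ
        exact WeierstrassCurve.Affine.Point.some_ne_zero k hQ
      · have hx' : 1 < w x' := hQ1
        obtain ⟨x'', y'', k'', h5, h6⟩ := i1_double w he hw2 k' hx'
        obtain ⟨n', hn', hwx'⟩ := r6_exp_of_big w hx'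
        rw [h5] at hQ
        have h7 : x = x'' := by
          injection hQ
        rw [← h7, hn, hwx', ← WithZero.exp_add, WithZero.exp_inj] at h6
        exact ih n' (by omega) x' y' k' hx' hwx'
  refine Finite.of_injective f fun P Q hPQ => ?_
  have h5 := hf P Q hPQ
  rcases hPQ' : P - Q with _ | ⟨x, y, k⟩
  · exact sub_eq_zero.1 hPQ'
  · rw [hPQ'] at h5
    obtain ⟨n, -, hn⟩ := r6_exp_of_big w (x := x) h5
    exact (hker n x y k h5 hn).elim

end CMT
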