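import Pool.Agent.MP_dfae13_nt.T.IDefs
import Pool.Agent.MP_ae0bd0_nt.CM.R1

set_option autoImplicit false

open Polynomial NumberField IsDedekindDomain
open scoped Classical

namespace CMT

open CM27

/-! ## [CMT-I2] halves (adapt `exists_half` in `MP_ae0bd0_nt/CM/R1.lean`) -/

/-- If `D + x π² = s²`, `s = a + b π + c π²`, then `Q = (-D c / a, (D² / a - 1) / 2)` is on the curve and
`2 Q = ± P`. -/
theorem exists_half {K : Type} [Field K] [CharZero K] (e D : K) (hD : D ≠ 0)
    (he : 4 * e + 1 = D ^ 3) (x y : K) (h : (Wt e).toAffine.Nonsingular x y) (s : R K)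
    (hs : trip D 0 x = s ^ 2) :
    ∃ Q : (Wt e).toAffine.Point, WeierstrassCurve.Affine.Point.some x y h = 2 • Q := by
  obtain ⟨a, b, c, rfl⟩ := trip_surj s
  have h1 : trip D 0 x = trip a b c * trip a b c := by
    rw [← sq]; exact hs
  rw [r1_trip_mul] at h1
  obtain ⟨e1, e2, e3⟩ := trip_inj h1
  have ha : a ≠ 0 := by
    rintro rfl
    have hc : c = 0 := by
      have : c ^ 2 = 0 := by linear_combination -e2 / 2
      exact pow_eq_zero_iff (two_ne_zero) |>.1 this
    rw [hc] at e1
    apply hD
    linear_combination e1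
  have hb : b = -c ^ 2 / a := by
    field_simp
    linear_combination -e2 / 2
  have hac : a ^ 3 - 4 * c ^ 3 = D * a := by
    have : a * (a * a + 2 * (b * c + c * b)) = D * a := by rw [← e1]; ring
    rw [hb] at this
    field_simp at this
    linear_combination this
  have hx : x = c ^ 4 / a ^ 2 + 2 * a * c := by
    rw [e3, hb]; field_simp; ring
  set u : K := -D * c / a with hu
  set v : K := (D ^ 2 / a - 1) / 2 with hv
  have h2v : 2 * v + 1 = D ^ 2 / a := by rw [hv]; ring
  have hD2a : D ^ 2 / a ≠ 0 := div_ne_zero (pow_ne_zero _ hD) ha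
  have hQe : v ^ 2 + v = u ^ 3 + e := by
    have h3 : (2 * v + 1) ^ 2 = 4 * u ^ 3 + D ^ 3 := by
      rw [h2v, hu]
      field_simp
      linear_combination -hac
    linear_combination h3 / 4 - he / 4
  have hQ : (Wt e).toAffine.Nonsingular u v := by
    rw [WeierstrassCurve.Affine.nonsingular_iff]
    refine ⟨?_, Or.inr ?_⟩
    · rw [WeierstrassCurve.Affine.equation_iff]
      simpa [Wt] using hQe
    · simp only [Wt]
      intro h4
      have h5 : 2 * v + 1 = 0 := by linear_combination h4
      rw [h2v] at h5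
      exact hD2a h5
  have hy : v ≠ (Wt e).toAffine.negY u v := by
    simp only [WeierstrassCurve.Affine.negY, Wt]
    intro h4
    have h5 : 2 * v + 1 = 0 := by linear_combination h4
    rw [h2v] at h5
    exact hD2a h5
  have hdbl : (WeierstrassCurve.Affine.Point.some u v hQ) +
      (WeierstrassCurve.Affine.Point.some u v hQ) = _ :=
    WeierstrassCurve.Affine.Point.add_self_of_Y_ne hy
  have hX : (Wt e).toAffine.addX u u ((Wt e).toAffine.slope u u v v) = x := by
    rw [WeierstrassCurve.Affine.slope_of_Y_ne rfl hy]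
    simp only [WeierstrassCurve.Affine.addX, WeierstrassCurve.Affine.negY, Wt]
    have h6 : v - (-v - 0 * u - 1) = D ^ 2 / a := by linear_combination h2v
    rw [h6, hx, hu]
    field_simp
    linear_combination (-2 : K) * c * D ^ 4 * hac
  set T := (Wt e).toAffine.slope u u v v with hT
  have hns := WeierstrassCurve.Affine.nonsingular_add hQ hQ (fun hxy => hy hxy.right)
  have hYeq := WeierstrassCurve.Affine.Y_eq_of_X_eq h.1 hns.1 hX.symm
  rcases hYeq with h7 | h7
  · refine ⟨.some u v hQ, ?_⟩
    rw [two_smul, hdbl]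
    simp only [WeierstrassCurve.Affine.Point.some.injEq]
    exact ⟨hX.symm, h7⟩
  · refine ⟨-.some u v hQ, ?_⟩
    rw [smul_neg, two_smul, hdbl, WeierstrassCurve.Affine.Point.neg_some]
    simp only [WeierstrassCurve.Affine.Point.some.injEq]
    exact ⟨hX.symm, h7⟩

end CMT
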