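import Pool.Agent.MP_dfae13_nt.T.IDefs
import Pool.Agent.MP_9ab903_nt.SB.L

set_option autoImplicit false

open Polynomial NumberField IsDedekindDomain
open scoped Classical

namespace CMT

open CM27

/-! ## [CMT-I4] the local conditions (adapt `MP_9ab903_nt/SB/L.lean`; proof below) -/

/-- If `2 B ≠ 0` then `r(-B) = - r(B)`. -/
theorem rOf_neg {K : Type} [Field K] [CharZero K] (B : (E K).toAffine.Point) (hB : 2 • B ≠ 0) :
    rOf (-B) = -rOf B := by
  cases B with
  | zero =>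
    exfalso
    apply hB
    have h0 : (WeierstrassCurve.Affine.Point.zero : (E K).toAffine.Point) = 0 := rfl
    rw [h0, smul_zero]
  | some x y h =>
    have h0 : 2 * y + 1 ≠ 0 := fun h0 => hB (a1_two_tors h h0)
    have hy : (E K).toAffine.negY x y = -y - 1 := a1_negY x y
    have h1 : 2 * (-y - 1) + 1 = -(2 * y + 1) := by ring
    have h2 : 2 * (-y - 1) + 1 ≠ 0 := by rw [h1]; exact neg_ne_zero.2 h0
    have hneg : ∀ a b c : K, trip (-a) (-b) (-c) = -trip a b c := by
      intro a b c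
      simp only [trip, map_neg]; ring
    rw [WeierstrassCurve.Affine.Point.neg_some]
    simp only [rOf, hy]
    rw [if_neg h2, if_neg h0, ← hneg, h1]
    congr 1
    · rw [div_neg]
    · rw [div_neg]
    · rw [div_neg]

theorem I4_algebraMap_trip {K : Type} [Field K] (d a b c : K) :
    algebraMap K (R K) d * trip a b c = trip (d * a) (d * b) (d * c) := by
  simp only [trip, map_mul]; ring

/-- Proof.  `V = ι(S) rOf(Q)` if `2 Q = 0`, `V = δ ι(S) rOf(Q)` if `2 Q ≠ 0`.  For `τ`, `σ` its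
restriction (`hres` in L.lean), `T = ι(c σ)`, `2 T = 0`: `τ Q = Q + T` if `τ δ = δ`, `τ Q = -(Q + T)`
if `τ δ = -δ` (one of the two holds as `(τ δ)² = δ²`).  So `τ V = V` (`rOf_add`, `rOf_tors_sq`,
`rOf_neg`), `V = mapR v` (`fixed_mapR`).  If `2 Q = 0`: `V² = ι(S)² rOf(Q)² = z zOf(2 Q) = z`.
If `2 Q = (X, Y) ≠ 0`: `V² = D z (1 + X π²) = z (D + D X π²)`, and `x = D X`, `m = δ³ (2 Y + 1)` are
fixed by all `τ` (`τ (2 Q) = ± 2 Q`, sign as for `δ`), so they come from `Fv`. -/
theorem locD (F L : Type) [Field F] [CharZero F] [Field L] [Algebra F L]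
    [IsAlgClosure F L] (D : F) (c : (L ≃ₐ[F] L) → (E L).toAffine.Point)
    (h2 : ∀ σ, 2 • c σ = 0) (S : R L)
    (h : ∀ σ : L ≃ₐ[F] L, mapR (σ : L →+* L) S = rOf (c σ) * S) (z : R F)
    (hz : mapR (algebraMap F L) z = S ^ 2) (Fv Lv : Type) [Field Fv] [Algebra F Fv] [Field Lv]
    [Algebra Fv Lv] [IsAlgClosure Fv Lv] [Algebra F Lv] [IsScalarTower F Fv Lv] (ι : L →ₐ[F] Lv)
    (δ : Lv) (hδ : δ ^ 2 = algebraMap F Lv D) (Q : (E Lv).toAffine.Point)
    (hQ : ∀ (τ : Lv ≃ₐ[Fv] Lv) (σ : L ≃ₐ[F] L), (∀ x, ι (σ x) = τ (ι x)) →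
      (τ δ = δ → ptMap (ι : L →+* Lv) (c σ) = ptMap (τ : Lv →+* Lv) Q - Q) ∧
      (τ δ = -δ → ptMap (ι : L →+* Lv) (c σ) = -ptMap (τ : Lv →+* Lv) Q - Q)) :
    LocD D z Fv := by
  have : CharZero Fv := charZero_of_injective_algebraMap (algebraMap F Fv).injective
  have : CharZero Lv := charZero_of_injective_algebraMap (algebraMap F Lv).injective
  have : IsGalois F L := inferInstance
  have : IsGalois Fv Lv := inferInstance
  -- restriction of automorphisms
  have hres : ∀ τ : Lv ≃ₐ[Fv] Lv, ∃ σ : L ≃ₐ[F] L, ∀ x, ι (σ x) = τ (ι x) := by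
    intro τ
    letI : Algebra L Lv := (ι : L →+* Lv).toAlgebra
    haveI : IsScalarTower F L Lv := IsScalarTower.of_algebraMap_eq' (by
      ext x
      show algebraMap F Lv x = ι (algebraMap F L x)
      rw [ι.commutes])
    haveI : Normal F L := inferInstance
    refine ⟨(τ.restrictScalars F).restrictNormal L, fun x => ?_⟩
    exact AlgEquiv.restrictNormal_commutes (τ.restrictScalars F) L x
  -- `c σ` has order two in `E(Lv)`
  have h2' : ∀ σ, 2 • ptMap (ι : L →+* Lv) (c σ) = 0 := by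
    intro σ
    rw [← l_ptMap_two, h2, l_ptMap_zero]
  -- the sign of `τ δ`
  have hD : ∀ τ : Lv ≃ₐ[Fv] Lv, τ (algebraMap F Lv D) = algebraMap F Lv D := by
    intro τ
    rw [IsScalarTower.algebraMap_apply F Fv Lv, τ.commutes]
  have hsign : ∀ τ : Lv ≃ₐ[Fv] Lv, τ δ = δ ∨ τ δ = -δ := by
    intro τ
    apply sq_eq_sq_iff_eq_or_eq_neg.1
    rw [← map_pow, hδ, hD]
  -- `τ` on the image of `S`
  have hS : ∀ (τ : Lv ≃ₐ[Fv] Lv) (σ : L ≃ₐ[F] L), (∀ x, ι (σ x) = τ (ι x)) →
      mapR (τ : Lv →+* Lv) (mapR (ι : L →+* Lv) S)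
        = rOf (ptMap (ι : L →+* Lv) (c σ)) * mapR (ι : L →+* Lv) S := by
    intro τ σ hσ
    have hcomp : (τ : Lv →+* Lv).comp (ι : L →+* Lv) =
        (ι : L →+* Lv).comp ((σ : L ≃ₐ[F] L) : L →+* L) := by
      ext x
      exact (hσ x).symm
    rw [l_mapR_comp, hcomp, ← l_mapR_comp, h σ, map_mul, rOf_map]
  have hzz : mapR (algebraMap Fv Lv) (mapR (algebraMap F Fv) z) = mapR (ι : L →+* Lv) S ^ 2 := by
    have hcomp : (algebraMap Fv Lv).comp (algebraMap F Fv) =
        (ι : L →+* Lv).comp (algebraMap F L) := by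
      ext x
      show algebraMap Fv Lv (algebraMap F Fv x) = ι (algebraMap F L x)
      rw [ι.commutes, ← IsScalarTower.algebraMap_apply]
    rw [l_mapR_comp, hcomp, ← l_mapR_comp, hz, map_pow]
  -- `τ Q`
  have hτQ : ∀ (τ : Lv ≃ₐ[Fv] Lv) (σ : L ≃ₐ[F] L), (∀ x, ι (σ x) = τ (ι x)) →
      (τ δ = δ ∧ ptMap (τ : Lv →+* Lv) Q = Q + ptMap (ι : L →+* Lv) (c σ)) ∨
      (τ δ = -δ ∧ ptMap (τ : Lv →+* Lv) Q = -(Q + ptMap (ι : L →+* Lv) (c σ))) := by
    intro τ σ hσ
    rcases hsign τ with h1 | h1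
    · left
      refine ⟨h1, ?_⟩
      rw [(hQ τ σ hσ).1 h1]; abel
    · right
      refine ⟨h1, ?_⟩
      rw [(hQ τ σ hσ).2 h1]; abel
  by_cases hQ2 : 2 • Q = 0
  · left
    have hfix : ∀ τ : Lv ≃ₐ[Fv] Lv, mapR (τ : Lv →+* Lv) (mapR (ι : L →+* Lv) S * rOf Q)
        = mapR (ι : L →+* Lv) S * rOf Q := by
      intro τ
      obtain ⟨σ, hσ⟩ := hres τ
      have hT := h2' σ
      have hSτ := hS τ σ hσ
      have hτ := hτQ τ σ hσ
      generalize ptMap (ι : L →+* Lv) (c σ) = T at *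
      have hTQ : 2 • (Q + T) = 0 := by rw [nsmul_add, hQ2, hT, add_zero]
      have e1 : ptMap (τ : Lv →+* Lv) Q = Q + T := by
        rcases hτ with ⟨_, h4⟩ | ⟨_, h4⟩
        · exact h4
        · rw [h4]
          rw [two_nsmul] at hTQ
          exact neg_eq_of_add_eq_zero_left hTQ
      rw [map_mul, hSτ, rOf_map, e1, rOf_add _ _ hT]
      have e4 := rOf_tors_sq T hT
      calc rOf T * mapR (ι : L →+* Lv) S * (rOf Q * rOf T)
          = (rOf T * rOf T) * (mapR (ι : L →+* Lv) S * rOf Q) := by ring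
        _ = _ := by rw [e4, one_mul]
    obtain ⟨v, hv⟩ := fixed_mapR Fv Lv _ hfix
    refine ⟨v, ?_⟩
    apply l_mapR_injective (algebraMap Fv Lv)
    rw [map_pow, hv, hzz, mul_pow, rOf_sq, hQ2, a1_zOf_zero, mul_one]
  · right
    have hfix : ∀ τ : Lv ≃ₐ[Fv] Lv, mapR (τ : Lv →+* Lv)
        (algebraMap Lv (R Lv) δ * (mapR (ι : L →+* Lv) S * rOf Q))
        = algebraMap Lv (R Lv) δ * (mapR (ι : L →+* Lv) S * rOf Q) := by
      intro τ
      obtain ⟨σ, hσ⟩ := hres τ
      have hT := h2' σ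
      have hSτ := hS τ σ hσ
      have hτ := hτQ τ σ hσ
      generalize ptMap (ι : L →+* Lv) (c σ) = T at *
      have hTQ : 2 • (Q + T) ≠ 0 := by rw [nsmul_add, hT, add_zero]; exact hQ2
      have e4 := rOf_tors_sq T hT
      rw [map_mul, map_mul, hSτ, rOf_map, mapR_algebraMap]
      rcases hτ with ⟨h3, h4⟩ | ⟨h3, h4⟩
      · rw [h4, rOf_add _ _ hT]
        have h3' : (τ : Lv →+* Lv) δ = δ := h3
        rw [h3']
        calc algebraMap Lv (R Lv) δ * (rOf T * mapR (ι : L →+* Lv) S * (rOf Q * rOf T))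
            = (rOf T * rOf T) * (algebraMap Lv (R Lv) δ * (mapR (ι : L →+* Lv) S * rOf Q)) := by
              ring
          _ = _ := by rw [e4, one_mul]
      · rw [h4, rOf_neg _ hTQ, rOf_add _ _ hT]
        have h3' : (τ : Lv →+* Lv) δ = -δ := h3
        rw [h3', map_neg]
        calc -algebraMap Lv (R Lv) δ * (rOf T * mapR (ι : L →+* Lv) S * -(rOf Q * rOf T))
            = (rOf T * rOf T) * (algebraMap Lv (R Lv) δ * (mapR (ι : L →+* Lv) S * rOf Q)) := by
              ring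
          _ = _ := by rw [e4, one_mul]
    obtain ⟨v, hv⟩ := fixed_mapR Fv Lv _ hfix
    have hτ2 : ∀ τ : Lv ≃ₐ[Fv] Lv,
        (τ δ = δ ∧ ptMap (τ : Lv →+* Lv) (2 • Q) = 2 • Q) ∨
        (τ δ = -δ ∧ ptMap (τ : Lv →+* Lv) (2 • Q) = -(2 • Q)) := by
      intro τ
      obtain ⟨σ, hσ⟩ := hres τ
      rcases hτQ τ σ hσ with ⟨h3, h4⟩ | ⟨h3, h4⟩
      · left
        refine ⟨h3, ?_⟩
        rw [l_ptMap_two, h4, nsmul_add, h2', add_zero]
      · right
        refine ⟨h3, ?_⟩
        rw [l_ptMap_two, h4, smul_neg, nsmul_add, h2', add_zero]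
    have hsq := rOf_sq Q
    generalize 2 • Q = P at *
    cases P with
    | zero => exact absurd rfl hQ2
    | some X Y hXY =>
      have hXY' := a1_equation hXY
      have hxy : ∀ τ : Lv ≃ₐ[Fv] Lv, τ (algebraMap F Lv D * X) = algebraMap F Lv D * X ∧
          τ (δ ^ 3 * (2 * Y + 1)) = δ ^ 3 * (2 * Y + 1) := by
        intro τ
        rcases hτ2 τ with ⟨h3, h4⟩ | ⟨h3, h4⟩
        · simp only [ptMap, WeierstrassCurve.Affine.Point.some.injEq] at h4
          obtain ⟨h5, h6⟩ := h4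
          have h5' : τ X = X := h5
          have h6' : τ Y = Y := h6
          constructor
          · rw [map_mul, hD, h5']
          · rw [map_mul, map_pow, h3, map_add, map_mul, h6', map_one, map_ofNat]
        · rw [WeierstrassCurve.Affine.Point.neg_some] at h4
          simp only [ptMap, WeierstrassCurve.Affine.Point.some.injEq] at h4
          obtain ⟨h5, h6⟩ := h4
          have h5' : τ X = X := h5
          have h6' : τ Y = -Y - 1 := by
            have : τ Y = (E Lv).toAffine.negY X Y := h6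
            rw [this, a1_negY]
          constructor
          · rw [map_mul, hD, h5']
          · rw [map_mul, map_pow, h3, map_add, map_mul, h6', map_one, map_ofNat]
            ring
      obtain ⟨x, hx⟩ := (InfiniteGalois.mem_range_algebraMap_iff_fixed (k := Fv) _).2
        (fun τ => (hxy τ).1)
      obtain ⟨m, hm⟩ := (InfiniteGalois.mem_range_algebraMap_iff_fixed (k := Fv) _).2
        (fun τ => (hxy τ).2)
      refine ⟨x, m, v, ?_, ?_⟩
      · apply (algebraMap Fv Lv).injective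
        rw [map_pow, hm, map_add, map_mul, map_pow, hx, map_pow, map_ofNat,
          ← IsScalarTower.algebraMap_apply, ← hδ]
        linear_combination δ ^ 6 * hXY'
      · apply l_mapR_injective (algebraMap Fv Lv)
        have hd : algebraMap Lv (R Lv) δ ^ 2 = algebraMap Lv (R Lv) (algebraMap F Lv D) := by
          rw [← map_pow, hδ]
        rw [map_mul, mapR_trip, hzz, map_pow, hv, hx, map_zero, ← IsScalarTower.algebraMap_apply,
          mul_pow, mul_pow, hsq, hd]
        simp only [zOf]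
        have e : trip (algebraMap F Lv D) 0 (algebraMap F Lv D * X)
            = algebraMap Lv (R Lv) (algebraMap F Lv D) * trip 1 0 X := by
          rw [I4_algebraMap_trip, mul_one, mul_zero]
        rw [e]
        ring

end CMT
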