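import Pool.Agent.MP_dfae13_nt.T.I3
import Pool.Agent.MP_dfae13_nt.T.I4
import Pool.Agent.MP_9ab903_nt.SB.FIN

set_option autoImplicit false

open Polynomial NumberField IsDedekindDomain
open scoped Classical

namespace CMT

open CM27

/-! ## [CMT-I5] the Tate–Shafarevich group of `y² + y = x³ + e` has no element of order `2` -/

/-- `t_aux` with a point of order two. -/
theorem i5_aux (F L : Type) [Field F] [CharZero F] [Field L] [Algebra F L]
    [IsAlgClosure F L] (c : (L ≃ₐ[F] L) → (E L).toAffine.Point) (h2 : ∀ σ, 2 • c σ = 0) (S : R L)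
    (h : ∀ σ : L ≃ₐ[F] L, mapR (σ : L →+* L) S = rOf (c σ) * S) (t : R F) (e : R L)
    (hu : IsUnit (mapR (algebraMap F L) t)) (he : e * mapR (algebraMap F L) t = S)
    (he2 : e ^ 2 = 1) (hn : Algebra.norm L e = 1) :
    ∃ T : (E L).toAffine.Point, 2 • T = 0 ∧
      ∀ σ : L ≃ₐ[F] L, c σ = ptMap (σ : L →+* L) T - T := by
  have : CharZero L := charZero_of_injective_algebraMap (algebraMap F L).injective
  have : IsAlgClosed L := IsAlgClosure.isAlgClosed F
  obtain ⟨ρ⟩ := exists_roots L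
  obtain ⟨T, hT, hTe⟩ := exists_tors ρ e he2 hn
  refine ⟨T, hT, fun σ => ?_⟩
  rw [eq_sub_iff_add_eq]
  have h1 : mapR (σ : L →+* L) (mapR (algebraMap F L) t) = mapR (algebraMap F L) t := by
    rw [t_mapR_comp]
    have h5 : (σ : L →+* L).comp (algebraMap F L) = algebraMap F L := by
      ext x
      simp
    rw [h5]
  have h3 : mapR (σ : L →+* L) e = rOf (c σ) * e := by
    have h4 : mapR (σ : L →+* L) e * mapR (algebraMap F L) t =
        rOf (c σ) * e * mapR (algebraMap F L) t := by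
      rw [mul_assoc, he, ← h σ]
      conv_lhs => rw [← h1]
      rw [← map_mul, he]
    exact hu.mul_right_cancel h4
  rw [← hTe, rOf_map, ← rOf_add _ _ hT] at h3
  refine (rOf_tors_inj _ _ (t_ptMap_tors _ _ hT) ?_ h3).symm
  rw [nsmul_add, h2, hT, add_zero]

theorem i5_trivial_of_square (F L : Type) [Field F] [CharZero F] [Field L] [Algebra F L]
    [IsAlgClosure F L] (c : (L ≃ₐ[F] L) → (E L).toAffine.Point) (h2 : ∀ σ, 2 • c σ = 0) (S : R L)
    (hS : IsUnit S) (h : ∀ σ : L ≃ₐ[F] L, mapR (σ : L →+* L) S = rOf (c σ) * S) (t : R F)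
    (ht : mapR (algebraMap F L) t ^ 2 = S ^ 2) :
    ∃ T : (E L).toAffine.Point, 2 • T = 0 ∧
      ∀ σ : L ≃ₐ[F] L, c σ = ptMap (σ : L →+* L) T - T := by
  have hu : IsUnit (mapR (algebraMap F L) t) := by
    have h1 : IsUnit (mapR (algebraMap F L) t ^ 2) := by
      rw [ht]
      exact hS.pow 2
    exact (isUnit_pow_iff two_ne_zero).1 h1
  obtain ⟨w, hw⟩ := hu
  have he : (S * ↑w⁻¹ : R L) * mapR (algebraMap F L) t = S := by
    rw [← hw, mul_assoc, Units.inv_mul, mul_one]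
  set e : R L := S * ↑w⁻¹ with hedef
  have he2 : e ^ 2 = 1 := by
    have h3 : e ^ 2 * mapR (algebraMap F L) t ^ 2 = 1 * mapR (algebraMap F L) t ^ 2 := by
      rw [← mul_pow, he, one_mul, ht]
    have hu2 : IsUnit (mapR (algebraMap F L) t ^ 2) := by
      rw [← hw]
      exact w.isUnit.pow 2
    exact hu2.mul_right_cancel h3
  have hn : Algebra.norm L e ^ 2 = 1 := by
    rw [← map_pow, he2, map_one]
  rcases sq_eq_one_iff.1 hn with h3 | h3
  · exact i5_aux F L c h2 S h t e (hw ▸ w.isUnit) he he2 h3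
  · refine i5_aux F L c h2 S h (-t) (-e) ?_ ?_ ?_ ?_
    · rw [map_neg]
      exact (hw ▸ w.isUnit : IsUnit (mapR (algebraMap F L) t)).neg
    · rw [map_neg, neg_mul_neg, he]
    · rw [neg_sq, he2]
    · rw [t_norm_neg, h3, neg_neg]

/-- The twisted action of `σ` on `E(L)`. -/
noncomputable def twAct {F L : Type} [Field F] [Field L] [Algebra F L] (δ : L) (σ : L ≃ₐ[F] L) :
    (E L).toAffine.Point →+ (E L).toAffine.Point :=
  if σ δ = δ then ptHom (σ : L →+* L) else -ptHom (σ : L →+* L)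

section

variable {F L : Type} [Field F] [Field L] [Algebra F L] (δ : L)

theorem twAct_pos {σ : L ≃ₐ[F] L} (h : σ δ = δ) : twAct δ σ = ptHom (σ : L →+* L) := if_pos h

theorem twAct_neg [CharZero L] (hδ : δ ≠ 0) {σ : L ≃ₐ[F] L} (h : σ δ = -δ) :
    twAct δ σ = -ptHom (σ : L →+* L) := by
  refine if_neg fun h1 => hδ ?_
  rw [h1] at h
  have h2 : (2 : L) * δ = 0 := by linear_combination h
  exact (mul_eq_zero.1 h2).resolve_left two_ne_zero

end

/-- If the Selmer group (in the form of elements of `F[π]/(π³ - 2)`) is trivial, then a cocycle which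
is trivial at all finite places and whose double is principal is principal. -/
theorem sha_two_of_selmer (F : Type) [Field F] [NumberField F] (e D : F) (hD0 : D ≠ 0)
    (hDe : 4 * e + 1 = D ^ 3)
    (hsel : ∀ z : R F, z ≠ 0 → (∃ n : F, Algebra.norm F z = n ^ 2) →
      (∀ v : HeightOneSpectrum (𝓞 F), LocD D z (v.adicCompletion F)) → ∃ t : R F, z = t ^ 2)
    (c : SBSD.AbsGal F → SBSD.Pts (Wt e) (AlgebraicClosure F)) (hc : c ∈ SBSD.cocycles (Wt e))
    (hloc0 : ∀ v : HeightOneSpectrum (𝓞 F), SBSD.TrivialOver (Wt e) (v.adicCompletion F) c)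
    (h2 : ∃ P : SBSD.Pts (Wt e) (AlgebraicClosure F), ∀ σ : SBSD.AbsGal F,
      2 • c σ = WeierstrassCurve.Affine.Point.map (W' := Wt e) σ.toAlgHom P - P) :
    c ∈ SBSD.coboundaries (Wt e) := by
  obtain ⟨hc1, hc2⟩ := hc
  obtain ⟨Q, hQ⟩ := h2
  let L := AlgebraicClosure F
  obtain ⟨δ, hδ2⟩ := IsAlgClosed.exists_pow_nat_eq (algebraMap F L D) (n := 2) (by norm_num)
  have hδ0 : δ ≠ 0 := by
    rintro rfl
    rw [zero_pow two_ne_zero] at hδ2
    exact hD0 ((algebraMap F L).injective (by rw [← hδ2, map_zero]))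
  have hδ6 : algebraMap F L (4 * e + 1) = δ ^ 6 := by
    rw [hDe, map_pow, ← hδ2]
    ring
  have hcases : ∀ σ : L ≃ₐ[F] L, σ δ = δ ∨ σ δ = -δ := by
    intro σ
    apply sq_eq_sq_iff_eq_or_eq_neg.1
    rw [← map_pow, hδ2, σ.commutes]
  let ε := twTr F L e δ hδ0 hδ6
  have hgact : ∀ (σ : L ≃ₐ[F] L) (P : SBSD.Pts (Wt e) (AlgebraicClosure F)),
      ε (WeierstrassCurve.Affine.Point.map (W' := Wt e) σ.toAlgHom P) =
        twAct δ σ (ε P) := by
    intro σ P
    obtain ⟨h1, h2⟩ := twTr_map F L L e δ hδ0 hδ6 δ hδ0 hδ6 σ.toAlgHom P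
    rcases hcases σ with h | h
    · rw [twAct_pos δ h]
      exact h1 h
    · rw [twAct_neg δ hδ0 h]
      exact h2 h
  have hactmul : ∀ (σ τ : L ≃ₐ[F] L) (P : (E L).toAffine.Point),
      twAct δ (σ * τ) P = twAct δ σ (twAct δ τ P) := by
    intro σ τ P
    have hcomp : (((σ * τ : L ≃ₐ[F] L)) : L →+* L) =
      (σ : L →+* L).comp (τ : L →+* L) := rfl
    have hst : (σ * τ : L ≃ₐ[F] L) δ = σ (τ δ) := rfl
    rcases hcases σ with h | h <;> rcases hcases τ with h' | h'
    · rw [twAct_pos δ h, twAct_pos δ h', twAct_pos δ (by rw [hst, h', h]), hcomp, ptHom_comp]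
    · rw [twAct_pos δ h, twAct_neg δ hδ0 h', twAct_neg δ hδ0 (by rw [hst, h', map_neg, h]), hcomp,
        AddMonoidHom.neg_apply, AddMonoidHom.neg_apply, map_neg, ptHom_comp]
    · rw [twAct_neg δ hδ0 h, twAct_pos δ h', twAct_neg δ hδ0 (by rw [hst, h', h]), hcomp,
        AddMonoidHom.neg_apply, AddMonoidHom.neg_apply, ptHom_comp]
    · rw [twAct_neg δ hδ0 h, twAct_neg δ hδ0 h', twAct_pos δ (by rw [hst, h', map_neg, h, neg_neg]),
        hcomp, AddMonoidHom.neg_apply, AddMonoidHom.neg_apply, map_neg, neg_neg, ptHom_comp]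
  have hact2 : ∀ (σ : L ≃ₐ[F] L) (P : (E L).toAffine.Point), 2 • P = 0 →
      twAct δ σ P = ptHom (σ : L →+* L) P := by
    intro σ P hP
    rcases hcases σ with h | h
    · rw [twAct_pos δ h]
    · rw [twAct_neg δ hδ0 h, AddMonoidHom.neg_apply, neg_eq_iff_add_eq_zero, ← two_nsmul,
        ← map_nsmul, hP, map_zero]
  obtain ⟨P, hP⟩ := two_divisible (K := L) (ε Q)
  let c' : (L ≃ₐ[F] L) → (E L).toAffine.Point := fun σ =>
    ε (c σ) - (twAct δ σ P - P)
  have h2c : ∀ σ, 2 • c' σ = 0 := by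
    intro σ
    have h5 : 2 • ε (c σ) = twAct δ σ (ε Q) - ε Q := by
      rw [← map_nsmul, hQ σ, map_sub, hgact]
    change 2 • (ε (c σ) - (twAct δ σ P - P)) = 0
    rw [nsmul_sub, h5, hP, map_nsmul, nsmul_sub, sub_self]
  have hcoc : Coc F L c' := by
    refine ⟨?_, fun σ τ => ?_⟩
    · have h4 : IsLocallyConstant fun σ : L ≃ₐ[F] L => ε (c σ) := hc1.comp ε
      have h5 : IsLocallyConstant fun σ : L ≃ₐ[F] L => twAct δ σ P := by
        rw [IsLocallyConstant.iff_exists_open]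
        intro σ
        obtain ⟨U, hU, hσU, hU'⟩ := (IsLocallyConstant.iff_exists_open _).1
          (fin_loc_apply (F := F) δ) σ
        obtain ⟨V, hV, hσV, hV'⟩ := (IsLocallyConstant.iff_exists_open _).1
          (fin_loc_pt (F := F) P) σ
        refine ⟨U ∩ V, hU.inter hV, ⟨hσU, hσV⟩, fun τ hτ => ?_⟩
        have h1 : τ δ = σ δ := hU' τ hτ.1
        have h2 : ptHom (τ : L →+* L) P = ptHom (σ : L →+* L) P := hV' τ hτ.2
        rcases hcases σ with h | h
        · rw [twAct_pos δ h, twAct_pos δ (h1.trans h), h2]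
        · rw [twAct_neg δ hδ0 h, twAct_neg δ hδ0 (h1.trans h), AddMonoidHom.neg_apply,
            AddMonoidHom.neg_apply, h2]
      exact h4.sub (h5.sub (IsLocallyConstant.const P))
    · have h4 := hc2 σ τ
      have h5 : ptMap (σ : L →+* L) (c' τ) = twAct δ σ (c' τ) := (hact2 σ _ (h2c τ)).symm
      rw [h5]
      change ε (c (σ * τ)) - (twAct δ (σ * τ) P - P) =
        (ε (c σ) - (twAct δ σ P - P)) +
          twAct δ σ (ε (c τ) - (twAct δ τ P - P))
      rw [h4, map_add, hgact, hactmul, map_sub, map_sub]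
      abel
  obtain ⟨S, hS, hSσ⟩ := hilbert90 F L c' hcoc h2c
  obtain ⟨z, hz0, hzN, hzS⟩ := exists_class F L c' h2c S hS hSσ
  have hloc : ∀ v : HeightOneSpectrum (𝓞 F), LocD D z (v.adicCompletion F) := by
    intro v
    let Fv := v.adicCompletion F
    let Lv := AlgebraicClosure Fv
    let ι : L →ₐ[F] Lv := IsAlgClosed.lift
    haveI : CharZero Fv := charZero_of_injective_algebraMap (algebraMap F Fv).injective
    haveI : CharZero Lv := charZero_of_injective_algebraMap (algebraMap Fv Lv).injective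
    have hδv0 : ι δ ≠ 0 := (map_ne_zero_iff _ ι.injective).2 hδ0
    have hδv2 : ι δ ^ 2 = algebraMap F Lv D := by rw [← map_pow, hδ2, ι.commutes]
    have hδv6 : algebraMap F Lv (4 * e + 1) = ι δ ^ 6 := by rw [← map_pow, ← hδ6, ι.commutes]
    obtain ⟨Q', hQ'⟩ := hloc0 v ι
    let εv := twTr F Lv e (ι δ) hδv0 hδv6
    have hιδ : (ι : L →+* Lv) δ = ι δ := rfl
    have hgι : ∀ P : SBSD.Pts (Wt e) (AlgebraicClosure F),
        εv (WeierstrassCurve.Affine.Point.map (W' := Wt e) ι P) = ptHom (ι : L →+* Lv) (ε P) :=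
      fun P => (twTr_map F L Lv e δ hδ0 hδ6 (ι δ) hδv0 hδv6 ι P).1 rfl
    refine locD F L D c' h2c S hSσ z hzS Fv Lv ι (ι δ) hδv2 (εv Q' - ptHom (ι : L →+* Lv) P) ?_
    intro τ σ hστ
    have h6 := congrArg εv (hQ' τ σ hστ)
    rw [hgι, map_sub] at h6
    have h7 : (ι : L →+* Lv).comp (σ : L →+* L) = (τ : Lv →+* Lv).comp (ι : L →+* Lv) := by
      ext x
      exact hστ x
    obtain ⟨hm1, hm2⟩ := twTr_map F Lv Lv e (ι δ) hδv0 hδv6 (ι δ) hδv0 hδv6
      (τ.toAlgHom.restrictScalars F) Q'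
    constructor
    · intro hτ
      have hσ : σ δ = δ := ι.injective (show ι (σ δ) = ι δ by rw [hστ, hτ])
      have h9 : εv (WeierstrassCurve.Affine.Point.map (W' := Wt e)
        (τ.toAlgHom.restrictScalars F) Q') = ptHom (τ : Lv →+* Lv) (εv Q') := hm1 hτ
      change ptHom (ι : L →+* Lv) (ε (c σ) - (twAct δ σ P - P)) =
        ptHom (τ : Lv →+* Lv) (εv Q' - ptHom (ι : L →+* Lv) P) -
          (εv Q' - ptHom (ι : L →+* Lv) P)
      rw [twAct_pos δ hσ, map_sub, map_sub, map_sub, ptHom_comp, ptHom_comp, h7, h6, h9]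
      abel
    · intro hτ
      have hσ : σ δ = -δ := ι.injective (show ι (σ δ) = ι (-δ) by rw [hστ, hτ, map_neg])
      have h9 : εv (WeierstrassCurve.Affine.Point.map (W' := Wt e)
        (τ.toAlgHom.restrictScalars F) Q') = -ptHom (τ : Lv →+* Lv) (εv Q') := hm2 hτ
      change ptHom (ι : L →+* Lv) (ε (c σ) - (twAct δ σ P - P)) =
        -ptHom (τ : Lv →+* Lv) (εv Q' - ptHom (ι : L →+* Lv) P) -
          (εv Q' - ptHom (ι : L →+* Lv) P)
      rw [twAct_neg δ hδ0 hσ, AddMonoidHom.neg_apply, map_sub, map_sub, map_sub, map_neg,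
        ptHom_comp, ptHom_comp, h7, h6, h9]
      abel
  obtain ⟨t, ht⟩ := hsel z hz0 hzN hloc
  obtain ⟨T, hT2, hT⟩ := i5_trivial_of_square F L c' h2c S hS hSσ t (by rw [← map_pow, ← ht, hzS])
  refine ⟨ε.symm (P + T), fun σ => ε.injective ?_⟩
  rw [map_sub, hgact, ε.apply_symm_apply, map_add]
  have h9 : ε (c σ) - (twAct δ σ P - P) = twAct δ σ T - T := by
    rw [hact2 σ T hT2]
    exact hT σ
  have h10 : ε (c σ) = (twAct δ σ T - T) + (twAct δ σ P - P) := by
    rw [← h9]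
    abel
  rw [h10]
  abel

end CMT
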