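import Pool.Agent.MP_dfae13_nt.T.IDefs
import Pool.Agent.MP_9ab903_nt.SB.PAR
import Pool.Agent.MP_9ab903_nt.SB.CO
import Pool.Agent.MP_9ab903_nt.SB.A4

set_option autoImplicit false

open Polynomial NumberField IsDedekindDomain
open scoped Classical

namespace CMT

open CM27

/-! ## [CMT-I6] even valuations outside `6 D` (adapt `MP_9ab903_nt/SB/PAR.lean` and `EV.lean`) -/

/-- With `X = x p²`: `(D + X) (D² - D X + X²) = D³ + 4 x³ = m²`,
`(D + X)² - (D² - D X + X²) = 3 D X`. -/
theorem parityD {C : Type} [Field C] (w : Valuation C (WithZero (Multiplicative ℤ)))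
    (h6 : w 6 = 1) (p D x m : C) (hD : w D = 1) (hp : p ^ 3 = 2) (h : m ^ 2 = 4 * x ^ 3 + D ^ 3) :
    IsSquare (w (D + x * p ^ 2)) := by
  have h2le : w 2 ≤ 1 := by exact_mod_cast par_natCast_le w 2
  have h3le : w 3 ≤ 1 := by exact_mod_cast par_natCast_le w 3
  have h23 : w 2 * w 3 = 1 := by
    rw [← map_mul, ← h6]; congr 1; norm_num
  have h2 : w 2 = 1 := by
    refine le_antisymm h2le ?_
    calc (1 : WithZero (Multiplicative ℤ)) = w 2 * w 3 := h23.symm
      _ ≤ w 2 * 1 := mul_le_mul_right h3le _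
      _ = w 2 := mul_one _
  have h3 : w 3 = 1 := by rw [h2, one_mul] at h23; exact h23
  have hwp : w p = 1 := by
    have : w p ^ 3 = 1 := by rw [← map_pow, hp, h2]
    exact (pow_eq_one_iff_of_nonneg zero_le (by norm_num)).1 this
  have hAB : (D + x * p ^ 2) * (D ^ 2 - D * (x * p ^ 2) + x ^ 2 * p ^ 4) = m ^ 2 := by
    have : (D + x * p ^ 2) * (D ^ 2 - D * (x * p ^ 2) + x ^ 2 * p ^ 4) =
        D ^ 3 + x ^ 3 * (p ^ 3) ^ 2 := by ring
    rw [this, hp, h]
    ring
  have hABw : w (D + x * p ^ 2) * w (D ^ 2 - D * (x * p ^ 2) + x ^ 2 * p ^ 4) = w m ^ 2 := by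
    rw [← map_mul, hAB, map_pow]
  have hxp : w (x * p ^ 2) = w x := by rw [map_mul, map_pow, hwp, one_pow, mul_one]
  have hDxp : w (D * (x * p ^ 2)) = w x := by rw [map_mul, hD, one_mul, hxp]
  have hD2 : w (D ^ 2) = 1 := by rw [map_pow, hD, one_pow]
  rcases lt_or_ge 1 (w x) with hx | hx
  · have hA : w (D + x * p ^ 2) = w x := by
      rw [Valuation.map_add_eq_of_lt_right, hxp]
      rw [hxp, hD]
      exact hx
    have hx0 : w x ≠ 0 := by
      intro h0
      rw [h0] at hx
      exact absurd hx (by simp)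
    have hx2 : w x < w x ^ 2 := by
      rw [pow_two]
      calc w x = 1 * w x := (one_mul _).symm
        _ < w x * w x := by
          exact mul_lt_mul_of_pos_right hx (zero_lt_iff.2 hx0)
    have hB : w (D ^ 2 - D * (x * p ^ 2) + x ^ 2 * p ^ 4) = w x ^ 2 := by
      have e : w (x ^ 2 * p ^ 4) = w x ^ 2 := by
        rw [map_mul, map_pow, map_pow, hwp, one_pow, mul_one]
      rw [Valuation.map_add_eq_of_lt_right, e]
      rw [e]
      calc w (D ^ 2 - D * (x * p ^ 2)) ≤ max (w (D ^ 2)) (w (D * (x * p ^ 2))) := w.map_sub _ _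
        _ = w x := by rw [hD2, hDxp, max_eq_right hx.le]
        _ < w x ^ 2 := hx2
    rw [hA, hB] at hABw
    rw [hA]
    refine ⟨w m / w x, ?_⟩
    rw [div_mul_div_comm, ← pow_two, ← hABw]
    field_simp
  · have hA : w (D + x * p ^ 2) ≤ 1 := by
      calc w (D + x * p ^ 2) ≤ max (w D) (w (x * p ^ 2)) := w.map_add _ _
        _ ≤ 1 := by rw [hD, hxp]; exact max_le le_rfl hx
    rcases eq_or_lt_of_le hA with h1 | h1
    · rw [h1]; exact ⟨1, by simp⟩
    · have hx1 : w (x * p ^ 2) = 1 := by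
        have e : x * p ^ 2 = (D + x * p ^ 2) - D := by ring
        rw [e, Valuation.map_sub_eq_of_lt_right, hD]
        rw [hD]; exact h1
      have hB : w (D ^ 2 - D * (x * p ^ 2) + x ^ 2 * p ^ 4) = 1 := by
        have e : D ^ 2 - D * (x * p ^ 2) + x ^ 2 * p ^ 4 =
            (D + x * p ^ 2) ^ 2 - 3 * (D * (x * p ^ 2)) := by ring
        have e3 : w (3 * (D * (x * p ^ 2))) = 1 := by
          rw [map_mul, map_mul, h3, hD, hx1, mul_one, mul_one]
        rw [e, Valuation.map_sub_eq_of_lt_right, e3]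
        rw [e3, map_pow]
        exact pow_lt_one₀ zero_le h1 (by norm_num)
      rw [hB, mul_one] at hABw
      rw [hABw]
      exact ⟨w m, pow_two _⟩

theorem isSquare_of_mul_left {G : Type} [CommGroupWithZero G] {a b : G} (hb : b ≠ 0)
    (h1 : IsSquare b) (h2 : IsSquare (b * a)) : IsSquare a := by
  obtain ⟨r, hr⟩ := h1
  obtain ⟨s, hs⟩ := h2
  refine ⟨s / r, ?_⟩
  rw [div_mul_div_comm, ← hs, ← hr]
  field_simp

/-- Proof.  `φ : F_v → C = (R F)_P` (`exists_below`), `z_ρ = evR φ ρ (mapR z)` for the three roots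
`ρ, om ρ, om² ρ` of `2` in `C`, `ρ` the image of `π` (so `z_ρ` is the image of `z`).  If `LocD` holds
with `z = v²` everything is clear.  Otherwise `(D + x ρ'²) z_ρ' = v_ρ'²` for all three roots `ρ'`, so
`w(z_ρ')` is a square if `D + x ρ'² ≠ 0` (`parityD`).  If `D + x ρ² = 0` then `D + x ρ'² ≠ 0` for the
two other roots (`x ≠ 0`, `D ≠ 0`), and `z_ρ z_{om ρ} z_{om² ρ} = N(z) = n²` (`norm_eq_prod` over `C`
applied to `mapR`, `norm_mapR`), so `w(z_ρ)` is a square, too. -/
theorem even_of_locD (F : Type) [Field F] [NumberField F] [Fact (Irreducible (cubPoly F))]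
    (om : F) (hom : om ^ 2 + om + 1 = 0) (D : F)
    (z : R F) (hz0 : z ≠ 0) (hN : ∃ n : F, Algebra.norm F z = n ^ 2)
    (hz : ∀ v : HeightOneSpectrum (𝓞 F), LocD D z (v.adicCompletion F))
    (P : HeightOneSpectrum (𝓞 (R F))) (hP : (6 : 𝓞 (R F)) ∉ P.asIdeal)
    (hPD : P.valuation (R F) (algebraMap F (R F) D) = 1) :
    IsSquare (P.valuation (R F) z) := by
  obtain ⟨v, -, φ, hφ⟩ := exists_below F (R F) P
  set ρ : P.adicCompletion (R F) := algebraMap (R F) (P.adicCompletion (R F)) (pr F) with hρ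
  have hρ3 : ρ ^ 3 = 2 := by
    rw [hρ, ← map_pow, pr_pow, map_ofNat]
  have hcomp : (evR φ ρ hρ3).comp (mapR (algebraMap F (v.adicCompletion F))) =
      algebraMap (R F) (P.adicCompletion (R F)) := by
    apply AdjoinRoot.ringHom_ext
    · refine RingHom.ext fun a => ?_
      change evR φ ρ hρ3 (mapR (algebraMap F (v.adicCompletion F)) (algebraMap F (R F) a)) =
        algebraMap (R F) (P.adicCompletion (R F)) (algebraMap F (R F) a)
      rw [mapR_algebraMap, ← hφ]
      exact AdjoinRoot.lift_of _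
    · change evR φ ρ hρ3 (mapR (algebraMap F (v.adicCompletion F)) (pr F)) =
        algebraMap (R F) (P.adicCompletion (R F)) (pr F)
      rw [mapR_pr]
      exact AdjoinRoot.lift_root _
  have hz1 : evR φ ρ hρ3 (mapR (algebraMap F (v.adicCompletion F)) z) =
      algebraMap (R F) (P.adicCompletion (R F)) z := congrArg (fun g : R F →+* _ => g z) hcomp
  set w : Valuation (P.adicCompletion (R F)) (WithZero (Multiplicative ℤ)) := Valued.v with hw
  have hwv : ∀ x : R F, w (algebraMap (R F) (P.adicCompletion (R F)) x) =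
      P.valuation (R F) x := fun x => HeightOneSpectrum.valuedAdicCompletion_eq_valuation' P x
  have h6 : w 6 = 1 := by
    have h1 := hwv 6
    rw [map_ofNat] at h1
    rw [h1]
    have h2 : P.valuation (R F) (algebraMap (𝓞 (R F)) (R F) 6) = 1 := by
      rw [HeightOneSpectrum.valuation_of_algebraMap]
      exact (P.intValuation_eq_one_iff).2 hP
    rwa [map_ofNat] at h2
  -- the image of `D`
  set D' : P.adicCompletion (R F) := φ (algebraMap F (v.adicCompletion F) D) with hD'
  have hwD : w D' = 1 := by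
    rw [hD', hφ, hwv, hPD]
  have hD0 : D' ≠ 0 := by
    intro h
    rw [h, map_zero] at hwD
    exact zero_ne_one hwD
  rw [← hwv, ← hz1]
  rcases hz v with ⟨u, hu⟩ | ⟨x, m, u, hm, hu⟩
  · rw [hu, map_pow, map_pow]
    exact ⟨_, sq _⟩
  -- the key fact for every root
  have hkey : ∀ (r : P.adicCompletion (R F)) (hr : r ^ 3 = 2), D' + φ x * r ^ 2 ≠ 0 →
      IsSquare (w (evR φ r hr (mapR (algebraMap F (v.adicCompletion F)) z))) := by
    intro r hr hne
    have h1 : (D' + φ x * r ^ 2) * evR φ r hr (mapR (algebraMap F (v.adicCompletion F)) z) =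
        (evR φ r hr u) ^ 2 := by
      rw [← map_pow, ← hu, map_mul, evR_trip, map_zero, zero_mul, add_zero]
    have h2 : IsSquare (w (D' + φ x * r ^ 2)) := by
      apply parityD w h6 r D' (φ x) (φ m) hwD hr
      rw [hD', ← map_pow, hm, map_add, map_mul, map_pow, map_pow, map_ofNat]
    refine isSquare_of_mul_left ((Valuation.ne_zero_iff w).2 hne) h2 ?_
    rw [← map_mul, h1, map_pow]
    exact ⟨_, sq _⟩
  by_cases hne : D' + φ x * ρ ^ 2 = 0
  swap
  · exact hkey ρ hρ3 hne
  -- the other roots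
  set o : P.adicCompletion (R F) := algebraMap (R F) (P.adicCompletion (R F))
    (algebraMap F (R F) om) with ho
  have ho1 : o ^ 2 + o + 1 = 0 := by
    have h1 := congrArg (fun t : F => algebraMap (R F) (P.adicCompletion (R F))
      (algebraMap F (R F) t)) hom
    simp only [map_add, map_pow, map_one, map_zero] at h1
    exact h1
  have h30 : (3 : P.adicCompletion (R F)) ≠ 0 := by
    intro h
    have : w 6 = 0 := by
      rw [show (6 : P.adicCompletion (R F)) = 3 * 2 by norm_num, h, zero_mul, map_zero]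
    rw [this] at h6
    exact zero_ne_one h6
  have ho3 : o ^ 3 = 1 := by linear_combination (o - 1) * ho1
  have ho_ne : o ≠ 1 := by
    intro h
    rw [h] at ho1
    apply h30
    linear_combination ho1
  have ho2_ne : o ^ 2 ≠ 1 := by
    intro h
    have : o = -2 := by linear_combination ho1 - h
    apply h30
    rw [this] at h
    linear_combination h
  have hρ0 : ρ ≠ 0 := by
    intro h
    rw [h] at hρ3
    have : w 6 = 0 := by
      rw [show (6 : P.adicCompletion (R F)) = 3 * 2 by norm_num, ← hρ3]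
      simp
    rw [this] at h6
    exact zero_ne_one h6
  have hr1 : (o * ρ) ^ 3 = 2 := by rw [mul_pow, ho3, one_mul, hρ3]
  have hr2 : (o ^ 2 * ρ) ^ 3 = 2 := by rw [mul_pow, ← pow_mul, mul_comm 2 3, pow_mul, ho3, one_pow,
    one_mul, hρ3]
  have hn1 : D' + φ x * (o * ρ) ^ 2 ≠ 0 := by
    intro h
    have h1 : D' * (1 - o ^ 2) = 0 := by linear_combination h - o ^ 2 * hne
    rcases mul_eq_zero.1 h1 with h2 | h2
    · exact hD0 h2
    · exact ho2_ne (sub_eq_zero.1 h2).symm
  have hn2 : D' + φ x * (o ^ 2 * ρ) ^ 2 ≠ 0 := by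
    intro h
    have h1 : D' * (1 - o) = 0 := by
      linear_combination h - o * hne - φ x * ρ ^ 2 * o * ho3
    rcases mul_eq_zero.1 h1 with h2 | h2
    · exact hD0 h2
    · exact ho_ne (sub_eq_zero.1 h2).symm
  have s1 := hkey _ hr1 hn1
  have s2 := hkey _ hr2 hn2
  -- the norm
  obtain ⟨n, hn⟩ := hN
  set f : F →+* P.adicCompletion (R F) := φ.comp (algebraMap F (v.adicCompletion F)) with hf
  have hev : ∀ (r : P.adicCompletion (R F)) (hr : r ^ 3 = 2),
      evR (RingHom.id _) r hr (mapR f z) =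
        evR φ r hr (mapR (algebraMap F (v.adicCompletion F)) z) := by
    intro r hr
    obtain ⟨a, b, c, rfl⟩ := trip_surj z
    rw [mapR_trip, mapR_trip, evR_trip, evR_trip]
    rfl
  have hρo : ρ ≠ o * ρ := by
    intro h
    have : (1 - o) * ρ = 0 := by linear_combination h
    rcases mul_eq_zero.1 this with h2 | h2
    · exact ho_ne (sub_eq_zero.1 h2).symm
    · exact hρ0 h2
  have hρo2 : ρ ≠ o ^ 2 * ρ := by
    intro h
    have : (1 - o ^ 2) * ρ = 0 := by linear_combination h
    rcases mul_eq_zero.1 this with h2 | h2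
    · exact ho2_ne (sub_eq_zero.1 h2).symm
    · exact hρ0 h2
  have hoo2 : o * ρ ≠ o ^ 2 * ρ := by
    intro h
    have : (1 - o) * (o * ρ) = 0 := by linear_combination h
    rcases mul_eq_zero.1 this with h2 | h2
    · exact ho_ne (sub_eq_zero.1 h2).symm
    · rcases mul_eq_zero.1 h2 with h3 | h3
      · rw [h3] at ho3
        norm_num at ho3
      · exact hρ0 h3
  have hprod := norm_eq_prod (K := P.adicCompletion (R F))
    ⟨ρ, o * ρ, o ^ 2 * ρ, hρ3, hr1, hr2, hρo, hρo2, hoo2⟩ (mapR f z)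
  simp only [hev] at hprod
  rw [norm_mapR, hn, map_pow] at hprod
  have hn0 : n ≠ 0 := by
    intro h
    rw [h] at hn
    have : Algebra.norm F z = 0 := by rw [hn]; norm_num
    exact hz0 (Algebra.norm_eq_zero_iff.1 this)
  have hfn : w (f n) ≠ 0 := (Valuation.ne_zero_iff w).2 ((map_ne_zero f).2 hn0)
  have hw3 := congrArg w hprod
  rw [map_pow, map_mul, map_mul] at hw3
  have h12 : w (evR φ (o * ρ) hr1 (mapR (algebraMap F (v.adicCompletion F)) z)) *
      w (evR φ (o ^ 2 * ρ) hr2 (mapR (algebraMap F (v.adicCompletion F)) z)) ≠ 0 := by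
    intro h
    rw [mul_assoc, h, mul_zero] at hw3
    exact pow_ne_zero 2 hfn hw3
  refine isSquare_of_mul_left h12 (s1.mul s2) ?_
  refine ⟨w (f n), ?_⟩
  rw [← pow_two, hw3]
  exact (mul_comm _ _).trans (mul_assoc _ _ _).symm

end CMT
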