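import Pool.Agent.MP_dfae13_nt.T.IDefs
import Pool.Agent.MP_9ab903_nt.SB.U

set_option autoImplicit false

open Polynomial NumberField IsDedekindDomain
open scoped Classical

namespace CMT

open CM27

/-! ## [CMT-I7] the local condition at the places above `2` (adapt `MP_9ab903_nt/SB/U.lean`) -/

theorem i7_D_le {C : Type} [Field C] (w : Valuation C (WithZero (Multiplicative ℤ)))
    (D : C) (hD : w (D - 1) ≤ WithZero.exp (-2)) : w D ≤ 1 := by
  have h1 : D = (D - 1) + 1 := by ring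
  rw [h1]
  refine (w.map_add _ _).trans (max_le (hD.trans ?_) ?_)
  · rw [← WithZero.exp_zero, WithZero.exp_le_exp]
    norm_num
  · rw [map_one]

theorem i7_mul {K : Type} [Field K] (D x a b c : K) :
    trip D 0 x * trip a b c = trip (D * a + 2 * x * b) (D * b + 2 * x * c) (D * c + x * a) := by
  have h := pr_pow K
  simp only [trip, map_add, map_mul, map_zero, map_ofNat]
  linear_combination (algebraMap K (R K) x * algebraMap K (R K) b +
    algebraMap K (R K) x * algebraMap K (R K) c * pr K) * h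

/-- approximation -/
theorem i7_approx (F : Type) [Field F] [NumberField F] (z : R F) (v : HeightOneSpectrum (𝓞 F))
    (t : R (v.adicCompletion F)) (a b c : v.adicCompletion F)
    (h3 : mapR (algebraMap F (v.adicCompletion F)) z * t ^ 2 = trip a b c)
    (ha : Valued.v (a - 1) < 1) (hb : Valued.v b < 1) (hc : Valued.v c ≤ 1) :
    InU2 (v.valuation F) z := by
  have hval : ∀ k : F, Valued.v (algebraMap F (v.adicCompletion F) k) = v.valuation F k :=
    fun k => HeightOneSpectrum.valuedAdicCompletion_eq_valuation' v k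
  obtain ⟨t1, t2, t3, ht⟩ := trip_surj t
  obtain ⟨z1, z2, z3, rfl⟩ := trip_surj z
  rw [ht] at h3
  rw [mapR_trip, u_mul_sq] at h3
  obtain ⟨e1, e2, e3⟩ := trip_inj h3
  rw [← e1] at ha
  rw [← e2] at hb
  rw [← e3] at hc
  -- the open set
  have hlt : IsOpen {x : v.adicCompletion F | Valued.v x < 1} := by
    have := Valued.isOpen_ball (v.adicCompletion F) 1
    simpa only [Valuation.restrict_lt_one_iff] using this
  have hle : IsOpen {x : v.adicCompletion F | Valued.v x ≤ 1} :=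
    Valued.isOpen_integer (v.adicCompletion F)
  set i := algebraMap F (v.adicCompletion F) with hi
  have hopen : IsOpen {x : v.adicCompletion F × v.adicCompletion F × v.adicCompletion F |
      Valued.v ((i z1 * (x.1 ^ 2 + 4 * x.2.1 * x.2.2) + 2 * i z2 * (x.2.1 ^ 2 + 2 * x.1 * x.2.2) +
          2 * i z3 * (2 * x.1 * x.2.1 + 2 * x.2.2 ^ 2)) - 1) < 1 ∧
      Valued.v (i z1 * (2 * x.1 * x.2.1 + 2 * x.2.2 ^ 2) + i z2 * (x.1 ^ 2 + 4 * x.2.1 * x.2.2) +
          2 * i z3 * (x.2.1 ^ 2 + 2 * x.1 * x.2.2)) < 1 ∧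
      Valued.v (i z1 * (x.2.1 ^ 2 + 2 * x.1 * x.2.2) + i z2 * (2 * x.1 * x.2.1 + 2 * x.2.2 ^ 2) +
          i z3 * (x.1 ^ 2 + 4 * x.2.1 * x.2.2)) ≤ 1} := by
    refine IsOpen.inter ?_ (IsOpen.inter ?_ ?_)
    · exact hlt.preimage (f := fun x : v.adicCompletion F × v.adicCompletion F × v.adicCompletion F
        => (i z1 * (x.1 ^ 2 + 4 * x.2.1 * x.2.2) + 2 * i z2 * (x.2.1 ^ 2 + 2 * x.1 * x.2.2) +
          2 * i z3 * (2 * x.1 * x.2.1 + 2 * x.2.2 ^ 2)) - 1) (by fun_prop)
    · exact hlt.preimage (f := fun x : v.adicCompletion F × v.adicCompletion F × v.adicCompletion F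
        => i z1 * (2 * x.1 * x.2.1 + 2 * x.2.2 ^ 2) + i z2 * (x.1 ^ 2 + 4 * x.2.1 * x.2.2) +
          2 * i z3 * (x.2.1 ^ 2 + 2 * x.1 * x.2.2)) (by fun_prop)
    · exact hle.preimage (f := fun x : v.adicCompletion F × v.adicCompletion F × v.adicCompletion F
        => i z1 * (x.2.1 ^ 2 + 2 * x.1 * x.2.2) + i z2 * (2 * x.1 * x.2.1 + 2 * x.2.2 ^ 2) +
          i z3 * (x.1 ^ 2 + 4 * x.2.1 * x.2.2)) (by fun_prop)
  have hd : DenseRange (i : F → v.adicCompletion F) := HeightOneSpectrum.denseRange_algebraMap F v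
  have hd3 := hd.prodMap (hd.prodMap hd)
  obtain ⟨⟨x1, x2, x3⟩, hx⟩ := hd3.exists_mem_open hopen ⟨(t1, t2, t3), ha, hb, hc⟩
  obtain ⟨hx1, hx2, hx3⟩ := hx
  refine ⟨trip x1 x2 x3, _, _, _, u_mul_sq z1 z2 z3 x1 x2 x3, ?_, ?_, ?_⟩
  · rw [← hval]
    simpa only [map_add, map_mul, map_pow, map_sub, map_one, map_ofNat, Prod.map_apply] using hx1
  · rw [← hval]
    simpa only [map_add, map_mul, map_pow, map_sub, map_one, map_ofNat, Prod.map_apply] using hx2
  · rw [← hval]
    simpa only [map_add, map_mul, map_pow, map_sub, map_one, map_ofNat, Prod.map_apply] using hx3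

/-- Proof.  With `y = (m - 1) / 2`: `y² + y = x³ + e`, `e = (D³ - 1) / 4`, `w e ≤ 1`.  If `w x ≤ 1`
take `u = 1`.  If `w x > 1`, `t = x / (2 y)`, `u = t π²`:
`(D + x π²) (t π²)² = 4 x t² + 2 D t² π`, `4 x t² = x³ / y² = 1 + 1 / y - e / y²`. -/
theorem inU2_trip {C : Type} [Field C] (w : Valuation C (WithZero (Multiplicative ℤ)))
    (h2 : w 2 = WithZero.exp (-1)) (D x m : C) (hD : w (D - 1) ≤ WithZero.exp (-2))
    (h : m ^ 2 = 4 * x ^ 3 + D ^ 3) :
    ∃ (u : R C) (a b c : C), IsUnit u ∧ trip D 0 x * u ^ 2 = trip a b c ∧ w (a - 1) < 1 ∧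
      w b < 1 ∧ w c ≤ 1 := by
  have h20 : (2 : C) ≠ 0 := by
    intro h
    rw [h, map_zero] at h2
    exact WithZero.exp_ne_zero h2.symm
  have h40 : (4 : C) = 2 ^ 2 := by norm_num
  have h4 : w 4 = WithZero.exp (-2) := by
    rw [h40, map_pow, h2, ← WithZero.exp_nsmul]
    congr 1
  have hD1 : w D ≤ 1 := i7_D_le w D hD
  set y : C := (m - 1) / 2 with hy'
  set e : C := (D ^ 3 - 1) / 4 with he'
  have h4' : (4 : C) ≠ 0 := by rw [h40]; exact pow_ne_zero 2 h20
  have he : y ^ 2 + y = x ^ 3 + e := by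
    rw [hy', he']
    have h44 : (4 : C) * (((m - 1) / 2) ^ 2 + (m - 1) / 2) = m ^ 2 - 1 := by
      field_simp
      ring
    have h45 : (4 : C) * (x ^ 3 + (D ^ 3 - 1) / 4) = 4 * x ^ 3 + D ^ 3 - 1 := by
      field_simp
      ring
    refine mul_left_cancel₀ h4' ?_
    rw [h44, h45, h]
  have hwe : w e ≤ 1 := by
    have e1 : D ^ 3 - 1 = (D - 1) * (D ^ 2 + D + 1) := by ring
    have e2 : w (D ^ 2 + D + 1) ≤ 1 := by
      refine (w.map_add _ _).trans (max_le ((w.map_add _ _).trans (max_le ?_ hD1)) ?_)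
      · rw [map_pow]
        exact pow_le_one' hD1 2
      · rw [map_one]
    have e3 : w (D ^ 3 - 1) ≤ WithZero.exp (-2) := by
      rw [e1, map_mul]
      calc w (D - 1) * w (D ^ 2 + D + 1) ≤ WithZero.exp (-2) * 1 := mul_le_mul' hD e2
        _ = _ := mul_one _
    rw [he', map_div₀, h4]
    rw [div_le_one₀ (by exact zero_lt_iff.2 WithZero.exp_ne_zero)]
    exact e3
  rcases le_or_gt (w x) 1 with hx | hx
  · refine ⟨1, D, 0, x, isUnit_one, ?_, ?_, ?_, hx⟩
    · rw [one_pow, mul_one]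
    · refine hD.trans_lt ?_
      rw [← WithZero.exp_zero, WithZero.exp_lt_exp]
      norm_num
    · rw [map_zero]
      exact zero_lt_one
  · -- the valuation of `y`
    have hx3 : 1 < w (x ^ 3) := by
      rw [map_pow]
      exact one_lt_pow₀ hx (by norm_num)
    have hx3e : w (x ^ 3 + e) = w (x ^ 3) :=
      Valuation.map_add_eq_of_lt_left _ (hwe.trans_lt hx3)
    have hy : 1 < w y := by
      by_contra hy
      rw [not_lt] at hy
      rw [← hx3e, ← he] at hx3
      refine absurd hx3 (not_lt.2 ((w.map_add _ _).trans (max_le ?_ hy)))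
      rw [map_pow]
      exact pow_le_one' hy 2
    have hy2 : w (y ^ 2 + y) = w (y ^ 2) := by
      apply Valuation.map_add_eq_of_lt_left
      rw [map_pow, sq]
      exact lt_mul_of_one_lt_left (zero_lt_one.trans hy) hy
    have hx0 : x ≠ 0 := by
      rintro rfl
      rw [map_zero] at hx
      exact absurd hx (not_lt.2 zero_le_one)
    have hy0 : y ≠ 0 := by
      intro h0
      rw [h0, map_zero] at hy
      exact absurd hy (not_lt.2 zero_le_one)
    obtain ⟨k, hm⟩ := u_exists_exp (show w x ≠ 0 from (w.ne_zero_iff).2 hx0)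
    obtain ⟨l, hl⟩ := u_exists_exp (show w y ≠ 0 from (w.ne_zero_iff).2 hy0)
    rw [he, hx3e, map_pow, map_pow, hm, hl, ← WithZero.exp_nsmul, ← WithZero.exp_nsmul,
      WithZero.exp_inj] at hy2
    simp only [nsmul_eq_mul, Nat.cast_ofNat] at hy2
    rw [hm, ← WithZero.exp_zero, WithZero.exp_lt_exp] at hx
    have hy1 := hy
    rw [hl, ← WithZero.exp_zero, WithZero.exp_lt_exp] at hy
    set t : C := x / (2 * y) with ht
    have ht0 : t ≠ 0 := div_ne_zero hx0 (mul_ne_zero h20 hy0)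
    have ht2 : w t = WithZero.exp (k + 1 - l) := by
      rw [ht, map_div₀, map_mul, hm, hl, h2, ← WithZero.exp_add, ← WithZero.exp_sub]
      congr 1
      ring
    refine ⟨trip 0 0 t, 4 * x * t ^ 2, 2 * D * t ^ 2, 0, ?_, ?_, ?_, ?_, ?_⟩
    · refine IsUnit.of_mul_eq_one (trip 0 (1 / (2 * t)) 0) ?_
      have hp := pr_pow C
      simp only [trip, map_zero, zero_mul, zero_add, add_zero]
      have h3 : algebraMap C (R C) t * algebraMap C (R C) (1 / (2 * t)) * 2 = 1 := by
        have h4 : t * (1 / (2 * t)) * 2 = 1 := by field_simp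
        have h5 := congrArg (algebraMap C (R C)) h4
        rwa [map_mul, map_mul, map_ofNat, map_one] at h5
      linear_combination (algebraMap C (R C) t * algebraMap C (R C) (1 / (2 * t))) * hp + h3
    · rw [u_mul_sq]
      congr 1 <;> ring
    · have h6 : 4 * x * t ^ 2 - 1 = 1 / y + (-e) / y ^ 2 := by
        rw [ht]
        field_simp
        linear_combination -4 * he
      rw [h6]
      refine lt_of_le_of_lt (w.map_add _ _) (max_lt ?_ ?_)
      · rw [map_div₀, map_one]
        rw [div_lt_one₀ (zero_lt_one.trans hy1)]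
        exact hy1
      · rw [map_div₀, Valuation.map_neg, map_pow]
        rw [div_lt_one₀ (pow_pos (zero_lt_one.trans hy1) 2)]
        exact hwe.trans_lt (one_lt_pow₀ hy1 (by norm_num))
    · have h7 : w (2 * D * t ^ 2) = WithZero.exp (-1 + 2 * (k + 1 - l)) * w D := by
        rw [map_mul, map_mul, map_pow, ht2, h2, ← WithZero.exp_nsmul, WithZero.exp_add]
        simp only [nsmul_eq_mul, Nat.cast_ofNat]
        exact mul_right_comm _ _ _
      rw [h7]
      calc WithZero.exp (-1 + 2 * (k + 1 - l)) * w D ≤ WithZero.exp (-1 + 2 * (k + 1 - l)) * 1 :=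
            mul_le_mul' le_rfl hD1
        _ = WithZero.exp (-1 + 2 * (k + 1 - l)) := mul_one _
        _ < 1 := by
            rw [← WithZero.exp_zero, WithZero.exp_lt_exp]
            omega
    · rw [map_zero]
      exact zero_le_one

/-- `D + x π²` is a unit: otherwise its norm `D³ + 4 x³` is `0`, so that `w 2 ^ 2` is a cube. -/
theorem isUnit_trip {C : Type} [Field C] (w : Valuation C (WithZero (Multiplicative ℤ)))
    (h2 : w 2 = WithZero.exp (-1)) (D x : C) (hD : w (D - 1) ≤ WithZero.exp (-2)) :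
    IsUnit (trip D 0 x) := by
  have hD1 : w D = 1 := by
    have h1 : w (D - 1) < w (1 : C) := by
      rw [map_one]
      refine hD.trans_lt ?_
      rw [← WithZero.exp_zero, WithZero.exp_lt_exp]
      norm_num
    have h3 := Valuation.map_add_eq_of_lt_left w h1
    rw [add_sub_cancel, map_one] at h3
    exact h3
  have h40 : (4 : C) = 2 ^ 2 := by norm_num
  have h4 : w 4 = WithZero.exp (-2) := by
    rw [h40, map_pow, h2, ← WithZero.exp_nsmul]
    congr 1
  have hne : D ^ 3 + 4 * x ^ 3 ≠ 0 := by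
    intro h0
    have h5 : D ^ 3 = -(4 * x ^ 3) := eq_neg_of_add_eq_zero_left h0
    have h6 := congrArg w h5
    rw [Valuation.map_neg, map_mul, map_pow, map_pow, hD1, h4, one_pow] at h6
    have hx0 : w x ≠ 0 := by
      intro hx
      rw [hx, zero_pow (by norm_num), mul_zero] at h6
      exact one_ne_zero h6
    obtain ⟨k, hk⟩ := u_exists_exp hx0
    rw [hk, ← WithZero.exp_nsmul, ← WithZero.exp_add, ← WithZero.exp_zero,
      WithZero.exp_inj] at h6
    simp only [nsmul_eq_mul, Nat.cast_ofNat] at h6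
    omega
  refine IsUnit.of_mul_eq_one (trip (D ^ 2 / (D ^ 3 + 4 * x ^ 3)) (2 * x ^ 2 / (D ^ 3 + 4 * x ^ 3))
    (-(D * x) / (D ^ 3 + 4 * x ^ 3))) ?_
  rw [i7_mul]
  have e1 : D * (D ^ 2 / (D ^ 3 + 4 * x ^ 3)) + 2 * x * (2 * x ^ 2 / (D ^ 3 + 4 * x ^ 3)) = 1 := by
    field_simp
    ring
  have e2 : D * (2 * x ^ 2 / (D ^ 3 + 4 * x ^ 3)) + 2 * x * (-(D * x) / (D ^ 3 + 4 * x ^ 3)) = 0 := by
    field_simp
    ring
  have e3 : D * (-(D * x) / (D ^ 3 + 4 * x ^ 3)) + x * (D ^ 2 / (D ^ 3 + 4 * x ^ 3)) = 0 := by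
    field_simp
    ring
  rw [e1, e2, e3]
  simp [trip]

/-- Proof.  From the two lemmas get `u` in `R F_v` with `z u² = a + b π + c π²` (`u = 1/v` in the first
case of `LocD`, where `v` is a unit since `mapR z` is; `u = (D + x π²) u' / v` in the second), then
approximate `u` by an element of `R F` as in `inU2_of_locCond`. -/
theorem inU2_of_locD (F : Type) [Field F] [NumberField F] (D : F) (z : R F) (hz : IsUnit z)
    (v : HeightOneSpectrum (𝓞 F)) (h2 : (2 : 𝓞 F) ∈ v.asIdeal) (h4 : (2 : 𝓞 F) ∉ v.asIdeal ^ 2)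
    (hD : v.valuation F (D - 1) ≤ WithZero.exp (-2))
    (h : LocD D z (v.adicCompletion F)) : InU2 (v.valuation F) z := by
  have hval : ∀ k : F, Valued.v (algebraMap F (v.adicCompletion F) k) = v.valuation F k :=
    fun k => HeightOneSpectrum.valuedAdicCompletion_eq_valuation' v k
  have hv2 : v.valuation F 2 = WithZero.exp (-1) := by
    have h5 : v.valuation F (algebraMap (𝓞 F) F 2) = v.intValuation 2 :=
      HeightOneSpectrum.valuation_of_algebraMap v 2
    rw [map_ofNat] at h5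
    rw [h5]
    have h6 : (2 : 𝓞 F) ≠ 0 := two_ne_zero
    obtain ⟨k, hk⟩ := u_exists_exp (v.intValuation_ne_zero 2 h6)
    have h7 := (v.intValuation_le_pow_iff_mem 2 1).2 (by simpa using h2)
    have h8 := mt (v.intValuation_le_pow_iff_mem 2 2).1 h4
    rw [hk, WithZero.exp_le_exp] at h7 h8
    rw [hk]
    congr 1
    push_cast at h7 h8
    omega
  have hw2 : Valued.v (2 : v.adicCompletion F) = WithZero.exp (-1) := by
    rw [← hv2, ← hval, map_ofNat (algebraMap F (v.adicCompletion F)) 2]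
  set i := algebraMap F (v.adicCompletion F) with hi
  have hDv : Valued.v (i D - 1) ≤ WithZero.exp (-2) := by
    rw [← map_one i, ← map_sub, hval]
    exact hD
  have hzu : IsUnit (mapR i z) := hz.map (mapR i)
  rcases h with ⟨s, hs⟩ | ⟨x, m, s, hm, hs⟩
  · have hsu : IsUnit s := by
      rw [hs] at hzu
      exact (isUnit_pow_iff two_ne_zero).1 hzu
    obtain ⟨u, rfl⟩ := hsu
    refine i7_approx F z v (↑u⁻¹) 1 0 0 ?_ ?_ ?_ ?_
    · rw [hs]
      have h5 : (↑u : R (v.adicCompletion F)) * ↑u⁻¹ = 1 := u.mul_inv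
      have h6 : trip (1 : v.adicCompletion F) 0 0 = 1 := by simp [trip]
      rw [h6, ← mul_pow, h5, one_pow]
    · rw [sub_self, map_zero]
      exact zero_lt_one
    · rw [map_zero]
      exact zero_lt_one
    · rw [map_zero]
      exact zero_le_one
  · have htu := isUnit_trip (Valued.v : Valuation (v.adicCompletion F)
      (WithZero (Multiplicative ℤ))) hw2 (i D) x hDv
    obtain ⟨u', a, b, c, -, h1, ha, hb, hc⟩ := inU2_trip (Valued.v : Valuation (v.adicCompletion F)
      (WithZero (Multiplicative ℤ))) hw2 (i D) x m hDv hm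
    have hsu : IsUnit s := by
      have h5 := htu.mul hzu
      rw [hs] at h5
      exact (isUnit_pow_iff two_ne_zero).1 h5
    obtain ⟨u, rfl⟩ := hsu
    refine i7_approx F z v (trip (i D) 0 x * u' * ↑u⁻¹) a b c ?_ ha hb hc
    rw [← h1]
    have h5 : (↑u : R (v.adicCompletion F)) * ↑u⁻¹ = 1 := u.mul_inv
    have h6 : mapR i z * (trip (i D) 0 x * u' * ↑u⁻¹) ^ 2 =
        (trip (i D) 0 x * mapR i z) * (↑u⁻¹) ^ 2 * (trip (i D) 0 x * u' ^ 2) := by ring
    rw [h6, hs, ← mul_pow, h5, one_pow, one_mul]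

end CMT
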