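import Pool.Agent.MP_ae0bd0_nt.CM.A1
import Pool.Agent.MP_ae0bd0_nt.CM.GDefs

/-!
# MP_dfae13_nt, project [CMT]: quadratic twists of `y² + y = x³` over `ℚ(ω)`: definitions
-/

set_option autoImplicit false

open scoped ComplexConjugate

namespace CMT

open CM27

/-- The Weierstrass curve `y² + y = x³ + e`. -/
def Wt {R : Type*} [CommRing R] (e : R) : WeierstrassCurve R := ⟨0, 0, 1, 0, e⟩

open Classical in
/-- The quadratic residue symbol of `a` modulo the prime `b`. -/
noncomputable def qr (b a : Eis) : ℤ := if b ∣ a then 0 else if ∃ x, b ∣ x ^ 2 - a then 1 else -1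

/-- A primary element of `ℤ[ω]` whose norm is a good prime number. -/
def GoodEis (b : Eis) : Prop := Primary b ∧ ∃ p : ℕ, GoodPrime p ∧ b.norm = p

/-- The product of the elements of `S`. -/
def gS (S : Finset Eis) : Eis := ∏ b ∈ S, b

/-- The product of the quadratic residue symbols. -/
noncomputable def XZ (S : Finset Eis) (a : Eis) : ℤ := ∏ b ∈ S, qr b a

/-- The product of the quadratic residue symbols, as a complex number. -/
noncomputable def XS (S : Finset Eis) (a : Eis) : ℂ := XZ S a

open Classical in
/-- The sum of `X(c) λ(c / 3g)` over the classes `c ≡ 1 mod 3` modulo `3 g`. -/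
noncomputable def TX (g : Eis) (X : Eis → ℂ) : ℂ :=
  ∑ᶠ δ : Eis ⧸ Ideal.span {g}, X (1 + 3 * δ.out) * lam (emb (1 + 3 * δ.out) / (3 * emb g))

/-- The embedding of `ℤ[ω]` into a field with a primitive third root of unity `om`. -/
noncomputable def toK {K : Type*} [Field K] (om : K) (h : om ^ 2 + om + 1 = 0) : Eis →+* K where
  toFun a := (a.re : K) + (a.im : K) * om
  map_one' := by simp [QuadraticAlgebra.re_one, QuadraticAlgebra.im_one]
  map_mul' a b := by
    simp only [QuadraticAlgebra.re_mul, QuadraticAlgebra.im_mul]
    push_cast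
    linear_combination (-(a.im : K) * b.im) * h
  map_zero' := by simp
  map_add' a b := by
    simp only [QuadraticAlgebra.re_add, QuadraticAlgebra.im_add]
    push_cast
    ring

end CMT
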