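import Pool.Agent.MP_9ab903_nt.SB.SDefs
import Pool.Agent.MP_9ab903_nt.Defs
import Pool.Agent.MP_dfae13_nt.T.Defs

/-!
# [CMT], part (I): `2`-descent for the quadratic twists `y² + y = x³ + e`, `4 e + 1 = D³`: definitions
-/

set_option autoImplicit false

open Polynomial NumberField IsDedekindDomain
open scoped Classical

namespace CMT

open CM27

/-- The local condition at the extension `C` of `F`: the class of `z` is `1` or the class
`D + x π²` of a point of `m² = 4 x³ + D³`. -/
def LocD {F : Type} [Field F] (D : F) (z : R F) (C : Type) [Field C] [Algebra F C] : Prop :=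
  (∃ v : R C, mapR (algebraMap F C) z = v ^ 2) ∨
    ∃ (x m : C) (v : R C), m ^ 2 = 4 * x ^ 3 + algebraMap F C D ^ 3 ∧
      trip (algebraMap F C D) 0 x * mapR (algebraMap F C) z = v ^ 2

end CMT
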