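import Pool.Agent.MP_dfae13_nt.T.TE4
import Pool.Agent.MP_dfae13_nt.T.G
import Pool.Agent.MP_ae0bd0_nt.CM.F5

set_option autoImplicit false

open ArithmeticFunction Filter IsDedekindDomain NumberField
open CM27
open scoped ComplexConjugate

namespace CMT

/-! ## [CMT-E5] entire continuation of the `L`-function of `y² + y = x³ + e` over `ℚ(ω)` -/

section
variable (S : Finset Eis) (hS : ∀ b ∈ S, GoodEis b) (u : Eis) (hu : IsUnit u)
  (h4 : (4 : Eis) ∣ u * gS S - 1)

include hS in
theorem odd_norm_gS : Odd (gS S).norm := by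
  rw [← Int.not_even_iff_odd, even_iff_two_dvd]
  intro h
  have h1 := good_of_dvd_norm S hS 2 Nat.prime_two (by exact_mod_cast h)
  have := h1.2.1
  norm_num at this

include hS hu h4 in
theorem XS_neg_two : XS S (-2) = 1 ∨ XS S (-2) = -1 := by
  rw [XS, XZ_neg_two S hS u hu h4]
  split_ifs
  · left; norm_num
  · right; norm_num

include hS hu h4 in
theorem isX_XS : IsX (gS S) (XS S) where
  mul := XS_mul S hS
  one := XS_one S hS
  per a b := by rw [XS, XS, XZ_add]
  le_one a := by
    rw [XS]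
    rcases XZ_values S a with h | h | h <;> rw [h] <;> norm_num
  two := by
    rcases XS_neg_two S hS u hu h4 with h | h <;> rw [h] <;> norm_num

theorem conj_XS (a : Eis) : conj (XS S a) = XS S a := by
  rw [XS, map_intCast]

end

theorem term_conj (f : ℕ → ℂ) (s : ℂ) (n : ℕ) :
    LSeries.term (fun k => conj (f k)) s n = conj (LSeries.term f (conj s) n) := by
  rcases eq_or_ne n 0 with rfl | hn
  · simp
  · rw [LSeries.term_of_ne_zero hn, LSeries.term_of_ne_zero hn, map_div₀]
    congr 1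
    rw [Complex.cpow_conj _ _ (by rw [Complex.natCast_arg]; exact Real.pi_pos.ne),
      Complex.conj_natCast, Complex.conj_conj]

theorem LSeriesSummable_conj {f : ℕ → ℂ} {s : ℂ} (h : LSeriesSummable f (conj s)) :
    LSeriesSummable (fun k => conj (f k)) s := by
  unfold LSeriesSummable at h ⊢
  have h1 : LSeries.term (fun k => conj (f k)) s = fun n => conj (LSeries.term f (conj s) n) :=
    funext (term_conj f s)
  rw [h1]
  exact (Complex.hasSum_conj'.2 (by simpa using h.hasSum)).summable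

theorem LSeries_conj (f : ℕ → ℂ) (s : ℂ) :
    LSeries (fun k => conj (f k)) s = conj (LSeries f (conj s)) := by
  unfold LSeries
  rw [Complex.conj_tsum]
  exact tsum_congr (term_conj f s)

section
variable (K : Type) [Field K] [NumberField K] (om : K) (h : om ^ 2 + om + 1 = 0)
  (φ : Eis ≃+* 𝓞 K) (hφ : ∀ a, ((φ a : 𝓞 K) : K) = toK om h a)
  (S : Finset Eis) (hS : ∀ b ∈ S, GoodEis b) (u : Eis) (hu : IsUnit u)
  (h4 : (4 : Eis) ∣ u * gS S - 1) (e : Eis) (he : 4 * e + 1 = (u * gS S) ^ 3)

include hS hu h4 he hφ in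
theorem analytic_twist : ∃ Φ : ℂ → ℂ, Differentiable ℂ Φ ∧
    (∀ s : ℂ, 3 / 2 < s.re → LSeriesSummable (fun n => ((Wt (toK om h e)).LFunction n : ℂ)) s ∧
      Φ s = (Wt (toK om h e)).LSeries s) ∧
    Φ 1 = (9 * ((gS S).norm : ℂ))⁻¹ * ((2 + XS S (-2)) ^ 2)⁻¹ *
      ((‖TX (gS S) (XS S)‖ ^ 2 : ℝ) : ℂ) := by
  obtain ⟨Φ, hΦ, hs, h1⟩ := entire_X (odd_norm_gS S hS) (isX_XS S hS u hu h4)
  refine ⟨fun s => conj (Φ (conj s)) * Φ s, ?_, ?_, ?_⟩
  · have hc : Differentiable ℂ fun s => conj (Φ (conj s)) := by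
      intro z
      have h5 : DifferentiableAt ℂ (conj ∘ Φ ∘ conj) z := by
        rw [differentiableAt_conj_conj_iff]
        exact hΦ _
      exact h5
    exact hc.mul hΦ
  · intro s hs'
    have hs2 : 3 / 2 < (conj s).re := by rw [Complex.conj_re]; exact hs'
    have e1 : (fun n => ((Wt (toK om h e)).LFunction n : ℂ)) =
        fun n => (Dg (g1 S) * Dg (g2 S)) n := by
      funext n
      rw [← LCW_apply, LCW_eq K om h φ hφ S hS u hu h4 e he]
    have e2 : (fun n => Dg (g2 S) n) = coefX (XS S) := rfl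
    have e3 : (fun n => Dg (g1 S) n) = fun n => conj (coefX (XS S) n) := by
      funext n
      change ∑ a ∈ primSet n, g1 S a = conj (coefX (XS S) n)
      rw [coefX, map_sum]
      refine Finset.sum_congr rfl fun a _ => ?_
      rw [map_mul, conj_XS, Complex.conj_conj, g1]
    have s2 : LSeriesSummable (fun n => Dg (g2 S) n) s := by rw [e2]; exact (hs s hs').1
    have s1 : LSeriesSummable (fun n => Dg (g1 S) n) s := by
      rw [e3]; exact LSeriesSummable_conj (hs _ hs2).1
    have e4 : (Wt (toK om h e)).LSeries s =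
        LSeries (fun n => ((Wt (toK om h e)).LFunction n : ℂ)) s := rfl
    rw [e4, e1]
    refine ⟨ArithmeticFunction.LSeriesSummable_mul s1 s2, ?_⟩
    rw [ArithmeticFunction.LSeries_mul' s1 s2, e3, e2, LSeries_conj, ← (hs _ hs2).2,
      ← (hs s hs').2]
  · have hr : conj (XS S (-2)) = XS S (-2) := conj_XS S _
    have hX2 : (XS S (-2))⁻¹ = XS S (-2) := by
      rcases XS_neg_two S hS u hu h4 with h5 | h5 <;> rw [h5] <;> norm_num
    simp only [map_one]
    rw [h1, hX2]
    simp only [map_mul, map_neg, map_inv₀, map_add, hr, map_ofNat]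
    have hn : emb (gS S) * conj (emb (gS S)) = ((gS S).norm : ℂ) := by
      rw [Complex.mul_conj, normSq_emb]
      push_cast
      rfl
    have hT : TX (gS S) (XS S) * conj (TX (gS S) (XS S)) =
        ((‖TX (gS S) (XS S)‖ ^ 2 : ℝ) : ℂ) := by
      rw [Complex.mul_conj, Complex.normSq_eq_norm_sq]
    rw [← hn, ← hT]
    simp only [mul_inv, sq, mul_pow]
    ring

end

end CMT
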