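import Pool.Agent.MP_dfae13_nt.T.Q2
import Pool.Agent.MP_dfae13_nt.T.H
import Pool.Agent.MP_dfae13_nt.T.TE5
import Pool.Agent.MP_9ab903_nt.AN.A8

/-!
# [CMT-Q] rationality of the quotient, part 3
-/

set_option autoImplicit false

open scoped ComplexConjugate
open Filter Topology

namespace CMT

open CM27

variable {g : Eis} {X : Eis → ℂ}

/-- the action of an automorphism of `ℂ` on the value, with the sign -/
theorem q3_gal (hX : IsQ g X) (hg : Odd g.norm) (σ : ℂ →+* ℂ) (u v : Eis) (hv : u = 1 + 3 * v)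
    (hcop : IsCoprime u g)
    (hc : ∀ c : Eis, ptMap σ (pt (emb c / ((3 * g.norm.natAbs : ℕ) : ℂ))) =
      pt (emb (c * u) / ((3 * g.norm.natAbs : ℕ) : ℂ))) :
    σ (SX g X lx) = X u * SX g X lx := by
  have hg0 := h_ne hg
  have hgC : emb g ≠ 0 := emb_ne hg0
  have hfinite : Finite (Eis ⧸ Ideal.span {g}) := I3.quot_finite g hg0
  have : Fintype (Eis ⧸ Ideal.span {g}) := Fintype.ofFinite _
  have hpt : ∀ c : Eis, emb (c * (star g)) / ((3 * g.norm.natAbs : ℕ) : ℂ) =
      emb c / (3 * emb g) := by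
    intro c
    have h1 := h_emb_star g
    have hgs : emb (star g) ≠ 0 := by
      rw [emb_star]
      exact (_root_.map_ne_zero _).2 hgC
    push_cast
    rw [map_mul, ← h1]
    field_simp
  have h1 : ∀ x : Eis, σ (lx (emb (1 + 3 * x) / (3 * emb g))) =
      lx (emb ((1 + 3 * x) * u) / (3 * emb g)) := by
    intro x
    apply lx_ptMap σ _ _ (h_off hg0 x)
    have h3 := hc ((1 + 3 * x) * star g)
    have h4 : (1 + 3 * x) * star g * u = (1 + 3 * x) * u * star g := by ring
    rw [h4, hpt, hpt] at h3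
    exact h3
  have hXu : X u * X u = 1 := by
    rcases hX.val u with h | h | h
    · exact absurd hcop ((hX.zero _).1 h)
    · rw [h]; norm_num
    · rw [h]; norm_num
  have e1 : SX g X lx = ∑ᶠ δ : Eis ⧸ Ideal.span {g},
      (fun x => X (1 + 3 * x) * lx (emb (1 + 3 * x) / (3 * emb g))) δ.out := rfl
  conv_rhs => rw [e1]
  rw [← SX_reindex hg0 (fun x => X (1 + 3 * x) * lx (emb (1 + 3 * x) / (3 * emb g)))
    (h_per hX hg0) u v hcop, SX, finsum_eq_sum_of_fintype, finsum_eq_sum_of_fintype,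
    map_sum, Finset.mul_sum]
  refine Finset.sum_congr rfl fun δ _ => ?_
  have e2 : 1 + 3 * (v + u * δ.out) = (1 + 3 * δ.out) * u := by rw [hv]; ring
  have e3 : σ (X (1 + 3 * δ.out)) = X (1 + 3 * δ.out) := h_map hX σ _
  rw [map_mul, h1, e3, e2, hX.mul]
  linear_combination -(X (1 + 3 * δ.out) * lx (emb ((1 + 3 * δ.out) * u) / (3 * emb g))) * hXu

/-- The product of the `‖Y_b‖²`. -/
noncomputable def q3P (S : Finset Eis) : ℂ :=
  ∏ b ∈ S, q1Y b b.norm.natAbs * conj (q1Y b b.norm.natAbs)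

theorem q3_fact {b : Eis} (hb : GoodEis b) : ∃ p : ℕ, Fact p.Prime ∧ b.norm = p ∧ p ≠ 2 ∧
    b.norm.natAbs = p := by
  obtain ⟨p, hp, hn⟩ := hb.2
  refine ⟨p, ⟨hp.1⟩, hn, ?_, by rw [hn]; rfl⟩
  rintro rfl
  have := hp.2.1
  omega

theorem q3_qr_star (b : Eis) (p : ℕ) [Fact p.Prime] (hb : b.norm = p) (u : Eis) :
    qr (star b) u = qr b (star u) := by
  obtain ⟨m, hm⟩ := q1_exists_int b p hb (star u)
  have hbs : (star b).norm = p := by rw [QuadraticAlgebra.norm_star, hb]
  rw [q2_qr b p hb _ m hm, q2_qr (star b) p hbs u m ?_]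
  obtain ⟨t, ht⟩ := hm
  refine ⟨star t, ?_⟩
  have h1 := congrArg star ht
  rw [star_sub, star_star, star_mul', star_intCast] at h1
  exact h1

/-- The Galois action on the product. -/
theorem q3P_gal (S : Finset Eis) (hS : ∀ b ∈ S, GoodEis b) (σ : ℂ →+* ℂ) (u : Eis)
    (hc : ∀ b ∈ S, ∀ c : Eis, ptMap σ (pt (emb c / emb b)) = pt (emb (c * u) / emb b) ∧
      ptMap σ (pt (emb c / emb (star b))) = pt (emb (c * u) / emb (star b))) :
    σ (q3P S) = XS S u * XS S (star u) * q3P S := by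
  unfold q3P
  rw [map_prod]
  have h1 : ∀ b ∈ S, σ (q1Y b b.norm.natAbs * conj (q1Y b b.norm.natAbs)) =
      ((qr b u : ℂ) * (qr b (star u) : ℂ)) *
        (q1Y b b.norm.natAbs * conj (q1Y b b.norm.natAbs)) := by
    intro b hb
    obtain ⟨p, hp, hn, hp2, hnat⟩ := q3_fact (hS b hb)
    rw [hnat]
    have hns : (star b).norm = p := by rw [QuadraticAlgebra.norm_star, hn]
    have e1 := q2_gal b p hn hp2 σ u (fun c => (hc b hb c).1)
    have e2 := q2_gal (star b) p hns hp2 σ u (fun c => (hc b hb c).2)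
    rw [q2_conj b p hn, q3_qr_star b p hn, map_mul, map_pow, map_neg, map_one] at e2
    have e3 : σ (conj (q1Y b p)) = (qr b (star u) : ℂ) * conj (q1Y b p) := by
      have h2 : ((-1 : ℂ) ^ (p / 2)) ≠ 0 := pow_ne_zero _ (by norm_num)
      apply mul_left_cancel₀ h2
      rw [e2]
      ring
    rw [map_mul, e1, e3]
    ring
  rw [Finset.prod_congr rfl h1, Finset.prod_mul_distrib, Finset.prod_mul_distrib]
  congr 1
  unfold XS XZ
  push_cast
  rfl

/-- The square of the product. -/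
theorem q3P_sq (S : Finset Eis) (hS : ∀ b ∈ S, GoodEis b) :
    ∃ r : ℝ, 0 < r ∧ q3P S = r ∧
      r ^ 2 * ((gS S).norm : ℝ) ^ 3 = 27 ^ (∑ b ∈ S, b.norm.natAbs / 2) := by
  classical
  refine ⟨∏ b ∈ S, ‖q1Y b b.norm.natAbs‖ ^ 2, ?_, ?_, ?_⟩
  · refine Finset.prod_pos fun b hb => ?_
    obtain ⟨p, hp, hn, hp2, hnat⟩ := q3_fact (hS b hb)
    rw [hnat]
    have h1 := q1Y_norm b p hn hp2
    have h2 : ‖q1Y b p‖ ≠ 0 := by
      intro h0
      rw [h0] at h1
      have : (0 : ℝ) < 27 ^ (p / 2) := by positivity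
      rw [← h1] at this
      norm_num at this
    positivity
  · unfold q3P
    push_cast
    refine Finset.prod_congr rfl fun b _ => ?_
    rw [Complex.mul_conj, Complex.normSq_eq_norm_sq]
    push_cast
    rfl
  · have h1 : ((gS S).norm : ℝ) = ∏ b ∈ S, (b.norm : ℝ) := by
      have : (gS S).norm = ∏ b ∈ S, b.norm := by
        unfold gS
        exact map_prod QuadraticAlgebra.norm _ _
      rw [this]
      push_cast
      rfl
    rw [h1, ← Finset.prod_pow, ← Finset.prod_pow, ← Finset.prod_mul_distrib, ← Finset.prod_pow_eq_pow_sum]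
    refine Finset.prod_congr rfl fun b hb => ?_
    obtain ⟨p, hp, hn, hp2, hnat⟩ := q3_fact (hS b hb)
    rw [hnat]
    have h2 := q1Y_norm b p hn hp2
    have h3 : (b.norm : ℝ) = p := by rw [hn]; simp
    rw [h3, ← h2]
    ring

/-- Parity. -/
theorem q3_parity (S : Finset Eis) (hS : ∀ b ∈ S, GoodEis b) (hN : (gS S).norm % 4 = 1) :
    Even (∑ b ∈ S, b.norm.natAbs / 2) := by
  have h1 : ((gS S).norm : ZMod 4) = (-1) ^ (∑ b ∈ S, b.norm.natAbs / 2) := by
    have : (gS S).norm = ∏ b ∈ S, b.norm := by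
      unfold gS
      exact map_prod QuadraticAlgebra.norm _ _
    rw [this, ← Finset.prod_pow_eq_pow_sum]
    push_cast
    refine Finset.prod_congr rfl fun b hb => ?_
    obtain ⟨p, hp, hn, hp2, hnat⟩ := q3_fact (hS b hb)
    rw [hnat, hn]
    obtain ⟨k, hk⟩ := hp.out.odd_of_ne_two hp2
    have e : p / 2 = k := by omega
    rw [e, hk]
    push_cast
    rcases Nat.even_or_odd k with ⟨l, hl⟩ | ⟨l, hl⟩
    · rw [hl]
      push_cast
      rw [show ((-1 : ZMod 4) ^ (l + l)) = 1 from Even.neg_one_pow ⟨l, rfl⟩]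
      have : (4 : ZMod 4) = 0 := rfl
      linear_combination (l : ZMod 4) * this
    · rw [hl]
      push_cast
      rw [show ((-1 : ZMod 4) ^ (2 * l + 1)) = -1 from Odd.neg_one_pow ⟨l, rfl⟩]
      have : (4 : ZMod 4) = 0 := rfl
      linear_combination ((l : ZMod 4) + 1) * this
  by_contra hodd
  rw [Nat.not_even_iff_odd] at hodd
  rw [Odd.neg_one_pow hodd] at h1
  have h2 : ((gS S).norm : ZMod 4) = 1 := by
    have h3 : (gS S).norm = 1 + 4 * ((gS S).norm / 4) := by omega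
    rw [h3]
    push_cast
    have : (4 : ZMod 4) = 0 := rfl
    rw [this]
    ring
  rw [h2] at h1
  exact absurd h1 (by decide)

end CMT
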