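import Pool.Agent.MP_dfae13_nt.T.TD2

set_option autoImplicit false

open CM27

namespace CMT

/-! ## [CMT-D4] quadratic reciprocity, primitive elements (file TD4.lean) -/

/-- reciprocity for `a ≡ 1 mod 4` -/
theorem d4_recip_one (a : ℤ) (n : ℕ) (ha : a % 4 = 1) (hn : Odd n) :
    jacobiSym a n = jacobiSym n a.natAbs := by
  rcases Int.natAbs_eq a with h | h
  · have h1 : a.natAbs % 4 = 1 := by omega
    have h2 := jacobiSym.quadratic_reciprocity_one_mod_four h1 hn
    rw [← h2, ← h]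
  · have h1 : a.natAbs % 4 = 3 := by omega
    have hodd : Odd a.natAbs := by rw [Nat.odd_iff]; omega
    have h3 : jacobiSym a n = ZMod.χ₄ n * jacobiSym (a.natAbs : ℤ) n := by
      conv_lhs => rw [h]
      exact jacobiSym.neg _ hn
    have hn2 : n % 4 = 1 ∨ n % 4 = 3 := by rw [Nat.odd_iff] at hn; omega
    rcases hn2 with h4 | h4
    · rw [h3, ZMod.χ₄_nat_one_mod_four h4, one_mul]
      exact jacobiSym.quadratic_reciprocity_one_mod_four' hodd h4
    · rw [h3, ZMod.χ₄_nat_three_mod_four h4,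
        jacobiSym.quadratic_reciprocity_three_mod_four h1 h4]
      ring

/-- reciprocity for `n ≡ 1 mod 4` -/
theorem d4_recip_one' (a : ℤ) (n : ℕ) (ha : Odd a) (hn : n % 4 = 1) :
    jacobiSym a n = jacobiSym n a.natAbs := by
  have hn' : Odd n := by rw [Nat.odd_iff]; omega
  have hodd : Odd a.natAbs := by rw [Nat.odd_iff]; rw [Int.odd_iff] at ha; omega
  rcases Int.natAbs_eq a with h | h
  · have h2 := jacobiSym.quadratic_reciprocity_one_mod_four' hodd hn
    rw [← h2, ← h]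
  · have h3 : jacobiSym a n = ZMod.χ₄ n * jacobiSym (a.natAbs : ℤ) n := by
      conv_lhs => rw [h]
      exact jacobiSym.neg _ hn'
    rw [h3, ZMod.χ₄_nat_one_mod_four hn, one_mul]
    exact jacobiSym.quadratic_reciprocity_one_mod_four' hodd hn

/-- `J(c² + k e | |e|) = J(c | |e|)²` -/
theorem d4_sq (n : ℤ) (c e k : ℤ) (h : n = c ^ 2 + k * e) :
    jacobiSym n e.natAbs = jacobiSym c e.natAbs ^ 2 := by
  have h1 : n % (e.natAbs : ℤ) = (c ^ 2) % (e.natAbs : ℤ) := by
    apply Int.ModEq.symm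
    rw [Int.modEq_iff_dvd, Int.natAbs_dvd, h]
    exact ⟨k, by ring⟩
  rw [jacobiSym.mod_left' h1, jacobiSym.pow_left]

theorem d4_norm_unit (u g : Eis) (hu : IsUnit u) : (u * g).norm = g.norm := by
  rw [map_mul, (eis_isUnit_iff u).1 hu, one_mul]

theorem d4_norm_gS_pos (S : Finset Eis) (hS : ∀ b ∈ S, GoodEis b) : 0 < (gS S).norm := by
  unfold gS
  rw [map_prod]
  apply Finset.prod_pos
  intro b hb
  obtain ⟨-, p, hp, hn⟩ := hS b hb
  rw [hn]
  exact_mod_cast hp.1.pos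

/-- The symbol modulo a primitive `d' = x + y ω` (associated to `gS S`):
`XZ S β = ((c y - e x) y / N d')` for `β = c + e ω`. -/
theorem XZ_primitive (S : Finset Eis) (hS : ∀ b ∈ S, GoodEis b) (u : Eis) (hu : IsUnit u)
    (hprim : Int.gcd (u * gS S).re (u * gS S).im = 1) (β : Eis) :
    XZ S β = jacobiSym ((β.re * (u * gS S).im - β.im * (u * gS S).re) * (u * gS S).im)
      (gS S).norm.natAbs := by
  set d := u * gS S with hd
  set X := (β.re * d.im - β.im * d.re) * d.im with hX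
  have key : ∀ b ∈ S, qr b β = jacobiSym X b.norm.natAbs := by
    intro b hb
    obtain ⟨-, p, hp, hn⟩ := hS b hb
    have : Fact p.Prime := ⟨hp.1⟩
    have hp2 : p ≠ 2 := by
      rintro rfl
      have := hp.2.1
      norm_num at this
    have hbd : b ∣ d := (Finset.dvd_prod_of_mem (fun b : Eis => b) hb).mul_left u
    have hpd : (p : ℤ) ∣ d.norm := by
      obtain ⟨c, hc⟩ := hbd
      rw [← hn, hc, map_mul]
      exact dvd_mul_right _ _
    have him : ¬ (p : ℤ) ∣ d.im := by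
      intro h
      rw [norm_eq] at hpd
      have h1 : (p : ℤ) ∣ d.re ^ 2 := by
        have : d.re ^ 2 = (d.re ^ 2 - d.re * d.im + d.im ^ 2) + d.im * (d.re - d.im) := by ring
        rw [this]
        exact dvd_add hpd (h.mul_right _)
      have h2 : (p : ℤ) ∣ d.re := (Nat.prime_iff_prime_int.1 hp.1).dvd_of_dvd_pow h1
      have h3 : (p : ℤ) ∣ (Int.gcd d.re d.im : ℤ) := Int.dvd_coe_gcd h2 h
      rw [hprim] at h3
      have h4 : (p : ℤ) ∣ 1 := by exact_mod_cast h3
      exact (Nat.prime_iff_prime_int.1 hp.1).not_isUnit (isUnit_of_dvd_one h4)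
    rw [qr_eq_legendre' b p hp2 hn d hbd him β, hn, Int.natAbs_natCast,
      jacobiSym.legendreSym.to_jacobiSym]
  have gen : ∀ T : Finset Eis, T ⊆ S → XZ T β = jacobiSym X (gS T).norm.natAbs := by
    intro T
    classical
    induction T using Finset.induction_on with
    | empty =>
      intro _
      simp [XZ, gS]
    | insert b T hbT ih =>
      intro hsub
      have hbS : b ∈ S := hsub (Finset.mem_insert_self _ _)
      have hTS : T ⊆ S := (Finset.subset_insert _ _).trans hsub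
      have h1 : XZ (insert b T) β = qr b β * XZ T β := by
        unfold XZ; rw [Finset.prod_insert hbT]
      have h2 : gS (insert b T) = b * gS T := by
        unfold gS; rw [Finset.prod_insert hbT]
      have hpos1 : (gS T).norm.natAbs ≠ 0 := by
        have := d4_norm_gS_pos T (fun b hb => hS b (hTS hb))
        omega
      have hpos2 : b.norm.natAbs ≠ 0 := by
        obtain ⟨-, p, hp, hn⟩ := hS b hbS
        rw [hn, Int.natAbs_natCast]
        exact hp.1.ne_zero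
      rw [h1, h2, map_mul, Int.natAbs_mul, jacobiSym.mul_right' _ hpos2 hpos1, key b hbS, ih hTS]
  exact gen S subset_rfl

/-- the unit `ω` -/
def d4_om : Eis := ⟨0, 1⟩

theorem d4_om_unit : IsUnit d4_om := by
  rw [eis_isUnit_iff, norm_eq]
  simp [d4_om]

theorem d4_om_pow : d4_om * (d4_om * d4_om) = 1 := by
  ext
  · rw [QuadraticAlgebra.re_one]; simp [d4_om]
  · rw [QuadraticAlgebra.im_one]; simp [d4_om]

theorem d4_om_mul (a : Eis) : (d4_om * a).re = - a.im ∧ (d4_om * a).im = a.re - a.im := by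
  constructor
  · simp [d4_om]
  · simp [d4_om]; ring

theorem d4_XZ_om (S : Finset Eis) (hS : ∀ b ∈ S, GoodEis b) (a : Eis) :
    XZ S (d4_om * a) = XZ S a := by
  have h1 : XZ S d4_om * (XZ S d4_om * XZ S d4_om) = 1 := by
    rw [← XZ_mul S hS, ← XZ_mul S hS, d4_om_pow, XZ_one S hS]
  have h2 : XZ S d4_om = 1 := by
    rcases XZ_values S d4_om with h | h | h
    · rw [h] at h1; norm_num at h1
    · exact h
    · rw [h] at h1; norm_num at h1
  rw [XZ_mul S hS, h2, one_mul]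

theorem d4_qr_om (a d : Eis) : qr (d4_om * a) d = qr a d := by
  have h : Associated (d4_om * a) a := by
    rw [mul_comm]
    exact (associated_mul_unit_left a d4_om d4_om_unit)
  have e : ∀ x, d4_om * a ∣ x ↔ a ∣ x := fun x => h.dvd_iff_dvd_left
  unfold qr
  by_cases h1 : a ∣ d
  · rw [if_pos h1, if_pos ((e d).2 h1)]
  · rw [if_neg h1, if_neg (fun h2 => h1 ((e d).1 h2))]
    by_cases h3 : ∃ x, a ∣ x ^ 2 - d
    · rw [if_pos h3, if_pos]
      obtain ⟨x, hx⟩ := h3
      exact ⟨x, (e _).2 hx⟩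
    · rw [if_neg h3, if_neg]
      rintro ⟨x, hx⟩
      exact h3 ⟨x, (e _).1 hx⟩

theorem d4_final (a b r s t : ℤ) (ha : a = 0 ∨ a = 1 ∨ a = -1) (hb : b = 0 ∨ b = 1 ∨ b = -1)
    (hr : r = 0 ∨ r = 1 ∨ r = -1) (hs : s = 0 ∨ s = 1 ∨ s = -1) (ht : t = 0 ∨ t = 1 ∨ t = -1)
    (h : a * b = r ^ 2) (h1 : a * s ^ 2 ≠ 0) (h2 : b * t ^ 2 ≠ 0) : a * s ^ 2 = b * t ^ 2 := by
  have hs2 : s ^ 2 = 1 := by
    rcases hs with rfl | rfl | rfl
    · simp at h1
    · norm_num
    · norm_num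
  have ht2 : t ^ 2 = 1 := by
    rcases ht with rfl | rfl | rfl
    · simp at h2
    · norm_num
    · norm_num
  rw [hs2, mul_one] at h1 ⊢
  rw [ht2, mul_one] at h2 ⊢
  have h3 : 0 ≤ a * b := by rw [h]; positivity
  clear h hr hs ht hs2 ht2
  rcases ha with rfl | rfl | rfl <;> rcases hb with rfl | rfl | rfl <;> omega

/-- the main case: `e` odd -/
theorem d4_main (S : Finset Eis) (hS : ∀ b ∈ S, GoodEis b) (u : Eis) (hu : IsUnit u)
    (h4 : (4 : Eis) ∣ u * gS S - 1) (hprim : Int.gcd (u * gS S).re (u * gS S).im = 1)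
    (β : Eis) (p : ℕ) (hp : p.Prime) (hp2 : p ≠ 2) (hβ : β.norm = p)
    (hcop : ¬ β ∣ u * gS S) (he : Odd β.im) : qr β (u * gS S) = XZ S β := by
  have := eis_isDomain
  have := eis_pid
  have : Fact p.Prime := ⟨hp⟩
  have hpodd : Odd p := hp.odd_of_ne_two hp2
  have hβp : Prime β := a3_prime_of_norm p hp β hβ
  -- `ω d` is primitive as well
  have hprim' : Int.gcd (d4_om * u * gS S).re (d4_om * u * gS S).im = 1 := by
    rw [mul_assoc]
    obtain ⟨h1, h2⟩ := d4_om_mul (u * gS S)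
    rw [h1, h2]
    rw [← Int.isCoprime_iff_gcd_eq_one] at hprim ⊢
    obtain ⟨a, b, hab⟩ := hprim
    exact ⟨-(a + b), a, by linear_combination hab⟩
  have hXp := XZ_primitive S hS (d4_om * u) (d4_om_unit.mul hu) hprim' (d4_om * β)
  have hcop' : ¬ β ∣ gS S := fun h => hcop (h.mul_left u)
  have hXne : XZ S β ≠ 0 := by
    rw [Ne, XZ_eq_zero S hS, not_not]
    exact (hβp.irreducible.coprime_iff_not_dvd).2 hcop'
  have hqne : qr β (u * gS S) ≠ 0 := by
    rw [Ne, qr_eq_zero]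
    exact hcop
  have hql := qr_eq_legendre β p hp2 hβ (u * gS S)
  rw [jacobiSym.legendreSym.to_jacobiSym] at hql
  rw [d4_XZ_om S hS, mul_assoc d4_om u] at hXp
  obtain ⟨e1, e2⟩ := d4_om_mul (u * gS S)
  obtain ⟨e3, e4⟩ := d4_om_mul β
  rw [e1, e2, e3, e4] at hXp
  have hnorm : (u * gS S).norm = (gS S).norm := d4_norm_unit u _ hu
  have hpos := d4_norm_gS_pos S hS
  obtain ⟨n, hn⟩ : ∃ n : ℕ, (gS S).norm.natAbs = n := ⟨_, rfl⟩
  rw [hn] at hXp
  have hnz : (n : ℤ) = (gS S).norm := by omega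
  rw [← hnorm] at hnz
  -- coordinates
  obtain ⟨x, hx⟩ : ∃ x, (u * gS S).re = x := ⟨_, rfl⟩
  obtain ⟨y, hy⟩ : ∃ y, (u * gS S).im = y := ⟨_, rfl⟩
  obtain ⟨c, hc⟩ : ∃ c, β.re = c := ⟨_, rfl⟩
  obtain ⟨e, hee⟩ : ∃ e, β.im = e := ⟨_, rfl⟩
  rw [norm_eq, hx, hy] at hnz
  have hβ' : (p : ℤ) = c ^ 2 - c * e + e ^ 2 := by rw [← hβ, norm_eq, hc, hee]
  have hx4 : x % 4 = 1 ∧ y % 4 = 0 := by
    obtain ⟨k, hk⟩ := h4
    have h1 := congrArg QuadraticAlgebra.re hk
    have h2 := congrArg QuadraticAlgebra.im hk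
    have h4' : (4 : Eis) = ((4 : ℤ) : Eis) := by norm_num
    rw [h4', ← zsmul_eq_mul] at h1 h2
    simp only [QuadraticAlgebra.re_sub, QuadraticAlgebra.im_sub, QuadraticAlgebra.re_one,
      QuadraticAlgebra.im_one, QuadraticAlgebra.re_smul, QuadraticAlgebra.im_smul, smul_eq_mul,
      hx, hy] at h1 h2
    constructor <;> omega
  obtain ⟨hx4, hy4⟩ := hx4
  rw [hx, hy] at hprim hXp hql
  rw [hc, hee] at hXp hql
  rw [hee] at he
  obtain ⟨k, hk⟩ : ∃ k, x = 4 * k + 1 := ⟨x / 4, by omega⟩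
  obtain ⟨l, hl⟩ : ∃ l, y = 4 * l := ⟨y / 4, by omega⟩
  obtain ⟨m, hm⟩ := he
  -- `D`
  obtain ⟨D, hD⟩ : ∃ D, D = x * e - y * c := ⟨_, rfl⟩
  have hDodd : Odd D := ⟨4 * k * m + 2 * k + m - 2 * l * c, by rw [hD, hk, hl, hm]; ring⟩
  have hD0 : D.natAbs ≠ 0 := by obtain ⟨t, ht⟩ := hDodd; omega
  have he0 : e.natAbs ≠ 0 := by omega
  have hDe4 : (D * e) % 4 = 1 := by
    have : D * e = 4 * (k * (2 * m + 1) ^ 2 + m ^ 2 + m - l * c * (2 * m + 1)) + 1 := by
      rw [hD, hk, hl, hm]; ring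
    omega
  have hn4 : n % 4 = 1 := by
    have : (n : ℤ) = 4 * (4 * k ^ 2 + 2 * k - l * (4 * k + 1) + 4 * l ^ 2) + 1 := by
      rw [hnz, hk, hl]; ring
    omega
  have hnodd : Odd n := by rw [Nat.odd_iff]; omega
  have hxy4 : (x - y) % 4 = 1 := by omega
  -- the symbol of `d` modulo `β`
  have q1 : qr β (u * gS S) = jacobiSym p D.natAbs * jacobiSym c e.natAbs ^ 2 := by
    rw [hql, ← hD, d4_recip_one _ _ hDe4 hpodd, Int.natAbs_mul, jacobiSym.mul_right' _ hD0 he0,
      d4_sq p c e (e - c) (by rw [hβ']; ring)]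
  -- the symbol of `β` modulo `d`
  have x1 : XZ S β = jacobiSym n D.natAbs * jacobiSym x (x - y).natAbs ^ 2 := by
    have h1 : (-e * (x - y) - (c - e) * -y) * (x - y) = -D * (x - y) := by rw [hD]; ring
    rw [hXp, h1, jacobiSym.mul_left, jacobiSym.neg _ hnodd, ZMod.χ₄_nat_one_mod_four hn4, one_mul,
      d4_recip_one' D n hDodd hn4, d4_recip_one (x - y) n hxy4 hnodd,
      d4_sq n x (x - y) (-y) (by rw [hnz]; ring)]
  have p1 : jacobiSym p D.natAbs * jacobiSym n D.natAbs =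
      jacobiSym (c * (x - y) + e * y) D.natAbs ^ 2 := by
    rw [← jacobiSym.mul_left]
    apply d4_sq _ _ _ (D - (c * (x - y) + e * y))
    rw [hβ', hnz, hD]
    ring
  rw [q1] at hqne ⊢
  rw [x1] at hXne ⊢
  exact d4_final _ _ _ _ _ (jacobiSym.trichotomy _ _) (jacobiSym.trichotomy _ _)
    (jacobiSym.trichotomy _ _) (jacobiSym.trichotomy _ _) (jacobiSym.trichotomy _ _) p1 hqne hXne

/-- Reciprocity for a primitive `d = u * gS S ≡ 1 mod 4` and a prime `β` of odd prime norm. -/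
theorem recip_primitive (S : Finset Eis) (hS : ∀ b ∈ S, GoodEis b) (u : Eis) (hu : IsUnit u)
    (h4 : (4 : Eis) ∣ u * gS S - 1) (hprim : Int.gcd (u * gS S).re (u * gS S).im = 1)
    (β : Eis) (p : ℕ) (hp : p.Prime) (hp2 : p ≠ 2) (hβ : β.norm = p)
    (hcop : ¬ β ∣ u * gS S) : qr β (u * gS S) = XZ S β := by
  by_cases he : Odd β.im
  · exact d4_main S hS u hu h4 hprim β p hp hp2 hβ hcop he
  · have hβ2 : (d4_om * β).norm = p := by rw [d4_norm_unit _ _ d4_om_unit, hβ]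
    have hcop2 : ¬ d4_om * β ∣ u * gS S := by
      intro h
      exact hcop ((Dvd.intro_left _ rfl).trans h)
    have hodd : Odd (d4_om * β).im := by
      rw [(d4_om_mul β).2]
      rw [Int.not_odd_iff_even] at he
      obtain ⟨m, hm⟩ := he
      have hpodd : Odd p := hp.odd_of_ne_two hp2
      rw [norm_eq, hm] at hβ
      rw [hm]
      have h1 : Odd (p : ℤ) := by exact_mod_cast hpodd
      rw [← hβ] at h1
      by_contra hcon
      rw [Int.not_odd_iff_even] at hcon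
      obtain ⟨t, ht⟩ := hcon
      have h2 : β.re = 2 * (t + m) := by omega
      rw [h2] at h1
      have h3 : (2 * (t + m)) ^ 2 - 2 * (t + m) * (m + m) + (m + m) ^ 2 =
          2 * (2 * (t + m) ^ 2 - 2 * (t + m) * m + 2 * m ^ 2) := by ring
      rw [h3, Int.odd_iff] at h1
      omega
    have := d4_main S hS u hu h4 hprim (d4_om * β) p hp hp2 hβ2 hcop2 hodd
    rwa [d4_qr_om, d4_XZ_om S hS] at this

end CMT
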