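import Pool.Agent.MP_dfae13_nt.T.J1

/-!
# [CMT-J] minimal models of `y² + y = x³ + e` over a discrete valuation ring
-/

set_option autoImplicit false

open Polynomial NumberField IsDedekindDomain CM27
open scoped Classical

namespace CMT

open SBSD

section dvr

variable (A : Type) [CommRing A] [IsDomain A] [IsDiscreteValuationRing A]
  {K : Type} [Field K] [Algebra A K] [IsFractionRing A K]

theorem Wt_integral (e₀ : A) : WeierstrassCurve.IsIntegral A (Wt (algebraMap A K e₀)) :=
  ⟨⟨Wt e₀, by ext <;> simp [Wt]⟩⟩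

theorem Wt_Δ {R : Type} [CommRing R] (e : R) : (Wt e).Δ = -27 * (1 + 4 * e) ^ 2 := by
  simp only [Wt, WeierstrassCurve.Δ, WeierstrassCurve.b₂, WeierstrassCurve.b₄,
    WeierstrassCurve.b₆, WeierstrassCurve.b₈]
  ring

/-- If the valuation of the discriminant of an integral equation is less than 12, then the change of
variables to a minimal equation has a unit `u`. -/
theorem unit_of_lt (W : WeierstrassCurve K) [hW : WeierstrassCurve.IsIntegral A W] (k : ℕ)
    (hk : k < 12) (hΔ : (IsDiscreteValuationRing.maximalIdeal A).valuation K W.Δ =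
      WithZero.exp (-(k : ℤ)))
    (T : WeierstrassCurve.VariableChange K) (hT : WeierstrassCurve.IsMinimal A (T • W)) :
    (IsDiscreteValuationRing.maximalIdeal A).valuation K (T.u : K) = 1 := by
  have h1 := hT.val_Δ_maximal
  have hinv : T⁻¹ • (T • W) = W := inv_smul_smul T W
  have h2 := h1.2 (j := T⁻¹)
    (by show WeierstrassCurve.IsIntegral A (T⁻¹ • (T • W)); rw [hinv]; exact hW)
  have hle : ((WeierstrassCurve.valuation_Δ_aux A ((1 : WeierstrassCurve.VariableChange K) •
      (T • W)) : { v : WithZero (Multiplicative ℤ) // v ≤ 1 }) : WithZero (Multiplicative ℤ)) =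
      (IsDiscreteValuationRing.maximalIdeal A).valuation K (T • W).Δ := by
    rw [one_smul]
    exact WeierstrassCurve.valuation_Δ_aux_eq_of_isIntegral A _
  have hinvv : ((WeierstrassCurve.valuation_Δ_aux A (T⁻¹ • (T • W)) :
      { v : WithZero (Multiplicative ℤ) // v ≤ 1 }) : WithZero (Multiplicative ℤ)) =
      WithZero.exp (-(k : ℤ)) := by
    rw [hinv, WeierstrassCurve.valuation_Δ_aux_eq_of_isIntegral A _, hΔ]
  have hle1 : (IsDiscreteValuationRing.maximalIdeal A).valuation K (T • W).Δ ≤ 1 := by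
    rw [← hle]
    exact (WeierstrassCurve.valuation_Δ_aux A ((1 : WeierstrassCurve.VariableChange K) •
      (T • W))).2
  have hge : WithZero.exp (-(k : ℤ)) ≤
      (IsDiscreteValuationRing.maximalIdeal A).valuation K (T • W).Δ := by
    by_contra hlt
    push Not at hlt
    have h4 : (WeierstrassCurve.valuation_Δ_aux A ((1 : WeierstrassCurve.VariableChange K) •
        (T • W))) ≤ (WeierstrassCurve.valuation_Δ_aux A (T⁻¹ • (T • W))) := by
      rw [← Subtype.coe_le_coe, hinvv, hle]
      exact hlt.le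
    have h5 := h2 h4
    rw [← Subtype.coe_le_coe, hle] at h5
    have h6 := h5
    rw [show ((WeierstrassCurve.valuation_Δ_aux A (T⁻¹ • (T • W)) :
      { v : WithZero (Multiplicative ℤ) // v ≤ 1 }) : WithZero (Multiplicative ℤ)) =
      WithZero.exp (-(k : ℤ)) from hinvv] at h6
    exact absurd h6 (not_le.2 hlt)
  have hu : (IsDiscreteValuationRing.maximalIdeal A).valuation K ((T.u⁻¹ : Kˣ) : K) ≠ 0 := by
    rw [Valuation.ne_zero_iff]
    exact Units.ne_zero _
  have hval : (IsDiscreteValuationRing.maximalIdeal A).valuation K (T • W).Δ =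
      (IsDiscreteValuationRing.maximalIdeal A).valuation K ((T.u⁻¹ : Kˣ) : K) ^ 12 *
        WithZero.exp (-(k : ℤ)) := by
    rw [WeierstrassCurve.variableChange_Δ, map_mul, hΔ, map_pow]
  have hne : WithZero.exp (-(k : ℤ)) ≠ (0 : WithZero (Multiplicative ℤ)) := by simp
  rw [hval] at hle1 hge
  have h7 := (WithZero.log_le_log (mul_ne_zero (pow_ne_zero _ hu) hne) one_ne_zero).2 hle1
  have h8 := (WithZero.log_le_log hne (mul_ne_zero (pow_ne_zero _ hu) hne)).2 hge
  rw [WithZero.log_mul (pow_ne_zero _ hu) hne, WithZero.log_pow,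
    WithZero.log_exp] at h7 h8
  rw [WithZero.log_one] at h7
  simp only [nsmul_eq_mul, Nat.cast_ofNat] at h7 h8
  have h9 : WithZero.log ((IsDiscreteValuationRing.maximalIdeal A).valuation K
      ((T.u⁻¹ : Kˣ) : K)) = 0 := by omega
  have h10 : (IsDiscreteValuationRing.maximalIdeal A).valuation K ((T.u⁻¹ : Kˣ) : K) = 1 := by
    rw [← WithZero.exp_log hu, h9, WithZero.exp_zero]
  rw [Units.val_inv_eq_inv_val, map_inv₀] at h10
  exact inv_eq_one.1 h10

theorem val_algebraMap_unit (a : A) (ha : IsUnit a) :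
    (IsDiscreteValuationRing.maximalIdeal A).valuation K (algebraMap A K a) = 1 := by
  rw [HeightOneSpectrum.valuation_eq_one_iff_notMem]
  intro h
  exact (IsLocalRing.mem_maximalIdeal _).1 h ha

theorem val_irreducible (π : A) (hπ : Irreducible π) :
    (IsDiscreteValuationRing.maximalIdeal A).valuation K (algebraMap A K π) =
      WithZero.exp (-1 : ℤ) := by
  have hm : (IsDiscreteValuationRing.maximalIdeal A).asIdeal = Ideal.span {π} :=
    (IsDiscreteValuationRing.irreducible_iff_uniformizer π).1 hπ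
  have h4 := HeightOneSpectrum.valuation_of_algebraMap
    (K := K) (IsDiscreteValuationRing.maximalIdeal A) π
  rw [HeightOneSpectrum.intValuation_singleton _ hπ.ne_zero hm] at h4
  exact h4

/-- The unit `u` and the equations for the minimal equation. -/
structure Model (e₀ : A) (T : WeierstrassCurve.VariableChange K) (I : WeierstrassCurve A)
    (u : Aˣ) (r : A) : Prop where
  hI : T • Wt (algebraMap A K e₀) = I.map (algebraMap A K)
  hu : (T.u : K) = algebraMap A K u
  hr : T.r = algebraMap A K r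

theorem exists_u (T : WeierstrassCurve.VariableChange K)
    (hu : (IsDiscreteValuationRing.maximalIdeal A).valuation K (T.u : K) = 1) :
    ∃ u : Aˣ, (T.u : K) = algebraMap A K u := by
  have hmem : (T.u : K) ∈ MonoidHom.mker ((IsDiscreteValuationRing.maximalIdeal A).valuation K) :=
    hu
  rw [IsDiscreteValuationRing.mker_valuation_eq_isUnitSubmonoid] at hmem
  obtain ⟨u₀, hu₀, hu₁⟩ := hmem
  have hu₀' : IsUnit u₀ := hu₀
  obtain ⟨u, rfl⟩ := hu₀'
  exact ⟨u, hu₁.symm⟩

/-- The equation of the `3`-division polynomial at `r`. -/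
theorem b8_eq (e₀ : A) (T : WeierstrassCurve.VariableChange K) (I : WeierstrassCurve A)
    (hI : T • Wt (algebraMap A K e₀) = I.map (algebraMap A K)) (u : Aˣ)
    (hu : (T.u : K) = algebraMap A K u) :
    3 * T.r * (1 + 4 * algebraMap A K e₀) + 3 * T.r ^ 4 = algebraMap A K ((u : A) ^ 8 * I.b₈) := by
  have huu : algebraMap A K (u : A) * algebraMap A K ((u⁻¹ : Aˣ) : A) = 1 := by
    rw [← map_mul]; simp
  have huinv : ((T.u⁻¹ : Kˣ) : K) = algebraMap A K ((u⁻¹ : Aˣ) : A) := by
    rw [Units.val_inv_eq_inv_val, hu]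
    exact inv_eq_of_mul_eq_one_right huu
  have h : (T • Wt (algebraMap A K e₀)).b₈ = algebraMap A K I.b₈ := by rw [hI]; simp
  rw [map_mul, map_pow, ← h, WeierstrassCurve.variableChange_b₈, huinv]
  have h8 : algebraMap A K (u : A) ^ 8 * algebraMap A K ((u⁻¹ : Aˣ) : A) ^ 8 = 1 := by
    rw [← mul_pow, huu, one_pow]
  simp only [Wt, WeierstrassCurve.b₂, WeierstrassCurve.b₄, WeierstrassCurve.b₆,
    WeierstrassCurve.b₈]
  linear_combination (-(3 * T.r * (1 + 4 * algebraMap A K e₀) + 3 * T.r ^ 4)) * h8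

/-- `r` is integral if `3` is a unit. -/
theorem exists_r_unit (h3 : IsUnit (3 : A)) (e₀ : A) (T : WeierstrassCurve.VariableChange K)
    (I : WeierstrassCurve A) (hI : T • Wt (algebraMap A K e₀) = I.map (algebraMap A K)) (u : Aˣ)
    (hu : (T.u : K) = algebraMap A K u) : ∃ r : A, T.r = algebraMap A K r := by
  obtain ⟨c, hc⟩ := h3
  have hc3 : algebraMap A K (c : A) = 3 := by rw [hc, map_ofNat]
  have hcinv : algebraMap A K ((c⁻¹ : Aˣ) : A) * 3 = 1 := by
    rw [← hc3, ← map_mul]; simp
  have hb8 := b8_eq A e₀ T I hI u hu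
  have hr : ∃ r : A, algebraMap A K r = T.r := by
    refine c1_root A K (X ^ 4 + C (1 + 4 * e₀) * X -
      C ((u : A) ^ 8 * I.b₈ * ((c⁻¹ : Aˣ) : A))) ?_ _ ?_
    · monicity!
    · rw [eval₂_sub, eval₂_add, eval₂_pow, eval₂_mul, eval₂_X, eval₂_C, eval₂_C]
      rw [map_mul _ ((u : A) ^ 8 * I.b₈), ← hb8]
      simp only [map_add, map_mul, map_one, map_ofNat]
      linear_combination (-(T.r ^ 4 + T.r * (1 + 4 * algebraMap A K e₀))) * hcinv
  obtain ⟨r, hr⟩ := hr
  exact ⟨r, hr.symm⟩

/-- `r` is integral if `λ² = -3` for a uniformizer `λ`. -/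
theorem exists_r_three (l : A) (hl : Irreducible l) (hl2 : l ^ 2 = -3) (e₀ : A)
    (T : WeierstrassCurve.VariableChange K)
    (I : WeierstrassCurve A) (hI : T • Wt (algebraMap A K e₀) = I.map (algebraMap A K)) (u : Aˣ)
    (hu : (T.u : K) = algebraMap A K u) : ∃ r : A, T.r = algebraMap A K r := by
  have hinj : Function.Injective (algebraMap A K) := IsFractionRing.injective A K
  have hlp : Prime l := hl.prime
  have hb8 := b8_eq A e₀ T I hI u hu
  obtain ⟨ρ, hρ⟩ : ∃ ρ : A, algebraMap A K ρ = 3 * T.r := by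
    refine c1_root A K (X ^ 4 + C (27 * (1 + 4 * e₀)) * X - C (27 * ((u : A) ^ 8 * I.b₈))) ?_ _ ?_
    · monicity!
    · rw [eval₂_sub, eval₂_add, eval₂_pow, eval₂_mul, eval₂_X, eval₂_C, eval₂_C]
      rw [map_mul _ 27 ((u : A) ^ 8 * I.b₈), ← hb8]
      simp only [map_add, map_mul, map_one, map_ofNat]
      ring
  have h3 : (3 : A) = -l ^ 2 := by rw [hl2]; ring
  have hρ4 : ρ ^ 4 = 27 * ((u : A) ^ 8 * I.b₈ - (1 + 4 * e₀) * ρ) := by
    apply hinj
    have h := hb8
    simp only [map_mul, map_sub, map_pow, map_one, map_ofNat, map_add, hρ] at h ⊢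
    linear_combination (27 : K) * h
  have h27 : (27 : A) = -l ^ 6 := by
    have : (27 : A) = 3 ^ 3 := by norm_num
    rw [this, h3]
    ring
  have h1 : l ∣ ρ := by
    refine hlp.dvd_of_dvd_pow (n := 4) ⟨-l ^ 5 * ((u : A) ^ 8 * I.b₈ - (1 + 4 * e₀) * ρ), ?_⟩
    rw [hρ4, h27]
    ring
  obtain ⟨ρ1, hρ1⟩ := h1
  have h2 : l ∣ ρ1 := by
    refine hlp.dvd_of_dvd_pow (n := 4) ⟨-l * ((u : A) ^ 8 * I.b₈ - (1 + 4 * e₀) * ρ), ?_⟩
    have h4 : l ^ 4 * ρ1 ^ 4 = l ^ 4 * (l * (-l * ((u : A) ^ 8 * I.b₈ - (1 + 4 * e₀) * ρ))) := by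
      calc l ^ 4 * ρ1 ^ 4 = (l * ρ1) ^ 4 := by ring
        _ = ρ ^ 4 := by rw [← hρ1]
        _ = _ := by rw [hρ4, h27]; ring
    exact mul_left_cancel₀ (pow_ne_zero 4 hl.ne_zero) h4
  obtain ⟨ρ2, hρ2⟩ := h2
  have h5 : ρ = 3 * (-ρ2) := by rw [hρ1, hρ2, h3]; ring
  refine ⟨-ρ2, ?_⟩
  have h6 : (3 : K) ≠ 0 := by
    intro h0
    have : (3 : A) ≠ 0 := by
      rw [h3]
      exact neg_ne_zero.2 (pow_ne_zero _ hl.ne_zero)
    apply this
    apply hinj
    rw [map_ofNat, map_zero, h0]
  have h7 := hρ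
  rw [h5, map_mul, map_ofNat] at h7
  exact (mul_left_cancel₀ h6 h7).symm

variable {A}

/-- The integral coordinate `X`. -/
def X0 (u : Aˣ) (r a : A) : A := (u : A) ^ 2 * a + r

/-- The integral coordinate `Z`. -/
def Z0 (I : WeierstrassCurve A) (u : Aˣ) (a b : A) : A :=
  (u : A) ^ 3 * (2 * b + I.a₁ * a + I.a₃)

theorem Model.XX {e₀ : A} {T : WeierstrassCurve.VariableChange K} {I : WeierstrassCurve A}
    {u : Aˣ} {r : A} (h : Model A e₀ T I u r) (a : A) :
    XX T (algebraMap A K a) = algebraMap A K (X0 u r a) := by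
  rw [CMT.XX, X0, h.hu, h.hr]
  simp only [map_add, map_mul, map_pow]

theorem Model.ZZ {e₀ : A} {T : WeierstrassCurve.VariableChange K} {I : WeierstrassCurve A}
    {u : Aˣ} {r : A} (h : Model A e₀ T I u r) (a b : A) :
    ZZ T (algebraMap A K a) (algebraMap A K b) = algebraMap A K (Z0 I u a b) := by
  rw [CMT.ZZ_eq (algebraMap A K e₀), Z0, h.hu, h.hI]
  simp only [map_add, map_mul, map_pow, WeierstrassCurve.map_a₁, WeierstrassCurve.map_a₃,
    map_ofNat]

theorem Model.sq {e₀ : A} {T : WeierstrassCurve.VariableChange K} {I : WeierstrassCurve A}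
    {u : Aˣ} {r : A} (h : Model A e₀ T I u r) (a b : A)
    (hab : (T • Wt (algebraMap A K e₀)).toAffine.Equation (algebraMap A K a) (algebraMap A K b)) :
    Z0 I u a b ^ 2 = 4 * X0 u r a ^ 3 + (1 + 4 * e₀) := by
  have hinj : Function.Injective (algebraMap A K) := IsFractionRing.injective A K
  apply hinj
  have h1 := ZZ_sq (algebraMap A K e₀) T _ _ hab
  rw [h.ZZ, h.XX] at h1
  simp only [map_pow, map_add, map_mul, map_one, map_ofNat]
  exact h1

/-- Points which are not of nonsingular reduction. -/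
theorem not_nonsingular (W : WeierstrassCurve K) [W.IsMinimal A] (P : W.toAffine.Point)
    (hP : ¬ NonsingularReduction A W P) : ∃ (a b : A)
      (h : W.toAffine.Nonsingular (algebraMap A K a) (algebraMap A K b)),
      P = .some _ _ h ∧
      2 * b + (W.integralModel A).a₁ * a + (W.integralModel A).a₃ ∈ IsLocalRing.maximalIdeal A := by
  rcases P with _ | ⟨x, y, hxy⟩
  · exact absurd trivial hP
  · by_contra hcon
    push Not at hcon
    apply hP
    intro a b ha hb
    subst ha hb
    have h1 := hcon a b hxy rfl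
    have hinj : Function.Injective (algebraMap A K) := IsFractionRing.injective A K
    have h2 : (W.integralModel A).toAffine.Equation a b := by
      have h3 : ((W.integralModel A).map (algebraMap A K)).toAffine.Equation
          (algebraMap A K a) (algebraMap A K b) := by
        have h4 : (W.integralModel A).map (algebraMap A K) = W :=
          WeierstrassCurve.baseChange_integralModel_eq A W
        rw [h4]; exact hxy.1
      exact (WeierstrassCurve.Affine.map_equation _ hinj a b).1 h3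
    have h5 : (W.reduction A).toAffine.Equation (IsLocalRing.residue A a)
        (IsLocalRing.residue A b) := by
      have := WeierstrassCurve.Affine.Equation.map (IsLocalRing.residue A) h2
      exact this
    refine (WeierstrassCurve.Affine.nonsingular_iff _ _).2 ⟨h5, Or.inr ?_⟩
    intro h6
    apply h1
    rw [← IsLocalRing.residue_eq_zero_iff]
    have h7 : (W.reduction A).toAffine.a₁ = IsLocalRing.residue A (W.integralModel A).a₁ := rfl
    have h8 : (W.reduction A).toAffine.a₃ = IsLocalRing.residue A (W.integralModel A).a₃ := rfl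
    rw [h7, h8] at h6
    simp only [map_add, map_mul, map_ofNat]
    linear_combination h6

/-- The Tamagawa number is 1 if there are no integral solutions of `Z² = 4 X³ + β` with `Z` in the
maximal ideal. -/
theorem tamagawa_one (e₀ : A) (T : WeierstrassCurve.VariableChange K)
    (hT : (Wt (algebraMap A K e₀)).minimal A = T • Wt (algebraMap A K e₀)) (u : Aˣ)
    (hu : (T.u : K) = algebraMap A K u) (r : A) (hr : T.r = algebraMap A K r)
    (h : ∀ X Z : A, Z ^ 2 = 4 * X ^ 3 + (1 + 4 * e₀) → Z ∉ IsLocalRing.maximalIdeal A) :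
    tamagawa A (Wt (algebraMap A K e₀)) = 1 := by
  refine tamagawa_eq_one A _ fun P => ?_
  by_contra hP
  obtain ⟨a, b, hab, -, hz⟩ := not_nonsingular _ P hP
  set I := ((Wt (algebraMap A K e₀)).minimal A).integralModel A with hI
  have hM : Model A e₀ T I u r := by
    refine ⟨?_, hu, hr⟩
    rw [← hT]
    exact (WeierstrassCurve.baseChange_integralModel_eq A _).symm
  have h1 := hab.1
  rw [hT] at h1
  exact h _ _ (hM.sq a b h1) (Ideal.mul_mem_left _ _ hz)

end dvr

end CMT
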