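import Pool.Agent.MP_dfae13_nt.T.Defs
import Pool.Agent.MP_ae0bd0_nt.CM.A3

set_option autoImplicit false

open CM27

namespace CMT

/-! ## [CMT-D1] the quadratic residue symbol: elementary properties (file TD1.lean) -/

theorem TD1_im_not_dvd (b : Eis) (p : ℕ) (hp : p.Prime) (hn : b.norm = p) : ¬ (p : ℤ) ∣ b.im := by
  intro h
  have hp' : Prime (p : ℤ) := Nat.prime_iff_prime_int.1 hp
  have h1 : b.re ^ 2 - b.re * b.im + b.im ^ 2 = p := by rw [← norm_eq]; exact hn
  have h2 : (p : ℤ) ∣ b.re ^ 2 := by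
    have : b.re ^ 2 = p + b.im * (b.re - b.im) := by linarith [h1]
    rw [this]
    exact dvd_add dvd_rfl (Dvd.dvd.mul_right h _)
  have h3 : (p : ℤ) ∣ b.re := hp'.dvd_of_dvd_pow h2
  obtain ⟨k, hk⟩ := h
  obtain ⟨l, hl⟩ := h3
  rw [hk, hl] at h1
  have h4 : (p : ℤ) * (p * (l ^ 2 - l * k + k ^ 2)) = p * 1 := by linarith [h1]
  have h5 := mul_left_cancel₀ hp'.ne_zero h4
  have h6 : (p : ℤ) ∣ 1 := ⟨_, h5.symm⟩
  exact hp'.not_dvd_one h6

/-- the coordinates of `a * star d` -/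
theorem TD1_im_mul_star (a d : Eis) : (a * star d).im = -(a.re * d.im - a.im * d.re) := by
  simp only [QuadraticAlgebra.im_mul, QuadraticAlgebra.re_star, QuadraticAlgebra.im_star]
  ring

theorem TD1_re_mul_star (a d : Eis) :
    (a * star d).re = a.re * (d.re - d.im) + a.im * d.im := by
  simp only [QuadraticAlgebra.re_mul, QuadraticAlgebra.re_star, QuadraticAlgebra.im_star]
  ring

theorem TD1_natCast_dvd (n : ℕ) (a : Eis) : (n : Eis) ∣ a ↔ (n : ℤ) ∣ a.re ∧ (n : ℤ) ∣ a.im := by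
  have h : (n : Eis) = algebraMap ℤ Eis n := by
    simp
  rw [h]
  exact QuadraticAlgebra.algebraMap_dvd_iff

theorem TD1_dvd_cross (b : Eis) (p : ℕ) (hn : b.norm = p) (d a : Eis) (hd : b ∣ d) (ha : b ∣ a) :
    (p : ℤ) ∣ a.re * d.im - a.im * d.re := by
  obtain ⟨k, rfl⟩ := ha
  obtain ⟨l, rfl⟩ := hd
  have h1 : (p : Eis) ∣ (b * k) * star (b * l) := by
    refine ⟨k * star l, ?_⟩
    have h2 : b * star b = (p : Eis) := by
      rw [a3_mul_star, hn]; push_cast; rfl
    rw [star_mul, ← h2]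
    ring
  have h3 := ((TD1_natCast_dvd p _).1 h1).2
  rw [TD1_im_mul_star] at h3
  exact (dvd_neg).1 h3

theorem TD1_dvd_iff (b : Eis) (p : ℕ) (hp : p.Prime) (hn : b.norm = p) (a : Eis) :
    b ∣ a ↔ (p : ℤ) ∣ a.re * b.im - a.im * b.re := by
  have := eis_isDomain
  constructor
  · intro h
    exact TD1_dvd_cross b p hn b a dvd_rfl h
  · intro h
    have hp' : Prime (p : ℤ) := Nat.prime_iff_prime_int.1 hp
    have hne := TD1_im_not_dvd b p hp hn
    have h1 : b.re ^ 2 - b.re * b.im + b.im ^ 2 = p := by rw [← norm_eq]; exact hn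
    have h2 : (p : ℤ) ∣ (a * star b).re := by
      have h3 : (p : ℤ) ∣ b.im * (a * star b).re := by
        rw [TD1_re_mul_star]
        have h4 : b.im * (a.re * (b.re - b.im) + a.im * b.im) =
            (a.re * b.im - a.im * b.re) * (b.re - b.im) +
              a.im * (b.re ^ 2 - b.re * b.im + b.im ^ 2) := by ring
        rw [h4, h1]
        exact dvd_add (Dvd.dvd.mul_right h _) (dvd_mul_left _ _)
      exact (hp'.dvd_or_dvd h3).resolve_left hne
    have h3 : (p : ℤ) ∣ (a * star b).im := by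
      rw [TD1_im_mul_star]
      exact (dvd_neg).2 h
    obtain ⟨k, hk⟩ := (TD1_natCast_dvd p _).2 ⟨h2, h3⟩
    refine ⟨k, ?_⟩
    have h4 : b * star b = (p : Eis) := by
      rw [a3_mul_star, hn]; push_cast; rfl
    have hs : star b ≠ 0 := by
      intro h0
      have h5 : (star b).norm = 0 := by rw [h0, QuadraticAlgebra.norm_zero]
      rw [QuadraticAlgebra.norm_star, hn] at h5
      exact hp.ne_zero (by exact_mod_cast h5)
    apply mul_right_cancel₀ hs
    rw [hk, ← h4]
    ring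

/-- the reduction modulo `b`, multiplied by `b.im` -/
theorem TD1_square_iff (b : Eis) (p : ℕ) [Fact p.Prime] (hn : b.norm = p) (a : Eis) :
    (∃ x, b ∣ x ^ 2 - a) ↔
      IsSquare ((((a.re * b.im - a.im * b.re) * b.im : ℤ)) : ZMod p) := by
  have hp : p.Prime := Fact.out
  have he0 : ((b.im : ℤ) : ZMod p) ≠ 0 := by
    rw [Ne, ZMod.intCast_zmod_eq_zero_iff_dvd]
    exact TD1_im_not_dvd b p hp hn
  have h1 : ((b.re : ZMod p)) ^ 2 - b.re * b.im + (b.im : ZMod p) ^ 2 = 0 := by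
    have h : b.re ^ 2 - b.re * b.im + b.im ^ 2 = p := by rw [← norm_eq]; exact hn
    have h' := congrArg (Int.cast : ℤ → ZMod p) h
    push_cast at h'
    rw [h', ZMod.natCast_self]
  have key : ∀ x : Eis, b ∣ x ^ 2 - a ↔
      ((x.re * b.im - x.im * b.re : ℤ) : ZMod p) ^ 2 =
        (((a.re * b.im - a.im * b.re) * b.im : ℤ) : ZMod p) := by
    intro x
    rw [TD1_dvd_iff b p hp hn, ← ZMod.intCast_zmod_eq_zero_iff_dvd]
    simp only [pow_two, QuadraticAlgebra.re_sub, QuadraticAlgebra.im_sub,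
      QuadraticAlgebra.re_mul, QuadraticAlgebra.im_mul]
    push_cast
    constructor
    · intro h
      linear_combination (b.im : ZMod p) * h + (x.im : ZMod p) ^ 2 * h1
    · intro h
      apply mul_left_cancel₀ he0
      linear_combination h - (x.im : ZMod p) ^ 2 * h1
  constructor
  · rintro ⟨x, hx⟩
    exact ⟨_, by rw [← pow_two]; exact ((key x).1 hx).symm⟩
  · rintro ⟨r, hr⟩
    obtain ⟨n, hn'⟩ := ZMod.intCast_surjective (r / (b.im : ZMod p))
    refine ⟨(n : Eis), (key _).2 ?_⟩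
    rw [hr, QuadraticAlgebra.re_intCast, QuadraticAlgebra.im_intCast]
    push_cast
    rw [hn']
    field_simp
    ring

/-- formula for primes of prime norm: modulo `b = c + e ω` one has `ω ≡ - c / e`. -/
theorem qr_eq_legendre (b : Eis) (p : ℕ) [Fact p.Prime] (hp2 : p ≠ 2) (hn : b.norm = p) (a : Eis) :
    qr b a = legendreSym p ((a.re * b.im - a.im * b.re) * b.im) := by
  classical
  have hp : p.Prime := Fact.out
  have he0 : ((b.im : ℤ) : ZMod p) ≠ 0 := by
    rw [Ne, ZMod.intCast_zmod_eq_zero_iff_dvd]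
    exact TD1_im_not_dvd b p hp hn
  have h0 : b ∣ a ↔ (((a.re * b.im - a.im * b.re) * b.im : ℤ) : ZMod p) = 0 := by
    rw [TD1_dvd_iff b p hp hn, ← ZMod.intCast_zmod_eq_zero_iff_dvd, Int.cast_mul]
    constructor
    · intro h; rw [h, zero_mul]
    · intro h
      rcases mul_eq_zero.1 h with h | h
      · exact h
      · exact absurd h he0
  rw [qr, legendreSym, quadraticChar_apply, quadraticCharFun]
  by_cases hb : b ∣ a
  · rw [if_pos hb, if_pos (h0.1 hb)]
  · rw [if_neg hb, if_neg (fun h => hb (h0.2 h))]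
    by_cases hs : ∃ x, b ∣ x ^ 2 - a
    · rw [if_pos hs, if_pos ((TD1_square_iff b p hn a).1 hs)]
    · rw [if_neg hs, if_neg (fun h => hs ((TD1_square_iff b p hn a).2 h))]

/-- the same with any multiple `d` of `b` whose `ω`-coordinate is prime to `p` -/
theorem qr_eq_legendre' (b : Eis) (p : ℕ) [Fact p.Prime] (hp2 : p ≠ 2) (hn : b.norm = p) (d : Eis)
    (hbd : b ∣ d) (hd : ¬ (p : ℤ) ∣ d.im) (a : Eis) :
    qr b a = legendreSym p ((a.re * d.im - a.im * d.re) * d.im) := by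
  have hp : p.Prime := Fact.out
  rw [qr_eq_legendre b p hp2 hn]
  have he0 : ((b.im : ℤ) : ZMod p) ≠ 0 := by
    rw [Ne, ZMod.intCast_zmod_eq_zero_iff_dvd]
    exact TD1_im_not_dvd b p hp hn
  have hd0 : ((d.im : ℤ) : ZMod p) ≠ 0 := by
    rw [Ne, ZMod.intCast_zmod_eq_zero_iff_dvd]
    exact hd
  have hc : (d.re : ZMod p) * b.im = d.im * b.re := by
    have h1 := TD1_dvd_cross b p hn b d dvd_rfl hbd
    rw [← ZMod.intCast_zmod_eq_zero_iff_dvd] at h1
    push_cast at h1
    linear_combination h1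
  have h2 : (((a.re * d.im - a.im * d.re) * d.im : ℤ) : ZMod p) =
      ((d.im : ZMod p) / b.im) ^ 2 * (((a.re * b.im - a.im * b.re) * b.im : ℤ) : ZMod p) := by
    push_cast
    field_simp
    linear_combination (-(a.im : ZMod p)) * hc
  rw [legendreSym, legendreSym, h2, map_mul]
  have h3 : ((d.im : ZMod p) / b.im) ≠ 0 := div_ne_zero hd0 he0
  rw [map_pow, quadraticChar_sq_one h3, one_mul]

theorem qr_mul (b : Eis) (p : ℕ) (hp : p.Prime) (hp2 : p ≠ 2) (hn : b.norm = p) (a a' : Eis) :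
    qr b (a * a') = qr b a * qr b a' := by
  have : Fact p.Prime := ⟨hp⟩
  rw [qr_eq_legendre b p hp2 hn, qr_eq_legendre b p hp2 hn, qr_eq_legendre b p hp2 hn,
    ← legendreSym.mul]
  have he0 : ((b.im : ℤ) : ZMod p) ≠ 0 := by
    rw [Ne, ZMod.intCast_zmod_eq_zero_iff_dvd]
    exact TD1_im_not_dvd b p hp hn
  have h1 : ((b.re : ZMod p)) ^ 2 - b.re * b.im + (b.im : ZMod p) ^ 2 = 0 := by
    have h : b.re ^ 2 - b.re * b.im + b.im ^ 2 = p := by rw [← norm_eq]; exact hn
    have h' := congrArg (Int.cast : ℤ → ZMod p) h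
    push_cast at h'
    rw [h', ZMod.natCast_self]
  have h2 : ((((a.re * b.im - a.im * b.re) * b.im) * ((a'.re * b.im - a'.im * b.re) * b.im) : ℤ) :
      ZMod p) = (b.im : ZMod p) ^ 2 *
        ((((a * a').re * b.im - (a * a').im * b.re) * b.im : ℤ) : ZMod p) := by
    simp only [QuadraticAlgebra.re_mul, QuadraticAlgebra.im_mul]
    push_cast
    linear_combination ((a.im : ZMod p) * a'.im * b.im ^ 2) * h1
  rw [legendreSym, legendreSym, h2, map_mul, map_pow, quadraticChar_sq_one he0, one_mul]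

theorem qr_one (b : Eis) (hb : Prime b) : qr b 1 = 1 := by
  rw [qr, if_neg (fun h => hb.not_isUnit (isUnit_of_dvd_one h)), if_pos]
  exact ⟨1, by simp⟩

theorem qr_add (b a c : Eis) : qr b (a + b * c) = qr b a := by
  have h1 : b ∣ a + b * c ↔ b ∣ a := (dvd_add_left (dvd_mul_right b c))
  have h2 : ∀ x : Eis, b ∣ x ^ 2 - (a + b * c) ↔ b ∣ x ^ 2 - a := by
    intro x
    have : x ^ 2 - (a + b * c) = (x ^ 2 - a) - b * c := by ring
    rw [this]
    exact dvd_sub_left (dvd_mul_right b c)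
  unfold qr
  by_cases hb : b ∣ a
  · rw [if_pos hb, if_pos (h1.2 hb)]
  · rw [if_neg hb, if_neg (fun h => hb (h1.1 h))]
    by_cases hs : ∃ x, b ∣ x ^ 2 - a
    · rw [if_pos hs, if_pos (hs.imp (fun x hx => (h2 x).2 hx))]
    · rw [if_neg hs, if_neg (fun h => hs (h.imp (fun x hx => (h2 x).1 hx)))]

theorem qr_eq_zero (b a : Eis) : qr b a = 0 ↔ b ∣ a := by
  rw [qr]
  split_ifs with h1 h2
  · exact ⟨fun _ => h1, fun _ => rfl⟩
  · exact ⟨fun h => absurd h (by norm_num), fun h => absurd h h1⟩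
  · exact ⟨fun h => absurd h (by norm_num), fun h => absurd h h1⟩

theorem qr_values (b a : Eis) : qr b a = 0 ∨ qr b a = 1 ∨ qr b a = -1 := by
  rw [qr]
  split_ifs with h1 h2
  · exact Or.inl rfl
  · exact Or.inr (Or.inl rfl)
  · exact Or.inr (Or.inr rfl)

/-- reduction of coordinates modulo `q` -/
def TD1_red (q : ℕ) : Eis →+* QuadraticAlgebra (ZMod q) (-1) (-1) where
  toFun a := ⟨a.re, a.im⟩
  map_one' := by
    ext
    · simp [QuadraticAlgebra.re_one]
    · simp [QuadraticAlgebra.im_one]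
  map_mul' a b := by
    ext
    · simp only [QuadraticAlgebra.re_mul]
      push_cast
      ring
    · simp only [QuadraticAlgebra.im_mul]
      push_cast
      ring
  map_zero' := by
    ext
    · simp
    · simp
  map_add' a b := by
    ext
    · simp
    · simp

theorem TD1_red_re (q : ℕ) (a : Eis) : (TD1_red q a).re = a.re := rfl

theorem TD1_red_im (q : ℕ) (a : Eis) : (TD1_red q a).im = a.im := rfl

theorem TD1_red_eq_zero (q : ℕ) (a : Eis) : TD1_red q a = 0 ↔ (q : Eis) ∣ a := by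
  rw [TD1_natCast_dvd, ← ZMod.intCast_zmod_eq_zero_iff_dvd, ← ZMod.intCast_zmod_eq_zero_iff_dvd,
    QuadraticAlgebra.ext_iff, TD1_red_re, TD1_red_im]
  rfl

theorem TD1_red_surjective (q : ℕ) : Function.Surjective (TD1_red q) := by
  intro z
  obtain ⟨x, hx⟩ := ZMod.intCast_surjective z.re
  obtain ⟨y, hy⟩ := ZMod.intCast_surjective z.im
  refine ⟨⟨x, y⟩, ?_⟩
  ext
  · exact hx
  · exact hy

theorem TD1_red_norm (q : ℕ) (a : Eis) : (TD1_red q a).norm = ((a.norm : ℤ) : ZMod q) := by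
  rw [QuadraticAlgebra.norm_def, QuadraticAlgebra.norm_def, TD1_red_re, TD1_red_im]
  push_cast
  ring

theorem TD1_no_root (q : ℕ) [Fact q.Prime] (h : q % 3 = 2) (r : ZMod q) :
    r ^ 2 ≠ -1 + -1 * r := by
  intro hr
  have hq : q.Prime := Fact.out
  have h3 : r ^ 3 = 1 := by linear_combination (r - 1) * hr
  have hr0 : r ≠ 0 := by
    rintro rfl
    simp at h3
  have h1 : r ^ (q - 1) = 1 := ZMod.pow_card_sub_one_eq_one hr0
  have h4 : r = 1 := by
    obtain ⟨k, hk⟩ : ∃ k, q - 1 = 3 * k + 1 := ⟨(q - 1) / 3, by have := hq.two_le; omega⟩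
    rw [hk, pow_succ, pow_mul, h3, one_pow, one_mul] at h1
    exact h1
  rw [h4] at hr
  have h5 : (3 : ZMod q) = 0 := by linear_combination hr
  have h6 : ((3 : ℕ) : ZMod q) = 0 := by exact_mod_cast h5
  rw [ZMod.natCast_eq_zero_iff] at h6
  have := (Nat.prime_dvd_prime_iff_eq hq Nat.prime_three).1 h6
  omega

/-- the Frobenius is the conjugation -/
theorem TD1_frob (q : ℕ) [Fact q.Prime] (h : q % 3 = 2)
    [CharP (QuadraticAlgebra (ZMod q) (-1) (-1)) q] (z : QuadraticAlgebra (ZMod q) (-1) (-1)) :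
    z ^ q = star z := by
  set W : QuadraticAlgebra (ZMod q) (-1) (-1) := ⟨0, 1⟩ with hW
  have hW3 : W ^ 3 = 1 := by
    ext
    · simp [hW, pow_succ, QuadraticAlgebra.re_one]
    · simp [hW, pow_succ, QuadraticAlgebra.im_one]
  have hWq : W ^ q = W * W := by
    obtain ⟨k, hk⟩ : ∃ k, q = 3 * k + 2 := ⟨q / 3, by omega⟩
    have e1 : W ^ (3 * k + 2) = W * W := by
      rw [pow_add, pow_mul, hW3, one_pow, one_mul, pow_two]
    rwa [← hk] at e1
  have hz : z = algebraMap (ZMod q) _ z.re + algebraMap (ZMod q) _ z.im * W := by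
    ext
    · simp [hW]
    · simp [hW]
  conv_lhs => rw [hz]
  rw [add_pow_char, mul_pow, ← map_pow, ← map_pow, ZMod.pow_card, ZMod.pow_card, hWq]
  ext
  · simp [hW]
  · simp [hW]

/-- inert primes: the symbol is the Legendre symbol of the norm -/
theorem qr_inert (q : ℕ) [Fact q.Prime] (hq2 : q ≠ 2) (h : q % 3 = 2) (u : Eis) (hu : IsUnit u)
    (a : Eis) : qr (u * (q : Eis)) a = legendreSym q a.norm := by
  classical
  have hq : q.Prime := Fact.out
  have hfact : Fact (∀ r : ZMod q, r ^ 2 ≠ -1 + -1 * r) := ⟨TD1_no_root q h⟩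
  let F := QuadraticAlgebra (ZMod q) (-1) (-1)
  have hchar : CharP F q := charP_of_injective_algebraMap (algebraMap (ZMod q) F).injective q
  let e : F ≃ ZMod q × ZMod q := QuadraticAlgebra.equivProd (-1) (-1)
  let inst : Fintype F := Fintype.ofEquiv _ e.symm
  have hcard : Fintype.card F = q * q := by
    rw [Fintype.card_congr e, Fintype.card_prod, ZMod.card]
  have hring : ringChar F ≠ 2 := by
    rw [ringChar.eq F q]; exact hq2
  have hdvd : ∀ y : Eis, u * (q : Eis) ∣ y ↔ TD1_red q y = 0 := by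
    intro y
    rw [TD1_red_eq_zero]
    exact hu.mul_left_dvd
  have hsq : (∃ x : Eis, u * (q : Eis) ∣ x ^ 2 - a) ↔ IsSquare (TD1_red q a) := by
    constructor
    · rintro ⟨x, hx⟩
      rw [hdvd, map_sub, map_pow, sub_eq_zero] at hx
      exact ⟨TD1_red q x, by rw [← pow_two, hx]⟩
    · rintro ⟨r, hr⟩
      obtain ⟨x, rfl⟩ := TD1_red_surjective q r
      refine ⟨x, ?_⟩
      rw [hdvd, map_sub, map_pow, sub_eq_zero, hr, pow_two]
  have hodd : q % 2 = 1 := hq.eq_two_or_odd.resolve_left hq2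
  have hhalf : q * q / 2 = (q + 1) * (q / 2) := by
    obtain ⟨k, hk⟩ : ∃ k, q = 2 * k + 1 := ⟨q / 2, by omega⟩
    have e1 : q / 2 = k := by omega
    rw [e1, hk]
    have e2 : (2 * k + 1) * (2 * k + 1) = 2 * ((2 * k + 1 + 1) * k) + 1 := by ring
    rw [e2]
    omega
  have hkey : ∀ z : F, z ≠ 0 → (IsSquare z ↔ IsSquare z.norm) := by
    intro z hz
    have hz' : z.norm ≠ 0 := fun h0 => hz (QuadraticAlgebra.norm_eq_zero_iff_eq_zero.1 h0)
    rw [FiniteField.isSquare_iff hring hz, hcard, ZMod.euler_criterion q hz', hhalf, pow_mul,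
      pow_succ', TD1_frob q h z, ← QuadraticAlgebra.algebraMap_norm_eq_mul_star, ← map_pow]
    constructor
    · intro h1
      apply (algebraMap (ZMod q) F).injective
      rw [h1, map_one]
    · intro h1
      rw [h1, map_one]
  rw [qr, legendreSym, ← TD1_red_norm, quadraticChar_apply, quadraticCharFun]
  by_cases h0 : TD1_red q a = 0
  · rw [if_pos ((hdvd a).2 h0), if_pos (by rw [h0]; exact QuadraticAlgebra.norm_zero)]
  · have h0' : (TD1_red q a).norm ≠ 0 := fun h1 =>
      h0 (QuadraticAlgebra.norm_eq_zero_iff_eq_zero.1 h1)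
    rw [if_neg (fun h1 => h0 ((hdvd a).1 h1)), if_neg h0']
    by_cases hs : IsSquare (TD1_red q a)
    · rw [if_pos (hsq.2 hs), if_pos ((hkey _ h0).1 hs)]
    · rw [if_neg (fun h1 => hs (hsq.1 h1)), if_neg (fun h1 => hs ((hkey _ h0).2 h1))]

end CMT
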