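import Pool.Agent.MP_dfae13_nt.T.G

/-!
# [CMT] part (G), complements: complex conjugation
-/

set_option autoImplicit false

open scoped ComplexConjugate
open Filter Topology Polynomial

namespace CMT

open CM27

variable {g : Eis} {X : Eis → ℂ}

theorem IsX.star (hX : IsX g X) : IsX (star g) (fun a => X (star a)) where
  mul a b := by rw [star_mul', hX.mul]
  one := by rw [star_one, hX.one]
  per a b := by
    have h : Star.star (a + Star.star g * b) = Star.star a + g * Star.star b := by
      rw [star_add, star_mul', star_star]
    rw [h, hX.per]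
  le_one a := hX.le_one _
  two := by
    have h : Star.star (-2 : Eis) = -2 := by
      rw [star_neg, star_ofNat]
    rw [h, hX.two]

theorem primSet_star (n : ℕ) (f : Eis → ℂ) :
    ∑ a ∈ primSet n, f (star a) = ∑ a ∈ primSet n, f a := by
  have h : ∀ a ∈ primSet n, star a ∈ primSet n := by
    intro a ha
    rw [mem_primSet] at ha ⊢
    exact ⟨by rw [QuadraticAlgebra.norm_star]; exact ha.1, ha.2.star⟩
  exact Finset.sum_bij' (fun a _ => star a) (fun a _ => star a) h h
    (fun a _ => star_star a) (fun a _ => star_star a) (fun a _ => rfl)

theorem coefX_star (X : Eis → ℂ) (n : ℕ) :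
    coefX (fun a => X (star a)) n = ∑ a ∈ primSet n, X a * emb a := by
  rw [coefX, ← primSet_star n (fun a => X a * emb a)]
  refine Finset.sum_congr rfl fun a _ => ?_
  rw [emb_star]

/-- for real `X` the two families of coefficients are conjugate -/
theorem coefX_star_conj (X : Eis → ℂ) (hr : ∀ a, conj (X a) = X a) (n : ℕ) :
    coefX (fun a => X (star a)) n = conj (coefX X n) := by
  rw [coefX_star, coefX, map_sum]
  refine Finset.sum_congr rfl fun a _ => ?_
  rw [map_mul, hr, Complex.conj_conj]

end CMT
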