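import Pool.Agent.MP_dfae13_nt.T.H
import Pool.Agent.MP_dfae13_nt.T.TE5

/-!
# [CMT] parts (E) + (H): the `L`-function of the twist, with the value at `1`
-/

set_option autoImplicit false

open scoped ComplexConjugate
open NumberField

namespace CMT

open CM27

theorem TX_rat (S : Finset Eis) (hS : ∀ b ∈ S, GoodEis b) : ∃ q : ℚ, q ≠ 0 ∧
    padicValRat 2 q = 0 ∧ ((‖TX (gS S) (XS S)‖ ^ 2 : ℝ) : ℂ) ^ 2 = q * (Om : ℂ) ^ 4 := by
  obtain ⟨hprim, hodd⟩ := h_gS S hS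
  have hQ := isQ_XS S hS
  have hodds : Odd (star (gS S)).norm := by rw [QuadraticAlgebra.norm_star]; exact hodd
  have hg0 := h_ne hodd
  set t := SX (gS S) (XS S) lx with ht
  obtain ⟨q, hq⟩ := SX_rat hQ hodd
  rw [← ht] at hq
  obtain ⟨A, hA⟩ := exists_val
  obtain ⟨P, hP, hPA⟩ := TT_gS S hS
  have hvt : A.valuation t = 1 := SX_val hQ hodd A hA P hP (hPA A hA)
  obtain ⟨P', hP', hPA'⟩ := TT_gS (S.image star) (good_star S hS)
  rw [gS_star] at hP'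
  have hvt' : A.valuation (conj t) = 1 := by
    rw [ht, SX_conj hQ hg0, Valuation.map_neg]
    exact SX_val hQ.star hodds A hA P' hP' (hPA' A hA)
  have hvq : A.valuation (q : ℂ) = 1 := by
    rw [hq, map_pow, map_mul, hvt, hvt', mul_one, one_pow]
  refine ⟨q, ?_, rat_val q A hA hvq, ?_⟩
  · intro h
    rw [h] at hvq
    simp at hvq
  · rw [TX_eq hg0, ← ht, norm_mul, mul_pow]
    have h1 : ‖OmC‖ = Om := by
      unfold OmC
      rw [norm_mul, Complex.norm_I, one_mul, Complex.norm_real, Real.norm_of_nonneg Om_pos.le]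
    rw [h1, hq, Complex.mul_conj, Complex.normSq_eq_norm_sq]
    push_cast
    ring

section
variable (K : Type) [Field K] [NumberField K] (om : K) (h : om ^ 2 + om + 1 = 0)
  (φ : Eis ≃+* 𝓞 K) (hφ : ∀ a, ((φ a : 𝓞 K) : K) = toK om h a)
  (S : Finset Eis) (hS : ∀ b ∈ S, GoodEis b) (u : Eis) (hu : IsUnit u)
  (h4 : (4 : Eis) ∣ u * gS S - 1) (e : Eis) (he : 4 * e + 1 = (u * gS S) ^ 3)

include hS hu h4 he hφ in
/-- **[CMT] analytic half**: `L(E_d/K, s)` is entire, `L(E_d/K, 1) > 0`, and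
`L(E_d/K, 1)² N(d) = q Om⁴` with a rational number `q` of `2`-adic valuation `0`. -/
theorem analytic_twist' : ∃ Φ : ℂ → ℂ, Differentiable ℂ Φ ∧
    (∀ s : ℂ, 3 / 2 < s.re → LSeriesSummable (fun n => ((Wt (toK om h e)).LFunction n : ℂ)) s ∧
      Φ s = (Wt (toK om h e)).LSeries s) ∧
    (∃ r : ℝ, 0 < r ∧ Φ 1 = r) ∧
    ∃ q : ℚ, q ≠ 0 ∧ padicValRat 2 q = 0 ∧
      Φ 1 ^ 2 * ((gS S).norm : ℂ) = q * (Om : ℂ) ^ 4 := by
  obtain ⟨Φ, hΦ, hs, h1⟩ := analytic_twist K om h φ hφ S hS u hu h4 e he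
  obtain ⟨q₀, hq0, hq2, hq⟩ := TX_rat S hS
  obtain ⟨hprim, hodd⟩ := h_gS S hS
  set T : ℝ := ‖TX (gS S) (XS S)‖ ^ 2 with hT
  have hTpos : 0 < T := by
    rcases (sq_nonneg ‖TX (gS S) (XS S)‖).eq_or_lt' with h5 | h5
    · exfalso
      rw [← hT] at h5
      rw [h5] at hq
      have h6 : (q₀ : ℂ) * (Om : ℂ) ^ 4 = 0 := by rw [← hq]; simp
      have h7 : (Om : ℂ) ≠ 0 := by exact_mod_cast Om_pos.ne'
      rcases mul_eq_zero.1 h6 with h8 | h8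
      · exact hq0 (by exact_mod_cast h8)
      · exact pow_ne_zero 4 h7 h8
    · exact h5
  obtain ⟨ε, hε, hε2⟩ : ∃ ε : ℤ, XS S (-2) = ε ∧ (ε = 1 ∨ ε = -1) := by
    rcases XS_neg_two S hS u hu h4 with h5 | h5
    · exact ⟨1, by rw [h5]; simp, Or.inl rfl⟩
    · exact ⟨-1, by rw [h5]; norm_num, Or.inr rfl⟩
  rw [hε] at h1
  set N : ℕ := (gS S).norm.natAbs with hNdef
  have hNorm : ((gS S).norm : ℂ) = N := by rw [hNdef, h_natAbs]
  have hNodd : Odd N := Int.natAbs_odd.2 hodd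
  have hN0 : (N : ℝ) ≠ 0 := by exact_mod_cast hNodd.pos.ne'
  have hN0' : (N : ℂ) ≠ 0 := by exact_mod_cast hNodd.pos.ne'
  have hNpos : (0 : ℝ) < N := by exact_mod_cast hNodd.pos
  have hε0 : (2 : ℂ) + ε ≠ 0 := by
    rcases hε2 with h5 | h5 <;> rw [h5] <;> norm_num
  have hε1 : (0 : ℝ) < (2 + ε) ^ 2 := by
    rcases hε2 with h5 | h5 <;> rw [h5] <;> norm_num
  rw [hNorm] at h1
  refine ⟨Φ, hΦ, hs, ⟨(9 * (N : ℝ))⁻¹ * ((2 + (ε : ℝ)) ^ 2)⁻¹ * T, by positivity, ?_⟩,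
    q₀ / (81 * (N : ℚ) * (2 + (ε : ℚ)) ^ 4), ?_, ?_, ?_⟩
  · rw [h1]
    push_cast
    rfl
  · have h5 : (81 * (N : ℚ) * (2 + (ε : ℚ)) ^ 4 : ℚ) ≠ 0 := by
      have h6 : (N : ℚ) ≠ 0 := by exact_mod_cast hNodd.pos.ne'
      have h7 : (2 + ε : ℚ) ≠ 0 := by
        rcases hε2 with h5 | h5 <;> rw [h5] <;> norm_num
      exact mul_ne_zero (mul_ne_zero (by norm_num) h6) (pow_ne_zero 4 h7)
    exact div_ne_zero hq0 h5
  · have h2 : Odd (81 * (N : ℤ) * (2 + ε) ^ 4) := by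
      refine Odd.mul (Odd.mul (by decide) ?_) (Odd.pow ?_)
      · exact_mod_cast hNodd
      · rcases hε2 with h5 | h5 <;> rw [h5] <;> decide
    have h5 : (81 * (N : ℚ) * (2 + (ε : ℚ)) ^ 4 : ℚ) = ((81 * (N : ℤ) * (2 + ε) ^ 4 : ℤ) : ℚ) := by
      push_cast
      rfl
    have h6 : (((81 * (N : ℤ) * (2 + ε) ^ 4 : ℤ)) : ℚ) ≠ 0 := by
      have : (81 * (N : ℤ) * (2 + ε) ^ 4 : ℤ) ≠ 0 := by
        intro h7
        rw [h7] at h2
        exact absurd h2 (by decide)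
      exact_mod_cast this
    have : Fact (Nat.Prime 2) := ⟨Nat.prime_two⟩
    rw [h5, padicValRat.div hq0 h6, hq2, padicValRat.of_int,
      padicValInt.eq_zero_of_not_dvd (by
        intro h7
        exact (Int.not_even_iff_odd.2 h2) (even_iff_two_dvd.2 h7))]
    simp
  · rw [h1, hNorm]
    have e1 : ((9 * (N : ℂ))⁻¹ * ((2 + (ε : ℂ)) ^ 2)⁻¹ * (T : ℂ)) ^ 2 * N =
        (T : ℂ) ^ 2 / (81 * N * (2 + ε) ^ 4) := by
      field_simp
      ring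
    rw [e1, hq]
    push_cast
    ring

end

end CMT
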