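import Pool.Agent.MP_dfae13_nt.T.IDefs
import Pool.Agent.MP_9ab903_nt.SB.W
import Pool.Agent.MP_9ab903_nt.SB.L

set_option autoImplicit false

open Polynomial NumberField IsDedekindDomain
open scoped Classical

namespace CMT

open CM27

/-! ## [CMT-I3] the isomorphism `(x, y) ↦ (x / δ², ((2 y + 1) / δ³ - 1) / 2)` -/

theorem i3_equation {L : Type} [Field L] (e x y : L) :
    (Wt e).toAffine.Equation x y ↔ y ^ 2 + y = x ^ 3 + e := by
  rw [WeierstrassCurve.Affine.equation_iff]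
  simp only [Wt]
  constructor <;> intro h <;> linear_combination h

theorem i3_nonsingular {L : Type} [Field L] [CharZero L] (e x y : L) :
    (Wt e).toAffine.Nonsingular x y ↔ y ^ 2 + y = x ^ 3 + e ∧ (x ≠ 0 ∨ 2 * y + 1 ≠ 0) := by
  rw [WeierstrassCurve.Affine.nonsingular_iff, i3_equation]
  simp only [Wt]
  refine and_congr_right fun _ => or_congr ?_ ?_
  · rw [not_iff_not]
    constructor
    · intro h
      have h1 : (3 : L) * x ^ 2 = 0 := by linear_combination -h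
      rcases mul_eq_zero.mp h1 with h2 | h2
      · exact absurd h2 (by norm_num)
      · exact pow_eq_zero_iff (two_ne_zero) |>.mp h2
    · rintro rfl
      ring
  · rw [not_iff_not]
    constructor
    · intro h
      linear_combination h
    · intro h
      linear_combination h

theorem i3_ns {L : Type} [Field L] [CharZero L] {e e' δ : L} (hδ : δ ≠ 0)
    (he : 4 * e + 1 = δ ^ 6 * (4 * e' + 1)) {x y : L} (h : (Wt e).toAffine.Nonsingular x y) :
    (Wt e').toAffine.Nonsingular (x / δ ^ 2) (((2 * y + 1) / δ ^ 3 - 1) / 2) := by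
  rw [i3_nonsingular] at h ⊢
  obtain ⟨h1, h2⟩ := h
  refine ⟨?_, ?_⟩
  · have h3 : (2 * y + 1) ^ 2 = 4 * x ^ 3 + δ ^ 6 * (4 * e' + 1) := by
      linear_combination 4 * h1 + he
    have h4 : ((2 * y + 1) / δ ^ 3) ^ 2 = 4 * (x / δ ^ 2) ^ 3 + (4 * e' + 1) := by
      field_simp
      linear_combination h3
    linear_combination (1 / 4 : L) * h4
  · rcases h2 with h2 | h2
    · exact Or.inl (div_ne_zero h2 (pow_ne_zero _ hδ))
    · right
      have h3 : 2 * (((2 * y + 1) / δ ^ 3 - 1) / 2) + 1 = (2 * y + 1) / δ ^ 3 := by ring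
      rw [h3]
      exact div_ne_zero h2 (pow_ne_zero _ hδ)

/-- The map `(x, y) ↦ (x / δ², ((2 y + 1) / δ³ - 1) / 2)`. -/
noncomputable def i3_map {L : Type} [Field L] [CharZero L] (e e' δ : L) (hδ : δ ≠ 0)
    (he : 4 * e + 1 = δ ^ 6 * (4 * e' + 1)) : (Wt e).toAffine.Point → (Wt e').toAffine.Point
  | .zero => .zero
  | .some x y h => .some (x / δ ^ 2) (((2 * y + 1) / δ ^ 3 - 1) / 2) (i3_ns hδ he h)

theorem i3_negY {L : Type} [Field L] [CharZero L] (e e' δ x x' y : L) (hδ : δ ≠ 0) :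
    (Wt e').toAffine.negY x' (((2 * y + 1) / δ ^ 3 - 1) / 2) =
      ((2 * (Wt e).toAffine.negY x y + 1) / δ ^ 3 - 1) / 2 := by
  simp only [WeierstrassCurve.Affine.negY, Wt]
  field_simp
  ring

theorem i3_psi_inj {L : Type} [Field L] [CharZero L] {δ y y' : L} (hδ : δ ≠ 0)
    (h : ((2 * y + 1) / δ ^ 3 - 1) / 2 = ((2 * y' + 1) / δ ^ 3 - 1) / 2) : y = y' := by
  have h3 : δ ^ 3 ≠ 0 := pow_ne_zero _ hδ
  have h1 : (2 * y + 1) / δ ^ 3 = (2 * y' + 1) / δ ^ 3 := by linear_combination 2 * h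
  rw [div_left_inj' h3] at h1
  have h2 : (2 : L) * y = 2 * y' := by linear_combination h1
  exact mul_left_cancel₀ two_ne_zero h2

theorem i3_slope {L : Type} [Field L] [CharZero L] (e e' δ x₁ x₂ y₁ y₂ : L) (hδ : δ ≠ 0) :
    (Wt e').toAffine.slope (x₁ / δ ^ 2) (x₂ / δ ^ 2) (((2 * y₁ + 1) / δ ^ 3 - 1) / 2)
      (((2 * y₂ + 1) / δ ^ 3 - 1) / 2) = (Wt e).toAffine.slope x₁ x₂ y₁ y₂ / δ := by
  have hd2 : δ ^ 2 ≠ 0 := pow_ne_zero _ hδ
  by_cases hx : x₁ = x₂
  · by_cases hy : y₁ = (Wt e).toAffine.negY x₂ y₂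
    · rw [WeierstrassCurve.Affine.slope_of_Y_eq hx hy, WeierstrassCurve.Affine.slope_of_Y_eq,
        zero_div]
      · rw [hx]
      · rw [hy, i3_negY e e' δ x₂ _ y₂ hδ]
    · rw [WeierstrassCurve.Affine.slope_of_Y_ne hx hy, WeierstrassCurve.Affine.slope_of_Y_ne]
      · simp only [WeierstrassCurve.Affine.negY, Wt]
        rcases eq_or_ne (2 * y₁ + 1) 0 with h0 | h0
        · have e1 : ((2 * y₁ + 1) / δ ^ 3 - 1) / 2 - (-(((2 * y₁ + 1) / δ ^ 3 - 1) / 2) -
              0 * (x₁ / δ ^ 2) - 1) = 0 := by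
            rw [h0]; ring
          have e2 : y₁ - (-y₁ - 0 * x₁ - 1) = 0 := by linear_combination h0
          rw [e1, e2, div_zero, div_zero, zero_div]
        · have e1 : ((2 * y₁ + 1) / δ ^ 3 - 1) / 2 - (-(((2 * y₁ + 1) / δ ^ 3 - 1) / 2) -
              0 * (x₁ / δ ^ 2) - 1) = (2 * y₁ + 1) / δ ^ 3 := by ring
          have e2 : y₁ - (-y₁ - 0 * x₁ - 1) = 2 * y₁ + 1 := by ring
          rw [e1, e2]
          field_simp
          ring
      · rw [hx]
      · rw [i3_negY e e' δ x₂ _ y₂ hδ]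
        intro h
        exact hy (i3_psi_inj hδ h)
  · rw [WeierstrassCurve.Affine.slope_of_X_ne hx, WeierstrassCurve.Affine.slope_of_X_ne]
    · have hx' : x₁ - x₂ ≠ 0 := sub_ne_zero.mpr hx
      have e1 : ((2 * y₁ + 1) / δ ^ 3 - 1) / 2 - ((2 * y₂ + 1) / δ ^ 3 - 1) / 2 =
          (y₁ - y₂) / δ ^ 3 := by field_simp; ring
      have e2 : x₁ / δ ^ 2 - x₂ / δ ^ 2 = (x₁ - x₂) / δ ^ 2 := by ring
      rw [e1, e2]
      field_simp
    · intro h
      exact hx ((div_left_inj' hd2).mp h)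

theorem i3_addX {L : Type} [Field L] [CharZero L] (e e' δ x₁ x₂ l : L) (hδ : δ ≠ 0) :
    (Wt e').toAffine.addX (x₁ / δ ^ 2) (x₂ / δ ^ 2) (l / δ) =
      (Wt e).toAffine.addX x₁ x₂ l / δ ^ 2 := by
  simp only [WeierstrassCurve.Affine.addX, Wt]
  field_simp
  try ring

theorem i3_addY {L : Type} [Field L] [CharZero L] (e e' δ x₁ x₂ y₁ l : L) (hδ : δ ≠ 0) :
    (Wt e').toAffine.addY (x₁ / δ ^ 2) (x₂ / δ ^ 2) (((2 * y₁ + 1) / δ ^ 3 - 1) / 2) (l / δ) =
      ((2 * (Wt e).toAffine.addY x₁ x₂ y₁ l + 1) / δ ^ 3 - 1) / 2 := by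
  simp only [WeierstrassCurve.Affine.addY, WeierstrassCurve.Affine.negAddY,
    WeierstrassCurve.Affine.addX, WeierstrassCurve.Affine.negY, Wt]
  field_simp
  ring

theorem i3_map_add {L : Type} [Field L] [CharZero L] (e e' δ : L) (hδ : δ ≠ 0)
    (he : 4 * e + 1 = δ ^ 6 * (4 * e' + 1)) (P Q : (Wt e).toAffine.Point) :
    i3_map e e' δ hδ he (P + Q) = i3_map e e' δ hδ he P + i3_map e e' δ hδ he Q := by
  have hd2 : δ ^ 2 ≠ 0 := pow_ne_zero _ hδ
  cases P with
  | zero =>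
    have h0 : (WeierstrassCurve.Affine.Point.zero : (Wt e).toAffine.Point) = 0 := rfl
    have h1 : i3_map e e' δ hδ he (0 : (Wt e).toAffine.Point) = 0 := rfl
    rw [h0, zero_add, h1, zero_add]
  | some x₁ y₁ h₁ =>
    cases Q with
    | zero =>
      have h0 : (WeierstrassCurve.Affine.Point.zero : (Wt e).toAffine.Point) = 0 := rfl
      have h1 : i3_map e e' δ hδ he (0 : (Wt e).toAffine.Point) = 0 := rfl
      rw [h0, add_zero, h1, add_zero]
    | some x₂ y₂ h₂ =>
      by_cases hxy : x₁ = x₂ ∧ y₁ = (Wt e).toAffine.negY x₂ y₂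
      · rw [WeierstrassCurve.Affine.Point.add_of_Y_eq hxy.1 hxy.2]
        have h1 : i3_map e e' δ hδ he (0 : (Wt e).toAffine.Point) = 0 := rfl
        rw [h1]
        symm
        apply WeierstrassCurve.Affine.Point.add_of_Y_eq
        · rw [hxy.1]
        · rw [hxy.2, i3_negY e e' δ x₂ _ y₂ hδ]
      · rw [WeierstrassCurve.Affine.Point.add_some hxy]
        have hxy' : ¬ (x₁ / δ ^ 2 = x₂ / δ ^ 2 ∧ ((2 * y₁ + 1) / δ ^ 3 - 1) / 2 =
            (Wt e').toAffine.negY (x₂ / δ ^ 2) (((2 * y₂ + 1) / δ ^ 3 - 1) / 2)) := by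
          rintro ⟨h3, h4⟩
          rw [i3_negY e e' δ x₂ _ y₂ hδ] at h4
          exact hxy ⟨(div_left_inj' hd2).mp h3, i3_psi_inj hδ h4⟩
        simp only [i3_map]
        rw [WeierstrassCurve.Affine.Point.add_some hxy']
        rw [WeierstrassCurve.Affine.Point.some.injEq]
        rw [i3_slope e e' δ x₁ x₂ y₁ y₂ hδ, i3_addX e e' δ _ _ _ hδ, i3_addY e e' δ _ _ _ _ hδ]
        exact ⟨rfl, rfl⟩

theorem i3_map_inv {L : Type} [Field L] [CharZero L] (e e' δ : L) (hδ : δ ≠ 0)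
    (he : 4 * e + 1 = δ ^ 6 * (4 * e' + 1)) (hδ' : δ⁻¹ ≠ 0)
    (he' : 4 * e' + 1 = δ⁻¹ ^ 6 * (4 * e + 1)) (P : (Wt e).toAffine.Point) :
    i3_map e' e δ⁻¹ hδ' he' (i3_map e e' δ hδ he P) = P := by
  cases P with
  | zero => rfl
  | some x y h =>
    simp only [i3_map]
    rw [WeierstrassCurve.Affine.Point.some.injEq]
    constructor
    · field_simp
    · field_simp
      ring

/-- The isomorphism between `y² + y = x³ + e` and `E` over a field with `δ`, `δ ^ 6 = 4 e + 1`. -/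
theorem exists_twEq {L : Type} [Field L] [CharZero L] (e δ : L) (hδ : δ ≠ 0)
    (he : 4 * e + 1 = δ ^ 6) :
    ∃ f : (Wt e).toAffine.Point ≃+ (E L).toAffine.Point, ∀ (x y : L)
      (h : (Wt e).toAffine.Nonsingular x y), ∃ h', f (.some x y h) =
        .some (x / δ ^ 2) (((2 * y + 1) / δ ^ 3 - 1) / 2) h' := by
  have he1 : 4 * e + 1 = δ ^ 6 * (4 * 0 + 1) := by linear_combination he
  have hδ' : δ⁻¹ ≠ 0 := inv_ne_zero hδ
  have he2 : 4 * 0 + 1 = δ⁻¹ ^ 6 * (4 * e + 1) := by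
    rw [he]; field_simp; ring
  have he3 : 4 * e + 1 = δ⁻¹⁻¹ ^ 6 * (4 * 0 + 1) := by rw [inv_inv]; exact he1
  have hδ'' : δ⁻¹⁻¹ ≠ 0 := inv_ne_zero hδ'
  refine ⟨{ toFun := i3_map e 0 δ hδ he1
            invFun := i3_map 0 e δ⁻¹ hδ' he2
            left_inv := fun P => i3_map_inv e 0 δ hδ he1 hδ' he2 P
            right_inv := fun P => ?_
            map_add' := fun P Q => i3_map_add e 0 δ hδ he1 P Q }, fun x y h => ⟨i3_ns hδ he1 h, rfl⟩⟩
  have h := i3_map_inv 0 e δ⁻¹ hδ' he2 hδ'' he3 P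
  have hcongr : ∀ (d : L) (hd : d ≠ 0) (hh : 4 * e + 1 = d ^ 6 * (4 * 0 + 1)) (_ : d = δ)
      (Q : (Wt e).toAffine.Point), i3_map e 0 d hd hh Q = i3_map e 0 δ hδ he1 Q := by
    intro d hd hh hdd Q
    subst hdd
    rfl
  rw [hcongr _ hδ'' he3 (inv_inv δ)] at h
  exact h

theorem i3_Wt_map {K L : Type*} [CommRing K] [CommRing L] (f : K →+* L) (e : K) :
    (Wt e).map f = Wt (f e) := by
  simp [Wt, WeierstrassCurve.map]

/-- The isomorphism on the points of `y² + y = x³ + e` over `L`, `e ∈ F`. -/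
theorem exists_twTr (F L : Type) [Field F] [Field L] [CharZero L] [Algebra F L] (e : F) (δ : L)
    (hδ : δ ≠ 0) (he : algebraMap F L (4 * e + 1) = δ ^ 6) :
    ∃ f : ((Wt e).baseChange L).toAffine.Point ≃+ (E L).toAffine.Point, ∀ (x y : L)
      (h : ((Wt e).baseChange L).toAffine.Nonsingular x y), ∃ h', f (.some x y h) =
        .some (x / δ ^ 2) (((2 * y + 1) / δ ^ 3 - 1) / 2) h' := by
  have he' : 4 * algebraMap F L e + 1 = δ ^ 6 := by
    rw [← he, map_add, map_mul, map_ofNat, map_one]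
  obtain ⟨f, hf⟩ := exists_twEq (algebraMap F L e) δ hδ he'
  have hW : (Wt e).baseChange L = Wt (algebraMap F L e) := i3_Wt_map (algebraMap F L) e
  refine ⟨(trEq hW).trans f, fun x y h => ?_⟩
  have h1 : ((trEq hW).trans f) (.some x y h) = f (trEq hW (.some x y h)) := rfl
  rw [h1, trEq_some hW x y h]
  exact hf x y _

/-- The isomorphism (`exists_twTr`). -/
noncomputable def twTr (F L : Type) [Field F] [Field L] [CharZero L] [Algebra F L] (e : F) (δ : L)
    (hδ : δ ≠ 0) (he : algebraMap F L (4 * e + 1) = δ ^ 6) :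
    ((Wt e).baseChange L).toAffine.Point ≃+ (E L).toAffine.Point :=
  (exists_twTr F L e δ hδ he).choose

theorem twTr_map (F L L' : Type) [Field F] [Field L] [CharZero L] [Algebra F L] [Field L']
    [CharZero L'] [Algebra F L'] (e : F) (δ : L) (hδ : δ ≠ 0)
    (he : algebraMap F L (4 * e + 1) = δ ^ 6) (δ' : L') (hδ' : δ' ≠ 0)
    (he' : algebraMap F L' (4 * e + 1) = δ' ^ 6) (f : L →ₐ[F] L')
    (P : ((Wt e).baseChange L).toAffine.Point) :
    (f δ = δ' → twTr F L' e δ' hδ' he' (WeierstrassCurve.Affine.Point.map (W' := Wt e) f P) =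
      ptMap (f : L →+* L') (twTr F L e δ hδ he P)) ∧
    (f δ = -δ' → twTr F L' e δ' hδ' he' (WeierstrassCurve.Affine.Point.map (W' := Wt e) f P) =
      -ptMap (f : L →+* L') (twTr F L e δ hδ he P)) := by
  have hsp := (exists_twTr F L e δ hδ he).choose_spec
  have hsp' := (exists_twTr F L' e δ' hδ' he').choose_spec
  rcases P with _ | ⟨x, y, h⟩
  · have h1 : (WeierstrassCurve.Affine.Point.zero : ((Wt e).baseChange L).toAffine.Point) = 0 := rfl
    have h2 : ptMap (f : L →+* L') (0 : (E L).toAffine.Point) = 0 := rfl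
    rw [h1, map_zero, map_zero, map_zero, h2, neg_zero]
    exact ⟨fun _ => rfl, fun _ => rfl⟩
  · obtain ⟨h', h2⟩ := hsp x y h
    have h2' : twTr F L e δ hδ he (.some x y h) =
        .some (x / δ ^ 2) (((2 * y + 1) / δ ^ 3 - 1) / 2) h' := h2
    rw [h2', WeierstrassCurve.Affine.Point.map_some]
    obtain ⟨h'', h3⟩ := hsp' (f x) (f y)
      ((WeierstrassCurve.Affine.baseChange_nonsingular (Wt e).toAffine f.injective ..).mpr h)
    have h3' : twTr F L' e δ' hδ' he' (.some (f x) (f y)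
      ((WeierstrassCurve.Affine.baseChange_nonsingular (Wt e).toAffine f.injective ..).mpr h)) =
        .some (f x / δ' ^ 2) (((2 * f y + 1) / δ' ^ 3 - 1) / 2) h'' := h3
    rw [h3']
    constructor
    · intro hf
      simp only [ptMap, WeierstrassCurve.Affine.Point.some.injEq, RingHom.coe_coe]
      constructor
      · rw [map_div₀, map_pow, hf]
      · simp only [map_div₀, map_sub, map_add, map_mul, map_pow, map_one, map_ofNat, hf]
    · intro hf
      simp only [ptMap]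
      rw [WeierstrassCurve.Affine.Point.neg_some, WeierstrassCurve.Affine.Point.some.injEq]
      simp only [RingHom.coe_coe, WeierstrassCurve.Affine.negY, E]
      constructor
      · rw [map_div₀, map_pow, hf]; ring
      · simp only [map_div₀, map_sub, map_add, map_mul, map_pow, map_one, map_ofNat, hf]
        field_simp
        ring

end CMT
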