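import Pool.Agent.MP_dfae13_nt.T.IDefs
import Pool.Agent.MP_9ab903_nt.SB.SEL
import Pool.Agent.MP_9ab903_nt.SB.Z

set_option autoImplicit false

open Polynomial NumberField IsDedekindDomain
open scoped Classical

namespace CMT

open CM27

/-! ## [CMT-I8], first part: the field `K = ℚ(ω)` -/

theorem i8_finrank (K : Type) [Field K] [NumberField K] [IsCyclotomicExtension {3} ℚ K] :
    Module.finrank ℚ K = 2 ^ 1 := by
  rw [IsCyclotomicExtension.Rat.finrank 3 K, Nat.totient_prime (by norm_num)]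
  norm_num

theorem irreducible_K (K : Type) [Field K] [NumberField K] [IsCyclotomicExtension {3} ℚ K] :
    Irreducible (cubPoly K) :=
  irreducible_of_two_pow 1 (i8_finrank K)

/-- `2` is inert in `K`. -/
theorem two_prime_K (K : Type) [Field K] [NumberField K] [IsCyclotomicExtension {3} ℚ K] :
    ∃ v : HeightOneSpectrum (𝓞 K), (2 : 𝓞 K) ∈ v.asIdeal ∧ (2 : 𝓞 K) ∉ v.asIdeal ^ 2 := by
  obtain ⟨v, h2, h4⟩ := exists_two 3 (by decide) K ⊤
  let e : 𝓞 K ≃+* 𝓞 (⊤ : IntermediateField ℚ K) :=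
    RingOfIntegers.mapRingEquiv (IntermediateField.topEquiv (F := ℚ) (E := K)).symm.toRingEquiv
  have hs : Function.Surjective (e : 𝓞 K →+* 𝓞 (⊤ : IntermediateField ℚ K)) := e.surjective
  refine ⟨HeightOneSpectrum.comap (e : 𝓞 K →+* _) hs v, ?_, ?_⟩
  · change (e : 𝓞 K →+* _) 2 ∈ v.asIdeal
    rw [map_ofNat]
    exact h2
  · have h0 : ∀ I : Ideal (𝓞 (⊤ : IntermediateField ℚ K)), I.map e.symm = I.comap e :=
      fun I => Ideal.map_symm e
    have h1 : (HeightOneSpectrum.comap (e : 𝓞 K →+* _) hs v).asIdeal =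
      v.asIdeal.map e.symm := (h0 _).symm
    rw [h1, ← Ideal.map_pow, h0, Ideal.mem_comap, map_ofNat]
    exact h4

theorem i8_mapR_comp {K L M : Type} [Field K] [Field L] [Field M] (f : K →+* L) (g : L →+* M)
    (z : R K) : mapR g (mapR f z) = mapR (g.comp f) z := sel_mapR_comp f g z

theorem unram_K (K : Type) [Field K] [NumberField K] [IsCyclotomicExtension {3} ℚ K]
    [Fact (Irreducible (cubPoly K))] (N : ℕ) (h6 : 6 ∣ N)
    (v : HeightOneSpectrum (𝓞 (R ℚ))) (hv : (N : 𝓞 (R ℚ)) ∉ v.asIdeal) :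
    ∃ P : HeightOneSpectrum (𝓞 (R K)), (N : 𝓞 (R K)) ∉ P.asIdeal ∧
      ∀ z : R ℚ, P.valuation (R K) (mapR (algebraMap ℚ K) z) = v.valuation (R ℚ) z := by
  let L := CyclotomicField 3 (R ℚ)
  haveI : Fact (Irreducible (cubPoly (⊤ : IntermediateField ℚ K))) :=
    ⟨irreducible_of_two_pow 1 (by rw [IntermediateField.finrank_top', i8_finrank])⟩
  obtain ⟨φ', hφ'⟩ := exists_embedding 3 K ⊤ L
  let g : K →+* (⊤ : IntermediateField ℚ K) :=
    ((IntermediateField.topEquiv (F := ℚ) (E := K)).symm.toRingEquiv : K →+* _)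
  let φ : R K →+* L := φ'.comp (mapR g)
  have hφ : ∀ z : R ℚ, φ (mapR (algebraMap ℚ K) z) = algebraMap (R ℚ) L z := by
    intro z
    rw [← hφ' z]
    change φ' (mapR g (mapR (algebraMap ℚ K) z)) = _
    rw [i8_mapR_comp]
    congr 2
  have hvm : ((3 : ℕ) : 𝓞 (R ℚ)) ∉ v.asIdeal := fun h1 => hv (by
    obtain ⟨k, rfl⟩ := (show 3 ∣ 6 by norm_num).trans h6
    rw [Nat.cast_mul]; exact Ideal.mul_mem_right _ _ h1)
  have := v.isMaximal
  obtain ⟨Q, hQm, hQ⟩ := Ideal.exists_maximal_ideal_liesOver_of_isIntegral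
    (S := 𝓞 L) v.asIdeal
  have hQ0 : Q ≠ ⊥ := Ideal.ne_bot_of_liesOver_of_ne_bot v.ne_bot Q
  let w : HeightOneSpectrum (𝓞 L) := ⟨Q, hQm.isPrime, hQ0⟩
  have hw : w.asIdeal.LiesOver v.asIdeal := hQ
  have hram := cyc_ram_one 3 L v hvm w
  letI : Algebra (R ℚ) (R K) := (mapR (algebraMap ℚ K)).toAlgebra
  letI : Algebra (R K) L := φ.toAlgebra
  haveI : IsScalarTower (R ℚ) (R K) L := IsScalarTower.of_algebraMap_eq fun z => (hφ z).symm
  obtain ⟨P, hP, hval⟩ := ur_core (B := R K) v w hram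
  refine ⟨P, fun h6 => hv ?_, hval⟩
  rw [hP.over, Ideal.mem_comap, map_natCast]
  exact h6

/-- The nontrivial automorphism of `K`. -/
theorem exists_conj_K (K : Type) [Field K] [NumberField K] [IsCyclotomicExtension {3} ℚ K]
    (om : K) (hom : om ^ 2 + om + 1 = 0) :
    ∃ c : K ≃ₐ[ℚ] K, c om = om ^ 2 ∧ (∀ x, c (c x) = x) ∧
      ∀ x, c x = x → ∃ q : ℚ, algebraMap ℚ K q = x := by
  haveI : IsGalois ℚ K := IsCyclotomicExtension.isGalois {3} ℚ K
  have hom3 : om ^ 3 = 1 := by linear_combination (om - 1) * hom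
  have hom1 : om ≠ 1 := by
    rintro rfl
    norm_num at hom
  have hprim : IsPrimitiveRoot om 3 := by
    rw [← Polynomial.isRoot_cyclotomic_iff, Polynomial.cyclotomic_three]
    simp [hom]
  have hprim' : IsPrimitiveRoot (om ^ 2) 3 := hprim.pow_of_coprime 2 (by norm_num)
  have hconj : IsConjRoot ℚ (om ^ 2) om := by
    rw [IsConjRoot, ← Polynomial.cyclotomic_eq_minpoly_rat hprim (by norm_num),
      ← Polynomial.cyclotomic_eq_minpoly_rat hprim' (by norm_num)]
  obtain ⟨c, hc⟩ := isConjRoot_iff_exists_algEquiv.1 hconj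
  have hc1 : c ≠ 1 := by
    rintro rfl
    have h1 : om = om ^ 2 := hc
    apply hom1
    have h2 : om ≠ 0 := by
      rintro rfl
      norm_num at hom
    have h3 : om * (om - 1) = 0 := by linear_combination -h1
    rcases mul_eq_zero.1 h3 with h4 | h4
    · exact absurd h4 h2
    · exact sub_eq_zero.1 h4
  have hcard : Nat.card (K ≃ₐ[ℚ] K) = 2 := by
    rw [IsGalois.card_aut_eq_finrank, i8_finrank, pow_one]
  obtain ⟨c', hc', huniq⟩ := (Nat.card_eq_two_iff' (1 : K ≃ₐ[ℚ] K)).1 hcard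
  have hall : ∀ σ : K ≃ₐ[ℚ] K, σ = 1 ∨ σ = c := by
    intro σ
    by_cases h : σ = 1
    · exact Or.inl h
    · exact Or.inr ((huniq σ h).trans (huniq c hc1).symm)
  refine ⟨c, hc, fun x => ?_, fun x hx => ?_⟩
  · rcases hall (c * c) with h | h
    · exact congrArg (fun σ : K ≃ₐ[ℚ] K => σ x) h
    · exact absurd (mul_eq_left.1 h) hc1
  · refine (IsGalois.mem_range_algebraMap_iff_fixed x).2 fun σ => ?_
    rcases hall σ with rfl | rfl
    · rfl
    · exact hx

/-- All automorphisms are the identity or the conjugation. -/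
theorem fixed_K (K : Type) [Field K] [NumberField K] [IsCyclotomicExtension {3} ℚ K]
    (c : K ≃ₐ[ℚ] K) (hc1 : c ≠ 1) (z : R K) (h : mapR (c : K →+* K) z = z) :
    ∃ z0 : R ℚ, mapR (algebraMap ℚ K) z0 = z := by
  haveI : IsGalois ℚ K := IsCyclotomicExtension.isGalois {3} ℚ K
  have hcard : Nat.card (K ≃ₐ[ℚ] K) = 2 := by
    rw [IsGalois.card_aut_eq_finrank, i8_finrank, pow_one]
  obtain ⟨c', hc', huniq⟩ := (Nat.card_eq_two_iff' (1 : K ≃ₐ[ℚ] K)).1 hcard
  refine fixed_mapR ℚ K z fun σ => ?_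
  by_cases hσ : σ = 1
  · subst hσ
    exact sel_mapR_id z
  · rw [(huniq σ hσ).trans (huniq c hc1).symm]
    exact h

end CMT
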