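import Pool.Agent.MP_dfae13_nt.T.I1
import Pool.Agent.MP_dfae13_nt.T.I2
import Pool.Agent.MP_dfae13_nt.T.I5
import Pool.Agent.MP_dfae13_nt.T.I6
import Pool.Agent.MP_dfae13_nt.T.I7
import Pool.Agent.MP_dfae13_nt.T.I8
import Pool.Agent.MP_ae0bd0_nt.CM.A2
import Pool.Agent.MP_ae0bd0_nt.CM.A3

set_option autoImplicit false

open Polynomial NumberField IsDedekindDomain
open scoped Classical

namespace CMT

open CM27

/-! ## [CMT-I9] `E_d(K)` is finite and `Ш(E_d / K)` has no element of order `2` -/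

section

variable {K : Type} [Field K] (om : K) (h : om ^ 2 + om + 1 = 0)

theorem i9_integral (a : Eis) : IsIntegral ℤ (toK om h a) := by
  have h1 : IsIntegral ℤ om :=
    ⟨X ^ 2 + X + 1, by monicity!, by simp [h]⟩
  have h2 : toK om h a = (a.re : K) + (a.im : K) * om := rfl
  rw [h2]
  exact ((isIntegral_algebraMap (R := ℤ) (x := a.re)).add
    ((isIntegral_algebraMap (R := ℤ) (x := a.im)).mul h1))

theorem i9_norm (a : Eis) : toK om h a * toK om h (star a) = ((a.norm : ℤ) : K) := by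
  rw [← map_mul, a3_mul_star, map_intCast]

theorem i9_val_le {L : Type} [Field L] [NumberField L] (P : HeightOneSpectrum (𝓞 L)) (x : L)
    (hx : IsIntegral ℤ x) : P.valuation L x ≤ 1 :=
  P.valuation_le_one (K := L) ⟨x, hx⟩

end

section

variable (K : Type) [Field K] [NumberField K] [IsCyclotomicExtension {3} ℚ K] (om : K)
    (h : om ^ 2 + om + 1 = 0) (d : Eis)

include K om h in
theorem i9_D_ne (hd0 : d ≠ 0) : toK om h d ≠ 0 := by
  intro h0
  have h1 := i9_norm om h d
  rw [h0, zero_mul] at h1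
  have h2 : d.norm = 0 := by exact_mod_cast h1.symm
  exact hd0 (a2_norm_zero h2)

/-- The Selmer group is trivial. -/
theorem i9_selmer (h4 : (4 : Eis) ∣ d - 1) (hd0 : d ≠ 0)
    (hgood : ∀ p : ℕ, p.Prime → (p : ℤ) ∣ d.norm → GoodPrime p) (z : R K) (hz : z ≠ 0)
    (hn : ∃ n : K, Algebra.norm K z = n ^ 2)
    (hloc : ∀ v : HeightOneSpectrum (𝓞 K), LocD (toK om h d) z (v.adicCompletion K)) :
    ∃ t : R K, z = t ^ 2 := by
  haveI : Fact (Irreducible (cubPoly K)) := ⟨irreducible_K K⟩
  have hnorm0 : d.norm ≠ 0 := fun h0 => hd0 (a2_norm_zero h0)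
  refine selmer_trivial_K K om h (6 * d.norm.natAbs) (mul_ne_zero (by norm_num)
    (Int.natAbs_ne_zero.2 hnorm0)) ?_ (dvd_mul_right _ _) z hz hn ?_ ?_
  · intro p hp hpN
    rcases (Nat.Prime.dvd_mul hp).1 hpN with h1 | h1
    · have h2 : p ∣ 2 * 3 := h1
      rcases (Nat.Prime.dvd_mul hp).1 h2 with h3 | h3
      · exact Or.inl ((Nat.prime_dvd_prime_iff_eq hp Nat.prime_two).1 h3)
      · exact Or.inr (Or.inl ((Nat.prime_dvd_prime_iff_eq hp Nat.prime_three).1 h3))
    · exact Or.inr (Or.inr (hgood p hp (Int.natCast_dvd.2 h1)))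
  · intro P hP
    have h6 : (6 : 𝓞 (R K)) ∉ P.asIdeal := by
      intro h6
      apply hP
      rw [Nat.cast_mul]
      exact Ideal.mul_mem_right _ _ (by exact_mod_cast h6)
    have hNP : ((d.norm.natAbs : ℕ) : 𝓞 (R K)) ∉ P.asIdeal := by
      intro h7
      apply hP
      rw [Nat.cast_mul]
      exact Ideal.mul_mem_left _ _ h7
    have hval : P.valuation (R K) ((d.norm.natAbs : ℕ) : R K) = 1 :=
      val_natCast_eq_one P _ hNP
    have hval' : P.valuation (R K) ((d.norm : ℤ) : R K) = 1 := by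
      rcases Int.natAbs_eq d.norm with h8 | h8
      · rw [h8, Int.cast_natCast]
        exact hval
      · rw [h8, Int.cast_neg, Valuation.map_neg, Int.cast_natCast]
        exact hval
    refine even_of_locD K om h (toK om h d) z hz hn hloc P h6 ?_
    have hle : ∀ a : Eis, P.valuation (R K) (algebraMap K (R K) (toK om h a)) ≤ 1 := fun a =>
      i9_val_le P _ ((i9_integral om h a).map ((algebraMap K (R K)).toIntAlgHom))
    have hmul : P.valuation (R K) (algebraMap K (R K) (toK om h d)) *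
        P.valuation (R K) (algebraMap K (R K) (toK om h (star d))) = 1 := by
      rw [← map_mul, ← map_mul, i9_norm, map_intCast, hval']
    refine le_antisymm (hle d) ?_
    rw [← hmul]
    exact mul_le_of_le_one_right' (hle (star d))
  · intro v hv2 hv4
    refine inU2_of_locD K (toK om h d) z (isUnit_iff_ne_zero.2 hz) v hv2 hv4 ?_ (hloc v)
    obtain ⟨f, hf⟩ := h4
    have h5 : toK om h d - 1 = 2 ^ 2 * toK om h f := by
      rw [← map_one (toK om h), ← map_sub, hf, map_mul, map_ofNat]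
      norm_num
    have hw2 : v.valuation K 2 ≤ WithZero.exp (-1) := by
      exact v_lt_one_iff.1 (g_two_lt hv2)
    rw [h5, map_mul, map_pow]
    calc v.valuation K 2 ^ 2 * v.valuation K (toK om h f)
        ≤ v.valuation K 2 ^ 2 * 1 := mul_le_mul_right (i9_val_le v _ (i9_integral om h f)) _
      _ = v.valuation K 2 ^ 2 := mul_one _
      _ ≤ WithZero.exp (-1) ^ 2 := pow_le_pow_left₀ zero_le hw2 2
      _ = WithZero.exp (-2) := by
        rw [← WithZero.exp_nsmul]
        rfl

/-- `E_d(K) = 2 E_d(K)`. -/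
theorem i9_divisible (h4 : (4 : Eis) ∣ d - 1) (hd0 : d ≠ 0)
    (hgood : ∀ p : ℕ, p.Prime → (p : ℤ) ∣ d.norm → GoodPrime p) (e : K)
    (he : 4 * e + 1 = toK om h d ^ 3) (P : (Wt e).toAffine.Point) : ∃ Q, P = 2 • Q := by
  have hfact : Fact (Irreducible (cubPoly K)) := ⟨irreducible_K K⟩
  rcases P with _ | ⟨x, y, hxy⟩
  · exact ⟨0, by rw [smul_zero]; rfl⟩
  · set D := toK om h d with hD
    have hD0 : D ≠ 0 := i9_D_ne K om h d hd0
    have heq : y ^ 2 + y = x ^ 3 + e := by
      have h1 := (WeierstrassCurve.Affine.equation_iff _ _).1 hxy.1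
      simp only [Wt] at h1
      linear_combination h1
    have hm : (2 * y + 1) ^ 2 = 4 * x ^ 3 + D ^ 3 := by
      rw [← he]
      linear_combination 4 * heq
    have hz0 : trip D 0 x ≠ 0 := by
      intro h0
      have h1 : trip D 0 x = trip 0 0 0 := by
        rw [h0]; simp [trip]
      exact hD0 (trip_inj h1).1
    have hloc : ∀ v : HeightOneSpectrum (𝓞 K), LocD D (trip D 0 x) (v.adicCompletion K) := by
      intro v
      refine Or.inr ⟨algebraMap K _ x, algebraMap K _ (2 * y + 1),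
          mapR (algebraMap K (v.adicCompletion K)) (trip D 0 x), ?_, ?_⟩
      · have h1 := congrArg (algebraMap K (v.adicCompletion K)) hm
        simp only [map_add, map_mul, map_pow, map_ofNat, map_one] at h1 ⊢
        exact h1
      · rw [mapR_trip, map_zero, pow_two]
    obtain ⟨t, ht⟩ := i9_selmer K om h d h4 hd0 hgood (trip D 0 x) hz0
      ⟨2 * y + 1, by rw [norm_trip, hm]; ring⟩ hloc
    exact exists_half e D hD0 he x y hxy t ht

end

/-- **[CMT] (I).** -/
theorem finite_and_sha (K : Type) [Field K] [NumberField K] [IsCyclotomicExtension {3} ℚ K]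
    (om : K) (h : om ^ 2 + om + 1 = 0) (d : Eis) (h4 : (4 : Eis) ∣ d - 1) (hd : Squarefree d)
    (hgood : ∀ p : ℕ, p.Prime → (p : ℤ) ∣ d.norm → GoodPrime p) (e : K)
    (he : 4 * e + 1 = toK om h d ^ 3) :
    Finite (Wt e).toAffine.Point ∧
      ∀ (x : SBSD.Sha (Wt e)) (k : ℕ), 2 ^ k • x = 0 → x = 0 := by
  haveI := eis_isDomain
  have hd0 : d ≠ 0 := by
    rintro rfl
    exact not_squarefree_zero hd
  have hD0 : toK om h d ≠ 0 := i9_D_ne K om h d hd0
  constructor
  · obtain ⟨v, hv2, hv4⟩ := two_prime_K K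
    refine finite_of_divisible v hv2 hv4 e ?_ (i9_divisible K om h d h4 hd0 hgood e he)
    obtain ⟨f, hf⟩ := h4
    have hdf : d = 4 * f + 1 := by linear_combination hf
    have h6 : e = toK om h (16 * f ^ 3 + 12 * f ^ 2 + 3 * f) := by
      have h7 : (4 : K) * toK om h (16 * f ^ 3 + 12 * f ^ 2 + 3 * f) + 1 = toK om h d ^ 3 := by
        rw [← map_pow, hdf]
        have : (4 * f + 1) ^ 3 = 4 * (16 * f ^ 3 + 12 * f ^ 2 + 3 * f) + 1 := by ring
        rw [this, map_add _ (4 * _), map_mul _ 4, map_one, map_ofNat]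
      have h8 : (4 : K) * (e - toK om h (16 * f ^ 3 + 12 * f ^ 2 + 3 * f)) = 0 := by
        linear_combination he - h7
      rcases mul_eq_zero.1 h8 with h9 | h9
      · norm_num at h9
      · exact sub_eq_zero.1 h9
    rw [h6]
    exact i9_val_le v _ (i9_integral om h _)
  · intro x k h2
    refine fin_two_pow (A := SBSD.Sha (Wt e)) (fun x hx => ?_) k x h2
    obtain ⟨c, rfl⟩ := QuotientAddGroup.mk_surjective x
    obtain ⟨hc1, hc2, -⟩ := c.2
    have h3 : 2 • c ∈ (SBSD.coboundaries (Wt e)).addSubgroupOf (SBSD.locTrivial (Wt e)) := by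
      rw [← QuotientAddGroup.eq_zero_iff]
      exact hx
    obtain ⟨P, hP⟩ := AddSubgroup.mem_addSubgroupOf.1 h3
    exact (QuotientAddGroup.eq_zero_iff _).2 (AddSubgroup.mem_addSubgroupOf.2
      (sha_two_of_selmer K e (toK om h d) hD0 he
        (fun z hz hn hloc => i9_selmer K om h d h4 hd0 hgood z hz hn hloc) c.1 hc1 hc2
        ⟨P, fun σ => hP σ⟩))

end CMT
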