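import Pool.Agent.MP_9ab903_nt.Tam
import Pool.Agent.MP_dfae13_nt.T.Defs

/-!
# [CMT-J] coordinates on a model of `y² + y = x³ + e`

For a change of variables `T = (u, r, s, t)` and a point `(x, y)` of `T • Wt e` put
`X = u² x + r`, `Z = u³ (2 y + a₁ x + a₃)`. Then `Z² = 4 X³ + 1 + 4 e`, and the group law is given by
the usual formulas for `Z² = 4 X³ + β`.
-/

set_option autoImplicit false

open Polynomial NumberField IsDedekindDomain CM27
open scoped Classical

namespace CMT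

section field

variable {K : Type} [Field K] (e : K) (T : WeierstrassCurve.VariableChange K)

/-- The coordinate `X`. -/
def XX (T : WeierstrassCurve.VariableChange K) (x : K) : K := (T.u : K) ^ 2 * x + T.r

/-- The coordinate `Z`. -/
def ZZ (T : WeierstrassCurve.VariableChange K) (x y : K) : K :=
  2 * ((T.u : K) ^ 3 * y + (T.u : K) ^ 2 * T.s * x + T.t) + 1

theorem ZZ_eq (x y : K) : ZZ T x y = (T.u : K) ^ 3 *
    (2 * y + (T • Wt e).a₁ * x + (T • Wt e).a₃) := by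
  have hu : (T.u : K) ≠ 0 := T.u.ne_zero
  simp only [ZZ, Wt, WeierstrassCurve.variableChange_a₁, WeierstrassCurve.variableChange_a₃,
    Units.val_inv_eq_inv_val]
  field_simp
  ring

theorem ZZ_sq (x y : K) (h : (T • Wt e).toAffine.Equation x y) :
    ZZ T x y ^ 2 = 4 * XX T x ^ 3 + (1 + 4 * e) := by
  have hu : (T.u : K) ≠ 0 := T.u.ne_zero
  rw [WeierstrassCurve.Affine.equation_iff'] at h
  simp only [Wt, WeierstrassCurve.variableChange_a₁, WeierstrassCurve.variableChange_a₂,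
    WeierstrassCurve.variableChange_a₃, WeierstrassCurve.variableChange_a₄,
    WeierstrassCurve.variableChange_a₆, Units.val_inv_eq_inv_val] at h
  have h1 : ZZ T x y ^ 2 - (4 * XX T x ^ 3 + (1 + 4 * e)) = 4 * (T.u : K) ^ 6 *
      (y ^ 2 + (T.u : K)⁻¹ * (0 + 2 * T.s) * x * y + (T.u : K)⁻¹ ^ 3 * (1 + T.r * 0 + 2 * T.t) * y -
      (x ^ 3 + (T.u : K)⁻¹ ^ 2 * (0 - T.s * 0 + 3 * T.r - T.s ^ 2) * x ^ 2 +
        (T.u : K)⁻¹ ^ 4 * (0 - T.s * 1 + 2 * T.r * 0 - (T.t + T.r * T.s) * 0 + 3 * T.r ^ 2 -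
          2 * T.s * T.t) * x +
        (T.u : K)⁻¹ ^ 6 * (e + T.r * 0 + T.r ^ 2 * 0 + T.r ^ 3 - T.t * 1 - T.t ^ 2 -
          T.r * T.t * 0))) := by
    simp only [ZZ, XX]
    field_simp
    ring
  rw [h, mul_zero] at h1
  exact sub_eq_zero.1 h1

/-- The coordinate `X` of a sum, distinct `x`-coordinates. -/
theorem XX_add (x₁ x₂ y₁ y₂ : K) (hx : x₁ ≠ x₂) :
    XX T ((T • Wt e).toAffine.addX x₁ x₂ ((T • Wt e).toAffine.slope x₁ x₂ y₁ y₂)) =
      ((ZZ T x₁ y₁ - ZZ T x₂ y₂) / (2 * (XX T x₁ - XX T x₂))) ^ 2 * (1 : K) - XX T x₁ - XX T x₂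
      ∨ (2 : K) = 0 := by
  by_cases h2 : (2 : K) = 0
  · exact Or.inr h2
  · left
    have hu : (T.u : K) ≠ 0 := T.u.ne_zero
    have hx' : x₁ - x₂ ≠ 0 := sub_ne_zero.2 hx
    rw [WeierstrassCurve.Affine.slope_of_X_ne hx]
    have h1 : (ZZ T x₁ y₁ - ZZ T x₂ y₂) / (2 * (XX T x₁ - XX T x₂)) =
        (T.u : K) * ((y₁ - y₂) / (x₁ - x₂)) + T.s := by
      have h3 : 2 * (XX T x₁ - XX T x₂) ≠ 0 := by
        have : XX T x₁ - XX T x₂ = (T.u : K) ^ 2 * (x₁ - x₂) := by simp only [XX]; ring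
        rw [this]
        exact mul_ne_zero h2 (mul_ne_zero (pow_ne_zero _ hu) hx')
      rw [div_eq_iff h3]
      simp only [ZZ, XX]
      field_simp
      ring
    rw [h1]
    simp only [WeierstrassCurve.Affine.addX, WeierstrassCurve.toAffine, Wt, XX,
      WeierstrassCurve.variableChange_a₁, WeierstrassCurve.variableChange_a₂,
      Units.val_inv_eq_inv_val]
    field_simp
    ring

/-- The coordinate `X` of a double. -/
theorem XX_double (x y : K) (hz : ZZ T x y ≠ 0)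
    (hy : y ≠ (T • Wt e).toAffine.negY x y) :
    XX T ((T • Wt e).toAffine.addX x x ((T • Wt e).toAffine.slope x x y y)) =
      (3 * XX T x ^ 2 / ZZ T x y) ^ 2 - 2 * XX T x := by
  have hu : (T.u : K) ≠ 0 := T.u.ne_zero
  rw [WeierstrassCurve.Affine.slope_of_Y_ne rfl hy]
  have h0 : y - (T • Wt e).toAffine.negY x y = (T.u : K)⁻¹ ^ 3 * ZZ T x y := by
    rw [ZZ_eq e]
    simp only [WeierstrassCurve.Affine.negY]
    field_simp
    ring
  rw [h0]
  have h1 : 3 * XX T x ^ 2 / ZZ T x y = (T.u : K) * ((3 * x ^ 2 + 2 * (T • Wt e).toAffine.a₂ * x +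
      (T • Wt e).toAffine.a₄ - (T • Wt e).toAffine.a₁ * y) / ((T.u : K)⁻¹ ^ 3 * ZZ T x y)) + T.s := by
    have h3 : (T.u : K)⁻¹ ^ 3 * ZZ T x y ≠ 0 := mul_ne_zero (pow_ne_zero _ (inv_ne_zero hu)) hz
    rw [div_eq_iff hz, add_mul, mul_assoc, div_mul_eq_mul_div, mul_div_assoc]
    have h4 : ZZ T x y / ((T.u : K)⁻¹ ^ 3 * ZZ T x y) = (T.u : K) ^ 3 := by
      field_simp
    rw [h4]
    simp only [WeierstrassCurve.toAffine, Wt, XX, ZZ,
      WeierstrassCurve.variableChange_a₁, WeierstrassCurve.variableChange_a₂,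
      WeierstrassCurve.variableChange_a₄, Units.val_inv_eq_inv_val]
    field_simp
    ring
  rw [h1]
  simp only [WeierstrassCurve.Affine.addX, WeierstrassCurve.toAffine, Wt, XX,
    WeierstrassCurve.variableChange_a₁, WeierstrassCurve.variableChange_a₂,
    Units.val_inv_eq_inv_val]
  field_simp
  ring

end field

end CMT
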