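import Pool.Agent.MP_dfae13_nt.T.J2

/-!
# [CMT-J] Tamagawa numbers at the places which do not divide `3`
-/

set_option autoImplicit false

open Polynomial NumberField IsDedekindDomain CM27
open scoped Classical

namespace CMT

open SBSD

variable (A : Type) [CommRing A] [IsDomain A] [IsDiscreteValuationRing A]
  {K : Type} [Field K] [Algebra A K] [IsFractionRing A K]

theorem exists_minimal_T (W : WeierstrassCurve K) : ∃ T : WeierstrassCurve.VariableChange K,
    W.minimal A = T • W ∧ WeierstrassCurve.IsMinimal A (T • W) ∧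
      T = (W.exists_isMinimal A).choose :=
  ⟨_, rfl, (W.exists_isMinimal A).choose_spec, rfl⟩

/-- Good reduction: `u` is a unit. -/
theorem unit_good (h3 : IsUnit (3 : A)) (e₀ : A) (hβ : IsUnit (1 + 4 * e₀))
    (T : WeierstrassCurve.VariableChange K)
    (hT : WeierstrassCurve.IsMinimal A (T • Wt (algebraMap A K e₀))) :
    (IsDiscreteValuationRing.maximalIdeal A).valuation K (T.u : K) = 1 := by
  have := Wt_integral A (K := K) e₀
  refine unit_of_lt A _ 0 (by norm_num) ?_ T hT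
  have h1 : (Wt (algebraMap A K e₀)).Δ = algebraMap A K (-(3 ^ 3 * (1 + 4 * e₀) ^ 2)) := by
    rw [Wt_Δ]
    simp only [map_mul, map_pow, map_add, map_one, map_ofNat, map_neg]
    ring
  rw [h1, val_algebraMap_unit A _ ((h3.pow 3).mul (hβ.pow 2)).neg]
  simp

theorem tamagawa_Wt_good (h3 : IsUnit (3 : A)) (e₀ : A) (hβ : IsUnit (1 + 4 * e₀)) :
    tamagawa A (Wt (algebraMap A K e₀)) = 1 := by
  have hint := Wt_integral A (K := K) e₀
  obtain ⟨T, hT, hTm, -⟩ := exists_minimal_T A (Wt (algebraMap A K e₀))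
  have hu := unit_good A h3 e₀ hβ T hTm
  have h1 : (Wt (algebraMap A K e₀)).Δ = algebraMap A K (-(3 ^ 3 * (1 + 4 * e₀) ^ 2)) := by
    rw [Wt_Δ]
    simp only [map_mul, map_pow, map_add, map_one, map_ofNat, map_neg]
    ring
  have hgood : WeierstrassCurve.HasGoodReduction A ((Wt (algebraMap A K e₀)).minimal A) := by
    refine ⟨?_⟩
    rw [hT, WeierstrassCurve.variableChange_Δ, map_mul, h1,
      val_algebraMap_unit A _ ((h3.pow 3).mul (hβ.pow 2)).neg, map_pow, Units.val_inv_eq_inv_val,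
      map_inv₀, hu]
    simp
  exact tamagawa_eq_one A _ (nonsingular_of_good A _ hgood)

/-- `u` is a unit when `β = d³`, `d` a uniformizer. -/
theorem unit_bad (h3 : IsUnit (3 : A)) (e₀ d : A) (hd : Irreducible d) (hβ : 1 + 4 * e₀ = d ^ 3)
    (T : WeierstrassCurve.VariableChange K)
    (hT : WeierstrassCurve.IsMinimal A (T • Wt (algebraMap A K e₀))) :
    (IsDiscreteValuationRing.maximalIdeal A).valuation K (T.u : K) = 1 := by
  have := Wt_integral A (K := K) e₀
  refine unit_of_lt A _ 6 (by norm_num) ?_ T hT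
  have h1 : (Wt (algebraMap A K e₀)).Δ = algebraMap A K (-3 ^ 3) * algebraMap A K d ^ 6 := by
    rw [Wt_Δ, ← map_pow, ← map_mul]
    have h2 : -27 * (1 + 4 * algebraMap A K e₀) ^ 2 = algebraMap A K (-27 * (1 + 4 * e₀) ^ 2) := by
      simp only [map_mul, map_pow, map_add, map_one, map_ofNat, map_neg]
    rw [h2, hβ]
    congr 1
    ring
  rw [h1, map_mul, map_pow, val_algebraMap_unit A _ (h3.pow 3).neg, val_irreducible A d hd,
    one_mul, ← WithZero.exp_nsmul]
  norm_num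

/-- No singular reduction when `2` is not a cube modulo `d`. -/
theorem no_sing_bad (e₀ d : A) (hd : Irreducible d) (hβ : 1 + 4 * e₀ = d ^ 3)
    (h2 : ∀ x : A, ¬ d ∣ x ^ 3 - 2) (X Z : A) (h : Z ^ 2 = 4 * X ^ 3 + (1 + 4 * e₀)) :
    Z ∉ IsLocalRing.maximalIdeal A := by
  have hdp : Prime d := hd.prime
  have hm : IsLocalRing.maximalIdeal A = Ideal.span {d} :=
    (IsDiscreteValuationRing.irreducible_iff_uniformizer d).1 hd
  rw [hm, Ideal.mem_span_singleton]
  rintro ⟨Z1, rfl⟩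
  rw [hβ] at h
  have hd2 : ¬ d ∣ 2 := by
    intro hd2
    apply h2 0
    obtain ⟨c, hc⟩ := hd2
    exact ⟨-c, by rw [mul_neg, ← hc]; ring⟩
  have h4 : d ∣ X := by
    have h5 : d ∣ 2 * (2 * X ^ 3) := ⟨d * Z1 ^ 2 - d ^ 2, by linear_combination -h⟩
    exact hdp.dvd_of_dvd_pow (((hdp.dvd_or_dvd h5).resolve_left hd2 |> hdp.dvd_or_dvd).resolve_left
      hd2)
  obtain ⟨X1, rfl⟩ := h4
  have h6 : Z1 ^ 2 = d * (4 * X1 ^ 3 + 1) := by
    have : d ^ 2 * Z1 ^ 2 = d ^ 2 * (d * (4 * X1 ^ 3 + 1)) := by linear_combination h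
    exact mul_left_cancel₀ (pow_ne_zero 2 hd.ne_zero) this
  obtain ⟨Z2, rfl⟩ : d ∣ Z1 := hdp.dvd_of_dvd_pow (n := 2) ⟨_, h6⟩
  have h7 : d * Z2 ^ 2 = 4 * X1 ^ 3 + 1 := by
    have : d * (d * Z2 ^ 2) = d * (4 * X1 ^ 3 + 1) := by linear_combination h6
    exact mul_left_cancel₀ hd.ne_zero this
  apply h2 (-(2 * X1))
  exact ⟨-2 * Z2 ^ 2, by linear_combination (2 : A) * h7⟩

theorem tamagawa_Wt_bad (h3 : IsUnit (3 : A)) (e₀ d : A) (hd : Irreducible d)
    (hβ : 1 + 4 * e₀ = d ^ 3) (h2 : ∀ x : A, ¬ d ∣ x ^ 3 - 2) :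
    tamagawa A (Wt (algebraMap A K e₀)) = 1 := by
  obtain ⟨T, hT, hTm, -⟩ := exists_minimal_T A (Wt (algebraMap A K e₀))
  obtain ⟨u, hu⟩ := exists_u A T (unit_bad A h3 e₀ d hd hβ T hTm)
  have hI : T • Wt (algebraMap A K e₀) =
      (((Wt (algebraMap A K e₀)).minimal A).integralModel A).map (algebraMap A K) := by
    rw [← hT]
    exact (WeierstrassCurve.baseChange_integralModel_eq A _).symm
  obtain ⟨r, hr⟩ := exists_r_unit A h3 e₀ T _ hI u hu
  exact tamagawa_one e₀ T hT u hu r hr (no_sing_bad A e₀ d hd hβ h2)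

end CMT
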