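import Pool.Agent.MP_dfae13_nt.T.TE2

set_option autoImplicit false

open ArithmeticFunction Filter IsDedekindDomain NumberField
open CM27
open scoped ComplexConjugate

namespace CMT

/-! ## [CMT-E3] the Euler factor of `y² + y = x³ + e` at a place of `ℚ(ω)` -/

section place
variable (K : Type) [Field K] [NumberField K] (om : K) (h : om ^ 2 + om + 1 = 0)
  (φ : Eis ≃+* 𝓞 K) (v : HeightOneSpectrum (𝓞 K))

/-- the residue map at `v` -/
noncomputable def rho : Eis →+* IsLocalRing.ResidueField (v.adicCompletionIntegers K) :=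
  ((IsLocalRing.residue (v.adicCompletionIntegers K)).comp
    (algebraMap (𝓞 K) (v.adicCompletionIntegers K))).comp (φ : Eis →+* 𝓞 K)

theorem rho_surj : Function.Surjective (rho K φ v) := by
  intro y
  obtain ⟨x, hx⟩ := (residue_completion K v).1 y
  refine ⟨φ.symm x, ?_⟩
  change ((IsLocalRing.residue (v.adicCompletionIntegers K)).comp
    (algebraMap (𝓞 K) (v.adicCompletionIntegers K))) (φ (φ.symm x)) = y
  rw [φ.apply_symm_apply, hx]

theorem rho_eq_zero {b : Eis} (hv : v.asIdeal = Ideal.span {φ b}) (a : Eis) :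
    rho K φ v a = 0 ↔ b ∣ a := by
  have h1 : rho K φ v a = 0 ↔ φ a ∈ RingHom.ker
      ((IsLocalRing.residue (v.adicCompletionIntegers K)).comp
        (algebraMap (𝓞 K) (v.adicCompletionIntegers K))) := Iff.rfl
  rw [h1, (residue_completion K v).2, hv, Ideal.mem_span_singleton]
  constructor
  · rintro ⟨c, hc⟩
    refine ⟨φ.symm c, ?_⟩
    apply φ.injective
    rw [map_mul, φ.apply_symm_apply, hc]
  · rintro ⟨c, rfl⟩
    exact ⟨φ c, map_mul _ _ _⟩

/-- the image of `𝓞 K` in the completion -/
noncomputable def loA (a : Eis) : v.adicCompletionIntegers K :=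
  algebraMap (𝓞 K) (v.adicCompletionIntegers K) (φ a)

theorem residue_loA (a : Eis) :
    IsLocalRing.residue (v.adicCompletionIntegers K) (loA K φ v a) = rho K φ v a := rfl

theorem baseChange_Wt (hφ : ∀ a, ((φ a : 𝓞 K) : K) = toK om h a) (e : Eis) :
    (Wt (toK om h e)).baseChange (v.adicCompletion K) =
      Wt (algebraMap (v.adicCompletionIntegers K) (v.adicCompletion K) (loA K φ v e)) := by
  have h1 : algebraMap K (v.adicCompletion K) (toK om h e) =
      algebraMap (v.adicCompletionIntegers K) (v.adicCompletion K) (loA K φ v e) := by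
    rw [← hφ e]
    rfl
  unfold WeierstrassCurve.baseChange WeierstrassCurve.map Wt
  simp [h1]

/-- the isomorphism between the squares -/
theorem isSquare_rho {b : Eis} (hv : v.asIdeal = Ideal.span {φ b}) (a : Eis) (ha : ¬ b ∣ a) :
    IsSquare (rho K φ v a) ↔ qr b a = 1 := by
  classical
  rw [qr, if_neg ha]
  constructor
  · rintro ⟨y, hy⟩
    obtain ⟨x, rfl⟩ := rho_surj K φ v y
    rw [if_pos]
    refine ⟨x, (rho_eq_zero K φ v hv _).1 ?_⟩
    rw [map_sub, map_pow, hy]
    ring
  · intro h1
    by_cases h2 : ∃ x, b ∣ x ^ 2 - a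
    · obtain ⟨x, hx⟩ := h2
      refine ⟨rho K φ v x, ?_⟩
      have h3 := (rho_eq_zero K φ v hv _).2 hx
      rw [map_sub, map_pow, sub_eq_zero] at h3
      rw [← h3, sq]
    · rw [if_neg h2] at h1
      exact absurd h1 (by norm_num)

end place

section good
variable (K : Type) [Field K] [NumberField K] (om : K) (h : om ^ 2 + om + 1 = 0)
  (φ : Eis ≃+* 𝓞 K) (hφ : ∀ a, ((φ a : 𝓞 K) : K) = toK om h a) (v : HeightOneSpectrum (𝓞 K))
  (S : Finset Eis) (hS : ∀ b ∈ S, GoodEis b) (u : Eis) (hu : IsUnit u)
  (h4 : (4 : Eis) ∣ u * gS S - 1) (e : Eis) (he : 4 * e + 1 = (u * gS S) ^ 3)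

/-- a primary element does not divide `3` unless it is a unit -/
theorem not_dvd_three {b : Eis} (hb : Primary b) (hbp : Prime b) : ¬ b ∣ 3 := by
  intro h3
  haveI := eis_isDomain
  obtain ⟨t, rfl⟩ : ∃ t : Eis, b = 1 + 3 * t := by
    obtain ⟨t, ht⟩ := hb
    exact ⟨t, by rw [← ht]; ring⟩
  obtain ⟨c, hc⟩ := h3
  apply hbp.not_unit
  refine IsUnit.of_mul_eq_one (1 - c * t) ?_
  linear_combination t * hc

open scoped Classical in
include hS hu h4 he in
/-- the trace of Frobenius of the twist -/
theorem trace_twist (b : Eis) (hb : Primary b) (p f : ℕ) (hp : p.Prime)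
    (hc : (p % 3 = 1 ∧ f = 1 ∧ b.norm = p) ∨ (p % 3 = 2 ∧ f = 2 ∧ b = -(p : Eis)))
    (hbp : Prime b) (hbd : ¬ b ∣ u * gS S) (hv : v.asIdeal = Ideal.span {φ b})
    [Finite (IsLocalRing.ResidueField (v.adicCompletionIntegers K))]
    (hq : Nat.card (IsLocalRing.ResidueField (v.adicCompletionIntegers K)) = p ^ f) :
    ((p : ℂ) ^ f + 1 - (Nat.card (Wt (rho K φ v e)).toAffine.Point : ℂ)) =
      XS S b * (emb b + conj (emb b)) := by
  set k := IsLocalRing.ResidueField (v.adicCompletionIntegers K) with hk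
  have hE := card_E_primary b hb p f hp hc k hq
  have h3' := not_dvd_three hb hbp
  set d : Eis := u * gS S with hd
  have h3k : (3 : k) ≠ 0 := by
    intro h5
    apply h3'
    rw [← rho_eq_zero K φ v hv]
    rw [map_ofNat]
    exact h5
  have hdk : rho K φ v d ≠ 0 := fun h5 => hbd ((rho_eq_zero K φ v hv _).1 h5)
  have hek : 4 * rho K φ v e + 1 = (rho K φ v d) ^ 3 := by
    rw [← map_pow, ← he, map_add, map_mul, map_one, map_ofNat]
  by_cases hp2 : p = 2
  · -- the place above `2`
    subst hp2
    have hc2 : f = 2 ∧ b = -2 := by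
      rcases hc with hc | hc
      · exact absurd hc.1 (by norm_num)
      · exact ⟨hc.2.1, by rw [hc.2.2]; norm_num⟩
    obtain ⟨rfl, rfl⟩ := hc2
    obtain ⟨t, ht⟩ := h4
    have hdt : 4 * t + 1 = d := by rw [← ht]; ring
    have he2 : (2 : Eis) ∣ e - t := e_mod_two d e t he hdt
    have him : d.im = 4 * t.im := by
      rw [← hdt, QuadraticAlgebra.im_add, QuadraticAlgebra.im_one, add_zero,
        QuadraticAlgebra.im_mul]
      have h5 : (4 : Eis).re = 4 := rfl
      have h6 : (4 : Eis).im = 0 := rfl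
      rw [h5, h6]
      ring
    have hiff : (∃ y : k, y ^ 2 + y = rho K φ v e) ↔ (8 : ℤ) ∣ d.im := by
      rw [him]
      constructor
      · rintro ⟨y, hy⟩
        obtain ⟨x, rfl⟩ := rho_surj K φ v y
        have h5 : rho K φ v (x ^ 2 + x - e) = 0 := by
          rw [map_sub, map_add, map_pow, hy, sub_self]
        rw [rho_eq_zero K φ v hv, neg_dvd] at h5
        have h6 : (2 : Eis) ∣ x ^ 2 + x - t := by
          have h7 := dvd_add h5 he2
          have h8 : x ^ 2 + x - e + (e - t) = x ^ 2 + x - t := by ring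
          rwa [h8] at h7
        have h7 := (artin_schreier t).1 ⟨x, h6⟩
        omega
      · intro h5
        have h6 : (2 : ℤ) ∣ t.im := by omega
        obtain ⟨x, hx⟩ := (artin_schreier t).2 h6
        refine ⟨rho K φ v x, ?_⟩
        rw [← map_pow, ← map_add, ← sub_eq_zero, ← map_sub, rho_eq_zero K φ v hv, neg_dvd]
        have h7 := dvd_sub hx he2
        have h8 : x ^ 2 + x - t - (e - t) = x ^ 2 + x - e := by ring
        rwa [h8] at h7
    rw [XS, XZ_neg_two S hS u hu ⟨t, ht⟩, card_four k (by rw [hq]; norm_num), ← hd]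
    by_cases h8 : (8 : ℤ) ∣ d.im
    · rw [if_pos h8, if_pos (hiff.2 h8), map_neg, map_neg, map_ofNat, map_ofNat]
      norm_num
    · rw [if_neg h8, if_neg (fun h9 => h8 (hiff.1 h9)), map_neg, map_neg, map_ofNat, map_ofNat]
      norm_num
  · -- odd places
    have h2' : ¬ b ∣ 2 := by
      intro h5
      have h6 := a2_norm_dvd h5
      have h7 : ((2 : Eis).norm : ℤ) = 2 ^ 2 := by
        rw [norm_eq]; rfl
      rw [h7] at h6
      have h8 : (p : ℤ) ∣ b.norm := by
        rcases hc with hc | hc
        · rw [hc.2.2]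
        · rw [hc.2.2, norm_eq]
          simp
      have h9 := Int.Prime.dvd_pow' hp (h8.trans h6)
      have h10 : p ∣ 2 := by exact_mod_cast h9
      exact hp2 ((Nat.prime_dvd_prime_iff_eq hp Nat.prime_two).1 h10)
    have h2k : (2 : k) ≠ 0 := by
      intro h5
      apply h2'
      rw [← rho_eq_zero K φ v hv]
      rw [map_ofNat]
      exact h5
    have hT := card_twist k h2k h3k (rho K φ v d) (rho K φ v e) hdk hek
    have hr := recip S hS u hu h4 b hbp h2' hbd
    rw [← hd] at hr
    have hval : qr b d = 1 ∨ qr b d = -1 := by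
      rcases qr_values b d with h5 | h5 | h5
      · exact absurd ((qr_eq_zero b d).1 h5) hbd
      · exact Or.inl h5
      · exact Or.inr h5
    have hT' : ((Nat.card (Wt (rho K φ v e)).toAffine.Point : ℕ) : ℂ) =
        if IsSquare (rho K φ v d) then (Nat.card (E k).toAffine.Point : ℂ)
      else 2 * (Nat.card k + 1) - Nat.card (E k).toAffine.Point := by
      have h5 := congrArg (Int.cast : ℤ → ℂ) hT
      rw [Int.cast_natCast] at h5
      rw [h5]
      split_ifs <;> push_cast <;> rfl
    rw [hT', XS, ← hr]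
    rcases hval with h5 | h5
    · rw [if_pos ((isSquare_rho K φ v hv d hbd).2 h5), h5, hE]
      push_cast
      ring
    · rw [if_neg, h5, hE, hq]
      · push_cast
        ring
      · intro h6
        rw [isSquare_rho K φ v hv d hbd, h5] at h6
        exact absurd h6 (by norm_num)

include hS hu h4 he hφ in
/-- the Euler factor at a place not above `3` -/
theorem loc_place (b : Eis) (hb : Primary b) (p f : ℕ) (hp : p.Prime)
    (hc : (p % 3 = 1 ∧ f = 1 ∧ b.norm = p) ∨ (p % 3 = 2 ∧ f = 2 ∧ b = -(p : Eis)))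
    (hbp : Prime b) (hv : v.asIdeal = Ideal.span {φ b})
    (hq : Nat.card (𝓞 K ⧸ v.asIdeal) = p ^ f) :
    PowerSeries.map (Int.castRingHom ℂ) (loc p (fW K (Wt (toK om h e)) v)) *
      (1 - PowerSeries.C (XS S b * (emb b + conj (emb b))) * PowerSeries.X ^ f +
        PowerSeries.C (XS S b ^ 2 * (p : ℂ) ^ f) * (PowerSeries.X ^ f * PowerSeries.X ^ f)) = 1 := by
  haveI := eis_isDomain
  obtain ⟨hc', hfin⟩ := card_residue K v
  have hf : 0 < f := by rcases hc with hc | hc <;> omega
  have h3v : φ 3 ∉ v.asIdeal := by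
    rw [hv, Ideal.mem_span_singleton]
    rintro ⟨c, hc⟩
    apply not_dvd_three hb hbp
    refine ⟨φ.symm c, φ.injective ?_⟩
    rw [map_mul, φ.apply_symm_apply, hc]
  have hmem : ∀ a : Eis, φ a ∈ v.asIdeal ↔ b ∣ a := by
    intro a
    rw [hv, Ideal.mem_span_singleton]
    constructor
    · rintro ⟨c, hc⟩
      refine ⟨φ.symm c, φ.injective ?_⟩
      rw [map_mul, φ.apply_symm_apply, hc]
    · rintro ⟨c, rfl⟩
      exact ⟨φ c, map_mul _ _ _⟩
  have h3A : IsUnit (3 : v.adicCompletionIntegers K) := by
    have h5 := isUnit_completion' K v (φ 3) h3v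
    rwa [map_ofNat, map_ofNat] at h5
  have heA : 4 * loA K φ v e + 1 = loA K φ v (u * gS S) ^ 3 := by
    unfold loA
    rw [← map_pow, ← map_pow, ← he]
    simp only [map_add, map_mul, map_one, map_ofNat]
  by_cases hbd : b ∣ u * gS S
  · -- bad reduction
    have hbg : b ∣ gS S := (hu.dvd_mul_left).1 hbd
    obtain ⟨c, hgc, hbc⟩ := gS_sq_dvd hS hb hbp hbg
    have hX : XS S b = 0 := by
      rw [XS, (XZ_eq_zero S hS b).2, Int.cast_zero]
      intro hcop
      exact hbp.not_unit (hcop.isUnit_of_dvd' dvd_rfl hbg)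
    have hbA : Irreducible (loA K φ v b) := by
      refine irreducible_completion' K v (φ b) ((hmem b).2 dvd_rfl) ?_
      rw [hv, Ideal.span_singleton_pow, Ideal.mem_span_singleton]
      rintro ⟨x, hx⟩
      have hx' : b = b ^ 2 * φ.symm x := by
        apply φ.injective
        rw [map_mul, map_pow, φ.apply_symm_apply, ← hx]
      apply hbp.not_unit
      refine IsUnit.of_mul_eq_one (φ.symm x) ?_
      have h6 : b * (b * φ.symm x - 1) = 0 := by linear_combination -hx'
      rcases mul_eq_zero.1 h6 with h7 | h7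
      · exact absurd h7 hbp.ne_zero
      · exact sub_eq_zero.1 h7
    have huA : IsUnit (27 * loA K φ v (u * c) ^ 6) := by
      have h27 : (27 : v.adicCompletionIntegers K) = 3 ^ 3 := by norm_num
      rw [h27]
      refine (h3A.pow 3).mul (IsUnit.pow 6 ?_)
      refine isUnit_completion' K v _ ?_
      rw [hmem]
      intro h6
      rw [hu.dvd_mul_left] at h6
      exact hbc h6
    have hpoly := localPoly_twist_bad (v.adicCompletionIntegers K) (v.adicCompletion K)
      (loA K φ v e) (loA K φ v b) _ hbA huA (by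
        rw [heA, hgc]
        unfold loA
        simp only [map_mul]
        ring)
    rw [hX, fW_one K _ v (by rw [baseChange_Wt K om h φ v hφ e]; exact hpoly), loc_one hp]
    simp
  · -- good reduction
    have huA : IsUnit (4 * loA K φ v e + 1) := by
      rw [heA]
      refine IsUnit.pow 3 (isUnit_completion' K v _ ?_)
      rwa [hmem]
    have hq' : Nat.card (IsLocalRing.ResidueField (v.adicCompletionIntegers K)) = p ^ f := by
      rw [hc', hq]
    have hpoly := localPoly_twist (v.adicCompletionIntegers K) (v.adicCompletion K) h3A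
      (loA K φ v e) huA
    rw [residue_loA] at hpoly
    have hXX : XS S b ^ 2 = 1 := by
      have h5 : XZ S b = 1 ∨ XZ S b = -1 := by
        rcases XZ_values S b with h5 | h5 | h5
        · rw [XZ_eq_zero S hS b] at h5
          exfalso
          apply h5
          haveI := eis_pid
          rw [hbp.irreducible.coprime_iff_not_dvd]
          intro h6
          exact hbd (h6.mul_left u)
        · exact Or.inl h5
        · exact Or.inr h5
      rw [XS]
      rcases h5 with h5 | h5 <;> rw [h5] <;> norm_num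
    have h7 := loc_fW K (Wt (toK om h e)) v hp hf _ _ hq'
      (by rw [baseChange_Wt K om h φ v hφ e]; exact hpoly)
    have h8 := trace_twist K φ v S hS u hu h4 e he b hb p f hp hc hbp hbd hv hq'
    rw [hXX, one_mul, ← h8]
    rw [hq'] at h7
    push_cast at h7
    exact h7

include hS hu h4 he hφ in
/-- the Euler factor at the place above `3` -/
theorem loc_place_three (hv : (3 : 𝓞 K) ∈ v.asIdeal) : fW K (Wt (toK om h e)) v = 1 := by
  haveI := eis_isDomain
  haveI := eis_pid
  obtain ⟨h1, h2⟩ := place_three K φ v hv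
  obtain ⟨u3, hu3, h3⟩ := three_eq
  have hl : φ ⟨1, -1⟩ ∈ v.asIdeal := by
    rw [h1]
    exact Ideal.mem_span_singleton_self _
  have hd : φ (u * gS S) ∉ v.asIdeal := by
    rw [map_mul]
    intro h5
    rcases v.isPrime.mem_or_mem h5 with h6 | h6
    · have h7 : IsUnit (φ u) := hu.map φ
      exact v.isPrime.ne_top (Ideal.eq_top_of_isUnit_mem _ h6 h7)
    · obtain ⟨t, ht⟩ := primary_gS S hS
      have h7 : φ (gS S) = 1 + 3 * φ t := by
        have h8 : gS S = 1 + 3 * t := by linear_combination ht
        rw [h8, map_add, map_one, map_mul, map_ofNat]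
      rw [h7] at h6
      have h8 := Ideal.sub_mem _ h6 (Ideal.mul_mem_right (φ t) _ hv)
      rw [add_sub_cancel_right] at h8
      exact v.isPrime.ne_top ((Ideal.eq_top_iff_one _).2 h8)
  have heA : 4 * loA K φ v e + 1 = loA K φ v (u * gS S) ^ 3 := by
    unfold loA
    rw [← map_pow, ← map_pow, ← he]
    simp only [map_add, map_mul, map_one, map_ofNat]
  have hbA : Irreducible (loA K φ v ⟨1, -1⟩) := irreducible_completion' K v _ hl h2
  have huA : IsUnit (loA K φ v (u3 ^ 3 * (u * gS S) ^ 6)) := by
    have h5 : loA K φ v (u3 ^ 3 * (u * gS S) ^ 6) =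
        loA K φ v u3 ^ 3 * loA K φ v (u * gS S) ^ 6 := by
      unfold loA
      simp only [map_mul, map_pow]
    rw [h5]
    refine IsUnit.mul (IsUnit.pow 3 ?_) (IsUnit.pow 6 (isUnit_completion' K v _ hd))
    exact (hu3.map φ).map (algebraMap (𝓞 K) (v.adicCompletionIntegers K))
  have hpoly := localPoly_twist_bad (v.adicCompletionIntegers K) (v.adicCompletion K)
      (loA K φ v e) (loA K φ v ⟨1, -1⟩) _ hbA huA (by
        rw [heA]
        have h5 : (27 : v.adicCompletionIntegers K) = loA K φ v 3 ^ 3 := by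
          unfold loA
          rw [map_ofNat, map_ofNat]
          norm_num
        rw [h5, h3]
        unfold loA
        simp only [map_mul, map_pow]
        ring)
  exact fW_one K _ v (by rw [baseChange_Wt K om h φ v hφ e]; exact hpoly)

end good

end CMT
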