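import Pool.Agent.MP_dfae13_nt.T.J4
import Pool.Agent.MP_dfae13_nt.T.TE3

/-!
# [CMT-J] Tamagawa numbers and Néron factors of the twists over `ℚ(ω)`
-/

set_option autoImplicit false

open Polynomial NumberField IsDedekindDomain CM27
open scoped Classical

namespace CMT

open SBSD

section

variable (K : Type) [Field K] [NumberField K] (om : K) (h : om ^ 2 + om + 1 = 0)
  (φ : Eis ≃+* 𝓞 K) (hφ : ∀ a, ((φ a : 𝓞 K) : K) = toK om h a) (v : HeightOneSpectrum (𝓞 K))

/-- Every place is given by a prime element of `ℤ[ω]`. -/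
theorem exists_gen : ∃ b : Eis, Prime b ∧ v.asIdeal = Ideal.span {φ b} := by
  have := eis_isDomain
  have := eis_pid
  obtain ⟨b, hb⟩ := (IsPrincipalIdealRing.principal (v.asIdeal.comap (φ : Eis →+* 𝓞 K)) :
    (v.asIdeal.comap (φ : Eis →+* 𝓞 K)).IsPrincipal)
  have h1 : v.asIdeal = Ideal.span {φ b} := by
    rw [← Ideal.map_comap_of_surjective (φ : Eis →+* 𝓞 K) φ.surjective v.asIdeal, hb,
      ← Ideal.span, Ideal.map_span, Set.image_singleton]
    rfl
  have h0 : φ b ≠ 0 := by
    intro h0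
    apply v.ne_bot
    rw [h1, h0, Ideal.span_singleton_eq_bot.2 rfl]
  refine ⟨b, ?_, h1⟩
  have h2 : Prime (φ b) := by
    rw [← Ideal.span_singleton_prime h0, ← h1]
    exact v.isPrime
  exact (MulEquiv.prime_iff φ).1 h2

theorem mem_iff_dvd {b : Eis} (hv : v.asIdeal = Ideal.span {φ b}) (a : Eis) :
    φ a ∈ v.asIdeal ↔ b ∣ a := by
  rw [hv, Ideal.mem_span_singleton]
  constructor
  · rintro ⟨c, hc⟩
    refine ⟨φ.symm c, ?_⟩
    apply φ.injective
    rw [map_mul, φ.apply_symm_apply, hc]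
  · rintro ⟨c, rfl⟩
    exact ⟨φ c, map_mul _ _ _⟩

theorem loA_isUnit {b : Eis} (hv : v.asIdeal = Ideal.span {φ b}) (a : Eis) (ha : ¬ b ∣ a) :
    IsUnit (loA K φ v a) :=
  isUnit_completion' K v _ (fun h1 => ha ((mem_iff_dvd K φ v hv a).1 h1))

theorem loA_irreducible {b : Eis} (hb : Prime b) (hv : v.asIdeal = Ideal.span {φ b}) :
    Irreducible (loA K φ v b) := by
  have := eis_isDomain
  refine irreducible_completion' K v _ ((mem_iff_dvd K φ v hv b).2 dvd_rfl) ?_
  rw [hv, Ideal.span_singleton_pow, Ideal.mem_span_singleton, ← map_pow]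
  rintro ⟨c, hc⟩
  have h1 : b = b ^ 2 * φ.symm c := by
    apply φ.injective
    rw [map_mul, φ.apply_symm_apply, ← hc]
  apply hb.not_isUnit
  have h2 : b * (b * φ.symm c) = b * 1 := by rw [mul_one]; linear_combination -h1
  exact IsUnit.of_mul_eq_one _ (mul_left_cancel₀ hb.ne_zero h2)

theorem loA_mul (a b : Eis) : loA K φ v (a * b) = loA K φ v a * loA K φ v b := by
  simp only [loA, map_mul]

theorem loA_dvd {b : Eis} (hb : Prime b) (hv : v.asIdeal = Ideal.span {φ b})
    (x : v.adicCompletionIntegers K) :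
    loA K φ v b ∣ x ↔ IsLocalRing.residue (v.adicCompletionIntegers K) x = 0 := by
  rw [IsLocalRing.residue_eq_zero_iff,
    (IsDiscreteValuationRing.irreducible_iff_uniformizer _).1 (loA_irreducible K φ v hb hv),
    Ideal.mem_span_singleton]

/-- `2` is not a cube modulo a good prime. -/
theorem two_not_cube {b : Eis} (hb : GoodEis b) (hv : v.asIdeal = Ideal.span {φ b})
    (x : v.adicCompletionIntegers K) : ¬ loA K φ v b ∣ x ^ 3 - 2 := by
  obtain ⟨p, hp, hn⟩ := hb.2
  rw [loA_dvd K φ v hb.prime hv]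
  intro hx
  obtain ⟨hc, hfin⟩ := card_residue K v
  have hcard : Nat.card (IsLocalRing.ResidueField (v.adicCompletionIntegers K)) = p := by
    have h1 := ta2_card K φ b
    rw [← hv, ← hc, hn] at h1
    exact_mod_cast h1
  have := Fintype.ofFinite (IsLocalRing.ResidueField (v.adicCompletionIntegers K))
  rw [Nat.card_eq_fintype_card] at hcard
  have E := ZMod.ringEquivOfPrime (IsLocalRing.ResidueField (v.adicCompletionIntegers K))
    hp.1 hcard
  apply hp.2.2
  refine ⟨E.symm (IsLocalRing.residue _ x), ?_⟩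
  rw [map_sub, map_pow, sub_eq_zero] at hx
  rw [← map_pow, hx, map_ofNat, map_ofNat]

theorem prime_one_sub : Prime (⟨1, -1⟩ : Eis) :=
  a3_prime_of_norm 3 Nat.prime_three _ (by rw [norm_eq]; norm_num)

theorem l_eq : (⟨1, 2⟩ : Eis) = ⟨0, 1⟩ * ⟨1, -1⟩ := by
  ext <;> simp

theorem unit_om : IsUnit (⟨0, 1⟩ : Eis) :=
  (eis_isUnit_iff _).2 (by rw [norm_eq]; norm_num)

theorem l_sq : (⟨1, 2⟩ : Eis) ^ 2 = -3 := by
  rw [pow_two]
  ext
  · rw [QuadraticAlgebra.re_neg, QuadraticAlgebra.re_ofNat]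
    simp
  · rw [QuadraticAlgebra.im_neg, QuadraticAlgebra.im_ofNat]
    simp

theorem loA_three : loA K φ v 3 = 3 := by
  unfold loA
  rw [map_ofNat, map_ofNat]

theorem loA_l_sq : loA K φ v ⟨1, 2⟩ ^ 2 = -3 := by
  have h1 := loA_mul K φ v ⟨1, 2⟩ ⟨1, 2⟩
  rw [← pow_two, ← pow_two, l_sq] at h1
  rw [← h1]
  unfold loA
  rw [map_neg, map_neg, map_ofNat, map_ofNat]

/-- The place above `3`. -/
theorem three_cases {b : Eis} (hb : Prime b) (hv : v.asIdeal = Ideal.span {φ b})
    (hb3 : b ∣ 3) : v.asIdeal = Ideal.span {φ ⟨1, -1⟩} ∧ Irreducible (loA K φ v ⟨1, 2⟩) ∧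
      ∀ x : v.adicCompletionIntegers K, loA K φ v ⟨1, 2⟩ ∣ x ^ 3 - x := by
  have h3 : (3 : 𝓞 K) ∈ v.asIdeal := by
    have h1 := (mem_iff_dvd K φ v hv 3).2 hb3
    rwa [map_ofNat] at h1
  have hv' := (place_three K φ v h3).1
  have hirr := loA_irreducible K φ v prime_one_sub hv'
  have hu : IsUnit (loA K φ v ⟨0, 1⟩) := by
    have h1 : IsUnit (φ ⟨0, 1⟩) := unit_om.map φ
    exact h1.map (algebraMap (𝓞 K) (v.adicCompletionIntegers K))
  have hl : loA K φ v ⟨1, 2⟩ = loA K φ v ⟨0, 1⟩ * loA K φ v ⟨1, -1⟩ := by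
    rw [l_eq, loA_mul]
  refine ⟨hv', ?_, ?_⟩
  · rw [hl]
    exact (irreducible_isUnit_mul hu).2 hirr
  · intro x
    rw [hl]
    have h2 : loA K φ v ⟨1, -1⟩ ∣ x ^ 3 - x := by
      rw [loA_dvd K φ v prime_one_sub hv']
      obtain ⟨hc, hfin⟩ := card_residue K v
      have hcard : Nat.card (IsLocalRing.ResidueField (v.adicCompletionIntegers K)) = 3 := by
        have h1 := ta2_card K φ ⟨1, -1⟩
        rw [← hv', ← hc] at h1
        have h4 : (⟨1, -1⟩ : Eis).norm = 3 := by rw [norm_eq]; norm_num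
        rw [h4] at h1
        exact_mod_cast h1
      have := Fintype.ofFinite (IsLocalRing.ResidueField (v.adicCompletionIntegers K))
      rw [Nat.card_eq_fintype_card] at hcard
      rw [map_sub, map_pow, sub_eq_zero, ← hcard]
      exact FiniteField.pow_card _
    exact (hu.mul_left_dvd).2 h2

end

section

variable (K : Type) [Field K] [NumberField K] (om : K) (h : om ^ 2 + om + 1 = 0)
  (φ : Eis ≃+* 𝓞 K) (hφ : ∀ a, ((φ a : 𝓞 K) : K) = toK om h a) (v : HeightOneSpectrum (𝓞 K))
  (S : Finset Eis) (hS : ∀ b ∈ S, GoodEis b) (u : Eis) (hu : IsUnit u)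
  (e : Eis) (he : 4 * e + 1 = (u * gS S) ^ 3)

include he in
theorem loA_beta : 1 + 4 * loA K φ v e = loA K φ v (u * gS S) ^ 3 := by
  have h1 : loA K φ v (4 * e + 1) = loA K φ v ((u * gS S) ^ 3) := by rw [he]
  unfold loA at h1 ⊢
  rw [map_add, map_mul, map_one, map_add, map_mul, map_one, map_pow, map_pow, map_ofNat,
    map_ofNat] at h1
  rw [← h1]
  ring

include hS hu he in
/-- The three kinds of places. -/
theorem place_cases :
    (IsUnit (3 : v.adicCompletionIntegers K) ∧ IsUnit (1 + 4 * loA K φ v e)) ∨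
    (IsUnit (3 : v.adicCompletionIntegers K) ∧ Irreducible (loA K φ v (u * gS S)) ∧
      ∀ x, ¬ loA K φ v (u * gS S) ∣ x ^ 3 - 2) ∨
    ((3 : 𝓞 K) ∈ v.asIdeal ∧ Irreducible (loA K φ v ⟨1, 2⟩) ∧
      IsUnit (loA K φ v (u * gS S)) ∧ ∀ x, loA K φ v ⟨1, 2⟩ ∣ x ^ 3 - x) := by
  have := eis_isDomain
  obtain ⟨b, hb, hv⟩ := exists_gen K φ v
  have hβ := loA_beta K φ v S u e he
  have hnot3 : ∀ b' ∈ S, ¬ b ∣ b' ∨ ¬ b ∣ 3 := by
    intro b' hb'
    by_contra hcon
    push Not at hcon
    obtain ⟨h1, h2⟩ := hcon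
    -- b associated to b'
    have h3 : b' ∣ b := by
      obtain ⟨c, hc⟩ := h1
      rcases (hS b' hb').prime.irreducible.isUnit_or_isUnit hc with h4 | h4
      · exact absurd h4 hb.not_isUnit
      · obtain ⟨c', hc'⟩ := h4.exists_right_inv
        exact ⟨c', by rw [hc]; linear_combination (-b) * hc'⟩
    exact not_dvd_three (hS b' hb').1 (hS b' hb').prime (h3.trans h2)
  by_cases hd : b ∣ u * gS S
  · right; left
    have h1 : b ∣ gS S := by
      obtain ⟨c, hc⟩ := hd
      obtain ⟨u', hu'⟩ := hu.exists_left_inv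
      exact ⟨u' * c, by linear_combination u' * hc - gS S * hu'⟩
    obtain ⟨b', hb', h2⟩ := (Prime.dvd_finsetProd_iff hb _).1 h1
    have h2' : b ∣ b' := h2
    have h3 : ¬ b ∣ 3 := (hnot3 b' hb').resolve_left (fun h => h h2')
    have hunit3 : IsUnit (3 : v.adicCompletionIntegers K) := by
      have := loA_isUnit K φ v hv 3 h3
      rwa [loA_three] at this
    have hbb : Associated b b' := by
      refine (Irreducible.associated_of_dvd hb.irreducible (hS b' hb').prime.irreducible h2')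
    have hv' : v.asIdeal = Ideal.span {φ b'} := by
      rw [hv]
      exact Ideal.span_singleton_eq_span_singleton.2 (hbb.map φ)
    obtain ⟨c, hc, hbc⟩ := gS_sq_dvd hS (hS b' hb').1 (hS b' hb').prime
      (Finset.dvd_prod_of_mem (fun x => x) hb')
    have hucu : IsUnit (loA K φ v (u * c)) := by
      refine loA_isUnit K φ v hv' _ ?_
      intro h4
      rcases (hS b' hb').prime.dvd_or_dvd h4 with h5 | h5
      · exact (hS b' hb').prime.not_isUnit (isUnit_of_dvd_unit h5 hu)
      · exact hbc h5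
    have heq : loA K φ v (u * gS S) = loA K φ v (u * c) * loA K φ v b' := by
      rw [← loA_mul, hc]
      congr 1
      ring
    refine ⟨hunit3, ?_, ?_⟩
    · rw [heq]
      exact (irreducible_isUnit_mul hucu).2 (loA_irreducible K φ v (hS b' hb').prime hv')
    · intro x hx
      rw [heq] at hx
      exact two_not_cube K φ v (hS b' hb') hv' x ((hucu.mul_left_dvd).1 hx)
  · have hdu := loA_isUnit K φ v hv _ hd
    by_cases h3 : b ∣ 3
    · right; right
      obtain ⟨hv', hirr, hF⟩ := three_cases K φ v hb hv h3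
      refine ⟨?_, hirr, hdu, hF⟩
      have h1 := (mem_iff_dvd K φ v hv 3).2 h3
      rwa [map_ofNat] at h1
    · left
      have := loA_isUnit K φ v hv 3 h3
      rw [loA_three] at this
      exact ⟨this, by rw [hβ]; exact hdu.pow 3⟩

include hS hu he hφ in
theorem tam_Wt : tam (Wt (toK om h e)) v = 1 ∨
    ((3 : 𝓞 K) ∈ v.asIdeal ∧ tam (Wt (toK om h e)) v = 3) := by
  unfold tam
  rw [baseChange_Wt K om h φ v hφ e]
  rcases place_cases K φ v S hS u hu e he with ⟨h3, h1⟩ | ⟨h3, h1, h2⟩ | ⟨h3, h1, h2, h4⟩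
  · exact Or.inl (tamagawa_Wt_good _ h3 _ h1)
  · exact Or.inl (tamagawa_Wt_bad _ h3 _ _ h1 (loA_beta K φ v S u e he) h2)
  · rcases tamagawa_Wt_three (K := v.adicCompletion K) _ _ _ h1 (loA_l_sq K φ v) h2 (loA_beta K φ v S u e he) h4
      with h5 | h5
    · exact Or.inl h5
    · exact Or.inr ⟨h3, h5⟩

include hS hu he hφ in
theorem neron_Wt : neron (Wt (toK om h e)) v = 1 := by
  have hu : (IsDiscreteValuationRing.maximalIdeal (v.adicCompletionIntegers K)).valuation
      (v.adicCompletion K) (((((Wt (toK om h e)).baseChange (v.adicCompletion K)).exists_isMinimal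
        (v.adicCompletionIntegers K)).choose.u : (v.adicCompletion K)ˣ) : v.adicCompletion K)
        = 1 := by
    have hmin := (((Wt (toK om h e)).baseChange (v.adicCompletion K)).exists_isMinimal
        (v.adicCompletionIntegers K)).choose_spec
    generalize (((Wt (toK om h e)).baseChange (v.adicCompletion K)).exists_isMinimal
        (v.adicCompletionIntegers K)).choose = T at hmin ⊢
    rw [baseChange_Wt K om h φ v hφ e] at hmin
    rcases place_cases K φ v S hS u hu e he with ⟨h3, h1⟩ | ⟨h3, h1, h2⟩ | ⟨h3, h1, h2, h4⟩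
    · exact unit_good _ h3 _ h1 T hmin
    · exact unit_bad _ h3 _ _ h1 (loA_beta K φ v S u e he) T hmin
    · refine unit_three _ _ h1 (loA_l_sq K φ v) _ ?_ T hmin
      rw [loA_beta K φ v S u e he]
      exact h2.pow 3
  unfold neron
  generalize (((((Wt (toK om h e)).baseChange (v.adicCompletion K)).exists_isMinimal
        (v.adicCompletionIntegers K)).choose.u : (v.adicCompletion K)ˣ) : v.adicCompletion K) = u
        at hu ⊢
  have hmem : u ∈ MonoidHom.mker ((IsDiscreteValuationRing.maximalIdeal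
      (v.adicCompletionIntegers K)).valuation (v.adicCompletion K)) := hu
  rw [IsDiscreteValuationRing.mker_valuation_eq_isUnitSubmonoid] at hmem
  obtain ⟨u₀, hu₀, rfl⟩ := hmem
  have hu₀' : IsUnit u₀ := hu₀
  rw [HeightOneSpectrum.adicCompletionIntegers.isUnit_iff_valued_eq_one] at hu₀'
  rw [inv_eq_one]
  have h1 : algebraMap (v.adicCompletionIntegers K) (v.adicCompletion K) u₀ =
      (u₀ : v.adicCompletion K) := rfl
  rw [h1, FinitePlace.norm_def, hu₀', map_one]
  rfl

include hS hu he hφ in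
theorem finprod_neron_Wt :
    ∏ᶠ v : HeightOneSpectrum (𝓞 K), neron (Wt (toK om h e)) v = 1 := by
  simp only [neron_Wt K om h φ hφ _ S hS u hu e he, finprod_one]

include hS hu he hφ in
theorem finprod_tam_Wt :
    ∏ᶠ v : HeightOneSpectrum (𝓞 K), tam (Wt (toK om h e)) v = 1 ∨
    ∏ᶠ v : HeightOneSpectrum (𝓞 K), tam (Wt (toK om h e)) v = 3 := by
  by_cases hall : ∀ v : HeightOneSpectrum (𝓞 K), tam (Wt (toK om h e)) v = 1
  · left
    simp only [hall, finprod_one]
  · right
    push Not at hall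
    obtain ⟨v, hv⟩ := hall
    have h1 := (tam_Wt K om h φ hφ v S hS u hu e he).resolve_left hv
    rw [finprod_eq_single _ v ?_]
    · exact h1.2
    · intro v' hne
      rcases tam_Wt K om h φ hφ v' S hS u hu e he with h2 | h2
      · exact h2
      · exfalso
        apply hne
        have e1 := (place_three K φ v h1.1).1
        have e2 := (place_three K φ v' h2.1).1
        exact HeightOneSpectrum.ext (e2.trans e1.symm)

end

end CMT
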