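import Pool.Agent.MP_dfae13_nt.T.Q3
import Pool.Agent.MP_dfae13_nt.T.HF

/-!
# [CMT-Q] rationality of the quotient, part 4
-/

set_option autoImplicit false

open scoped ComplexConjugate
open Filter Topology NumberField

namespace CMT

open CM27

/-- An automorphism fixing `w` acts on `t t̄` and on `√N` by the same sign. -/
theorem q4_gal (S : Finset Eis) (hS : ∀ b ∈ S, GoodEis b) (σ : ℂ ≃+* ℂ) (hσ : σ w = w) :
    ∃ ε : ℂ, (ε = 1 ∨ ε = -1) ∧
      σ (SX (gS S) (XS S) lx * conj (SX (gS S) (XS S) lx)) =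
        ε * (SX (gS S) (XS S) lx * conj (SX (gS S) (XS S) lx)) ∧
      σ (q3P S) = ε * q3P S := by
  obtain ⟨hprim, hodd⟩ := h_gS S hS
  have hQ := isQ_XS S hS
  have hodds : Odd (star (gS S)).norm := by rw [QuadraticAlgebra.norm_star]; exact hodd
  have hg0 := h_ne hodd
  set N : ℕ := (gS S).norm.natAbs with hNdef
  have hpos : 0 < 3 * N := (h_odd_abs hodd).pos
  have hN0 : ((3 * N : ℕ) : ℂ) ≠ 0 := by exact_mod_cast hpos.ne'
  obtain ⟨u, u', huu, ⟨v, hv⟩, hc⟩ := gal_fix (3 * N) hpos (dvd_mul_right _ _) σ hσ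
  have hgN : gS S ∣ ((3 * N : ℕ) : Eis) := by
    refine ⟨3 * star (gS S), ?_⟩
    push_cast
    rw [hNdef, h_natAbs, a2_cast_norm]
    ring
  have hgsN : star (gS S) ∣ ((3 * N : ℕ) : Eis) := by
    refine ⟨3 * gS S, ?_⟩
    push_cast
    rw [hNdef, h_natAbs, a2_cast_norm]
    ring
  have hcopg : ∀ g, g ∣ ((3 * N : ℕ) : Eis) → IsCoprime u g := by
    intro g hg
    obtain ⟨k, hk⟩ := hg.trans huu
    exact ⟨u', -k, by linear_combination hk⟩
  have hu : u = 1 + 3 * v := by linear_combination hv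
  have e1 := q3_gal hQ hodd (σ : ℂ →+* ℂ) u v hu (hcopg _ hgN) hc
  have e2 := q3_gal hQ.star hodds (σ : ℂ →+* ℂ) u v hu (hcopg _ hgsN) (by
    rw [QuadraticAlgebra.norm_star]; exact hc)
  have hconj := SX_conj hQ hg0
  have h1 : SX (star (gS S)) (fun a => XS S (star a)) lx =
      -conj (SX (gS S) (XS S) lx) := by
    rw [hconj, neg_neg]
  rw [h1, map_neg] at e2
  have e3 : (σ : ℂ →+* ℂ) (conj (SX (gS S) (XS S) lx)) =
      XS S (star u) * conj (SX (gS S) (XS S) lx) := by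
    linear_combination -e2
  -- the points of order `b`
  have hpt : ∀ b : Eis, b ∣ ((3 * N : ℕ) : Eis) → ∀ c : Eis,
      ptMap (σ : ℂ →+* ℂ) (pt (emb c / emb b)) = pt (emb (c * u) / emb b) := by
    rintro b ⟨k, hk⟩ c
    have hbk : emb b * emb k = ((3 * N : ℕ) : ℂ) := by
      rw [← map_mul, ← hk, map_natCast]
    have hb0 : emb b ≠ 0 := by
      intro h0
      rw [h0, zero_mul] at hbk
      exact hN0 hbk.symm
    have hk0 : emb k ≠ 0 := by
      intro h0
      rw [h0, mul_zero] at hbk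
      exact hN0 hbk.symm
    have h2 : ∀ c : Eis, emb (c * k) / ((3 * N : ℕ) : ℂ) = emb c / emb b := by
      intro c
      rw [← hbk, map_mul]
      field_simp
    have h3 := hc (c * k)
    have h4 : c * k * u = c * u * k := by ring
    rw [h4, h2, h2] at h3
    exact h3
  have e4 := q3P_gal S hS (σ : ℂ →+* ℂ) u (fun b hb c => by
    have hbg : b ∣ gS S := Finset.dvd_prod_of_mem (fun x => x) hb
    have hbgs : star b ∣ star (gS S) := by
      obtain ⟨t, ht⟩ := hbg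
      exact ⟨star t, by rw [← star_mul', ← ht]⟩
    exact ⟨hpt b (hbg.trans hgN) c, hpt (star b) (hbgs.trans hgsN) c⟩)
  refine ⟨XS S u * XS S (star u), ?_, ?_, e4⟩
  · have hcs : IsCoprime (star u) (gS S) := by
      rw [← h_star_cop, star_star]
      exact hcopg _ hgsN
    rcases hQ.val u with h5 | h5 | h5
    · exact absurd (hcopg _ hgN) ((hQ.zero _).1 h5)
    · rcases hQ.val (star u) with h6 | h6 | h6
      · exact absurd hcs ((hQ.zero _).1 h6)
      · rw [h5, h6]; left; norm_num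
      · rw [h5, h6]; right; norm_num
    · rcases hQ.val (star u) with h6 | h6 | h6
      · exact absurd hcs ((hQ.zero _).1 h6)
      · rw [h5, h6]; right; norm_num
      · rw [h5, h6]; left; norm_num
  · change (σ : ℂ →+* ℂ) _ = _
    rw [map_mul, e1, e3]
    ring

/-- **Rationality.** -/
theorem q4_rational (S : Finset Eis) (hS : ∀ b ∈ S, GoodEis b) (hN4 : (gS S).norm % 4 = 1) :
    ∃ q : ℚ, (‖SX (gS S) (XS S) lx‖ ^ 2 * √((gS S).norm : ℝ)) = (q : ℝ) := by
  obtain ⟨hprim, hodd⟩ := h_gS S hS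
  have hQ := isQ_XS S hS
  have hodds : Odd (star (gS S)).norm := by rw [QuadraticAlgebra.norm_star]; exact hodd
  have hg0 := h_ne hodd
  obtain ⟨r, hr0, hr, hr2⟩ := q3P_sq S hS
  obtain ⟨k, hk⟩ := q3_parity S hS hN4
  have hNpos : (0 : ℝ) < ((gS S).norm : ℝ) := by exact_mod_cast a1_norm_pos hg0
  -- `√N`
  have hsqrt : r * ((gS S).norm : ℝ) * √((gS S).norm : ℝ) = 27 ^ k := by
    have h1 : (r * ((gS S).norm : ℝ) * √((gS S).norm : ℝ)) ^ 2 = ((27 : ℝ) ^ k) ^ 2 := by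
      rw [mul_pow, Real.sq_sqrt hNpos.le, ← pow_mul, mul_comm k 2, two_mul, ← hk, ← hr2]
      ring
    exact (pow_left_inj₀ (by positivity) (by positivity) (by norm_num)).1 h1
  set t := SX (gS S) (XS S) lx with ht
  set s : ℝ := √((gS S).norm : ℝ) with hs
  have hsC : (r : ℂ) * ((gS S).norm : ℂ) * (s : ℂ) = 27 ^ k := by exact_mod_cast congrArg (fun x : ℝ => (x : ℂ)) hsqrt
  have hrC : (r : ℂ) ≠ 0 := by exact_mod_cast hr0.ne'
  have hNC : ((gS S).norm : ℂ) ≠ 0 := by exact_mod_cast hNpos.ne'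
  have halg : IsAlgebraic ℚ t := SX_lx_alg hQ hodd
  have halg' : IsAlgebraic ℚ (conj t) := by
    rw [ht, SX_conj hQ hg0]
    exact (SX_lx_alg hQ.star hodds).neg
  have hsalg : IsAlgebraic ℚ (s : ℂ) := by
    refine ⟨Polynomial.X ^ 2 - Polynomial.C (((gS S).norm : ℚ)), ?_, ?_⟩
    · exact Polynomial.X_pow_sub_C_ne_zero (by norm_num) _
    · rw [map_sub, map_pow, Polynomial.aeval_X, Polynomial.aeval_C, ← Complex.ofReal_pow, hs,
        Real.sq_sqrt hNpos.le]
      simp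
  -- the number
  have hfix : ∀ σ : ℂ ≃+* ℂ, σ w = w → σ (t * conj t * (s : ℂ)) = t * conj t * (s : ℂ) := by
    intro σ hσ
    obtain ⟨ε, hε, e1, e2⟩ := q4_gal S hS σ hσ
    rw [hr] at e2
    have hεε : ε * ε = 1 := by rcases hε with h | h <;> rw [h] <;> norm_num
    have e3 : σ (s : ℂ) = ε * s := by
      have h1 := congrArg σ hsC
      rw [map_mul, map_mul, map_intCast, map_pow, map_ofNat, e2, ← hsC] at h1
      have h2 : ε * σ (s : ℂ) = s := by
        apply mul_left_cancel₀ (mul_ne_zero hrC hNC)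
        linear_combination h1
      linear_combination ε * h2 - σ (s : ℂ) * hεε
    rw [map_mul, e1, e3]
    linear_combination (t * conj t * s) * hεε
  have hreal : conj (t * conj t * (s : ℂ)) = t * conj t * (s : ℂ) := by
    rw [map_mul, map_mul, Complex.conj_conj, Complex.conj_ofReal]
    ring
  obtain ⟨q, hq⟩ := fixed_rat (t * conj t * (s : ℂ)) ((halg.mul halg').mul hsalg) (by
    intro σ
    have hx : σ w * σ w = -1 - σ w := by
      rw [← map_mul, w_sq, map_sub, map_neg, map_one]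
    rcases a7_w_cases (σ w) hx with h | h
    · exact hfix σ h
    · have hwc : conj w = -1 - w := by
        apply Complex.ext
        · rw [Complex.conj_re, Complex.sub_re, Complex.neg_re, Complex.one_re, w_re]; norm_num
        · rw [Complex.conj_im, Complex.sub_im, Complex.neg_im, Complex.one_im]; ring
      set τ : ℂ ≃+* ℂ := (starRingAut : ℂ ≃+* ℂ).trans σ with hτ
      have hτa : ∀ x, τ x = σ (conj x) := fun x => rfl
      have hτw : τ w = w := by
        rw [hτa, hwc, map_sub, map_neg, map_one, h, hwc]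
        ring
      have h1 := hfix τ hτw
      rw [hτa, hreal] at h1
      exact h1)
  refine ⟨q, ?_⟩
  have h1 : ((‖t‖ ^ 2 * s : ℝ) : ℂ) = ((q : ℝ) : ℂ) := by
    rw [Complex.mul_conj, Complex.normSq_eq_norm_sq] at hq
    push_cast at hq ⊢
    exact hq.symm
  exact_mod_cast h1

section
variable (K : Type) [Field K] [NumberField K] (om : K) (h : om ^ 2 + om + 1 = 0)
  (φ : Eis ≃+* 𝓞 K) (hφ : ∀ a, ((φ a : 𝓞 K) : K) = toK om h a)
  (S : Finset Eis) (hS : ∀ b ∈ S, GoodEis b) (u : Eis) (hu : IsUnit u)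
  (h4 : (4 : Eis) ∣ u * gS S - 1) (e : Eis) (he : 4 * e + 1 = (u * gS S) ^ 3)

include h4 hu in
theorem q4_norm : (gS S).norm % 4 = 1 := by
  obtain ⟨f, hf⟩ := h4
  have h1 : (u * gS S).norm = (gS S).norm := by
    rw [map_mul, (eis_isUnit_iff u).1 hu, one_mul]
  have h2 : u * gS S = 1 + 4 * f := by linear_combination hf
  have h3 : (1 + 4 * f : Eis).norm = 1 + 4 * (2 * f.re - f.im + 4 * (f.re ^ 2 - f.re * f.im + f.im ^ 2)) := by
    have e1 : (1 + 4 * f : Eis).re = 1 + 4 * f.re := by simp [QuadraticAlgebra.re_ofNat, QuadraticAlgebra.im_ofNat, QuadraticAlgebra.re_one,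
      QuadraticAlgebra.im_one]
    have e2 : (1 + 4 * f : Eis).im = 4 * f.im := by simp [QuadraticAlgebra.re_ofNat, QuadraticAlgebra.im_ofNat, QuadraticAlgebra.re_one,
      QuadraticAlgebra.im_one]
    rw [norm_eq, e1, e2]
    ring
  rw [← h1, h2, h3]
  omega

include hS hu h4 he hφ in
/-- **The value at `1`**: `L(E_d/K, 1) √N(d) = q Om²` with a positive rational number `q` of `2`-adic
valuation `0`. -/
theorem analytic_rat : ∃ Φ : ℂ → ℂ, Differentiable ℂ Φ ∧
    (∀ s : ℂ, 3 / 2 < s.re → LSeriesSummable (fun n => ((Wt (toK om h e)).LFunction n : ℂ)) s ∧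
      Φ s = (Wt (toK om h e)).LSeries s) ∧
    ∃ q : ℚ, 0 < q ∧ padicValRat 2 q = 0 ∧
      Φ 1 * ((√((gS S).norm : ℝ) : ℝ) : ℂ) = q * (Om : ℂ) ^ 2 := by
  obtain ⟨Φ, hΦ, hs, h1⟩ := analytic_twist K om h φ hφ S hS u hu h4 e he
  obtain ⟨hprim, hodd⟩ := h_gS S hS
  have hg0 := h_ne hodd
  obtain ⟨q₀, hq0, hq2, hq⟩ := TX_rat S hS
  obtain ⟨q₁, hq₁⟩ := q4_rational S hS (q4_norm S u hu h4)
  set t := SX (gS S) (XS S) lx with ht
  have hNpos : (0 : ℝ) < ((gS S).norm : ℝ) := by exact_mod_cast a1_norm_pos hg0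
  have hTX : ‖TX (gS S) (XS S)‖ ^ 2 = Om ^ 2 * ‖t‖ ^ 2 := by
    rw [TX_eq hg0, norm_mul, mul_pow]
    have h5 : ‖OmC‖ = Om := by
      unfold OmC
      rw [norm_mul, Complex.norm_I, one_mul, Complex.norm_real, Real.norm_of_nonneg Om_pos.le]
    rw [h5]
  -- `q₁ ² = q₀ N`
  have hrel : (q₁ : ℝ) ^ 2 = q₀ * ((gS S).norm : ℝ) := by
    have h2 : (‖TX (gS S) (XS S)‖ ^ 2) ^ 2 = q₀ * Om ^ 4 := by exact_mod_cast hq
    rw [hTX] at h2
    rw [← hq₁, mul_pow, Real.sq_sqrt hNpos.le]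
    have hOm4 : Om ^ 4 ≠ 0 := pow_ne_zero 4 Om_pos.ne'
    have h3 : (‖t‖ ^ 2) ^ 2 = q₀ := by
      apply mul_right_cancel₀ hOm4
      rw [← h2]
      ring
    rw [h3]
  have hrel' : q₁ ^ 2 = q₀ * ((gS S).norm : ℚ) := by exact_mod_cast hrel
  have hNQ : ((gS S).norm : ℚ) ≠ 0 := by exact_mod_cast hNpos.ne'
  have hq₁0 : q₁ ≠ 0 := by
    rintro rfl
    have : q₀ * ((gS S).norm : ℚ) = 0 := by rw [← hrel']; norm_num
    exact mul_ne_zero hq0 hNQ this
  have hoddval : ∀ n : ℤ, Odd n → padicValRat 2 (n : ℚ) = 0 := by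
    intro n hn
    rw [padicValRat.of_int, padicValInt.eq_zero_of_not_dvd, Nat.cast_zero]
    intro h2
    exact (Int.not_even_iff_odd.2 hn) (even_iff_two_dvd.2 h2)
  have hv₁ : padicValRat 2 q₁ = 0 := by
    have h2 := congrArg (padicValRat 2) hrel'
    rw [padicValRat.mul hq0 hNQ, hq2, hoddval _ hodd, padicValRat.pow] at h2
    push_cast at h2
    omega
  have hq₁pos : 0 < q₁ := by
    have h2 : (0 : ℝ) ≤ q₁ := by rw [← hq₁]; positivity
    have h3 : (0 : ℚ) ≤ q₁ := by exact_mod_cast h2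
    exact lt_of_le_of_ne h3 (Ne.symm hq₁0)
  obtain ⟨ε, hε, hε2⟩ : ∃ ε : ℤ, XS S (-2) = ε ∧ (ε = 1 ∨ ε = -1) := by
    rcases XS_neg_two S hS u hu h4 with h2 | h2
    · exact ⟨1, by rw [h2]; simp, Or.inl rfl⟩
    · exact ⟨-1, by rw [h2]; simp, Or.inr rfl⟩
  have hεodd : Odd (9 * (gS S).norm * (2 + ε) ^ 2) := by
    refine Odd.mul (Odd.mul (by decide) hodd) (Odd.pow ?_)
    rcases hε2 with h2 | h2 <;> rw [h2] <;> decide
  have hεpos : 0 < 9 * (gS S).norm * (2 + ε) ^ 2 := by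
    have h2 : 0 < (gS S).norm := by exact_mod_cast hNpos
    have h3 : (0 : ℤ) < (2 + ε) ^ 2 := by rcases hε2 with h2 | h2 <;> rw [h2] <;> norm_num
    positivity
  refine ⟨Φ, hΦ, hs, q₁ / ((9 * (gS S).norm * (2 + ε) ^ 2 : ℤ) : ℚ), ?_, ?_, ?_⟩
  · exact div_pos hq₁pos (by exact_mod_cast hεpos)
  · rw [padicValRat.div hq₁0 (by exact_mod_cast hεpos.ne'), hv₁, hoddval _ hεodd]
    rfl
  · have hqC : ((‖t‖ ^ 2 * √((gS S).norm : ℝ) : ℝ) : ℂ) = (q₁ : ℂ) := by
      rw [hq₁]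
      push_cast
      rfl
    push_cast at hqC
    have hNC : ((gS S).norm : ℂ) ≠ 0 := by exact_mod_cast hNpos.ne'
    have h2ε : (2 : ℂ) + ε ≠ 0 := by rcases hε2 with h2 | h2 <;> rw [h2] <;> norm_num
    rw [h1, hε, hTX]
    push_cast
    rw [← hqC]
    field_simp

end

end CMT
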