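import Pool.Agent.MP_dfae13_nt.T.J6
import Pool.Agent.MP_dfae13_nt.T.Q4
import Pool.Agent.MP_dfae13_nt.T.FinalDefs

/-!
# [CMT] the assembly, with the rationality of the quotient
-/

set_option autoImplicit false

open Polynomial NumberField IsDedekindDomain CM27 MeasureTheory
open scoped Classical

namespace CMT

open SBSD

/-- **[CMT]** the assembly for one curve. -/
theorem twoPartFormula (K : Type) [Field K] [NumberField K] [IsCyclotomicExtension {3} ℚ K] (om : K)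
    (h : om ^ 2 + om + 1 = 0) (d : Eis) (h4 : (4 : Eis) ∣ d - 1) (hd : Squarefree d)
    (hgood : ∀ p : ℕ, p.Prime → (p : ℤ) ∣ d.norm → GoodPrime p) (e : K)
    (he : 4 * e + 1 = toK om h d ^ 3) (hfin : Finite (Wt e).toAffine.Point)
    (hsha : ∀ (x : SBSD.Sha (Wt e)) (k : ℕ), 2 ^ k • x = 0 → x = 0) :
    SBSD.TwoPartFormula (Wt e) := by
  have hd0 : d ≠ 0 := by
    rintro rfl
    exact not_squarefree_zero hd
  have hNpos : (0 : ℝ) < (d.norm : ℝ) := by exact_mod_cast a1_norm_pos hd0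
  obtain ⟨L, hL1, hL2, q, hq1, hq2, hq3⟩ : ∃ Φ : ℂ → ℂ, Differentiable ℂ Φ ∧
      (∀ s : ℂ, 3 / 2 < s.re → LSeriesSummable (fun n => ((Wt e).LFunction n : ℂ)) s ∧
        Φ s = (Wt e).LSeries s) ∧
      ∃ q : ℚ, 0 < q ∧ padicValRat 2 q = 0 ∧
        Φ 1 * ((√(d.norm : ℝ) : ℝ) : ℂ) = q * (Om : ℂ) ^ 2 := by
    obtain ⟨φ, S, u, e₀, hφ, hS, hu, hdS, he₀, rfl⟩ := exists_setup K om h d h4 hd hgood e he
    have h4' : (4 : Eis) ∣ u * gS S - 1 := by rw [← hdS]; exact h4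
    have hnorm : d.norm = (gS S).norm := by
      rw [hdS, map_mul, (eis_isUnit_iff u).1 hu, one_mul]
    rw [hnorm]
    exact analytic_rat K om h φ hφ S hS u hu h4' e₀ he₀
  have hOm : (Om : ℂ) ≠ 0 := by exact_mod_cast Om_pos.ne'
  have hqC : (q : ℂ) ≠ 0 := by exact_mod_cast hq1.ne'
  have hL3 : L 1 ≠ 0 := by
    intro h0
    rw [h0, zero_mul] at hq3
    exact mul_ne_zero hqC (pow_ne_zero 2 hOm) hq3.symm
  have h1 : analyticOrderAt L 1 = 0 :=
    ((hL1.analyticAt 1).analyticOrderAt_eq_zero).2 hL3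
  have hodd := odd_card K om h d hd e he
  obtain ⟨c, hc, hcodd⟩ : ∃ c : ℕ, ∏ᶠ v : HeightOneSpectrum (𝓞 K), tam (Wt e) v = c ∧ Odd c := by
    rcases finprod_tam_twist K om h d h4 hd hgood e he with h5 | h5
    · exact ⟨1, h5, odd_one⟩
    · exact ⟨3, h5, by decide⟩
  have hN0 : 0 < Nat.card (Wt e).toAffine.Point := by
    rcases Nat.eq_zero_or_pos (Nat.card (Wt e).toAffine.Point) with h0 | h0
    · rw [h0] at hodd
      exact absurd hodd (by decide)
    · exact h0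
  have hN : (Nat.card (Wt e).toAffine.Point : ℚ) ≠ 0 := by exact_mod_cast hN0.ne'
  have hc0' : 0 < c := by
    rcases Nat.eq_zero_or_pos c with h0 | h0
    · rw [h0] at hcodd
      exact absurd hcodd (by decide)
    · exact h0
  have hc0 : (c : ℚ) ≠ 0 := by exact_mod_cast hc0'.ne'
  refine ⟨elliptic_Wt K om h d hd e he, hfin, L, ⟨hL1, hL2⟩, order_eq (Wt e) h1, hL3, hsha,
    q * (Nat.card (Wt e).toAffine.Point : ℚ) ^ 2 / (c : ℚ), ?_, ?_, ?_⟩
  · exact div_pos (mul_pos hq1 (by positivity)) (by exact_mod_cast hc0')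
  · have h5 : padicValRat 2 ((Nat.card (Wt e).toAffine.Point : ℚ) ^ 2) = 0 := by
      have := CM27.padic_two_odd_nat _ (hodd.pow (n := 2))
      exact_mod_cast this
    rw [padicValRat.div (mul_ne_zero hq1.ne' (pow_ne_zero _ hN)) hc0,
      padicValRat.mul hq1.ne' (pow_ne_zero _ hN), h5, CM27.padic_two_odd_nat c hcodd, hq2]
    rfl
  · rw [SBSD.bsdQuotient, hc, card_tors, abs_discr, period_twist K om h d h4 hd hgood e he,
      OmCC_eq]
    have h3C : ((√3 : ℝ) : ℂ) ≠ 0 := by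
      have : (√3 : ℝ) ≠ 0 := by positivity
      exact_mod_cast this
    have hNC : ((√(d.norm : ℝ) : ℝ) : ℂ) ≠ 0 := by
      have : (√(d.norm : ℝ) : ℝ) ≠ 0 := (Real.sqrt_pos.2 hNpos).ne'
      exact_mod_cast this
    have hcC : (c : ℂ) ≠ 0 := by exact_mod_cast hc0
    have hL : L 1 = q * (Om : ℂ) ^ 2 / ((√(d.norm : ℝ) : ℝ) : ℂ) := by
      rw [eq_div_iff hNC]; exact hq3
    rw [hL]
    push_cast
    field_simp

end CMT
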