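import Pool.Agent.MP_dfae13_nt.T.Q1
import Pool.Agent.MP_9ab903_nt.AN.B1
import Pool.Agent.MP_9ab903_nt.AN.A7

/-!
# [CMT-Q] rationality of the quotient, part 2: the Galois action and Gauss' lemma
-/

set_option autoImplicit false

open scoped ComplexConjugate
open Filter Topology

namespace CMT

open CM27

/-- Gauss' lemma for odd functions on `ℤ/p`. -/
theorem q2_gauss (p : ℕ) [Fact p.Prime] (hp2 : p ≠ 2) (a : ℤ) (ha : (a : ZMod p) ≠ 0)
    (g : ZMod p → ℂ) (hodd : ∀ x, g (-x) = -g x) :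
    ∏ n ∈ Finset.Ico 1 (p / 2 + 1), g (a * (n : ZMod p)) =
      (legendreSym p a : ℂ) * ∏ n ∈ Finset.Ico 1 (p / 2 + 1), g (n : ZMod p) := by
  have h1 : ∀ n : ℕ, g (a * (n : ZMod p)) =
      (if p / 2 < ((a : ZMod p) * n).val then -1 else 1) *
        g ((((a : ZMod p) * n).valMinAbs.natAbs : ℕ) : ZMod p) := by
    intro n
    rw [ZMod.natCast_natAbs_valMinAbs]
    split_ifs with h2 h3 h3
    · omega
    · rw [hodd]; ring
    · rw [one_mul]
    · omega
  rw [Finset.prod_congr rfl fun n _ => h1 n, Finset.prod_mul_distrib]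
  have h2 : ∏ n ∈ Finset.Ico 1 (p / 2 + 1), g ((((a : ZMod p) * n).valMinAbs.natAbs : ℕ) : ZMod p) =
      ∏ n ∈ Finset.Ico 1 (p / 2 + 1), g (n : ZMod p) := by
    have h3 := congrArg (fun s : Multiset ℕ => (s.map fun n : ℕ => g (n : ZMod p)).prod)
      (ZMod.Ico_map_valMinAbs_natAbs_eq_Ico_map_id p (a : ZMod p) ha)
    simp only [Multiset.map_map] at h3
    exact h3
  rw [h2]
  congr 1
  rw [ZMod.gauss_lemma hp2 ha, Finset.prod_ite]
  simp

theorem q2_coords (σ : ℂ →+* ℂ) (z v : ℂ) (hz : z ∉ Set.range emb) (h : ptMap σ (pt z) = pt v) :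
    σ (xw z) = xw v ∧ σ (yw z) = yw v := by
  obtain ⟨h1, e1⟩ := pt_of_not_mem z hz
  have hvm : v ∉ Set.range emb := by
    intro hv
    rw [(pt_eq_zero_iff v).2 hv, e1] at h
    exact absurd h (by
      intro h2
      have : (WeierstrassCurve.Affine.Point.some _ _ _ : (E ℂ).toAffine.Point) = .zero := h2
      cases this)
  obtain ⟨h2, e2⟩ := pt_of_not_mem v hvm
  rw [e1, e2] at h
  have h3 : (WeierstrassCurve.Affine.Point.some (σ (xw z)) (σ ((yw z - 1) / 2)) _ :
      (E ℂ).toAffine.Point) = .some (xw v) ((yw v - 1) / 2) h2 := h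
  rw [WeierstrassCurve.Affine.Point.some.injEq] at h3
  obtain ⟨hx, hy⟩ := h3
  rw [map_div₀, map_sub, map_one, map_ofNat] at hy
  exact ⟨hx, by linear_combination 2 * hy⟩

section

variable (b : Eis) (p : ℕ) [hp : Fact p.Prime] (hb : b.norm = p)

include hb in
theorem q2_dvd_int (m : ℤ) : b ∣ (m : Eis) ↔ (p : ℤ) ∣ m := by
  constructor
  · rintro ⟨c, hc⟩
    have h2 := congrArg QuadraticAlgebra.norm hc
    rw [map_mul, hb] at h2
    have h3 : ((m : Eis)).norm = m ^ 2 := by
      rw [norm_eq]; simp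
    rw [h3] at h2
    exact (Nat.prime_iff_prime_int.1 hp.out).dvd_of_dvd_pow ⟨_, h2⟩
  · rintro ⟨k, rfl⟩
    push_cast
    exact Dvd.dvd.mul_right ⟨star b, by rw [a3_mul_star, hb]; simp⟩ _

include hb in
/-- The quadratic residue symbol is a Legendre symbol. -/
theorem q2_qr (u : Eis) (m : ℤ) (h : b ∣ u - (m : Eis)) : qr b u = legendreSym p m := by
  have h0 : b ∣ u ↔ (m : ZMod p) = 0 := by
    rw [ZMod.intCast_zmod_eq_zero_iff_dvd, ← q2_dvd_int b p hb]
    exact ⟨fun h1 => by simpa using dvd_sub h1 h, fun h1 => by simpa using dvd_add h h1⟩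
  unfold qr
  by_cases hm : (m : ZMod p) = 0
  · rw [if_pos (h0.2 hm)]
    exact ((legendreSym.eq_zero_iff p m).2 hm).symm
  · rw [if_neg (fun h1 => hm (h0.1 h1))]
    have h1 : (∃ x, b ∣ x ^ 2 - u) ↔ IsSquare (m : ZMod p) := by
      constructor
      · rintro ⟨x, hx⟩
        obtain ⟨k, hk⟩ := q1_exists_int b p hb x
        have h2 : b ∣ ((k ^ 2 - m : ℤ) : Eis) := by
          have h3 : ((k ^ 2 - m : ℤ) : Eis) = (x ^ 2 - u) + (u - (m : Eis)) -
              (x - (k : Eis)) * (x + (k : Eis)) := by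
            push_cast
            ring
          rw [h3]
          exact dvd_sub (dvd_add hx h) (hk.mul_right _)
        rw [q2_dvd_int b p hb, ← ZMod.intCast_zmod_eq_zero_iff_dvd] at h2
        push_cast at h2
        exact ⟨k, by linear_combination -h2⟩
      · rintro ⟨k, hk⟩
        refine ⟨((k.val : ℤ) : Eis), ?_⟩
        have h2 : ((k.val : ℤ) : Eis) ^ 2 - u = (((k.val : ℤ) ^ 2 - m : ℤ) : Eis) -
            (u - (m : Eis)) := by
          push_cast
          ring
        rw [h2]
        refine dvd_sub ((q2_dvd_int b p hb _).2 ?_) h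
        rw [← ZMod.intCast_zmod_eq_zero_iff_dvd]
        push_cast
        rw [ZMod.natCast_zmod_val, hk]
        ring
    by_cases hs : IsSquare (m : ZMod p)
    · rw [if_pos (h1.2 hs), (legendreSym.eq_one_iff p hm).2 hs]
    · rw [if_neg (fun h2 => hs (h1.1 h2)), (legendreSym.eq_neg_one_iff p).2 hs]

include hb in
/-- **The Galois action on the product over the half system.** -/
theorem q2_gal (hp2 : p ≠ 2) (σ : ℂ →+* ℂ) (u : Eis)
    (hu : ∀ c : Eis, ptMap σ (pt (emb c / emb b)) = pt (emb (c * u) / emb b)) :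
    σ (q1Y b p) = (qr b u : ℂ) * q1Y b p := by
  obtain ⟨m, hm⟩ := q1_exists_int b p hb u
  have hne := q1_ne b p hb
  rw [q2_qr b p hb u m hm]
  have hstep : ∀ n ∈ Finset.Ico 1 (p / 2 + 1), σ (yw ((n : ℂ) / emb b)) =
      yw ((((m : ZMod p) * (n : ZMod p)).val : ℂ) / emb b) := by
    intro n hn
    rw [Finset.mem_Ico] at hn
    have hp1 := hp.out.one_lt
    have hnm := q1_mem0 b p hb n (by omega) (by omega)
    have h1 := hu (n : Eis)
    rw [map_natCast] at h1
    rw [(q2_coords σ _ _ hnm h1).2]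
    obtain ⟨t, ht⟩ := hm
    have h2 : emb ((n : Eis) * u) / emb b = 0 + ((m * n : ℤ) : ℂ) / emb b + emb ((n : Eis) * t) := by
      have h3 := congrArg emb ht
      rw [map_sub, map_mul, map_intCast] at h3
      rw [map_mul, map_mul, map_natCast]
      push_cast
      field_simp
      linear_combination (n : ℂ) * h3
    rw [h2, yw_add, q1_shift_int b p hb 0 _ yw yw_add, zero_add]
    congr 4
    push_cast
    ring
  have hodd : ∀ x : ZMod p, (fun c : ZMod p => yw (((c.val : ℕ) : ℂ) / emb b)) (-x) =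
      -(fun c : ZMod p => yw (((c.val : ℕ) : ℂ) / emb b)) x := by
    intro x
    have h1 := q1_shift_int b p hb 0 (-(x.val : ℤ)) yw yw_add
    have h2 : ((-(x.val : ℤ) : ℤ) : ZMod p) = -x := by
      push_cast
      rw [ZMod.natCast_zmod_val]
    rw [h2, zero_add, zero_add] at h1
    simp only
    rw [← h1, ← yw_neg]
    congr 1
    push_cast
    ring
  by_cases hm0 : (m : ZMod p) = 0
  · -- impossible, both sides: `σ` is injective
    rw [(legendreSym.eq_zero_iff p m).2 hm0]
    exfalso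
    have hp1 := hp.out.one_lt
    have h2p := hp.out.two_le
    have h1 := hstep 1 (by rw [Finset.mem_Ico]; omega)
    have hnm := q1_mem0 b p hb 1 (by norm_num) (by omega)
    have h2 := hu 1
    rw [map_one] at h2
    have h3 : pt (emb (1 * u) / emb b) = 0 := by
      rw [pt_eq_zero_iff]
      have h4 : b ∣ u := by
        have h5 : b ∣ (m : Eis) := by
          rw [q2_dvd_int b p hb, ← ZMod.intCast_zmod_eq_zero_iff_dvd]; exact hm0
        simpa using dvd_add hm h5
      obtain ⟨t, ht⟩ := h4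
      refine ⟨t, ?_⟩
      rw [one_mul, ht, map_mul]
      field_simp
    rw [h3] at h2
    rw [Nat.cast_one] at hnm
    obtain ⟨h5, e5⟩ := pt_of_not_mem _ hnm
    rw [e5] at h2
    exact absurd h2 (by
      intro h6
      have : (WeierstrassCurve.Affine.Point.some _ _ _ : (E ℂ).toAffine.Point) = .zero := h6
      cases this)
  · unfold q1Y
    rw [map_prod, Finset.prod_congr rfl hstep,
      q2_gauss p hp2 m hm0 (fun c : ZMod p => yw (((c.val : ℕ) : ℂ) / emb b)) hodd]
    congr 1
    refine Finset.prod_congr rfl fun n hn => ?_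
    rw [Finset.mem_Ico] at hn
    rw [ZMod.val_cast_of_lt (by omega)]

include hb in
/-- Complex conjugation. -/
theorem q2_conj : q1Y (star b) p = (-1) ^ (p / 2) * conj (q1Y b p) := by
  unfold q1Y
  rw [map_prod]
  have h1 : ∀ n ∈ Finset.Ico 1 (p / 2 + 1), yw ((n : ℂ) / emb (star b)) =
      (-1) * conj (yw ((n : ℂ) / emb b)) := by
    intro n _
    have h2 : (n : ℂ) / emb (star b) = conj ((n : ℂ) / emb b) := by
      rw [map_div₀, Complex.conj_natCast]
      congr 1
      exact CM27.emb_star b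
    rw [h2, yw_conj]
    ring
  rw [Finset.prod_congr rfl h1, Finset.prod_mul_distrib, Finset.prod_const, Nat.card_Ico,
    Nat.add_sub_cancel]

end

end CMT
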