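import Pool.Agent.MP_dfae13_nt.T.Defs
import Pool.Agent.MP_ae0bd0_nt.CM.B7
import Pool.Agent.MP_ae0bd0_nt.CM.A3

set_option autoImplicit false

open CM27

namespace CMT

/-! ## [CMT-F2] infinitely many prime `d` (file TF2.lean) -/

/-- There are infinitely many good primes congruent to `1` modulo `4`. -/
theorem tf2_infinite_good : {p : ℕ | GoodPrime p ∧ p % 4 = 1}.Infinite := by
  intro hfin
  set S := hfin.toFinset with hS
  set P : ℕ := ∏ p ∈ S, p with hP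
  have hmem : ∀ p, p ∈ S ↔ GoodPrime p ∧ p % 4 = 1 := by
    intro p; rw [hS, Set.Finite.mem_toFinset]; rfl
  have hPodd : Odd P := by
    rw [hP]
    apply Finset.prod_induction _ Odd (fun a b => Odd.mul) odd_one
    intro p hp
    have h := (hmem p).1 hp
    rw [Nat.odd_iff]
    have := h.2
    omega
  obtain ⟨k, hk⟩ := hPodd
  set n : ℤ := 3 * (P : ℤ) with hn
  have hnorm : (⟨1 - n ^ 2, - n ^ 2⟩ : Eis).norm = n ^ 4 - n ^ 2 + 1 := by
    rw [norm_eq]; ring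
  have hprim : Primary (⟨1 - n ^ 2, - n ^ 2⟩ : Eis) := by
    rw [primary_iff]
    dsimp only
    have h9 : n ^ 2 = 3 * (3 * (P : ℤ) ^ 2) := by rw [hn]; ring
    omega
  have hnodd : ∃ j : ℤ, n = 2 * j + 1 := by
    refine ⟨3 * k + 1, ?_⟩
    have hk' : (P : ℤ) = 2 * k + 1 := by exact_mod_cast hk
    rw [hn, hk']; ring
  obtain ⟨j, hj⟩ := hnodd
  have hodd : Odd (⟨1 - n ^ 2, - n ^ 2⟩ : Eis).norm := by
    rw [hnorm, hj]
    refine ⟨8 * j ^ 4 + 16 * j ^ 3 + 10 * j ^ 2 + 2 * j, ?_⟩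
    ring
  have hgood : ∀ p : ℕ, GoodPrime p → ¬ (p : ℤ) ∣ (⟨1 - n ^ 2, - n ^ 2⟩ : Eis).norm := by
    intro p hp hd
    rw [hnorm] at hd
    have hpn : ¬ (p : ℤ) ∣ n := by
      intro hpn
      have h1 : (p : ℤ) ∣ 1 := by
        have h2 : (1 : ℤ) = (n ^ 4 - n ^ 2 + 1) - n * (n ^ 3 - n) := by ring
        rw [h2]
        exact dvd_sub hd (Dvd.dvd.mul_right hpn _)
      have h3 := Int.eq_one_of_dvd_one (by positivity) h1
      have h4 := hp.1.one_lt
      omega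
    have : Fact p.Prime := ⟨hp.1⟩
    have hn0 : (n : ZMod p) ≠ 0 := by
      intro h0
      exact hpn ((ZMod.intCast_zmod_eq_zero_iff_dvd _ p).1 h0)
    have h5 : ((n : ZMod p) ^ 2 - 1) ^ 2 = - (n : ZMod p) ^ 2 := by
      have := (ZMod.intCast_zmod_eq_zero_iff_dvd _ p).2 hd
      push_cast at this
      linear_combination this
    have h6 : p % 4 ≠ 3 := ZMod.mod_four_ne_three_of_sq_eq_neg_sq' hn0 h5
    have h7 : p % 2 = 1 := by
      rcases hp.1.eq_two_or_odd with h | h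
      · exfalso
        have := hp.2.1
        omega
      · exact h
    have h8 : p % 4 = 1 := by omega
    have hpP : (p : ℤ) ∣ (P : ℤ) := by
      exact_mod_cast Finset.dvd_prod_of_mem (fun p => p) ((hmem p).2 ⟨hp, h8⟩)
    exact hpn (hn ▸ Dvd.dvd.mul_left hpP _)
  obtain ⟨c, hc⟩ := b7_key _ _ hprim rfl hodd hgood
  have h5 := congrArg QuadraticAlgebra.im hc
  have h3 : (2 : Eis).re = 2 := rfl
  have h4 : (2 : Eis).im = 0 := rfl
  simp only [QuadraticAlgebra.im_sub, QuadraticAlgebra.im_mul, QuadraticAlgebra.im_one, h3, h4] at h5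
  rw [hj] at h5
  have h6 : (2 * j + 1) ^ 2 = 2 * (2 * j ^ 2 + 2 * j) + 1 := by ring
  omega

theorem tf2_four_dvd (a : Eis) (h1 : (4 : ℤ) ∣ a.re - 1) (h2 : (4 : ℤ) ∣ a.im) :
    (4 : Eis) ∣ a - 1 := by
  obtain ⟨c, hc⟩ := h1
  obtain ⟨d, hd⟩ := h2
  have h3 : (4 : Eis).re = 4 := rfl
  have h4 : (4 : Eis).im = 0 := rfl
  refine ⟨⟨c, d⟩, ?_⟩
  ext
  · simp [h3, h4, QuadraticAlgebra.re_one, hc]
  · simp [h3, h4, QuadraticAlgebra.im_one, hd]

/-- an element of norm `1 mod 4` has a unit multiple congruent to `1` modulo `4` -/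
theorem tf2_unit (a : Eis) (h : a.norm % 4 = 1) :
    ∃ u : Eis, IsUnit u ∧ (4 : Eis) ∣ u * a - 1 := by
  have key : ∀ x y : ℤ, x ^ 2 - x * y + y ^ 2 = 1 →
      (4 : ℤ) ∣ (x * a.re - y * a.im) - 1 → (4 : ℤ) ∣ (x * a.im + y * a.re - y * a.im) →
      ∃ u : Eis, IsUnit u ∧ (4 : Eis) ∣ u * a - 1 := by
    intro x y hxy h1 h2
    refine ⟨⟨x, y⟩, ?_, ?_⟩
    · rw [eis_isUnit_iff, norm_eq]; exact hxy
    · apply tf2_four_dvd
      · rw [QuadraticAlgebra.re_mul]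
        convert h1 using 2
        ring
      · rw [QuadraticAlgebra.im_mul]
        convert h2 using 1
        ring
  rw [norm_eq] at h
  obtain ⟨x, r, hx, hr⟩ : ∃ x r : ℤ, a.re = 4 * x + r ∧ (r = 0 ∨ r = 1 ∨ r = 2 ∨ r = 3) :=
    ⟨a.re / 4, a.re % 4, by omega, by omega⟩
  obtain ⟨y, s, hy, hs⟩ : ∃ y s : ℤ, a.im = 4 * y + s ∧ (s = 0 ∨ s = 1 ∨ s = 2 ∨ s = 3) :=
    ⟨a.im / 4, a.im % 4, by omega, by omega⟩
  have h' : (r ^ 2 - r * s + s ^ 2) % 4 = 1 := by
    rw [hx, hy] at h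
    have : (4 * x + r) ^ 2 - (4 * x + r) * (4 * y + s) + (4 * y + s) ^ 2
        = (r ^ 2 - r * s + s ^ 2)
          + 4 * (4 * x ^ 2 + 2 * x * r - 4 * x * y - x * s - y * r + 4 * y ^ 2 + 2 * y * s) := by
      ring
    rw [this] at h
    omega
  rcases hr with rfl | rfl | rfl | rfl <;> rcases hs with rfl | rfl | rfl | rfl <;>
    norm_num at h'
  · exact key (-1) (-1) (by norm_num) (by omega) (by omega)
  · exact key 1 1 (by norm_num) (by omega) (by omega)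
  · exact key 1 0 (by norm_num) (by omega) (by omega)
  · exact key 0 (-1) (by norm_num) (by omega) (by omega)
  · exact key (-1) 0 (by norm_num) (by omega) (by omega)
  · exact key 0 1 (by norm_num) (by omega) (by omega)

/-- There are infinitely many prime `d ≡ 1 mod 4` of this kind. -/
theorem infinite_d : {d : Eis | (4 : Eis) ∣ d - 1 ∧ Prime d ∧
    ∀ p : ℕ, p.Prime → (p : ℤ) ∣ d.norm → GoodPrime p}.Infinite := by
  have h := tf2_infinite_good
  refine Set.Infinite.of_image (fun d : Eis => d.norm.natAbs) (h.mono ?_)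
  rintro p ⟨hp, hp4⟩
  obtain ⟨π, hπ, hπn⟩ := exists_primary_prime p hp.1 hp.2.1
  obtain ⟨u, hu, h4⟩ := tf2_unit π (by rw [hπn]; omega)
  have hun : (u * π).norm = p := by
    rw [map_mul, (eis_isUnit_iff u).1 hu, one_mul, hπn]
  refine ⟨u * π, ⟨h4, a3_prime_of_norm p hp.1 _ hun, ?_⟩, ?_⟩
  · intro q hq hqd
    rw [hun] at hqd
    have : q = p := (Nat.prime_dvd_prime_iff_eq hq hp.1).1 (by exact_mod_cast hqd)
    rw [this]; exact hp
  · simp [hun]

end CMT
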